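import Mathlib
import Pool.Agent.Lib.PolyTime.PL

/-!
# Win-lose games, Pareto optimal Nash equilibria and the existential theory of the reals

Definitions used in the statement that PONE-WL is `∃ℝ`-hard.
-/

namespace Pool.Agent.ERG

open Finset Pool.Agent.PolyTime

/-! ### Games with three players -/

section Games

variable {A B C : Type} [Fintype A] [Fintype B] [Fintype C]

/-- Expected payoff, under the mixed strategies `x`, `y`, `z`, of a player whose payoff at the pure
profile `(i, j, k)` is `1` if `u i j k = true` and `0` otherwise. -/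
def EU (u : A → B → C → Bool) (x : A → ℝ) (y : B → ℝ) (z : C → ℝ) : ℝ :=
  ∑ i, ∑ j, ∑ k, x i * y j * z k * (if u i j k = true then 1 else 0)

/-- `(x, y, z)` is a profile of mixed strategies and a Nash equilibrium of the win-lose game with
payoff tables `u 0`, `u 1`, `u 2`: no player can raise the own expected payoff by changing only the
own mixed strategy. -/
def IsNash (u : Fin 3 → A → B → C → Bool) (x : A → ℝ) (y : B → ℝ) (z : C → ℝ) : Prop :=
  (x ∈ stdSimplex ℝ A ∧ y ∈ stdSimplex ℝ B ∧ z ∈ stdSimplex ℝ C) ∧
  (∀ x' ∈ stdSimplex ℝ A, EU (u 0) x' y z ≤ EU (u 0) x y z) ∧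
  (∀ y' ∈ stdSimplex ℝ B, EU (u 1) x y' z ≤ EU (u 1) x y z) ∧
  (∀ z' ∈ stdSimplex ℝ C, EU (u 2) x y z' ≤ EU (u 2) x y z)

/-- `(x, y, z)` is Pareto optimal: no profile of mixed strategies (equilibrium or not) is at least
as good for all players and strictly better for one of them. -/
def IsParetoOpt (u : Fin 3 → A → B → C → Bool) (x : A → ℝ) (y : B → ℝ) (z : C → ℝ) : Prop :=
  ¬ ∃ x' ∈ stdSimplex ℝ A, ∃ y' ∈ stdSimplex ℝ B, ∃ z' ∈ stdSimplex ℝ C,
    (∀ p, EU (u p) x y z ≤ EU (u p) x' y' z') ∧ ∃ p, EU (u p) x y z < EU (u p) x' y' z'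

/-- The game with payoff tables `u` has a Pareto optimal Nash equilibrium. -/
def HasPONE (u : Fin 3 → A → B → C → Bool) : Prop :=
  ∃ (x : A → ℝ) (y : B → ℝ) (z : C → ℝ), IsNash u x y z ∧ IsParetoOpt u x y z

end Games

/-- A win-lose game with three players in strategic form: player `i` has `nᵢ > 0` pure strategies,
and `u p i j k = true` means that player `p` has payoff `1` at the pure profile `(i, j, k)`; all
other payoffs are `0`. -/
structure WLGame where
  n1 : ℕ
  n2 : ℕ
  n3 : ℕ
  pos1 : 0 < n1
  pos2 : 0 < n2
  pos3 : 0 < n3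
  u : Fin 3 → Fin n1 → Fin n2 → Fin n3 → Bool

/-- The payoff table of one player, written row by row. -/
def table {n1 n2 n3 : ℕ} (u : Fin n1 → Fin n2 → Fin n3 → Bool) : List Bool :=
  (List.finRange n1).flatMap fun i => (List.finRange n2).flatMap fun j =>
    (List.finRange n3).map fun k => u i j k

/-- Encoding of a game: the numbers of strategies in unary (`1ⁿ0`), then the three payoff
tables. -/
def WLGame.enc (G : WLGame) : List Bool :=
  unary [G.n1, G.n2, G.n3] ++ (table (G.u 0) ++ (table (G.u 1) ++ table (G.u 2)))

/-- PONE-WL: does a given win-lose game with three players have a Pareto optimal Nash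
equilibrium? -/
def PONEWL : Set (List Bool) := {w | ∃ G : WLGame, w = G.enc ∧ HasPONE G.u}

/-! ### The existential theory of the reals -/

/-- Terms: polynomials with integer coefficients. `num bs` is the natural number with binary digits
`bs` (least significant digit first). -/
inductive Tm : Type
  | num (bs : List Bool)
  | var (i : ℕ)
  | neg (t : Tm)
  | add (s t : Tm)
  | mul (s t : Tm)

/-- The natural number with binary digits `bs` (least significant digit first). -/
def numVal : List Bool → ℕ
  | [] => 0
  | b :: bs => (if b then 1 else 0) + 2 * numVal bs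

/-- Value of a term. -/
def Tm.val (x : ℕ → ℝ) : Tm → ℝ
  | .num bs => (numVal bs : ℝ)
  | .var i => x i
  | .neg t => - t.val x
  | .add s t => s.val x + t.val x
  | .mul s t => s.val x * t.val x

/-- Quantifier-free formulas. -/
inductive Fm : Type
  | eq (s t : Tm)
  | lt (s t : Tm)
  | le (s t : Tm)
  | not (f : Fm)
  | and (f g : Fm)
  | or (f g : Fm)

/-- Truth of a quantifier-free formula over the reals. -/
def Fm.Holds (x : ℕ → ℝ) : Fm → Prop
  | .eq s t => s.val x = t.val x
  | .lt s t => s.val x < t.val x
  | .le s t => s.val x ≤ t.val x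
  | .not f => ¬ f.Holds x
  | .and f g => f.Holds x ∧ g.Holds x
  | .or f g => f.Holds x ∨ g.Holds x

/-- Tokens of a term in Polish order (operators first); the digits of a numeral are followed by the end
marker `0`. -/
def Tm.toks : Tm → List ℕ
  | .num bs => bs.map (fun b => if b then 2 else 1) ++ [0]
  | .var i => [12 + i]
  | .neg t => 3 :: t.toks
  | .add s t => 4 :: (s.toks ++ t.toks)
  | .mul s t => 5 :: (s.toks ++ t.toks)

/-- Tokens of a formula in Polish order (operators first). -/
def Fm.toks : Fm → List ℕ
  | .eq s t => 6 :: (s.toks ++ t.toks)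
  | .lt s t => 7 :: (s.toks ++ t.toks)
  | .le s t => 8 :: (s.toks ++ t.toks)
  | .not f => 9 :: f.toks
  | .and f g => 10 :: (f.toks ++ g.toks)
  | .or f g => 11 :: (f.toks ++ g.toks)

/-- ETR, the existential theory of the reals: the sentences `∃ x₀ x₁ …, φ` (with `φ` a
quantifier-free formula) that are true over the reals. The sentence is encoded by the tokens of `φ`
in Polish order (operators first), each token `k` being written in unary as `1ᵏ0`. -/
def ETR : Set (List Bool) := {w | ∃ φ : Fm, w = unary φ.toks ∧ ∃ x : ℕ → ℝ, φ.Holds x}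

/-! ### Polynomial-time reductions, hardness -/

/-- Polynomial-time many-one reductions. -/
def PolyReduces (A B : Set (List Bool)) : Prop :=
  ∃ f : List Bool → List Bool,
    Nonempty (Turing.TM2ComputableInPolyTime (id : List Bool → List Bool)
      (id : List Bool → List Bool) f) ∧ ∀ w, w ∈ A ↔ f w ∈ B

/-- The class `∃ℝ`: the languages that reduce in polynomial time to ETR. -/
def ExistsReal : Set (Set (List Bool)) := {L | PolyReduces L ETR}

/-- `∃ℝ`-hardness. -/
def ExistsRealHard (L : Set (List Bool)) : Prop := ∀ A ∈ ExistsReal, PolyReduces A L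

end Pool.Agent.ERG
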