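import Mathlib
import Pool.Agent.ERG.Defs
import Pool.Agent.BCP.Parse

/-!
# The objects of the reduction

`gpay`: the game; `Feas`: the feasibility problem it encodes; `Sys`: homogeneous systems of linear
and quadratic equations; `cP`, `cblk`: the matrices that encode a system; `qF`: the system of a list
of tokens; `WF`: well-formedness of a list of tokens. See the document proof/MP_d68d66_lc.
-/

namespace Pool.Agent.ERG

open Finset Pool.Agent.PolyTime Pool.Agent.BCP

/-! ### The abstract game (Section 1) -/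

section Game

variable {I J C : Type} [Fintype I] [Fintype J] [Fintype C]

open Classical in
/-- Payoff vectors `(u₁, u₂, u₃)`. Player 1: `inl i` normal rows, `inr 0 = r`, `inr 1 = a`,
`inr 2 = e₁`, `inr 3 = e₂`. Player 2: `inl j` normal columns, `inr 0 = α`. Player 3: `inl b` base
strategies, `inr c` constraints. -/
noncomputable def out (blk : J → Fin 3) (P : C → I → J → Prop) (st : C → Prop) :
    I ⊕ Fin 4 → J ⊕ Fin 1 → Fin 3 ⊕ C → Fin 3 → Bool
  | .inl _, .inl j, .inl b => if blk j = b then ![true, false, false] else ![false, true, true]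
  | .inl i, .inl j, .inr c => if P c i j then ![false, true, true] else ![true, false, false]
  | .inl _, .inr _, _ => ![false, false, false]
  | .inr k, .inl j, .inl b =>
      if k = 0 then (if blk j = b then ![true, true, false] else ![false, true, false])
      else if k = 1 then ![false, true, false]
      else if k = 2 then (if blk j = b + 1 then ![true, false, false] else ![false, false, false])
      else (if blk j = b + 2 then ![true, false, false] else ![false, false, false])
  | .inr k, .inl _, .inr c =>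
      if k = 0 then (if st c then ![false, false, true] else ![false, true, false])
      else if k = 1 then ![false, true, false] else ![true, false, false]
  | .inr k, .inr _, .inl b =>
      if k = 1 then (if b = 0 then ![true, false, true] else ![false, true, true])
      else if k = 2 then ![true, false, false] else ![false, false, false]
  | .inr k, .inr _, .inr _ =>
      if k = 1 then ![false, true, true]
      else if k = 2 then ![true, false, false] else ![false, false, false]

/-- The payoff tables of the game. -/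
noncomputable def gpay (blk : J → Fin 3) (P : C → I → J → Prop) (st : C → Prop) (p : Fin 3)
    (i : I ⊕ Fin 4) (j : J ⊕ Fin 1) (k : Fin 3 ⊕ C) : Bool := out blk P st i j k p

open Classical in
/-- The mass of a matrix. -/
noncomputable def mass (P : I → J → Prop) (x : I → ℝ) (y : J → ℝ) : ℝ :=
  ∑ i, ∑ j, x i * y j * (if P i j then 1 else 0)

open Classical in
/-- The mass of a block of columns. -/
noncomputable def bmass (blk : J → Fin 3) (y : J → ℝ) (b : Fin 3) : ℝ :=
  ∑ j, if blk j = b then y j else 0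

/-- The feasibility problem encoded by the game. -/
def Feas (blk : J → Fin 3) (P : C → I → J → Prop) (st : C → Prop) : Prop :=
  ∃ x ∈ stdSimplex ℝ I, ∃ y ∈ stdSimplex ℝ J, (∀ b, bmass blk y b = 1 / 3) ∧
    (∀ c, mass (P c) x y ≤ 2 / 3) ∧ (∀ c, st c → mass (P c) x y < 2 / 3)

end Game

/-! ### Systems of equations and the matrices that encode them (Section 2) -/

/-- Equation number `e` is `aᵢ + aⱼ = aₖ + aₗ` if `q e 0 = 0`, `aᵢ aⱼ = aₖ aₗ` if `q e 0 = 1` and
`aᵢ = 0` otherwise, where `i, j, k, l` are `q e 1`, …, `q e 4`. -/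
def Sys (E : ℕ) (q : ℕ → ℕ → ℕ) (a : ℕ → ℝ) : Prop :=
  ∀ e < E, (q e 0 = 0 → a (q e 1) + a (q e 2) = a (q e 3) + a (q e 4)) ∧
    (q e 0 = 1 → a (q e 1) * a (q e 2) = a (q e 3) * a (q e 4)) ∧
    (2 ≤ q e 0 → a (q e 1) = 0)

/-- Matrix of an equation. Rows and columns: `0` is `d`, `1` and `2` are the reserve block,
`3 + 2 v` and `4 + 2 v` are `X_v` and `X'_v`. -/
def eqCell (s : ℕ → ℕ) (r c : ℕ) : Prop :=
  if s 0 = 0 then
    (r = 3 + 2 * s 1 ∧ (c = 1 ∨ c = 2)) ∨ (r = 3 + 2 * s 2 ∧ (c = 3 ∨ c = 4)) ∨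
    (r = 4 + 2 * s 3 ∧ (c = 1 ∨ c = 2)) ∨ (r = 4 + 2 * s 4 ∧ (c = 3 ∨ c = 4)) ∨
    (r < 3 ∧ ¬ ((r = 1 ∨ r = 2) ∧ (1 ≤ c ∧ c ≤ 4)))
  else if s 0 = 1 then
    (r = 3 + 2 * s 1 ∧ c = 3 + 2 * s 2) ∨ (r = 4 + 2 * s 1 ∧ c = 4 + 2 * s 2) ∨
    (r = 4 + 2 * s 3 ∧ c = 3 + 2 * s 4) ∨ (r = 3 + 2 * s 3 ∧ c = 4 + 2 * s 4) ∨
    (r < 3 ∧ ¬ ((r = 1 ∨ r = 2) ∧ (c = 1 ∨ c = 2)))
  else
    (r = 3 + 2 * s 1 ∧ (1 ≤ c ∧ c ≤ 4)) ∨ (r < 3 ∧ ¬ ((r = 1 ∨ r = 2) ∧ (c = 1 ∨ c = 2)))

/-- Matrix of the equality constraint number `g`: row blocks, column blocks, consistency,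
equations. -/
def cellP (k : ℕ) (q : ℕ → ℕ → ℕ) (g r c : ℕ) : Prop :=
  if g < k + 1 then r = 0 ∨ r = 1 + 2 * g ∨ r = 2 + 2 * g
  else if g < 2 * k + 1 then c = 0 ∨ c = 1 + 2 * (g - k) ∨ c = 2 + 2 * (g - k)
  else if g < 3 * k + 1 then
    (r = 1 + 2 * (g - 2 * k) ∧ c < 3) ∨ (r < 3 ∧ c ≠ 1 + 2 * (g - 2 * k))
  else eqCell (q (g - (3 * k + 1))) r c

/-- Matrix of the constraint strategy number `c` of player 3 (`r < 2 k + 3`, `j < 2 k + 4`;
the column `2 k + 3` is `j₀`). -/
def cP (k : ℕ) (q : ℕ → ℕ → ℕ) (c r j : ℕ) : Prop :=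
  j = 2 * k + 3 ∨
    (if c = 0 then r = 4 ∨ (r ≠ 3 ∧ j < 3)
     else if c % 2 = 1 then cellP k q ((c - 1) / 2) r j else ¬ cellP k q ((c - 1) / 2) r j)

/-- Blocks of columns. -/
def blkN (k j : ℕ) : ℕ := if j = 2 * k + 3 then 0 else if j < 3 then 1 else 2

/-- Blocks of columns. -/
def cblk (k j : ℕ) : Fin 3 := if j = 2 * k + 3 then 0 else if j < 3 then 1 else 2

/-- Number of constraint strategies. -/
def nC (k E : ℕ) : ℕ := 2 * (3 * k + 1 + E) + 1

/-- The feasibility problem of the coded matrices. -/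
def CFeas (k E : ℕ) (q : ℕ → ℕ → ℕ) : Prop :=
  Feas (I := Fin (2 * k + 3)) (J := Fin (2 * k + 4)) (C := Fin (nC k E))
    (fun j => cblk k j) (fun c i j => cP k q c i j) (fun c => (c : ℕ) = 0)

/-- The payoff of player `p` at the pure profile `(r, c, s)` of the coded game: rows
`r < 2 k + 3` are normal, then come `r, a, e₁, e₂`; columns `c < 2 k + 4` are normal, then comes `α`;
`s < 3` are the base strategies of player 3, the strategies `s ≥ 3` are the constraints. -/
def cpay (k : ℕ) (q : ℕ → ℕ → ℕ) (p r c s : ℕ) : Prop :=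
  if r < 2 * k + 3 then
    (if c < 2 * k + 4 then
      (if s < 3 then (if blkN k c = s then p = 0 else p ≠ 0)
       else ((cP k q (s - 3) r c ∧ p ≠ 0) ∨ (¬ cP k q (s - 3) r c ∧ p = 0)))
     else False)
  else if r = 2 * k + 3 then
    (if c < 2 * k + 4 then
      (if s < 3 then (if blkN k c = s then p ≠ 2 else p = 1)
       else (if s = 3 then p = 2 else p = 1))
     else False)
  else if r = 2 * k + 4 then
    (if c < 2 * k + 4 then p = 1 else (if s = 0 then p ≠ 1 else p ≠ 0))
  else if r = 2 * k + 5 then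
    (if c < 2 * k + 4 then (if s < 3 then blkN k c = (s + 1) % 3 ∧ p = 0 else p = 0) else p = 0)
  else
    (if c < 2 * k + 4 then (if s < 3 then blkN k c = (s + 2) % 3 ∧ p = 0 else p = 0) else False)

open Classical in
/-- The coded game. -/
noncomputable def cgame (k E : ℕ) (q : ℕ → ℕ → ℕ) : WLGame where
  n1 := 2 * k + 3 + 4
  n2 := 2 * k + 4 + 1
  n3 := 3 + nC k E
  pos1 := by omega
  pos2 := by omega
  pos3 := by omega
  u p i j l := decide (cpay k q p i j l)

/-! ### The system of a list of tokens (Section 3) -/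

/-- Arity of a token. -/
def ar (t : ℕ) : ℕ := if t = 0 ∨ 12 ≤ t then 0 else if t = 1 ∨ t = 2 ∨ t = 3 ∨ t = 9 then 1 else 2

/-- The first `d + 1` tokens from position `p` on do not contain a complete expression. -/
def Inc (T : ℕ → ℕ) (p d : ℕ) : Prop := ∀ d' < d + 1, d' + 1 < ∑ j ∈ range (d' + 1), ar (T (p + j)) + 1

open Classical in
/-- Position after the expression that starts at position `p` (`m` is the number of tokens). -/
noncomputable def ep (T : ℕ → ℕ) (m p : ℕ) : ℕ := p + 1 + ((range m).filter (fun d => Inc T p d)).card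

/-- Position of the second child of the node at `p`. -/
noncomputable def c2 (T : ℕ → ℕ) (m p : ℕ) : ℕ := ep T m (p + 1)

/-- Tokens at which a term can start. -/
def isT (t : ℕ) : Prop := t ≤ 5 ∨ 12 ≤ t

/-- Tokens at which a formula starts. -/
def isF (t : ℕ) : Prop := 6 ≤ t ∧ t ≤ 11

/-- Local condition at position `p`. -/
def LocOK (T : ℕ → ℕ) (m p : ℕ) : Prop :=
  (T p = 1 ∨ T p = 2 → T (p + 1) ≤ 2) ∧
  (T p = 3 → isT (T (p + 1))) ∧
  (4 ≤ T p ∧ T p ≤ 8 → isT (T (p + 1)) ∧ isT (T (c2 T m p))) ∧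
  (T p = 9 → isF (T (p + 1))) ∧
  (10 ≤ T p ∧ T p ≤ 11 → isF (T (p + 1)) ∧ isF (T (c2 T m p)))

/-- Well-formedness of the list of tokens `T 0, …, T (m - 1)`. -/
def WF (T : ℕ → ℕ) (m : ℕ) : Prop :=
  ∑ j ∈ range m, ar (T j) + 1 = m ∧ (∀ d < m, d ≠ 0 → d < ∑ j ∈ range d, ar (T j) + 1) ∧
    isF (T 0) ∧ ∀ p < m, LocOK T m p

/-- Table of the equations of a node, by class of token (13 classes), number of the equation
(9 equations) and entry (5 entries: type and four variables; `0, …, 7` are the variables of the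
node, `8` and `9` the values of the children, `10` the unit, `11` zero, `12` the variable named by
the token). -/
def eqTab : List (List (List ℕ)) :=
  [ [[0, 0, 11, 11, 11]],                                        -- end of a numeral
    [[0, 0, 11, 8, 8]],                                          -- digit 0
    [[0, 1, 11, 8, 8], [0, 0, 11, 1, 10]],                       -- digit 1
    [[0, 0, 8, 11, 11]],                                         -- neg
    [[0, 0, 11, 8, 9]],                                          -- add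
    [[1, 0, 10, 8, 9]],                                          -- mul
    [[0, 1, 9, 8, 11], [1, 0, 1, 11, 11], [0, 2, 0, 10, 11], [1, 2, 10, 1, 3]],   -- eq
    [[0, 1, 8, 9, 11], [1, 0, 0, 0, 10], [0, 2, 0, 10, 11], [1, 4, 10, 3, 3], [1, 5, 10, 1, 4],
      [0, 6, 10, 5, 11], [1, 0, 6, 11, 11], [0, 7, 11, 1, 4], [1, 2, 7, 11, 11]],  -- lt
    [[0, 1, 9, 8, 11], [1, 2, 2, 2, 10], [0, 0, 2, 10, 11], [1, 4, 10, 3, 3], [1, 5, 10, 1, 4],
      [0, 6, 10, 5, 11], [1, 2, 6, 11, 11], [0, 7, 11, 1, 4], [1, 0, 7, 11, 11]],  -- le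
    [[0, 0, 8, 10, 11]],                                         -- not
    [[1, 0, 10, 8, 9]],                                          -- and
    [[1, 1, 10, 8, 9], [0, 0, 1, 8, 9]],                         -- or
    [[0, 0, 11, 12, 11]] ]                                       -- variable

/-- Entry of the table; missing equations are `0 + 0 = 0 + 0`. -/
def eqEnt (cl n s : ℕ) : ℕ := ((eqTab.getD cl []).getD n [0, 11, 11, 11, 11]).getD s 0

/-- Index of the variable with code `v` at the node `p`. -/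
noncomputable def decV (N m : ℕ) (T : ℕ → ℕ) (p v : ℕ) : ℕ :=
  if v < 8 then 2 + N + 8 * p + v
  else if v = 8 then 2 + N + 8 * (p + 1)
  else if v = 9 then 2 + N + 8 * c2 T m p
  else if v = 10 then 0 else if v = 11 then 1 else 2 + (T p - 12)

/-- The equations of the system of a list of tokens: equation 0 is `a₁ = 0`, equation 1 says that
the value of the root is `1`, and there are nine equations for every node. -/
noncomputable def qF (N m : ℕ) (T : ℕ → ℕ) (e s : ℕ) : ℕ :=
  if e = 0 then (if s = 0 then 2 else 1)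
  else if e = 1 then (if s = 1 then 2 + N else if s = 2 then 1 else if s = 4 then 1 else 0)
  else if s = 0 then eqEnt (min (T ((e - 2) / 9)) 12) ((e - 2) % 9) 0
  else decV N m T ((e - 2) / 9) (eqEnt (min (T ((e - 2) / 9)) 12) ((e - 2) % 9) s)

/-- Number of variables. -/
def kF (N m : ℕ) : ℕ := 2 + N + 8 * m

/-- Number of equations. -/
def eF (m : ℕ) : ℕ := 2 + 9 * m

end Pool.Agent.ERG
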