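import Pool.Agent.NPR.Defs2

/-!
# The clock constant, all boxes at once, summable exceptional masses (helper10): the literal `DenJ`
-/

set_option autoImplicit false

namespace HexObs

namespace NPR

open Finset TS SDN TIW NTA TIP

open scoped ENNReal

/-- D4 with a summable exceptional mass and the size of the constants -/
def DenJ : Prop := ∃ (c C B : ℝ) (j0 : ℕ), 0 < c ∧ 0 < C ∧ 0 < B ∧ ∀ (r l : ℕ) (V : List Bool → ℝ), 2 ≤ r → AF r V →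
  r ≤ 2 ^ l → 2 ^ l ≤ 2 * r → ∃ ka : ℝ, 0 < ka ∧ PW.mZ (2 ^ l) ≤ B * ka ∧ ka ≤ B * PW.mZ (2 ^ l) ∧ ∀ K, l + j0 ≤ K →
    gf {t | t ∈ WL K ∧ t.length ≤ ML (K + 2) ∧ ¬ ∀ x y : ℕ, x ≤ y → y ≤ t.length →
      |ka * V (wd t x y) - ((y : ℝ) - x)| ≤ C * ((K : ℝ) - l + 1) ^ (-c) * PW.mZ (2 ^ K)} ≤
      ENNReal.ofReal (C * (3 / 4) ^ (K - l)) * FK K

end NPR

end HexObs
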