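import Pool.Agent.ERG.DensA

/-!
# ERG (no drift), row Q6 (helper10): the density exists

* `LowM` : lower bound of the mass of a scale, `FK4` : the ratio of two scales is at most 4 ^ i (hypotheses here, proved in
  ERG/DensZ);
* **`denG_of`** : `StageQ → LowM → FK4 → DenG`.
-/

set_option autoImplicit false

namespace HexObs

namespace NPR

open Finset TS SDN TIW NTA TIP

open scoped ENNReal

/-- lower bound of the mass of a scale -/
def LowM : Prop := ∃ (c : ℝ) (C k0 : ℕ), 0 < c ∧ ∀ k, k0 ≤ k → ENNReal.ofReal c * FK k ≤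
  gf {t | t ∈ WL (k + C) ∧ PW.mZ (2 ^ k) ≤ (t.length : ℝ) ∧ (t.length : ℝ) < PW.mZ (2 ^ (k + 1))}

/-- the ratio of two scales -/
def FK4 : Prop := ∃ D : ℝ, 1 ≤ D ∧ ∀ L i : ℕ, FK (L + i) ≤ ENNReal.ofReal (D * 4 ^ i) * FK L

/-- **Q5 + Q6: the density exists.** For every additive functional V with `m V u ≤ bm (|u| + m)`, `m ≤ mZ (2 ^ l0)`, there is
one number ρ such that in all the boxes K ≥ l0 + j0 all the windows have `m V = ρ len` up to the error `C (K - l0 + 1) ^ (-c)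
mZ (2 ^ K)`, off a mass `(1 / 2) ^ (K - l0) FK K`. The constants c, C, j0 depend only on bm. -/
def DenG : Prop := ∀ bm : ℝ, 0 < bm → ∃ (c C : ℝ) (j0 : ℕ), 0 < c ∧ 0 < C ∧
  ∀ (l0 : ℕ) (m : ℝ) (V : List Bool → ℝ), Add1 V → 0 < m → m ≤ PW.mZ (2 ^ l0) →
    (∀ u : List Bool, m * V u ≤ bm * (u.length + m)) → ∃ ρ : ℝ, 0 ≤ ρ ∧ ρ ≤ 2 * bm ∧ ∀ K, l0 + j0 ≤ K →
      gf {t | t ∈ WL K ∧ t.length ≤ ML (K + 2) ∧ ¬ ∀ x y : ℕ, x ≤ y → y ≤ t.length →
        |m * V (wd t x y) - ρ * ((y : ℝ) - x)| ≤ C * ((K : ℝ) - l0 + 1) ^ (-c) * PW.mZ (2 ^ K)} ≤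
        ENNReal.ofReal ((1 / 2) ^ (K - l0)) * FK K

namespace Q6

lemma Xb_ne_zero' (K : ℕ) : Xb K ≠ 0 := by
  intro h
  have h1 : (⨆ i : Fin (K + 1), BAR.HH (2 ^ i.1) / ENNReal.ofReal (UU (2 ^ i.1))) = 0 := h
  rw [ENNReal.iSup_eq_zero] at h1
  have h2 := h1 ⟨0, by omega⟩
  rw [ENNReal.div_eq_zero_iff] at h2
  rcases h2 with h2 | h2
  · have h3 := BAR.UU_le_HH (2 ^ 0)
    rw [h2] at h3
    have h4 : (0 : ℝ) < UU (2 ^ 0) := Num2Aux.UU_pos _
    exact absurd (le_antisymm h3 bot_le) (by simpa using h4)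
  · exact ENNReal.ofReal_ne_top h2

/-- the whole word is a window -/
lemma wd_all (t : List Bool) : wd t 0 t.length = t := by
  unfold wd
  rw [List.take_length, List.drop_zero]

/-- two ranges with a common word -/
lemma meet {V : List Bool → ℝ} {m a b a' b' l l' : ℝ} {t : List Bool} (ht : 0 < t.length) (h1 : Rng V m a b l t)
    (h2 : Rng V m a' b' l' t) (hl : l ≤ t.length) (hl' : l' ≤ t.length) : a ≤ b' ∧ a' ≤ b := by
  have e : ((t.length : ℕ) : ℝ) - ((0 : ℕ) : ℝ) = t.length := by simp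
  have k1 := h1 0 t.length (Nat.zero_le _) le_rfl (by rw [e]; exact hl)
  have k2 := h2 0 t.length (Nat.zero_le _) le_rfl (by rw [e]; exact hl')
  rw [wd_all, e] at k1 k2
  have hp : (0 : ℝ) < t.length := by exact_mod_cast ht
  exact ⟨le_of_mul_le_mul_right (k1.1.trans k2.2) hp, le_of_mul_le_mul_right (k2.1.trans k1.2) hp⟩

/-- **comparison of two classes** -/
lemma compare (hL : LowM) (hF : FK4) : ∃ p1 : ℕ, 3 ≤ p1 ∧ ∀ p, p1 ≤ p → ∀ (l0 : ℕ) (m : ℝ) (V : List Bool → ℝ)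
    (a b a' b' : ℝ),
    (∀ K n, K - l0 + 1 ≤ 2 ^ p → l0 + 2 ^ (p - 3) ≤ K → n ≤ ML (K + 2) →
      HR V m a b (l0 + 2 ^ (p - 3)) (2 ^ p * (1 / 16) ^ (K - (l0 + 2 ^ (p - 3)))) K n) →
    (∀ K n, K - l0 + 1 ≤ 2 ^ (p + 1) → l0 + 2 ^ (p + 1 - 3) ≤ K → n ≤ ML (K + 2) →
      HR V m a' b' (l0 + 2 ^ (p + 1 - 3)) (2 ^ (p + 1) * (1 / 16) ^ (K - (l0 + 2 ^ (p + 1 - 3)))) K n) →
    a ≤ b' ∧ a' ≤ b := by
  obtain ⟨c, C, k0, hc, hL⟩ := hL
  obtain ⟨D, hD, hF⟩ := hF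
  obtain ⟨g, hg⟩ := pow_unbounded_of_one_lt (96 * D / c) (show (1 : ℝ) < 4 by norm_num)
  refine ⟨k0 + C + g + 4, by omega, fun p hp l0 m V a b a' b' h1 h2 => ?_⟩
  obtain ⟨q, hq⟩ : ∃ q, q = 2 ^ (p - 3) := ⟨_, rfl⟩
  have hqp : p - 3 < q := by
    rw [hq]
    exact Nat.lt_two_pow_self
  have e1 : 2 ^ (p + 1 - 3) = 2 * q := by
    rw [hq, show p + 1 - 3 = (p - 3) + 1 by omega, pow_succ]
    ring
  have e2 : 2 ^ p = 8 * q := by
    rw [hq]
    conv_lhs => rw [show p = (p - 3) + 3 by omega, pow_add]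
    ring
  have e3 : 2 ^ (p + 1) = 16 * q := by
    rw [pow_succ, e2]
    ring
  have e2' : (2 : ℝ) ^ p = 8 * q := by exact_mod_cast e2
  have e3' : (2 : ℝ) ^ (p + 1) = 16 * q := by exact_mod_cast e3
  rw [e1] at h2
  rw [e3] at h2
  rw [← hq] at h1
  rw [e2] at h1
  rw [e3'] at h2
  rw [e2'] at h1
  obtain ⟨K, hK⟩ : ∃ K, K = l0 + (8 * q - 1) := ⟨_, rfl⟩
  obtain ⟨L, hLL⟩ : ∃ L, L = l0 + 2 * q := ⟨_, rfl⟩
  have H1 := h1 K (ML (K + 2)) (by omega) (by omega) le_rfl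
  have H2 := h2 K (ML (K + 2)) (by omega) (by omega) le_rfl
  by_contra hcon
  have hsub : {t | t ∈ WL (L + C) ∧ PW.mZ (2 ^ L) ≤ (t.length : ℝ) ∧ (t.length : ℝ) < PW.mZ (2 ^ (L + 1))} ⊆
      {t | t ∈ WL K ∧ t.length ≤ ML (K + 2) ∧ ¬ Rng V m a b (ML (l0 + q)) t} ∪
      {t | t ∈ WL K ∧ t.length ≤ ML (K + 2) ∧ ¬ Rng V m a' b' (ML (l0 + 2 * q)) t} := by
    rintro t ⟨t1, t2, t3⟩
    have t4 : t ∈ WL K := by
      refine ⟨t1.1, fun i hi dir => (t1.2 i hi dir).trans ?_⟩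
      exact pow_le_pow_right₀ (by norm_num) (by omega)
    have t5 : t.length ≤ ML (K + 2) := by
      have k1 : (t.length : ℝ) ≤ ML (K + 2) := t3.le.trans ((mz_mono (by omega)).trans (ML_ge (K + 2)))
      exact_mod_cast k1
    have t6 : ML L ≤ t.length := Nat.ceil_le.2 t2
    have t7 := ML_pos L
    by_cases r1 : Rng V m a b (ML (l0 + q)) t
    · by_cases r2 : Rng V m a' b' (ML (l0 + 2 * q)) t
      · exfalso
        refine hcon (meet (by omega) r1 r2 ?_ ?_)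
        · exact_mod_cast (ML_mono (show l0 + q ≤ L by omega)).trans t6
        · exact_mod_cast (ML_mono (show l0 + 2 * q ≤ L by omega)).trans t6
      · exact Or.inr ⟨t4, t5, r2⟩
    · exact Or.inl ⟨t4, t5, r1⟩
  have hmass : ENNReal.ofReal c * FK L ≤ ENNReal.ofReal (24 * q * (1 / 16) ^ (6 * q - 1) * (D * 4 ^ (6 * q - 1))) * FK L := by
    refine (hL L (by omega)).trans ((gf_mono hsub).trans ((gf_union_le _ _).trans ?_))
    refine (add_le_add H1 H2).trans ?_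
    rw [← add_mul, ← ENNReal.ofReal_add (by positivity) (by positivity)]
    have hFK := hF L (6 * q - 1)
    rw [show L + (6 * q - 1) = K by omega] at hFK
    refine (mul_le_mul' le_rfl hFK).trans ?_
    rw [← mul_assoc, ← ENNReal.ofReal_mul (by positivity)]
    refine mul_le_mul' (ENNReal.ofReal_le_ofReal (mul_le_mul_of_nonneg_right ?_ (by positivity))) le_rfl
    rw [show K - (l0 + 2 * q) = 6 * q - 1 by omega]
    have k1 : ((1 : ℝ) / 16) ^ (K - (l0 + q)) ≤ (1 / 16) ^ (6 * q - 1) :=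
      pow_le_pow_of_le_one (by norm_num) (by norm_num) (by omega)
    have k2 := mul_le_mul_of_nonneg_left k1 (show (0 : ℝ) ≤ 8 * q by positivity)
    linarith
  have hU : (0 : ℝ) < Ub L := Ub_pos L
  have hFK0 : FK L ≠ 0 := by
    unfold FK
    refine mul_ne_zero (by simpa using hU) (pow_ne_zero _ (Xb_ne_zero' L))
  by_cases hFt : FK L = ⊤
  · -- the mass of a box is finite
    have h3 := hF 0 L
    rw [zero_add, hFt, top_le_iff] at h3
    have h4 : FK 0 = ⊤ := by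
      by_contra h5
      exact ENNReal.mul_ne_top ENNReal.ofReal_ne_top h5 h3
    have h6 : Xb 0 = ⊤ := by
      by_contra h7
      unfold FK at h4
      exact ENNReal.mul_ne_top ENNReal.ofReal_ne_top (ENNReal.pow_ne_top h7) h4
    exact absurd h6 (by
      intro h7
      exact NTA.Xb_ne_top 0 h7)
  rw [ENNReal.mul_le_mul_iff_left hFK0 hFt] at hmass
  have h3 : c ≤ 24 * q * (1 / 16) ^ (6 * q - 1) * (D * 4 ^ (6 * q - 1)) :=
    (ENNReal.ofReal_le_ofReal_iff (by positivity)).1 hmass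
  have e4 : (24 : ℝ) * q * (1 / 16) ^ (6 * q - 1) * (D * 4 ^ (6 * q - 1)) = 24 * q * D * (1 / 4) ^ (6 * q - 1) := by
    have : ((1 : ℝ) / 16) ^ (6 * q - 1) * 4 ^ (6 * q - 1) = (1 / 4) ^ (6 * q - 1) := by
      rw [← mul_pow]
      norm_num
    rw [← this]
    ring
  rw [e4] at h3
  have h5 : ((1 : ℝ) / 4) ^ (6 * q - 1) * 4 ^ (6 * q) = 4 := by
    rw [show 6 * q = (6 * q - 1) + 1 by omega, pow_succ (4 : ℝ), ← mul_assoc, show (6 * q - 1) + 1 - 1 = 6 * q - 1 by omega,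
      ← mul_pow]
    norm_num
  have h6 : (q : ℝ) ≤ 4 ^ q := by
    have k1 : q ≤ 2 ^ q := Nat.lt_two_pow_self.le
    have k2 : 2 ^ q ≤ 4 ^ q := Nat.pow_le_pow_left (by norm_num) q
    exact_mod_cast k1.trans k2
  have h7 : 96 * D < c * 4 ^ (5 * q) := by
    rw [div_lt_iff₀ hc] at hg
    have : (4 : ℝ) ^ g ≤ 4 ^ (5 * q) := pow_le_pow_right₀ (by norm_num) (by omega)
    have := mul_le_mul_of_nonneg_left this hc.le
    linarith
  have h8 := mul_le_mul_of_nonneg_right h3 (show (0 : ℝ) ≤ 4 ^ (6 * q) by positivity)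
  have h9 : 24 * (q : ℝ) * D * (1 / 4) ^ (6 * q - 1) * 4 ^ (6 * q) = 96 * q * D := by
    rw [mul_assoc (24 * (q : ℝ) * D), h5]
    ring
  rw [h9] at h8
  have h10 : (4 : ℝ) ^ (6 * q) = 4 ^ (5 * q) * 4 ^ q := by
    rw [← pow_add]
    congr 1
    ring
  rw [h10] at h8
  have h11 : 96 * (q : ℝ) * D ≤ 96 * D * 4 ^ q := by
    have := mul_le_mul_of_nonneg_left h6 (show 0 ≤ 96 * D by linarith)
    linarith
  have h12 := mul_lt_mul_of_pos_right h7 (show (0 : ℝ) < 4 ^ q by positivity)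
  linarith

/-- numbers: the windows of a word in the class p -/
lemma word {V : List Bool → ℝ} {m bm a b ρ η B P N : ℝ} {l' : ℕ} {t : List Bool} (hV : Add1 V) (hm : 0 < m) (hbm : 0 < bm)
    (hml : m ≤ ML l') (hb : ∀ u : List Bool, m * V u ≤ bm * (u.length + m)) (hR : Rng V m a b (ML l') t)
    (hρ0 : 0 ≤ ρ) (hρ1 : ρ ≤ 2 * bm) (h1 : |a - ρ| + (b - a) ≤ η) (hab : a ≤ b) (hN : (t.length : ℝ) ≤ N) (hη : η * N ≤ B * P)
    (hs : 2 * bm * ML l' ≤ B * P) {x y : ℕ} (hx : x ≤ y) (hy : y ≤ t.length) :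
    |m * V (wd t x y) - ρ * ((y : ℝ) - x)| ≤ B * P := by
  have hx' : (x : ℝ) ≤ y := by exact_mod_cast hx
  have hy' : (y : ℝ) ≤ t.length := by exact_mod_cast hy
  have hx0 : (0 : ℝ) ≤ x := Nat.cast_nonneg x
  have e : ((wd t x y).length : ℝ) = (y : ℝ) - x := by rw [wd_len hy, Nat.cast_sub hx]
  have hV0 := mul_nonneg hm.le (hV.pos (wd t x y))
  obtain ⟨len, hlen⟩ : ∃ len : ℝ, len = (y : ℝ) - x := ⟨_, rfl⟩
  have hl0 : 0 ≤ len := by linarith
  rw [← hlen] at e ⊢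
  by_cases h : ((ML l' : ℕ) : ℝ) ≤ len
  · obtain ⟨k1, k2⟩ := hR x y hx hy (by rw [← hlen]; exact h)
    rw [← hlen] at k1 k2
    have ha1 := neg_abs_le (a - ρ)
    have ha2 := le_abs_self (a - ρ)
    have hη0 : 0 ≤ η := (add_nonneg (abs_nonneg _) (by linarith)).trans h1
    have k3 : η * len ≤ η * N := mul_le_mul_of_nonneg_left (by linarith) hη0
    have k4 : (b - ρ) * len ≤ η * len := mul_le_mul_of_nonneg_right (by linarith) hl0
    have k5 : (ρ - a) * len ≤ η * len := mul_le_mul_of_nonneg_right (by linarith) hl0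
    rw [abs_le]
    constructor <;> linarith
  · push Not at h
    have k1 := hb (wd t x y)
    rw [e] at k1
    have k2 : bm * (len + m) ≤ bm * (2 * ML l') := mul_le_mul_of_nonneg_left (by linarith) hbm.le
    have k3 : ρ * len ≤ 2 * bm * ML l' := mul_le_mul hρ1 h.le hl0 (by linarith)
    have k4 : 0 ≤ ρ * len := mul_nonneg hρ0 hl0
    rw [abs_le]
    constructor <;> linarith

lemma p_le (p : ℕ) (hp : 3 ≤ p) : p ≤ 3 * 2 ^ (p - 3) := by
  obtain ⟨i, rfl⟩ : ∃ i, p = i + 3 := ⟨p - 3, by omega⟩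
  have : i + 1 ≤ 2 ^ i := Nat.lt_two_pow_self
  rw [Nat.add_sub_cancel]
  omega

end Q6

open Q6 in
/-- **Q6** -/
theorem denG_of (hS : StageQ) (hL : LowM) (hF : FK4) : DenG := by
  intro bm hbm
  obtain ⟨r, c, p0, hr0, hr1, hc, hp03, hrp, hrh, hcl⟩ := Q5.classP hS hbm
  obtain ⟨p1, hp13, hcmp⟩ := compare hL hF
  obtain ⟨Cz, hCz, hup⟩ := exists_mz_up
  obtain ⟨p2, hp2⟩ : ∃ p2, p2 = p0 + p1 := ⟨_, rfl⟩
  have h1r : 0 < 1 - r := by linarith
  refine ⟨c, 32 * Cz * (2 / (1 - r) + 1) + 4 * bm, 2 ^ p2, hc, by positivity, fun l0 m V hV hm hml hb => ?_⟩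
  -- the ranges
  have hex : ∀ p : ℕ, ∃ a b : ℝ, 0 ≤ a ∧ a ≤ b ∧ b ≤ 2 * bm ∧ b - a ≤ r ^ (p + p2) ∧
      ∀ K n, K - l0 + 1 ≤ 2 ^ (p + p2) → l0 + 2 ^ (p + p2 - 3) ≤ K → n ≤ ML (K + 2) →
        HR V m a b (l0 + 2 ^ (p + p2 - 3)) (2 ^ (p + p2) * (1 / 16) ^ (K - (l0 + 2 ^ (p + p2 - 3)))) K n :=
    fun p => hcl (p + p2) (by omega) l0 m V hV hm hml hb
  choose a b ha hab hbb hba hHR using hex
  have hmeet : ∀ p, a p ≤ b (p + 1) ∧ a (p + 1) ≤ b p := by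
    intro p
    refine hcmp (p + p2) (by omega) l0 m V (a p) (b p) (a (p + 1)) (b (p + 1)) (hHR p) ?_
    have := hHR (p + 1)
    rwa [show p + 1 + p2 = p + p2 + 1 by ring] at this
  have hgeo : ∀ p, dist (a p) (a (p + 1)) ≤ (2 * r ^ p2) * r ^ p := by
    intro p
    have h1 := hba p
    have h2 := hba (p + 1)
    have h3 : r ^ (p + 1 + p2) ≤ r ^ (p + p2) := pow_le_pow_of_le_one hr0.le hr1.le (by omega)
    have h4 : (2 * r ^ p2) * r ^ p = 2 * r ^ (p + p2) := by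
      rw [pow_add]
      ring
    rw [h4, Real.dist_eq, abs_le]
    obtain ⟨h5, h6⟩ := hmeet p
    have := pow_pos hr0 (p + p2)
    constructor <;> linarith
  obtain ⟨ρ, hρ⟩ := cauchySeq_tendsto_of_complete (cauchySeq_of_le_geometric r _ hr1 hgeo)
  have hρa : ∀ p, |a p - ρ| ≤ 2 * r ^ (p + p2) / (1 - r) := by
    intro p
    have h := dist_le_of_le_geometric_of_tendsto r _ hr1 hgeo hρ p
    rw [Real.dist_eq] at h
    refine h.trans (le_of_eq ?_)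
    rw [pow_add]
    ring
  have hρ0 : 0 ≤ ρ := ge_of_tendsto' hρ ha
  have hρ1 : ρ ≤ 2 * bm := le_of_tendsto' hρ fun p => (hab p).trans (hbb p)
  refine ⟨ρ, hρ0, hρ1, fun K hK => ?_⟩
  -- the class of K
  obtain ⟨j, hj⟩ : ∃ j, j = K - l0 := ⟨_, rfl⟩
  obtain ⟨p, hp⟩ : ∃ p, p = Nat.clog 2 (j + 1) := ⟨_, rfl⟩
  have hpl : j + 1 ≤ 2 ^ p := by
    rw [hp]
    exact Nat.le_pow_clog (by norm_num) _
  have hppos : p2 < p := by
    by_contra h
    have h1 : 2 ^ p ≤ 2 ^ p2 := Nat.pow_le_pow_right (by norm_num) (by omega)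
    omega
  have hpg : 2 ^ (p - 1) < j + 1 := by
    have h1 : 1 < j + 1 := by
      have : 1 ≤ 2 ^ p2 := Nat.one_le_two_pow
      omega
    have := Nat.pow_pred_clog_lt_self (b := 2) (by norm_num) h1
    rw [← hp] at this
    exact this
  obtain ⟨i, hi⟩ : ∃ i, i + p2 = p := ⟨p - p2, by omega⟩
  obtain ⟨q, hq⟩ : ∃ q, q = 2 ^ (p - 3) := ⟨_, rfl⟩
  have e2 : 2 ^ p = 8 * q := by
    rw [hq]
    conv_lhs => rw [show p = (p - 3) + 3 by omega, pow_add]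
    ring
  have e2' : (2 : ℝ) ^ p = 8 * q := by exact_mod_cast e2
  have e4 : 2 ^ (p - 1) = 4 * q := by
    rw [hq]
    conv_lhs => rw [show p - 1 = (p - 3) + 2 by omega, pow_add]
    ring
  have hH := hHR i K (ML (K + 2)) (by rw [hi, ← hj]; exact hpl) (by rw [hi, ← hq]; omega) le_rfl
  rw [hi, ← hq, e2'] at hH
  have hρi := hρa i
  have hbai := hba i
  rw [hi] at hρi hbai
  -- the word
  have hKz := mz_pos K
  have hη : (2 * r ^ p / (1 - r) + r ^ p) * (ML (K + 2) : ℝ) ≤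
      (32 * Cz * (2 / (1 - r) + 1) * r ^ p) * PW.mZ (2 ^ K) := by
    have k1 := ML_le2 (K + 2)
    have k2 := hup K 2
    have k3 : (ML (K + 2) : ℝ) ≤ 32 * Cz * PW.mZ (2 ^ K) := by linarith
    have k4 : 0 ≤ 2 * r ^ p / (1 - r) + r ^ p := by positivity
    refine (mul_le_mul_of_nonneg_left k3 k4).trans (le_of_eq ?_)
    field_simp
  have hpow : (1 / 2 : ℝ) ^ (K - (l0 + q)) ≤ r ^ p := by
    refine le_trans ?_ (hrh p)
    refine pow_le_pow_of_le_one (by norm_num) (by norm_num) ?_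
    have := p_le p (by omega)
    rw [← hq] at this
    omega
  have hsm : 2 * bm * (ML (l0 + q) : ℝ) ≤ (4 * bm * r ^ p) * PW.mZ (2 ^ K) := by
    have k1 := ML_le2 (l0 + q)
    have k2 := mz_low (l0 + q) (K - (l0 + q))
    rw [Nat.add_sub_cancel' (by omega)] at k2
    have k3 : PW.mZ (2 ^ (l0 + q)) ≤ (1 / 2) ^ (K - (l0 + q)) * PW.mZ (2 ^ K) := by
      have k4 := mul_le_mul_of_nonneg_left k2 (show (0 : ℝ) ≤ (1 / 2) ^ (K - (l0 + q)) by positivity)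
      rw [← mul_assoc, ← mul_pow] at k4
      norm_num at k4 ⊢
      exact k4
    have k5 := mul_le_mul_of_nonneg_right hpow hKz.le
    have k6 : (ML (l0 + q) : ℝ) ≤ 2 * (r ^ p * PW.mZ (2 ^ K)) := by linarith
    have k7 := mul_le_mul_of_nonneg_left k6 (show 0 ≤ 2 * bm by linarith)
    linarith
  have hrpow : r ^ p ≤ ((K : ℝ) - l0 + 1) ^ (-c) := by
    have hj1 : (K : ℝ) - l0 + 1 = ((j + 1 : ℕ) : ℝ) := by
      rw [hj]
      push_cast [Nat.cast_sub (show l0 ≤ K by omega)]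
      ring
    have hj2 : ((j + 1 : ℕ) : ℝ) ≤ 2 ^ p := by exact_mod_cast hpl
    have hj3 : (0 : ℝ) < ((j + 1 : ℕ) : ℝ) := by positivity
    rw [hj1, hrp]
    calc (2 : ℝ) ^ (-(c * p)) = ((2 : ℝ) ^ p) ^ (-c) := by
          rw [← Real.rpow_natCast, ← Real.rpow_mul (by norm_num)]
          congr 1
          ring
      _ ≤ _ := Real.rpow_le_rpow_of_nonpos hj3 hj2 (by linarith)
  obtain ⟨BB, hBB⟩ : ∃ BB, BB = (32 * Cz * (2 / (1 - r) + 1) + 4 * bm) * ((K : ℝ) - l0 + 1) ^ (-c) := ⟨_, rfl⟩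
  have hB1 : (32 * Cz * (2 / (1 - r) + 1)) * r ^ p + 4 * bm * r ^ p ≤ BB := by
    rw [hBB, ← add_mul]
    exact mul_le_mul_of_nonneg_left hrpow (by positivity)
  rw [← hBB]
  have hrp0 : 0 < r ^ p := by positivity
  have hA1 : 0 ≤ (32 * Cz * (2 / (1 - r) + 1)) * r ^ p := by positivity
  have hA2 : 0 ≤ 4 * bm * r ^ p := by positivity
  have key : {t | t ∈ WL K ∧ t.length ≤ ML (K + 2) ∧ ¬ ∀ x y : ℕ, x ≤ y → y ≤ t.length →
      |m * V (wd t x y) - ρ * ((y : ℝ) - x)| ≤ BB * PW.mZ (2 ^ K)} ⊆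
      {t | t ∈ WL K ∧ t.length ≤ ML (K + 2) ∧ ¬ Rng V m (a i) (b i) (ML (l0 + q)) t} := by
    rintro t ⟨t1, t2, t3⟩
    refine ⟨t1, t2, fun t4 => t3 fun x y hx hy => ?_⟩
    refine word (N := ML (K + 2)) (η := 2 * r ^ p / (1 - r) + r ^ p) hV hm hbm
      (hml.trans ((mz_mono (by omega)).trans (ML_ge _))) hb t4 hρ0 hρ1 (add_le_add hρi hbai) (hab i)
      (by exact_mod_cast t2) ?_ ?_ hx hy
    · exact hη.trans (mul_le_mul_of_nonneg_right (by linarith) hKz.le)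
    · exact hsm.trans (mul_le_mul_of_nonneg_right (by linarith) hKz.le)
  refine (gf_mono key).trans (le_trans hH (mul_le_mul' (ENNReal.ofReal_le_ofReal ?_) le_rfl))
  -- the mass
  rw [← hj]
  have hjq : K - (l0 + q) = j - q := by omega
  rw [hjq]
  have h16 : ((1 : ℝ) / 16) ^ (j - q) = (1 / 2) ^ (4 * (j - q)) := by
    rw [pow_mul]
    norm_num
  rw [h16]
  have k1 : ((1 : ℝ) / 2) ^ (4 * (j - q)) ≤ (1 / 2) ^ (3 * j) := pow_le_pow_of_le_one (by norm_num) (by norm_num) (by omega)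
  have k2 : (8 : ℝ) * q ≤ 2 ^ (2 * j) := by
    have k3 : 8 * q ≤ 2 * j := by omega
    have k4 : 2 * j ≤ 2 ^ (2 * j) := Nat.lt_two_pow_self.le
    exact_mod_cast k3.trans k4
  calc (8 : ℝ) * q * (1 / 2) ^ (4 * (j - q)) ≤ 2 ^ (2 * j) * (1 / 2) ^ (3 * j) := by
        exact mul_le_mul k2 k1 (by positivity) (by positivity)
    _ = (1 / 2) ^ j := by
        rw [show 3 * j = 2 * j + j by ring, pow_add, ← mul_assoc, ← mul_pow]
        norm_num

end NPR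

end HexObs
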