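import Pool.Agent.ERG.StageQ

/-!
# ERG (no drift), row Q5 (helper10): the run of a dyadic class of boxes

* `run` : the ranges after i stages, the same for all the boxes of the class p;
* **`classP`** : for p ≥ p0 one range of length at most r ^ p for all boxes K with K - l0 + 1 ≤ 2 ^ p, windows of
  ML (l0 + 2 ^ (p - 3)) letters.
-/

set_option autoImplicit false

namespace HexObs

namespace NPR

open Finset TS SDN TIW NTA TIP

open scoped ENNReal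

namespace Q5

lemma Rng.mono {V : List Bool → ℝ} {m a b l l' : ℝ} {t : List Bool} (h : Rng V m a b l t) (hl : l ≤ l') :
    Rng V m a b l' t := fun x y h1 h2 h3 => h x y h1 h2 (hl.trans h3)

lemma HR.mono {V : List Bool → ℝ} {m a b e e' : ℝ} {l l' K n : ℕ} (h : HR V m a b l e K n) (hl : l ≤ l') (he : e ≤ e') :
    HR V m a b l' e' K n := by
  refine le_trans (gf_mono ?_) (le_trans h (mul_le_mul' (ENNReal.ofReal_le_ofReal he) le_rfl))
  rintro t ⟨h1, h2, h3⟩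
  refine ⟨h1, h2, fun h4 => h3 (Rng.mono h4 ?_)⟩
  exact_mod_cast ML_mono hl

/-- the initial range -/
lemma rng0 {V : List Bool → ℝ} {m bm : ℝ} {l0 : ℕ} (hV : Add1 V) (hm : 0 < m) (hml : m ≤ PW.mZ (2 ^ l0)) (hbm : 0 < bm)
    (hb : ∀ u : List Bool, m * V u ≤ bm * (u.length + m)) (t : List Bool) : Rng V m 0 (2 * bm) (ML l0) t := by
  intro x y h1 h2 h3
  have e : ((wd t x y).length : ℝ) = (y : ℝ) - x := by rw [wd_len h2, Nat.cast_sub h1]
  have k1 := hb (wd t x y)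
  rw [e] at k1
  refine ⟨?_, ?_⟩
  · rw [zero_mul]
    exact mul_nonneg hm.le (hV.pos _)
  · have k2 : m ≤ (y : ℝ) - x := hml.trans ((ML_ge l0).trans h3)
    have k3 := mul_le_mul_of_nonneg_left k2 hbm.le
    linarith

/-- **the run** -/
lemma run {bm ε θ : ℝ} {d : ℕ} (hbm : 0 < bm) (hθ0 : 0 ≤ θ) (hθ1 : θ ≤ 1 / 2)
    (hS : ∀ (l : ℕ) (V : List Bool → ℝ) (m a b : ℝ), Add1 V → 0 < m → m ≤ PW.mZ (2 ^ l) → 0 ≤ a → a + ε ≤ b → b ≤ 2 * bm →
      ∃ a' b' : ℝ, a ≤ a' ∧ a' ≤ b' ∧ b' ≤ b ∧ b' - a' ≤ (1 - θ) * (b - a) ∧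
        ∀ (K n p : ℕ) (e : ℝ), 0 ≤ e → K - l + 1 ≤ 2 ^ p → l + d + p ≤ K → n ≤ ML (K + 2) → HR V m a b l e K n →
          HR V m a' b' (l + d + p) (e + (1 / 16) ^ (K - l)) K n) (p : ℕ)
    {V : List Bool → ℝ} {m : ℝ} {l0 : ℕ} (hV : Add1 V) (hm : 0 < m) (hml : m ≤ PW.mZ (2 ^ l0))
    (hb : ∀ u : List Bool, m * V u ≤ bm * (u.length + m)) (i : ℕ) :
    ∃ a b : ℝ, 0 ≤ a ∧ a ≤ b ∧ b ≤ 2 * bm ∧ (b - a ≤ ε ∨ b - a ≤ (1 - θ) ^ i * (2 * bm)) ∧
      ∀ K n, K - l0 + 1 ≤ 2 ^ p → l0 + i * (d + p) ≤ K → n ≤ ML (K + 2) →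
        HR V m a b (l0 + i * (d + p)) (i * (1 / 16) ^ (K - (l0 + i * (d + p)))) K n := by
  induction i with
  | zero =>
    refine ⟨0, 2 * bm, le_rfl, by linarith, le_rfl, Or.inr (by simp), fun K n _ _ _ => ?_⟩
    unfold HR
    have e : {t | t ∈ WL K ∧ t.length ≤ n ∧ ¬ Rng V m 0 (2 * bm) (ML (l0 + 0 * (d + p))) t} = ∅ := by
      rw [Set.eq_empty_iff_forall_notMem]
      rintro t ⟨-, -, h⟩
      rw [zero_mul, add_zero] at h
      exact h (rng0 hV hm hml hbm hb t)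
    rw [e]
    unfold gf
    simp
  | succ i ih =>
    obtain ⟨a, b, g1, g2, g3, g4, g5⟩ := ih
    have hi0 : (0 : ℝ) ≤ i := Nat.cast_nonneg i
    have e1 : l0 + (i + 1) * (d + p) = l0 + i * (d + p) + d + p := by ring
    by_cases h2 : b - a < ε
    · refine ⟨a, b, g1, g2, g3, Or.inl h2.le, fun K n hp hK hn => ?_⟩
      have h3 := g5 K n hp (by omega) hn
      refine HR.mono h3 (by omega) ?_
      have h4 : ((1 : ℝ) / 16) ^ (K - (l0 + i * (d + p))) ≤ (1 / 16) ^ (K - (l0 + (i + 1) * (d + p))) :=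
        pow_le_pow_of_le_one (by norm_num) (by norm_num) (by omega)
      push_cast
      exact mul_le_mul (by linarith) h4 (by positivity) (by linarith)
    · push Not at h2
      obtain ⟨a', b', k1, k2, k3, k4, k5⟩ := hS (l0 + i * (d + p)) V m a b hV hm
        (hml.trans (mz_mono (by omega))) g1 (by linarith) g3
      refine ⟨a', b', g1.trans k1, k2, k3.trans g3, ?_, fun K n hp hK hn => ?_⟩
      · rcases g4 with h5 | h5
        · left
          have h6 : (1 - θ) * (b - a) ≤ b - a := mul_le_of_le_one_left (by linarith) (by linarith)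
          linarith
        · right
          have h6 := mul_le_mul_of_nonneg_left h5 (show 0 ≤ 1 - θ by linarith)
          rw [pow_succ]
          linarith
      · have h3 := g5 K n hp (by omega) hn
        have h4 := k5 K n p _ (by positivity) (by omega) (by omega) hn h3
        rw [← e1] at h4
        refine HR.mono h4 le_rfl ?_
        have h5 : ((1 : ℝ) / 16) ^ (K - (l0 + i * (d + p))) ≤ (1 / 16) ^ (K - (l0 + (i + 1) * (d + p))) :=
          pow_le_pow_of_le_one (by norm_num) (by norm_num) (by omega)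
        have h6 := mul_le_mul_of_nonneg_left h5 (show (0 : ℝ) ≤ (i : ℝ) + 1 by linarith)
        push_cast
        linarith

/-- the number of stages -/
lemma num_N {θ x ε : ℝ} {N : ℕ} (hθ0 : 0 < θ) (hθ1 : θ ≤ 1) (hx : 0 ≤ x) (h : x ≤ ε * (N * θ)) (hε : 0 ≤ ε) :
    (1 - θ) ^ N * x ≤ ε := by
  have h1 : (1 - θ) ^ N * (1 + N * θ) ≤ 1 := by
    have h2 : 1 + (N : ℝ) * θ ≤ (1 + θ) ^ N := one_add_mul_le_pow (by linarith) N
    have h3 : (1 - θ) ^ N * (1 + θ) ^ N ≤ 1 := by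
      rw [← mul_pow]
      refine pow_le_one₀ ?_ ?_
      · nlinarith
      · nlinarith
    exact (mul_le_mul_of_nonneg_left h2 (pow_nonneg (by linarith) _)).trans h3
  have h4 : 0 ≤ (1 - θ) ^ N := pow_nonneg (by linarith) _
  have h5 : (1 - θ) ^ N * x ≤ (1 - θ) ^ N * (ε * (N * θ)) := mul_le_mul_of_nonneg_left h h4
  have h6 : (1 - θ) ^ N * (N * θ) ≤ 1 := by nlinarith
  have h7 := mul_le_mul_of_nonneg_left h6 hε
  linarith

/-- polynomials against powers of two -/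
lemma poly_pow (x : ℝ) : ∃ p0 : ℕ, ∀ p : ℕ, p0 ≤ p → x * (p + 1) ^ 2 ≤ 2 ^ p := by
  have h1 : Filter.Tendsto (fun n : ℕ => (n : ℝ) ^ 2 * (1 / 2 : ℝ) ^ n) Filter.atTop (nhds 0) :=
    tendsto_pow_const_mul_const_pow_of_abs_lt_one 2 (by norm_num [abs_of_pos])
  have h2 := (h1.eventually (gt_mem_nhds (show (0 : ℝ) < 1 / (2 * (|x| + 1)) by positivity)))
  obtain ⟨n0, hn0⟩ := Filter.eventually_atTop.1 h2
  refine ⟨n0, fun p hp => ?_⟩
  have h3 := hn0 (p + 1) (by omega)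
  push_cast at h3
  rw [lt_div_iff₀ (by positivity)] at h3
  have h4 : (0 : ℝ) < 2 ^ p := by positivity
  have h5 : ((1 : ℝ) / 2) ^ (p + 1) * (2 * 2 ^ p) = 1 := by
    rw [← pow_succ', ← mul_pow]
    norm_num
  have h6 := mul_le_mul_of_nonneg_right h3.le h4.le
  have h7 : ((p : ℝ) + 1) ^ 2 * (1 / 2) ^ (p + 1) * (2 * (|x| + 1)) * 2 ^ p =
      ((p : ℝ) + 1) ^ 2 * (|x| + 1) * ((1 / 2) ^ (p + 1) * (2 * 2 ^ p)) := by ring
  rw [h7, h5, mul_one, one_mul] at h6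
  have h8 : x * ((p : ℝ) + 1) ^ 2 ≤ (|x| + 1) * ((p : ℝ) + 1) ^ 2 :=
    mul_le_mul_of_nonneg_right ((le_abs_self x).trans (by linarith)) (by positivity)
  linarith

/-- **the class p** -/
theorem classP (hS : StageQ) {bm : ℝ} (hbm : 0 < bm) : ∃ (r c : ℝ) (p0 : ℕ), 0 < r ∧ r < 1 ∧ 0 < c ∧ 3 ≤ p0 ∧
    (∀ p : ℕ, r ^ p = (2 : ℝ) ^ (-(c * p))) ∧ (∀ p : ℕ, (1 / 2 : ℝ) ^ p ≤ r ^ p) ∧ ∀ p, p0 ≤ p →
    ∀ (l0 : ℕ) (m : ℝ) (V : List Bool → ℝ), Add1 V → 0 < m → m ≤ PW.mZ (2 ^ l0) →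
      (∀ u : List Bool, m * V u ≤ bm * (u.length + m)) → ∃ a b : ℝ, 0 ≤ a ∧ a ≤ b ∧ b ≤ 2 * bm ∧ b - a ≤ r ^ p ∧
        ∀ K n, K - l0 + 1 ≤ 2 ^ p → l0 + 2 ^ (p - 3) ≤ K → n ≤ ML (K + 2) →
          HR V m a b (l0 + 2 ^ (p - 3)) (2 ^ p * (1 / 16) ^ (K - (l0 + 2 ^ (p - 3)))) K n := by
  obtain ⟨A, hA, hS⟩ := hS (2 * bm) (by linarith)
  have hA' : (1 : ℝ) ≤ A := by exact_mod_cast hA
  obtain ⟨c, hc⟩ : ∃ c : ℝ, c = 1 / (2 * (2 * A + 1)) := ⟨_, rfl⟩
  have hc0 : 0 < c := by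
    rw [hc]
    positivity
  have hc1 : c ≤ 1 := by
    rw [hc, div_le_one (by positivity)]
    linarith
  obtain ⟨r, hr⟩ : ∃ r : ℝ, r = (2 : ℝ) ^ (-c) := ⟨_, rfl⟩
  have hr0 : 0 < r := by
    rw [hr]
    positivity
  have hr1 : r < 1 := by
    rw [hr]
    exact Real.rpow_lt_one_of_one_lt_of_neg (by norm_num) (by linarith)
  have hrp : ∀ p : ℕ, r ^ p = (2 : ℝ) ^ (-(c * p)) := by
    intro p
    rw [hr, ← Real.rpow_natCast, ← Real.rpow_mul (by norm_num)]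
    congr 1
    ring
  have hrh : ∀ p : ℕ, (1 / 2 : ℝ) ^ p ≤ r ^ p := by
    intro p
    refine pow_le_pow_left₀ (by norm_num) ?_ p
    rw [hr, one_div, ← Real.rpow_neg_one]
    exact Real.rpow_le_rpow_of_exponent_le (by norm_num) (by linarith)
  obtain ⟨C1, hC1⟩ : ∃ C1 : ℝ, C1 = (2 * bm * A + 1) * (A + 1) := ⟨_, rfl⟩
  have hC10 : 0 < C1 := by
    rw [hC1]
    positivity
  obtain ⟨p0, hp0⟩ := poly_pow ((8 * C1) ^ 2)
  refine ⟨r, c, p0 + 3, hr0, hr1, hc0, by omega, hrp, hrh, fun p hp l0 m V hV hm hml hb => ?_⟩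
  have hε0 : 0 < r ^ p := by positivity
  have hε1 : r ^ p ≤ 1 := pow_le_one₀ hr0.le hr1.le
  obtain ⟨θ, d, hθ, hθ1, hd, hS⟩ := hS (r ^ p) hε0 hε1
  obtain ⟨y, hy⟩ : ∃ y, y = 1 / r ^ p := ⟨_, rfl⟩
  have hy1 : 1 ≤ y := by
    rw [hy, le_div_iff₀ hε0]
    linarith
  have hyε : y * r ^ p = 1 := by
    rw [hy]
    field_simp
  have hθ0 : 0 < θ := lt_of_lt_of_le (by positivity) hθ
  -- the number of stages
  obtain ⟨N, hN⟩ : ∃ N : ℕ, N = ⌈2 * bm * A * y ^ (A + 1)⌉₊ := ⟨_, rfl⟩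
  have hN1 : 2 * bm * A * y ^ (A + 1) ≤ (N : ℝ) := by
    rw [hN]
    exact Nat.le_ceil _
  have hN2 : (N : ℝ) ≤ (2 * bm * A + 1) * y ^ (A + 1) := by
    have h1 : (N : ℝ) < 2 * bm * A * y ^ (A + 1) + 1 := by
      rw [hN]
      exact Nat.ceil_lt_add_one (by positivity)
    have h2 : (1 : ℝ) ≤ y ^ (A + 1) := one_le_pow₀ hy1
    linarith
  have hNθ : 2 * bm ≤ r ^ p * (N * θ) := by
    have h1 : (r ^ p) ^ A / A ≤ θ := hθ
    have h2 : (2 * bm * A * y ^ (A + 1)) * ((r ^ p) ^ A / A) ≤ N * θ :=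
      mul_le_mul hN1 h1 (by positivity) (Nat.cast_nonneg _)
    have h3 := mul_le_mul_of_nonneg_left h2 hε0.le
    have h4 : r ^ p * ((2 * bm * A * y ^ (A + 1)) * ((r ^ p) ^ A / A)) = 2 * bm * (y * r ^ p) ^ (A + 1) := by
      rw [mul_pow, pow_succ (r ^ p) A]
      field_simp
    rw [h4, hyε, one_pow, mul_one] at h3
    exact h3
  have hscale : ((N * (d + p) : ℕ) : ℝ) ≤ ((2 ^ (p - 3) : ℕ) : ℝ) := by
    obtain ⟨Y, hY⟩ : ∃ Y, Y = y ^ (2 * A + 1) := ⟨_, rfl⟩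
    have hY1 : 1 ≤ Y := by
      rw [hY]
      exact one_le_pow₀ hy1
    have hY2 : Y ^ 2 = 2 ^ p := by
      have h1 : y = (2 : ℝ) ^ (c * p) := by
        rw [hy, hrp, Real.rpow_neg (by norm_num), one_div, inv_inv]
      rw [hY, h1, ← pow_mul, ← Real.rpow_natCast, ← Real.rpow_mul (by norm_num), ← Real.rpow_natCast]
      congr 1
      rw [hc]
      push_cast
      field_simp
    have h1 : ((N * (d + p) : ℕ) : ℝ) ≤ C1 * Y * (p + 1) := by
      push_cast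
      have h2 : (d : ℝ) + p ≤ (A + 1) * y ^ A * (p + 1) := by
        rw [← hy] at hd
        have h3 : (1 : ℝ) ≤ y ^ A := one_le_pow₀ hy1
        have h4 : (0 : ℝ) ≤ p := Nat.cast_nonneg p
        have h5 : (p : ℝ) + 1 ≤ y ^ A * (p + 1) := le_mul_of_one_le_left (by linarith) h3
        have h6 : (A : ℝ) * y ^ A ≤ A * y ^ A * (p + 1) := le_mul_of_one_le_right (by positivity) (by linarith)
        linarith
      have h7 := mul_le_mul hN2 h2 (by positivity) (by positivity)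
      refine h7.trans (le_of_eq ?_)
      rw [hC1, hY, show 2 * A + 1 = (A + 1) + A by ring, pow_add]
      ring
    have h2 : 8 * C1 * (p + 1) ≤ Y := by
      have h3 := hp0 p (by omega)
      rw [← hY2, ← mul_pow] at h3
      exact (pow_le_pow_iff_left₀ (by positivity) (by linarith) (by norm_num)).1 h3
    have h3 : ((2 ^ (p - 3) : ℕ) : ℝ) * 8 = Y ^ 2 := by
      rw [hY2]
      push_cast
      rw [show (8 : ℝ) = 2 ^ 3 by norm_num, ← pow_add, Nat.sub_add_cancel (by omega)]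
    have h4 := mul_le_mul_of_nonneg_right h2 (show 0 ≤ Y by linarith)
    nlinarith
  have hscale' : N * (d + p) ≤ 2 ^ (p - 3) := by exact_mod_cast hscale
  obtain ⟨a, b, g1, g2, g3, g4, g5⟩ := run hbm hθ0.le hθ1 hS p hV hm hml hb N
  refine ⟨a, b, g1, g2, g3, ?_, fun K n hp2 hK hn => ?_⟩
  · rcases g4 with h | h
    · exact h
    · exact h.trans (num_N hθ0 (by linarith) (by linarith) hNθ hε0.le)
  · refine HR.mono (g5 K n hp2 (by omega) hn) (by omega) ?_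
    have h1 : N ≤ 2 ^ p := by
      have h2 : N ≤ N * (d + p) := Nat.le_mul_of_pos_right _ (by omega)
      have h3 : 2 ^ (p - 3) ≤ 2 ^ p := Nat.pow_le_pow_right (by norm_num) (by omega)
      omega
    have h2 : (N : ℝ) ≤ 2 ^ p := by exact_mod_cast h1
    refine mul_le_mul h2 ?_ (by positivity) (by positivity)
    exact pow_le_pow_of_le_one (by norm_num) (by norm_num) (by omega)

end Q5

end NPR

end HexObs
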