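import Pool.Agent.ERG.Dens

/-!
# ERG (no drift), word level of D4 (helper10): the clock constant does not depend on the box

* `Ini` : an initial range with the exceptional mass (1 / 2) ^ (K - l0) (from `InitR`); `ShortM` : the mass of the short words;
* **`denI_of`** : `InitR → StageQ → LowM → FK4 → ShortM → DenI`.
-/

set_option autoImplicit false

namespace HexObs

namespace NPR

open Finset TS SDN TIW NTA TIP

open scoped ENNReal

/-- the mass of the short words -/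
def ShortM : Prop := ∃ C : ℝ, 0 < C ∧ ∀ l i : ℕ, gf {t | t ∈ SA ∧ t.length ≤ ML l} ≤
  ENNReal.ofReal (C * (1 / 2) ^ i) * FK (l + i)

/-- **D4, words: the number of pieces of diameter at most r per letter has one limit for all boxes**, with a rate. The
constants c, C, j0 do not depend on r. -/
def DenI : Prop := ∃ (c C : ℝ) (j0 : ℕ), 0 < c ∧ 0 < C ∧ ∀ (r l : ℕ) (V : List Bool → ℝ), 2 ≤ r → AF r V → r ≤ 2 ^ l →
  2 ^ l ≤ 2 * r → ∃ ka : ℝ, 0 < ka ∧ ∀ K, l + j0 ≤ K →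
    gf {t | t ∈ WL K ∧ t.length ≤ ML (K + 2) ∧ ¬ ∀ x y : ℕ, x ≤ y → y ≤ t.length →
      |ka * V (wd t x y) - ((y : ℝ) - x)| ≤ C * ((K : ℝ) - l + 1) ^ (-c) * PW.mZ (2 ^ K)} ≤
      ENNReal.ofReal (C * ((K : ℝ) - l + 1) ^ (-c)) * FK K

namespace D4

/-- initial range -/
def Ini (V : List Bool → ℝ) (m a0 b0 : ℝ) (l0 d0 : ℕ) : Prop := ∀ K n p : ℕ, K - l0 + 1 ≤ 2 ^ p → l0 + d0 + p ≤ K →
  n ≤ ML (K + 2) → HR V m a0 b0 (l0 + d0 + p) ((1 / 2) ^ (K - l0)) K n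

/-- the run -/
lemma run {a0 b0 ε θ : ℝ} {d d0 : ℕ} (ha0 : 0 ≤ a0) (hab0 : a0 ≤ b0) (hθ0 : 0 ≤ θ) (hθ1 : θ ≤ 1 / 2)
    (hS : ∀ (l : ℕ) (V : List Bool → ℝ) (m a b : ℝ), Add1 V → 0 < m → m ≤ PW.mZ (2 ^ l) → 0 ≤ a → a + ε ≤ b → b ≤ b0 →
      ∃ a' b' : ℝ, a ≤ a' ∧ a' ≤ b' ∧ b' ≤ b ∧ b' - a' ≤ (1 - θ) * (b - a) ∧
        ∀ (K n p : ℕ) (e : ℝ), 0 ≤ e → K - l + 1 ≤ 2 ^ p → l + d + p ≤ K → n ≤ ML (K + 2) → HR V m a b l e K n →
          HR V m a' b' (l + d + p) (e + (1 / 16) ^ (K - l)) K n) (p : ℕ)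
    {V : List Bool → ℝ} {m : ℝ} {l0 : ℕ} (hV : Add1 V) (hm : 0 < m) (hml : m ≤ PW.mZ (2 ^ l0))
    (hI : Ini V m a0 b0 l0 d0) (i : ℕ) :
    ∃ a b : ℝ, a0 ≤ a ∧ a ≤ b ∧ b ≤ b0 ∧ (b - a ≤ ε ∨ b - a ≤ (1 - θ) ^ i * (b0 - a0)) ∧
      ∀ K n, K - l0 + 1 ≤ 2 ^ p → l0 + (d0 + p) + i * (d + p) ≤ K → n ≤ ML (K + 2) →
        HR V m a b (l0 + (d0 + p) + i * (d + p)) ((i + 1) * (1 / 2) ^ (K - (l0 + (d0 + p) + i * (d + p)))) K n := by
  induction i with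
  | zero =>
    refine ⟨a0, b0, le_rfl, hab0, le_rfl, Or.inr (by simp), fun K n hp hK hn => ?_⟩
    have h := hI K n p hp (by omega) hn
    rw [show l0 + (d0 + p) + 0 * (d + p) = l0 + d0 + p by ring]
    refine Q5.HR.mono h le_rfl ?_
    rw [Nat.cast_zero, zero_add, one_mul]
    exact pow_le_pow_of_le_one (by norm_num) (by norm_num) (by omega)
  | succ i ih =>
    obtain ⟨a, b, g1, g2, g3, g4, g5⟩ := ih
    have hi0 : (0 : ℝ) ≤ i := Nat.cast_nonneg i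
    have e1 : l0 + (d0 + p) + (i + 1) * (d + p) = l0 + (d0 + p) + i * (d + p) + d + p := by ring
    by_cases h2 : b - a < ε
    · refine ⟨a, b, g1, g2, g3, Or.inl h2.le, fun K n hp hK hn => ?_⟩
      have h3 := g5 K n hp (by omega) hn
      refine Q5.HR.mono h3 (by omega) ?_
      have h4 : ((1 : ℝ) / 2) ^ (K - (l0 + (d0 + p) + i * (d + p))) ≤ (1 / 2) ^ (K - (l0 + (d0 + p) + (i + 1) * (d + p))) :=
        pow_le_pow_of_le_one (by norm_num) (by norm_num) (by omega)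
      push_cast
      exact mul_le_mul (by linarith) h4 (by positivity) (by linarith)
    · push Not at h2
      obtain ⟨a', b', k1, k2, k3, k4, k5⟩ := hS (l0 + (d0 + p) + i * (d + p)) V m a b hV hm
        (hml.trans (mz_mono (by omega))) (ha0.trans g1) (by linarith) g3
      refine ⟨a', b', g1.trans k1, k2, k3.trans g3, ?_, fun K n hp hK hn => ?_⟩
      · rcases g4 with h5 | h5
        · left
          have h6 : (1 - θ) * (b - a) ≤ b - a := mul_le_of_le_one_left (by linarith) (by linarith)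
          linarith
        · right
          have h6 := mul_le_mul_of_nonneg_left h5 (show 0 ≤ 1 - θ by linarith)
          rw [pow_succ]
          linarith
      · have h3 := g5 K n hp (by omega) hn
        have h4 := k5 K n p _ (by positivity) (by omega) (by omega) hn h3
        rw [← e1] at h4
        refine Q5.HR.mono h4 le_rfl ?_
        have h5 : ((1 : ℝ) / 2) ^ (K - (l0 + (d0 + p) + i * (d + p))) ≤ (1 / 2) ^ (K - (l0 + (d0 + p) + (i + 1) * (d + p))) :=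
          pow_le_pow_of_le_one (by norm_num) (by norm_num) (by omega)
        have h7 : ((1 : ℝ) / 16) ^ (K - (l0 + (d0 + p) + i * (d + p))) ≤ (1 / 2) ^ (K - (l0 + (d0 + p) + i * (d + p))) :=
          pow_le_pow_left₀ (by norm_num) (by norm_num) _
        have h6 := mul_le_mul_of_nonneg_left h5 (show (0 : ℝ) ≤ (i : ℝ) + 1 by linarith)
        push_cast
        linarith

/-- **the class p** -/
theorem classI (hS : StageQ) {a0 b0 : ℝ} (ha0 : 0 ≤ a0) (hab0 : a0 ≤ b0) (hb0 : 0 < b0) (d0 : ℕ) :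
    ∃ (r c : ℝ) (p0 : ℕ), 0 < r ∧ r < 1 ∧ 0 < c ∧ 3 ≤ p0 ∧
    (∀ p : ℕ, r ^ p = (2 : ℝ) ^ (-(c * p))) ∧ (∀ p : ℕ, (1 / 2 : ℝ) ^ p ≤ r ^ p) ∧ ∀ p, p0 ≤ p →
    ∀ (l0 : ℕ) (m : ℝ) (V : List Bool → ℝ), Add1 V → 0 < m → m ≤ PW.mZ (2 ^ l0) →
      Ini V m a0 b0 l0 d0 → ∃ a b : ℝ, a0 ≤ a ∧ a ≤ b ∧ b ≤ b0 ∧ b - a ≤ r ^ p ∧
        ∀ K n, K - l0 + 1 ≤ 2 ^ p → l0 + 2 ^ (p - 3) ≤ K → n ≤ ML (K + 2) →
          HR V m a b (l0 + 2 ^ (p - 3)) (2 ^ p * (1 / 2) ^ (K - (l0 + 2 ^ (p - 3)))) K n := by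
  obtain ⟨A, hA, hS⟩ := hS b0 hb0
  have hA' : (1 : ℝ) ≤ A := by exact_mod_cast hA
  obtain ⟨c, hc⟩ : ∃ c : ℝ, c = 1 / (2 * (2 * A + 1)) := ⟨_, rfl⟩
  have hc0 : 0 < c := by
    rw [hc]
    positivity
  have hc1 : c ≤ 1 := by
    rw [hc, div_le_one (by positivity)]
    linarith
  obtain ⟨r, hr⟩ : ∃ r : ℝ, r = (2 : ℝ) ^ (-c) := ⟨_, rfl⟩
  have hr0 : 0 < r := by
    rw [hr]
    positivity
  have hr1 : r < 1 := by
    rw [hr]
    exact Real.rpow_lt_one_of_one_lt_of_neg (by norm_num) (by linarith)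
  have hrp : ∀ p : ℕ, r ^ p = (2 : ℝ) ^ (-(c * p)) := by
    intro p
    rw [hr, ← Real.rpow_natCast, ← Real.rpow_mul (by norm_num)]
    congr 1
    ring
  have hrh : ∀ p : ℕ, (1 / 2 : ℝ) ^ p ≤ r ^ p := by
    intro p
    refine pow_le_pow_left₀ (by norm_num) ?_ p
    rw [hr, one_div, ← Real.rpow_neg_one]
    exact Real.rpow_le_rpow_of_exponent_le (by norm_num) (by linarith)
  obtain ⟨C1, hC1⟩ : ∃ C1 : ℝ, C1 = (b0 * A + 1) * (A + 1) + (d0 + 1) := ⟨_, rfl⟩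
  have hC10 : 0 < C1 := by
    rw [hC1]
    positivity
  obtain ⟨p0, hp0⟩ := Q5.poly_pow ((8 * C1) ^ 2)
  refine ⟨r, c, p0 + 3, hr0, hr1, hc0, by omega, hrp, hrh, fun p hp l0 m V hV hm hml hI => ?_⟩
  have hε0 : 0 < r ^ p := by positivity
  have hε1 : r ^ p ≤ 1 := pow_le_one₀ hr0.le hr1.le
  obtain ⟨θ, d, hθ, hθ1, hd, hS⟩ := hS (r ^ p) hε0 hε1
  obtain ⟨y, hy⟩ : ∃ y, y = 1 / r ^ p := ⟨_, rfl⟩
  have hy1 : 1 ≤ y := by
    rw [hy, le_div_iff₀ hε0]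
    linarith
  have hyε : y * r ^ p = 1 := by
    rw [hy]
    field_simp
  have hθ0 : 0 < θ := lt_of_lt_of_le (by positivity) hθ
  -- the number of stages
  obtain ⟨N, hN⟩ : ∃ N : ℕ, N = ⌈b0 * A * y ^ (A + 1)⌉₊ := ⟨_, rfl⟩
  have hN1 : b0 * A * y ^ (A + 1) ≤ (N : ℝ) := by
    rw [hN]
    exact Nat.le_ceil _
  have hN2 : (N : ℝ) ≤ (b0 * A + 1) * y ^ (A + 1) := by
    have h1 : (N : ℝ) < b0 * A * y ^ (A + 1) + 1 := by
      rw [hN]
      exact Nat.ceil_lt_add_one (by positivity)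
    have h2 : (1 : ℝ) ≤ y ^ (A + 1) := one_le_pow₀ hy1
    linarith
  have hNθ : b0 ≤ r ^ p * (N * θ) := by
    have h1 : (r ^ p) ^ A / A ≤ θ := hθ
    have h2 : (b0 * A * y ^ (A + 1)) * ((r ^ p) ^ A / A) ≤ N * θ :=
      mul_le_mul hN1 h1 (by positivity) (Nat.cast_nonneg _)
    have h3 := mul_le_mul_of_nonneg_left h2 hε0.le
    have h4 : r ^ p * ((b0 * A * y ^ (A + 1)) * ((r ^ p) ^ A / A)) = b0 * (y * r ^ p) ^ (A + 1) := by
      rw [mul_pow, pow_succ (r ^ p) A]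
      field_simp
    rw [h4, hyε, one_pow, mul_one] at h3
    exact h3
  have hscale : (((d0 + p) + N * (d + p) : ℕ) : ℝ) ≤ ((2 ^ (p - 3) : ℕ) : ℝ) := by
    obtain ⟨Y, hY⟩ : ∃ Y, Y = y ^ (2 * A + 1) := ⟨_, rfl⟩
    have hY1 : 1 ≤ Y := by
      rw [hY]
      exact one_le_pow₀ hy1
    have hY2 : Y ^ 2 = 2 ^ p := by
      have h1 : y = (2 : ℝ) ^ (c * p) := by
        rw [hy, hrp, Real.rpow_neg (by norm_num), one_div, inv_inv]
      rw [hY, h1, ← pow_mul, ← Real.rpow_natCast, ← Real.rpow_mul (by norm_num), ← Real.rpow_natCast]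
      congr 1
      rw [hc]
      push_cast
      field_simp
    have h1 : (((d0 + p) + N * (d + p) : ℕ) : ℝ) ≤ C1 * Y * (p + 1) := by
      push_cast
      have hp0' : (0 : ℝ) ≤ p := Nat.cast_nonneg p
      have hd0' : (0 : ℝ) ≤ d0 := Nat.cast_nonneg d0
      have h2 : (d : ℝ) + p ≤ (A + 1) * y ^ A * (p + 1) := by
        rw [← hy] at hd
        have h3 : (1 : ℝ) ≤ y ^ A := one_le_pow₀ hy1
        have h5 : (p : ℝ) + 1 ≤ y ^ A * (p + 1) := le_mul_of_one_le_left (by linarith) h3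
        have h6 : (A : ℝ) * y ^ A ≤ A * y ^ A * (p + 1) := le_mul_of_one_le_right (by positivity) (by linarith)
        linarith
      have h7 := mul_le_mul hN2 h2 (by positivity) (by positivity)
      have h8 : (b0 * A + 1) * y ^ (A + 1) * ((A + 1) * y ^ A * (p + 1)) = (b0 * A + 1) * (A + 1) * Y * (p + 1) := by
        rw [hY, show 2 * A + 1 = (A + 1) + A by ring, pow_add]
        ring
      have h9 : (d0 : ℝ) + p ≤ (d0 + 1) * Y * (p + 1) := by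
        have k1 : (d0 : ℝ) + p ≤ (d0 + 1) * (p + 1) := by nlinarith
        have k2 : ((d0 : ℝ) + 1) * (p + 1) ≤ Y * ((d0 + 1) * (p + 1)) := le_mul_of_one_le_left (by positivity) hY1
        linarith
      rw [hC1]
      linarith
    have h2 : 8 * C1 * (p + 1) ≤ Y := by
      have h3 := hp0 p (by omega)
      rw [← hY2, ← mul_pow] at h3
      exact (pow_le_pow_iff_left₀ (by positivity) (by linarith) (by norm_num)).1 h3
    have h3 : ((2 ^ (p - 3) : ℕ) : ℝ) * 8 = Y ^ 2 := by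
      rw [hY2]
      push_cast
      rw [show (8 : ℝ) = 2 ^ 3 by norm_num, ← pow_add, Nat.sub_add_cancel (by omega)]
    have h4 := mul_le_mul_of_nonneg_right h2 (show 0 ≤ Y by linarith)
    nlinarith
  have hscale' : (d0 + p) + N * (d + p) ≤ 2 ^ (p - 3) := by exact_mod_cast hscale
  obtain ⟨a, b, g1, g2, g3, g4, g5⟩ := run ha0 hab0 hθ0.le hθ1 hS p hV hm hml hI N
  refine ⟨a, b, g1, g2, g3, ?_, fun K n hp2 hK hn => ?_⟩
  · rcases g4 with h | h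
    · exact h
    · exact h.trans (Q5.num_N hθ0 (by linarith) (by linarith) (by linarith) hε0.le)
  · refine Q5.HR.mono (g5 K n hp2 (by omega) hn) (by omega) ?_
    have h1 : N + 1 ≤ 2 ^ p := by
      have h2 : N ≤ N * (d + p) := Nat.le_mul_of_pos_right _ (by omega)
      have h3 : 2 ^ (p - 3) ≤ 2 ^ p := Nat.pow_le_pow_right (by norm_num) (by omega)
      omega
    have h2 : (N : ℝ) + 1 ≤ 2 ^ p := by exact_mod_cast h1
    refine mul_le_mul h2 ?_ (by positivity) (by positivity)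
    exact pow_le_pow_of_le_one (by norm_num) (by norm_num) (by omega)

/-- **comparison of two classes** -/
lemma compare (hL : LowM) (hF : FK4) : ∃ p1 : ℕ, 3 ≤ p1 ∧ ∀ p, p1 ≤ p → ∀ (l0 : ℕ) (m : ℝ) (V : List Bool → ℝ)
    (a b a' b' : ℝ),
    (∀ K n, K - l0 + 1 ≤ 2 ^ p → l0 + 2 ^ (p - 3) ≤ K → n ≤ ML (K + 2) →
      HR V m a b (l0 + 2 ^ (p - 3)) (2 ^ p * (1 / 2) ^ (K - (l0 + 2 ^ (p - 3)))) K n) →
    (∀ K n, K - l0 + 1 ≤ 2 ^ (p + 1) → l0 + 2 ^ (p + 1 - 3) ≤ K → n ≤ ML (K + 2) →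
      HR V m a' b' (l0 + 2 ^ (p + 1 - 3)) (2 ^ (p + 1) * (1 / 2) ^ (K - (l0 + 2 ^ (p + 1 - 3)))) K n) →
    a ≤ b' ∧ a' ≤ b := by
  obtain ⟨c, C, k0, hc, hL⟩ := hL
  obtain ⟨D, hD, hF⟩ := hF
  obtain ⟨g, hg⟩ := pow_unbounded_of_one_lt (24 * (D * 4 ^ C) / c) (show (1 : ℝ) < 2 by norm_num)
  refine ⟨k0 + C + g + 4, by omega, fun p hp l0 m V a b a' b' h1 h2 => ?_⟩
  obtain ⟨q, hq⟩ : ∃ q, q = 2 ^ (p - 3) := ⟨_, rfl⟩
  have hqp : p - 3 < q := by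
    rw [hq]
    exact Nat.lt_two_pow_self
  have e1 : 2 ^ (p + 1 - 3) = 2 * q := by
    rw [hq, show p + 1 - 3 = (p - 3) + 1 by omega, pow_succ]
    ring
  have e2 : 2 ^ p = 8 * q := by
    rw [hq]
    conv_lhs => rw [show p = (p - 3) + 3 by omega, pow_add]
    ring
  have e3 : 2 ^ (p + 1) = 16 * q := by
    rw [pow_succ, e2]
    ring
  have e2' : (2 : ℝ) ^ p = 8 * q := by exact_mod_cast e2
  have e3' : (2 : ℝ) ^ (p + 1) = 16 * q := by exact_mod_cast e3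
  rw [e1] at h2
  rw [e3] at h2
  rw [← hq] at h1
  rw [e2] at h1
  rw [e3'] at h2
  rw [e2'] at h1
  obtain ⟨K, hK⟩ : ∃ K, K = l0 + 4 * q := ⟨_, rfl⟩
  obtain ⟨L, hLL⟩ : ∃ L, L + C = K := ⟨K - C, by omega⟩
  have H1 := h1 K (ML (K + 2)) (by omega) (by omega) le_rfl
  have H2 := h2 K (ML (K + 2)) (by omega) (by omega) le_rfl
  by_contra hcon
  have hsub : {t | t ∈ WL (L + C) ∧ PW.mZ (2 ^ L) ≤ (t.length : ℝ) ∧ (t.length : ℝ) < PW.mZ (2 ^ (L + 1))} ⊆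
      {t | t ∈ WL K ∧ t.length ≤ ML (K + 2) ∧ ¬ Rng V m a b (ML (l0 + q)) t} ∪
      {t | t ∈ WL K ∧ t.length ≤ ML (K + 2) ∧ ¬ Rng V m a' b' (ML (l0 + 2 * q)) t} := by
    rintro t ⟨t1, t2, t3⟩
    have t4 : t ∈ WL K := by rwa [← hLL]
    have t5 : t.length ≤ ML (K + 2) := by
      have k1 : (t.length : ℝ) ≤ ML (K + 2) := t3.le.trans ((mz_mono (by omega)).trans (ML_ge (K + 2)))
      exact_mod_cast k1
    have t6 : ML L ≤ t.length := Nat.ceil_le.2 t2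
    have t7 := ML_pos L
    by_cases r1 : Rng V m a b (ML (l0 + q)) t
    · by_cases r2 : Rng V m a' b' (ML (l0 + 2 * q)) t
      · exfalso
        refine hcon (Q6.meet (by omega) r1 r2 ?_ ?_)
        · exact_mod_cast (ML_mono (show l0 + q ≤ L by omega)).trans t6
        · exact_mod_cast (ML_mono (show l0 + 2 * q ≤ L by omega)).trans t6
      · exact Or.inr ⟨t4, t5, r2⟩
    · exact Or.inl ⟨t4, t5, r1⟩
  have hmass : ENNReal.ofReal c * FK L ≤ ENNReal.ofReal (24 * q * (1 / 2) ^ (2 * q) * (D * 4 ^ C)) * FK L := by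
    refine (hL L (by omega)).trans ((gf_mono hsub).trans ((gf_union_le _ _).trans ?_))
    refine (add_le_add H1 H2).trans ?_
    rw [← add_mul, ← ENNReal.ofReal_add (by positivity) (by positivity)]
    have hFK := hF L C
    rw [hLL] at hFK
    refine (mul_le_mul' le_rfl hFK).trans ?_
    rw [← mul_assoc, ← ENNReal.ofReal_mul (by positivity)]
    refine mul_le_mul' (ENNReal.ofReal_le_ofReal (mul_le_mul_of_nonneg_right ?_ (by positivity))) le_rfl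
    rw [show K - (l0 + 2 * q) = 2 * q by omega]
    have k1 : ((1 : ℝ) / 2) ^ (K - (l0 + q)) ≤ (1 / 2) ^ (2 * q) :=
      pow_le_pow_of_le_one (by norm_num) (by norm_num) (by omega)
    have k2 := mul_le_mul_of_nonneg_left k1 (show (0 : ℝ) ≤ 8 * q by positivity)
    linarith
  have hU : (0 : ℝ) < Ub L := Ub_pos L
  have hFK0 : FK L ≠ 0 := by
    unfold FK
    refine mul_ne_zero (by simpa using hU) (pow_ne_zero _ (Q6.Xb_ne_zero' L))
  have hFt : FK L ≠ ⊤ := by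
    unfold FK
    exact ENNReal.mul_ne_top ENNReal.ofReal_ne_top (ENNReal.pow_ne_top (NTA.Xb_ne_top L))
  rw [ENNReal.mul_le_mul_iff_left hFK0 hFt] at hmass
  have h3 : c ≤ 24 * q * (1 / 2) ^ (2 * q) * (D * 4 ^ C) :=
    (ENNReal.ofReal_le_ofReal_iff (by positivity)).1 hmass
  have h6 : (q : ℝ) ≤ 2 ^ q := by exact_mod_cast (Nat.lt_two_pow_self (n := q)).le
  have h7 : 24 * (D * 4 ^ C) < c * 2 ^ q := by
    rw [div_lt_iff₀ hc] at hg
    have : (2 : ℝ) ^ g ≤ 2 ^ q := pow_le_pow_right₀ (by norm_num) (by omega)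
    have := mul_le_mul_of_nonneg_left this hc.le
    linarith
  have h8 : (q : ℝ) * (1 / 2) ^ (2 * q) * 2 ^ q ≤ 1 := by
    have k1 : ((1 : ℝ) / 2) ^ (2 * q) * 2 ^ q * 2 ^ q = 1 := by
      rw [show 2 * q = q + q by ring, pow_add]
      have k2 : ((1 : ℝ) / 2) ^ q * 2 ^ q = 1 := by
        rw [← mul_pow]
        norm_num
      calc ((1 : ℝ) / 2) ^ q * (1 / 2) ^ q * 2 ^ q * 2 ^ q = ((1 / 2) ^ q * 2 ^ q) * ((1 / 2) ^ q * 2 ^ q) := by ring
        _ = 1 := by rw [k2, one_mul]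
    have k3 := mul_le_mul_of_nonneg_right h6 (show (0 : ℝ) ≤ (1 / 2) ^ (2 * q) * 2 ^ q by positivity)
    linarith
  have h9 := mul_le_mul_of_nonneg_right h3 (show (0 : ℝ) ≤ 2 ^ q by positivity)
  have h10 := mul_le_mul_of_nonneg_left h8 (show 0 ≤ 24 * (D * 4 ^ C) by positivity)
  linarith

/-- numbers: the windows of a word in the class p -/
lemma word {V : List Bool → ℝ} {m a b b0 ρ η B P N : ℝ} {l' : ℕ} {t : List Bool} (hV : Add1 V) (hm : 0 < m) (ha : 0 ≤ a)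
    (hml : m ≤ ML l') (hR : Rng V m a b (ML l') t) (ht : ML l' ≤ t.length)
    (hρ0 : 0 ≤ ρ) (hρ1 : ρ ≤ b0) (hb : b ≤ b0) (h1 : |a - ρ| + (b - a) ≤ η) (hab : a ≤ b) (hN : (t.length : ℝ) ≤ N)
    (hη : η * N ≤ B * P) (hs : (2 * b0 + 2) * ML l' ≤ B * P) {x y : ℕ} (hx : x ≤ y) (hy : y ≤ t.length) :
    |m * V (wd t x y) - ρ * ((y : ℝ) - x)| ≤ B * P := by
  have hx' : (x : ℝ) ≤ y := by exact_mod_cast hx
  have hy' : (y : ℝ) ≤ t.length := by exact_mod_cast hy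
  have hx0 : (0 : ℝ) ≤ x := Nat.cast_nonneg x
  have hV0 := mul_nonneg hm.le (hV.pos (wd t x y))
  have hb0 : 0 ≤ b := ha.trans hab
  have hML0 : (0 : ℝ) ≤ ML l' := Nat.cast_nonneg _
  have k0 := val_win hV hm.le hb0 hR ht hx hy
  obtain ⟨len, hlen⟩ : ∃ len : ℝ, len = (y : ℝ) - x := ⟨_, rfl⟩
  have hl0 : 0 ≤ len := by linarith
  rw [← hlen] at k0 ⊢
  by_cases h : ((ML l' : ℕ) : ℝ) ≤ len
  · obtain ⟨k1, k2⟩ := hR x y hx hy (by rw [← hlen]; exact h)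
    rw [← hlen] at k1 k2
    have ha1 := neg_abs_le (a - ρ)
    have ha2 := le_abs_self (a - ρ)
    have hη0 : 0 ≤ η := (add_nonneg (abs_nonneg _) (by linarith)).trans h1
    have k3 : η * len ≤ η * N := mul_le_mul_of_nonneg_left (by linarith) hη0
    have k4 : (b - ρ) * len ≤ η * len := mul_le_mul_of_nonneg_right (by linarith) hl0
    have k5 : (ρ - a) * len ≤ η * len := mul_le_mul_of_nonneg_right (by linarith) hl0
    rw [abs_le]
    constructor <;> linarith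
  · push Not at h
    have k2 : b * len ≤ b0 * ML l' := mul_le_mul hb h.le hl0 (by linarith)
    have k3 : ρ * len ≤ b0 * ML l' := mul_le_mul hρ1 h.le hl0 (by linarith)
    have k4 : 0 ≤ ρ * len := mul_nonneg hρ0 hl0
    have k5 : b * (ML l' : ℝ) ≤ b0 * ML l' := mul_le_mul_of_nonneg_right hb hML0
    have k6 : 0 ≤ b0 * (ML l' : ℝ) := mul_nonneg (by linarith) hML0
    rw [abs_le]
    constructor <;> linarith

/-- **general form** -/
theorem main {a0 b0 : ℝ} (ha0 : 0 < a0) (hab0 : a0 ≤ b0) (d0 : ℕ) (hS : StageQ) (hL : LowM) (hF : FK4) (hSh : ShortM) :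
    ∃ (c C : ℝ) (j0 : ℕ), 0 < c ∧ 0 < C ∧ ∀ (l0 : ℕ) (m : ℝ) (V : List Bool → ℝ), Add1 V → 0 < m → m ≤ PW.mZ (2 ^ l0) →
      Ini V m a0 b0 l0 d0 → ∃ ρ : ℝ, a0 ≤ ρ ∧ ρ ≤ b0 ∧ ∀ K, l0 + j0 ≤ K →
        gf {t | t ∈ WL K ∧ t.length ≤ ML (K + 2) ∧ ¬ ∀ x y : ℕ, x ≤ y → y ≤ t.length →
          |m * V (wd t x y) - ρ * ((y : ℝ) - x)| ≤ C * ((K : ℝ) - l0 + 1) ^ (-c) * PW.mZ (2 ^ K)} ≤
          ENNReal.ofReal (C * ((K : ℝ) - l0 + 1) ^ (-c)) * FK K := by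
  have hb0 : 0 < b0 := by linarith
  obtain ⟨r, c, p0, hr0, hr1, hc, hp03, hrp, hrh, hcl⟩ := classI hS ha0.le hab0 hb0 d0
  obtain ⟨p1, hp13, hcmp⟩ := compare hL hF
  obtain ⟨Cz, hCz, hup⟩ := exists_mz_up
  obtain ⟨Cs, hCs, hSh⟩ := hSh
  obtain ⟨p2, hp2⟩ : ∃ p2, p2 = p0 + p1 := ⟨_, rfl⟩
  have h1r : 0 < 1 - r := by linarith
  refine ⟨c, 32 * Cz * (2 / (1 - r) + 1) + (4 * b0 + 4) + (32 + 4 * Cs), 2 ^ p2, hc, by positivity,
    fun l0 m V hV hm hml hI => ?_⟩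
  -- the ranges
  have hex : ∀ p : ℕ, ∃ a b : ℝ, a0 ≤ a ∧ a ≤ b ∧ b ≤ b0 ∧ b - a ≤ r ^ (p + p2) ∧
      ∀ K n, K - l0 + 1 ≤ 2 ^ (p + p2) → l0 + 2 ^ (p + p2 - 3) ≤ K → n ≤ ML (K + 2) →
        HR V m a b (l0 + 2 ^ (p + p2 - 3)) (2 ^ (p + p2) * (1 / 2) ^ (K - (l0 + 2 ^ (p + p2 - 3)))) K n :=
    fun p => hcl (p + p2) (by omega) l0 m V hV hm hml hI
  choose a b ha hab hbb hba hHR using hex
  have hmeet : ∀ p, a p ≤ b (p + 1) ∧ a (p + 1) ≤ b p := by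
    intro p
    refine hcmp (p + p2) (by omega) l0 m V (a p) (b p) (a (p + 1)) (b (p + 1)) (hHR p) ?_
    have := hHR (p + 1)
    rwa [show p + 1 + p2 = p + p2 + 1 by ring] at this
  have hgeo : ∀ p, dist (a p) (a (p + 1)) ≤ (2 * r ^ p2) * r ^ p := by
    intro p
    have h1 := hba p
    have h2 := hba (p + 1)
    have h3 : r ^ (p + 1 + p2) ≤ r ^ (p + p2) := pow_le_pow_of_le_one hr0.le hr1.le (by omega)
    have h4 : (2 * r ^ p2) * r ^ p = 2 * r ^ (p + p2) := by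
      rw [pow_add]
      ring
    rw [h4, Real.dist_eq, abs_le]
    obtain ⟨h5, h6⟩ := hmeet p
    have := pow_pos hr0 (p + p2)
    constructor <;> linarith
  obtain ⟨ρ, hρ⟩ := cauchySeq_tendsto_of_complete (cauchySeq_of_le_geometric r _ hr1 hgeo)
  have hρa : ∀ p, |a p - ρ| ≤ 2 * r ^ (p + p2) / (1 - r) := by
    intro p
    have h := dist_le_of_le_geometric_of_tendsto r _ hr1 hgeo hρ p
    rw [Real.dist_eq] at h
    refine h.trans (le_of_eq ?_)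
    rw [pow_add]
    ring
  have hρ0 : a0 ≤ ρ := ge_of_tendsto' hρ ha
  have hρ1 : ρ ≤ b0 := le_of_tendsto' hρ fun p => (hab p).trans (hbb p)
  refine ⟨ρ, hρ0, hρ1, fun K hK => ?_⟩
  -- the class of K
  obtain ⟨j, hj⟩ : ∃ j, j = K - l0 := ⟨_, rfl⟩
  obtain ⟨p, hp⟩ : ∃ p, p = Nat.clog 2 (j + 1) := ⟨_, rfl⟩
  have hpl : j + 1 ≤ 2 ^ p := by
    rw [hp]
    exact Nat.le_pow_clog (by norm_num) _
  have hppos : p2 < p := by
    by_contra h
    have h1 : 2 ^ p ≤ 2 ^ p2 := Nat.pow_le_pow_right (by norm_num) (by omega)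
    omega
  have hpg : 2 ^ (p - 1) < j + 1 := by
    have h1 : 1 < j + 1 := by
      have : 1 ≤ 2 ^ p2 := Nat.one_le_two_pow
      omega
    have := Nat.pow_pred_clog_lt_self (b := 2) (by norm_num) h1
    rw [← hp] at this
    exact this
  obtain ⟨i, hi⟩ : ∃ i, i + p2 = p := ⟨p - p2, by omega⟩
  obtain ⟨q, hq⟩ : ∃ q, q = 2 ^ (p - 3) := ⟨_, rfl⟩
  have e2 : 2 ^ p = 8 * q := by
    rw [hq]
    conv_lhs => rw [show p = (p - 3) + 3 by omega, pow_add]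
    ring
  have e2' : (2 : ℝ) ^ p = 8 * q := by exact_mod_cast e2
  have e4 : 2 ^ (p - 1) = 4 * q := by
    rw [hq]
    conv_lhs => rw [show p - 1 = (p - 3) + 2 by omega, pow_add]
    ring
  have hq1 : 1 ≤ q := by
    rw [hq]
    exact Nat.one_le_two_pow
  have hH := hHR i K (ML (K + 2)) (by rw [hi, ← hj]; exact hpl) (by rw [hi, ← hq]; omega) le_rfl
  rw [hi, ← hq, e2'] at hH
  have hρi := hρa i
  have hbai := hba i
  rw [hi] at hρi hbai
  -- numbers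
  have hKz := mz_pos K
  have hη : (2 * r ^ p / (1 - r) + r ^ p) * (ML (K + 2) : ℝ) ≤
      (32 * Cz * (2 / (1 - r) + 1) * r ^ p) * PW.mZ (2 ^ K) := by
    have k1 := ML_le2 (K + 2)
    have k2 := hup K 2
    have k3 : (ML (K + 2) : ℝ) ≤ 32 * Cz * PW.mZ (2 ^ K) := by linarith
    have k4 : 0 ≤ 2 * r ^ p / (1 - r) + r ^ p := by positivity
    refine (mul_le_mul_of_nonneg_left k3 k4).trans (le_of_eq ?_)
    field_simp
  have hpq : p ≤ 3 * q := by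
    have := Q6.p_le p (by omega)
    rwa [← hq] at this
  have hpow : (1 / 2 : ℝ) ^ (K - (l0 + q)) ≤ r ^ p := by
    refine le_trans ?_ (hrh p)
    exact pow_le_pow_of_le_one (by norm_num) (by norm_num) (by omega)
  have hsm : (2 * b0 + 2) * (ML (l0 + q) : ℝ) ≤ ((4 * b0 + 4) * r ^ p) * PW.mZ (2 ^ K) := by
    have k1 := ML_le2 (l0 + q)
    have k2 := mz_low (l0 + q) (K - (l0 + q))
    rw [Nat.add_sub_cancel' (by omega)] at k2
    have k3 : PW.mZ (2 ^ (l0 + q)) ≤ (1 / 2) ^ (K - (l0 + q)) * PW.mZ (2 ^ K) := by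
      have k4 := mul_le_mul_of_nonneg_left k2 (show (0 : ℝ) ≤ (1 / 2) ^ (K - (l0 + q)) by positivity)
      rw [← mul_assoc, ← mul_pow] at k4
      norm_num at k4 ⊢
      exact k4
    have k5 := mul_le_mul_of_nonneg_right hpow hKz.le
    have k6 : (ML (l0 + q) : ℝ) ≤ 2 * (r ^ p * PW.mZ (2 ^ K)) := by linarith
    have k7 := mul_le_mul_of_nonneg_left k6 (show 0 ≤ 2 * b0 + 2 by linarith)
    linarith
  have hrpow : r ^ p ≤ ((K : ℝ) - l0 + 1) ^ (-c) := by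
    have hj1 : (K : ℝ) - l0 + 1 = ((j + 1 : ℕ) : ℝ) := by
      rw [hj]
      push_cast [Nat.cast_sub (show l0 ≤ K by omega)]
      ring
    have hj2 : ((j + 1 : ℕ) : ℝ) ≤ 2 ^ p := by exact_mod_cast hpl
    have hj3 : (0 : ℝ) < ((j + 1 : ℕ) : ℝ) := by positivity
    rw [hj1, hrp]
    calc (2 : ℝ) ^ (-(c * p)) = ((2 : ℝ) ^ p) ^ (-c) := by
          rw [← Real.rpow_natCast, ← Real.rpow_mul (by norm_num)]
          congr 1
          ring
      _ ≤ _ := Real.rpow_le_rpow_of_nonpos hj3 hj2 (by linarith)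
  obtain ⟨BB, hBB⟩ : ∃ BB, BB = (32 * Cz * (2 / (1 - r) + 1) + (4 * b0 + 4) + (32 + 4 * Cs)) *
    ((K : ℝ) - l0 + 1) ^ (-c) := ⟨_, rfl⟩
  have hB1 : (32 * Cz * (2 / (1 - r) + 1)) * r ^ p + (4 * b0 + 4) * r ^ p + (32 + 4 * Cs) * r ^ p ≤ BB := by
    rw [hBB, ← add_mul, ← add_mul]
    exact mul_le_mul_of_nonneg_left hrpow (by positivity)
  rw [← hBB]
  have hrp0 : 0 < r ^ p := by positivity
  have hA1 : 0 ≤ (32 * Cz * (2 / (1 - r) + 1)) * r ^ p := by positivity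
  have hA2 : 0 ≤ (4 * b0 + 4) * r ^ p := by positivity
  have hA3 : 0 ≤ (32 + 4 * Cs) * r ^ p := by positivity
  have key : {t | t ∈ WL K ∧ t.length ≤ ML (K + 2) ∧ ¬ ∀ x y : ℕ, x ≤ y → y ≤ t.length →
      |m * V (wd t x y) - ρ * ((y : ℝ) - x)| ≤ BB * PW.mZ (2 ^ K)} ⊆
      {t | t ∈ WL K ∧ t.length ≤ ML (K + 2) ∧ ¬ Rng V m (a i) (b i) (ML (l0 + q)) t} ∪
        {t | t ∈ SA ∧ t.length ≤ ML (l0 + q)} := by
    rintro t ⟨t1, t2, t3⟩
    by_cases t5 : ML (l0 + q) ≤ t.length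
    · left
      refine ⟨t1, t2, fun t4 => t3 fun x y hx hy => ?_⟩
      refine word (N := ML (K + 2)) (η := 2 * r ^ p / (1 - r) + r ^ p) hV hm (ha0.le.trans (ha i))
        (hml.trans ((mz_mono (by omega)).trans (ML_ge _))) t4 t5 (ha0.le.trans hρ0) hρ1 (hbb i) (add_le_add hρi hbai) (hab i)
        (by exact_mod_cast t2) ?_ ?_ hx hy
      · exact hη.trans (mul_le_mul_of_nonneg_right (by linarith) hKz.le)
      · exact hsm.trans (mul_le_mul_of_nonneg_right (by linarith) hKz.le)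
    · right
      exact ⟨t1.1, by omega⟩
  refine (gf_mono key).trans ((gf_union_le _ _).trans ?_)
  have hshort := hSh (l0 + q) (K - (l0 + q))
  rw [Nat.add_sub_cancel' (by omega)] at hshort
  refine (add_le_add hH hshort).trans ?_
  rw [← add_mul, ← ENNReal.ofReal_add (by positivity) (by positivity)]
  refine mul_le_mul' (ENNReal.ofReal_le_ofReal ?_) le_rfl
  -- the mass
  have k1 : (1 / 2 : ℝ) ^ (K - (l0 + q)) ≤ (1 / 2) ^ (3 * q) := pow_le_pow_of_le_one (by norm_num) (by norm_num) (by omega)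
  have k2 : (q : ℝ) * (1 / 2) ^ (3 * q) ≤ (1 / 2) ^ (2 * q) := by
    have h6 : (q : ℝ) ≤ 2 ^ q := by exact_mod_cast (Nat.lt_two_pow_self (n := q)).le
    have h7 := mul_le_mul_of_nonneg_right h6 (show (0 : ℝ) ≤ (1 / 2) ^ (3 * q) by positivity)
    refine h7.trans (le_of_eq ?_)
    rw [show 3 * q = q + 2 * q by ring, pow_add, ← mul_assoc, ← mul_pow]
    norm_num
  have k3 : (1 / 2 : ℝ) ^ (2 * q) ≤ 4 * r ^ p := by
    have h8 : (1 / 2 : ℝ) ^ (2 * q) ≤ (1 / 2) ^ (p - 2) := by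
      refine pow_le_pow_of_le_one (by norm_num) (by norm_num) ?_
      have : p - 3 < q := by
        rw [hq]
        exact Nat.lt_two_pow_self
      omega
    have h9 : (1 / 2 : ℝ) ^ (p - 2) = 4 * (1 / 2) ^ p := by
      have h10 : (1 / 2 : ℝ) ^ p = (1 / 2) ^ (p - 2) * (1 / 2) ^ 2 := by
        rw [← pow_add]
        congr 1
        omega
      rw [h10]
      ring
    rw [h9] at h8
    linarith [hrh p]
  have k4 : Cs * (1 / 2 : ℝ) ^ (K - (l0 + q)) ≤ Cs * r ^ p := mul_le_mul_of_nonneg_left hpow hCs.le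
  have k5 : (8 : ℝ) * q * (1 / 2) ^ (K - (l0 + q)) ≤ 32 * r ^ p := by
    have := mul_le_mul_of_nonneg_left k1 (show (0 : ℝ) ≤ 8 * q by positivity)
    linarith
  have k6 : 0 ≤ Cs * r ^ p := by positivity
  linarith

end D4

open D4 in
/-- **D4, words** -/
theorem denI_of (hI : InitR) (hS : StageQ) (hL : LowM) (hF : FK4) (hSh : ShortM) : DenI := by
  obtain ⟨a0, b0, d0, ha0, hab0, hI⟩ := hI
  obtain ⟨c, C, j0, hc, hC, h⟩ := D4.main ha0 hab0 d0 hS hL hF hSh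
  refine ⟨c, C / a0 + C, j0, hc, by positivity, fun r l V hr hV hl1 hl2 => ?_⟩
  have hm0 := mz_pos l
  have hIni : Ini V (PW.mZ (2 ^ l)) a0 b0 l d0 := by
    intro K n p hp hK hn
    have hlog : Nat.log 2 (K - l + 1) ≤ p := by
      calc Nat.log 2 (K - l + 1) ≤ Nat.log 2 (2 ^ p) := Nat.log_mono_right hp
        _ = p := Nat.log_pow (by norm_num) p
    have hnl : nl d0 K l ≤ l + d0 + p := by
      unfold nl
      omega
    exact Q5.HR.mono (hI r l V hr hV hl1 hl2 K n (hnl.trans hK) hn) hnl le_rfl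
  obtain ⟨ρ, hρ0, hρ1, h⟩ := h l (PW.mZ (2 ^ l)) V hV.toAdd1 hm0 le_rfl hIni
  have hρ : 0 < ρ := ha0.trans_le hρ0
  refine ⟨PW.mZ (2 ^ l) / ρ, by positivity, fun K hK => ?_⟩
  have hx : (0 : ℝ) ≤ ((K : ℝ) - l + 1) ^ (-c) := by
    refine Real.rpow_nonneg ?_ _
    have : (l : ℝ) ≤ K := by exact_mod_cast (by omega : l ≤ K)
    linarith
  have hKz := mz_pos K
  refine (gf_mono ?_).trans ((h K hK).trans (mul_le_mul' (ENNReal.ofReal_le_ofReal ?_) le_rfl))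
  · rintro t ⟨t1, t2, t3⟩
    refine ⟨t1, t2, fun t4 => t3 fun x y hxy hy => ?_⟩
    have k1 := t4 x y hxy hy
    have e : PW.mZ (2 ^ l) / ρ * V (wd t x y) - ((y : ℝ) - x) =
        (PW.mZ (2 ^ l) * V (wd t x y) - ρ * ((y : ℝ) - x)) / ρ := by
      field_simp
    rw [e, abs_div, abs_of_pos hρ, div_le_iff₀ hρ]
    refine k1.trans ?_
    have k2 : C * ((K : ℝ) - l + 1) ^ (-c) * PW.mZ (2 ^ K) =
        (C / a0 * ((K : ℝ) - l + 1) ^ (-c) * PW.mZ (2 ^ K)) * a0 := by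
      field_simp
    rw [k2]
    have k3 : 0 ≤ C / a0 * ((K : ℝ) - l + 1) ^ (-c) * PW.mZ (2 ^ K) := by positivity
    have k4 : 0 ≤ C * ((K : ℝ) - l + 1) ^ (-c) * PW.mZ (2 ^ K) := by positivity
    have k5 := mul_le_mul_of_nonneg_left hρ0 k3
    have k6 := mul_nonneg k4 hρ.le
    linarith
  · have : 0 ≤ C / a0 * ((K : ℝ) - l + 1) ^ (-c) := by positivity
    linarith

end NPR

end HexObs
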