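import Pool.Agent.NPR.Defs
import Pool.Agent.TIP.StrU
import Pool.Agent.TIP.NgA
import Pool.Agent.EN.FactsZ

/-!
# ERG (no drift): the mass of the words with a typical number of letters in a box (helper41)

**`low_mass`**.
-/

set_option autoImplicit false

namespace HexObs

namespace NPR

open Finset TS SDN TIW NTA TIP

open scoped ENNReal

namespace LowM

lemma sum_gf (S : Finset ℕ) (A : ℕ → Set (List Bool)) (h : ∀ n t, t ∈ A n → t.length = n) :
    ∑ n ∈ S, gf (A n) = gf {t | t.length ∈ S ∧ t ∈ A t.length} := by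
  classical
  induction S using Finset.induction_on with
  | empty =>
    rw [sum_empty]
    have : {t : List Bool | t.length ∈ (∅ : Finset ℕ) ∧ t ∈ A t.length} = ∅ := by
      ext t
      simp
    rw [this]
    unfold gf
    simp
  | insert a S ha ih =>
    rw [sum_insert ha, ih, ← gf_union]
    · congr 1
      ext t
      constructor
      · rintro (h1 | ⟨h1, h2⟩)
        · have h2 := h a t h1
          exact ⟨by rw [h2]; exact mem_insert_self _ _, by rw [h2]; exact h1⟩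
        · exact ⟨mem_insert_of_mem h1, h2⟩
      · rintro ⟨h1, h2⟩
        rcases mem_insert.1 h1 with h3 | h3
        · left
          rw [← h3]
          exact h2
        · exact Or.inr ⟨h3, h2⟩
    · rw [Set.disjoint_left]
      rintro t h1 ⟨h2, -⟩
      rw [h a t h1] at h2
      exact ha h2

end LowM

/-- **the words of the box with a typical number of letters** -/
theorem low_mass : ∃ (c : ℝ) (C k0 : ℕ), 0 < c ∧ ∀ k, k0 ≤ k → ENNReal.ofReal c * FK k ≤
    gf {t | t ∈ WL (k + C) ∧ PW.mZ (2 ^ k) ≤ (t.length : ℝ) ∧ (t.length : ℝ) < PW.mZ (2 ^ (k + 1))} := by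
  obtain ⟨c1, κ, k1, hc1, -, hbig⟩ := EN.factsX_M.big
  obtain ⟨cc, C, k2, d, A, LB, -, -, hstr⟩ := TIP.strU (1 / 2) (by norm_num)
  refine ⟨c1 / 8, C, max (max k1 k2) 4, by positivity, fun k hk => ?_⟩
  have hka : k1 ≤ k := ((le_max_left _ _).trans (le_max_left _ _)).trans hk
  have hkb : k2 ≤ k := ((le_max_right _ _).trans (le_max_left _ _)).trans hk
  have hkc : 4 ≤ k := (le_max_right _ _).trans hk
  obtain ⟨a, ha⟩ : ∃ a, a = PW.mZ (2 ^ k) := ⟨_, rfl⟩
  obtain ⟨b, hb⟩ : ∃ b, b = PW.mZ (2 ^ (k + 1)) := ⟨_, rfl⟩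
  have ha0 : 0 < a := by
    rw [ha]
    exact PW.mZ_pos Nat.one_le_two_pow
  have hab : 2 * a ≤ b := by
    have h1 := PW.mZ_slope (b := 2) (N := 2 ^ k) (by norm_num)
    rw [show 2 * 2 ^ k = 2 ^ (k + 1) by ring, ← ha, ← hb] at h1
    have h2 : (2 : ℝ) ≤ ((2 : ℕ) : ℝ) ^ (5 / 4 : ℝ) := by
      push_cast
      calc (2 : ℝ) = 2 ^ (1 : ℝ) := by rw [Real.rpow_one]
        _ ≤ _ := Real.rpow_le_rpow_of_exponent_le (by norm_num) (by norm_num)
    nlinarith
  have ha4 : 4 ≤ a := by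
    have h1 := PW.le_mZ (2 ^ k)
    rw [← ha] at h1
    refine le_trans ?_ h1
    have h2 : (16 : ℝ) ≤ ((2 ^ k : ℕ) : ℝ) := by
      have h3 : 2 ^ 4 ≤ 2 ^ k := Nat.pow_le_pow_right (by norm_num) hkc
      exact_mod_cast h3
    calc (4 : ℝ) ≤ ((2 ^ k : ℕ) : ℝ) ^ (1 : ℝ) := by
          rw [Real.rpow_one]
          linarith
      _ ≤ _ := Real.rpow_le_rpow_of_exponent_le (by linarith) (by norm_num)
  rw [← ha, ← hb]
  -- one number of letters
  have hone : ∀ n : ℕ, a ≤ n → (n : ℝ) < b →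
      ENNReal.ofReal (c1 * Ub k / (2 * a)) * Xb k ^ 2 ≤ gf {t | t ∈ SawN n ∧ t ∈ WL (k + C)} := by
    intro n h1 h2
    rw [ha] at h1
    rw [hb] at h2
    have h3 : ENNReal.ofReal c1 * HexObs.NTW.nuX (fun k => PW.mZ (2 ^ k)) k ≤ gf (SawN n) :=
      (hbig k n hka h1 h2).trans (gf_mono fun t ht => ht.1)
    obtain ⟨B, hB, hB2⟩ := hstr k n hkb ⟨h1, h2⟩
    have h4 : TOG.Pn n {t | t ∉ WL (k + C)} ≤ 1 / 2 := by
      refine le_trans ?_ hB
      unfold TOG.Pn
      refine div_le_div_of_nonneg_right ?_ (Nat.cast_nonneg _)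
      have hf : ∀ C : Set (List Bool), {t | t ∈ SawN n ∧ t ∈ C}.Finite := fun C =>
        (List.finite_length_eq Bool n).subset fun t ht => ht.1.1
      refine Nat.cast_le.2 (Set.ncard_le_ncard (fun t ht => ⟨ht.1, ?_⟩) (hf B))
      by_contra htB
      exact ht.2 (hB2 t ht.1 htB).1
    have h5 := NgA.Pn_mul n {t | t ∉ WL (k + C)}
    have h6 : gf (SawN n) ≤ gf {t | t ∈ SawN n ∧ t ∈ WL (k + C)} + gf {t | t ∈ SawN n ∧ t ∈ {t | t ∉ WL (k + C)}} := by
      refine (gf_mono fun t ht => ?_).trans (gf_union_le _ _)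
      by_cases h : t ∈ WL (k + C)
      · exact Or.inl ⟨ht, h⟩
      · exact Or.inr ⟨ht, h⟩
    have hft : gf (SawN n) ≠ ⊤ := by
      have h7 : gf (SawN n) = ENNReal.ofReal ((cS n : ℝ) * xc ^ n) := TOG.gf_ncard subset_rfl
      rw [h7]
      exact ENNReal.ofReal_ne_top
    have h7 : gf {t | t ∈ SawN n ∧ t ∈ {t | t ∉ WL (k + C)}} ≤ gf (SawN n) * (1 / 2) := by
      rw [← h5]
      refine mul_le_mul' le_rfl ?_
      have h8 : ENNReal.ofReal (1 / 2) = 1 / 2 := by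
        rw [ENNReal.ofReal_div_of_pos (by norm_num)]
        simp
      rw [← h8]
      exact ENNReal.ofReal_le_ofReal h4
    have h8 : gf (SawN n) * (1 / 2) ≤ gf {t | t ∈ SawN n ∧ t ∈ WL (k + C)} := by
      have h9 : gf (SawN n) * (1 / 2) + gf (SawN n) * (1 / 2) = gf (SawN n) := by
        rw [← mul_add]
        have : (1 / 2 : ℝ≥0∞) + 1 / 2 = 1 := ENNReal.add_halves 1
        rw [this, mul_one]
      have h10 : gf (SawN n) * (1 / 2) + gf (SawN n) * (1 / 2) ≤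
          gf {t | t ∈ SawN n ∧ t ∈ WL (k + C)} + gf (SawN n) * (1 / 2) := by
        rw [h9]
        exact h6.trans (add_le_add le_rfl h7)
      exact (ENNReal.add_le_add_iff_right (ENNReal.mul_ne_top hft (by simp))).1 h10
    refine le_trans ?_ h8
    refine le_trans (le_of_eq ?_) (mul_le_mul' h3 le_rfl)
    unfold HexObs.NTW.nuX
    beta_reduce
    rw [← ha]
    have h9 : (1 / 2 : ℝ≥0∞) = ENNReal.ofReal (1 / 2) := by
      rw [ENNReal.ofReal_div_of_pos (by norm_num)]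
      simp
    rw [h9]
    have hU := Ub_pos k
    calc ENNReal.ofReal (c1 * Ub k / (2 * a)) * Xb k ^ 2
        = ENNReal.ofReal (c1 * ((Ub k / a) * (1 / 2))) * Xb k ^ 2 := by
          congr 2
          field_simp
      _ = _ := by
          rw [ENNReal.ofReal_mul hc1.le, ENNReal.ofReal_mul (by positivity)]
          ring
  -- the number of the numbers
  obtain ⟨S, hS⟩ : ∃ S : Finset ℕ, S = Ico ⌈a⌉₊ ⌈b⌉₊ := ⟨_, rfl⟩
  have hSm : ∀ n ∈ S, a ≤ n ∧ (n : ℝ) < b := by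
    intro n hn
    rw [hS, mem_Ico, Nat.ceil_le, Nat.lt_ceil] at hn
    exact hn
  have hSc : a / 2 ≤ (S.card : ℝ) := by
    rw [hS, Nat.card_Ico]
    have h1 := Nat.le_ceil b
    have h2 := Nat.ceil_lt_add_one ha0.le
    have h3 : (⌈b⌉₊ : ℝ) ≤ ((⌈b⌉₊ - ⌈a⌉₊ : ℕ) : ℝ) + ⌈a⌉₊ := by
      have : ⌈b⌉₊ ≤ (⌈b⌉₊ - ⌈a⌉₊) + ⌈a⌉₊ := by omega
      exact_mod_cast this
    linarith
  have hsum : ∑ n ∈ S, gf {t | t ∈ SawN n ∧ t ∈ WL (k + C)} ≤
      gf {t | t ∈ WL (k + C) ∧ a ≤ (t.length : ℝ) ∧ (t.length : ℝ) < b} := by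
    rw [LowM.sum_gf S (fun n => {t | t ∈ SawN n ∧ t ∈ WL (k + C)}) fun n t ht => ht.1.1]
    refine gf_mono ?_
    rintro t ⟨h1, -, h3⟩
    exact ⟨h3, hSm _ h1⟩
  refine le_trans ?_ hsum
  have h1 : (S.card : ℝ≥0∞) * (ENNReal.ofReal (c1 * Ub k / (2 * a)) * Xb k ^ 2) ≤
      ∑ n ∈ S, gf {t | t ∈ SawN n ∧ t ∈ WL (k + C)} := by
    rw [← nsmul_eq_mul, ← sum_const]
    exact sum_le_sum fun n hn => hone n (hSm n hn).1 (hSm n hn).2
  refine le_trans ?_ h1
  have hU := Ub_pos k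
  calc ENNReal.ofReal (c1 / 8) * FK k = ENNReal.ofReal (c1 / 8 * Ub k) * Xb k ^ 2 := by
        unfold FK
        rw [ENNReal.ofReal_mul (by positivity), mul_assoc]
    _ ≤ ENNReal.ofReal (a / 2 * (c1 * Ub k / (2 * a))) * Xb k ^ 2 := by
        refine mul_le_mul' (ENNReal.ofReal_le_ofReal ?_) le_rfl
        have e1 : a / 2 * (c1 * Ub k / (2 * a)) = c1 * Ub k / 4 := by
          field_simp
          ring
        rw [e1]
        have : 0 < c1 * Ub k := by positivity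
        linarith
    _ = ENNReal.ofReal (a / 2) * (ENNReal.ofReal (c1 * Ub k / (2 * a)) * Xb k ^ 2) := by
        rw [ENNReal.ofReal_mul (by positivity), mul_assoc]
    _ ≤ _ := by
        refine mul_le_mul' ?_ le_rfl
        rw [← ENNReal.ofReal_natCast]
        exact ENNReal.ofReal_le_ofReal hSc

end NPR

end HexObs
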