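import Pool.Agent.NPR.Stage

/-!
# ERG (no drift, doc next/46f0ca_14): quantitative stage, row Q4 (helper10)

* `LeafQ` : `LeafN` with polynomial bounds; `StageQ` : the new range does not depend on the box, the scales depend only on
  `p` with `K - l + 1 ≤ 2 ^ p`.
* **`stageQ_of`** : `ET κ C b0 k → LeafQ → StageQ`.
-/

set_option autoImplicit false

namespace HexObs

namespace NPR

open Finset TS SDN TIW NTA TIP

open scoped ENNReal

/-- **L3 + L4 with bounds**: polynomial dependence on ε -/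
def LeafQ : Prop := ∀ δ Lam : ℝ, 0 < δ → 0 < Lam → ∃ A : ℕ, 1 ≤ A ∧ ∀ ε : ℝ, 0 < ε → ε ≤ 1 →
  ∃ (R L0 : ℕ) (θ τ : ℝ), 1 ≤ R ∧ (R : ℝ) ≤ A * (1 / ε) ^ A ∧ (L0 : ℝ) ≤ A * (1 / ε) ^ A ∧ ε ^ A / A ≤ θ ∧
    ε ^ A / A ≤ τ ∧ τ ≤ 1 ∧ ∀ L, L0 ≤ L → ∀ φ : List Bool → ℝ, (∀ g, 0 ≤ φ g) → ∃ ms : ℝ, 0 ≤ ms ∧
      gf {t | t ∈ WL (L + 16) ∧ t ∈ Fac (Mid L (ML L) \
        TLf R (PW.mZ (2 ^ L)) (τ * PW.mZ (2 ^ L)) Lam θ ε ms φ)} ≤ ENNReal.ofReal δ * FK L

/-- **S2 with bounds**: the new range depends only on l, V, m, a, b -/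
def StageQ : Prop := ∀ bm : ℝ, 0 < bm → ∃ A : ℕ, 1 ≤ A ∧ ∀ ε : ℝ, 0 < ε → ε ≤ 1 → ∃ (θ : ℝ) (d : ℕ),
  ε ^ A / A ≤ θ ∧ θ ≤ 1 / 2 ∧ (d : ℝ) ≤ A * (1 / ε) ^ A ∧
  ∀ (l : ℕ) (V : List Bool → ℝ) (m a b : ℝ), Add1 V → 0 < m → m ≤ PW.mZ (2 ^ l) → 0 ≤ a → a + ε ≤ b → b ≤ bm →
    ∃ a' b' : ℝ, a ≤ a' ∧ a' ≤ b' ∧ b' ≤ b ∧ b' - a' ≤ (1 - θ) * (b - a) ∧
      ∀ (K n p : ℕ) (e : ℝ), 0 ≤ e → K - l + 1 ≤ 2 ^ p → l + d + p ≤ K → n ≤ ML (K + 2) → HR V m a b l e K n →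
        HR V m a' b' (l + d + p) (e + (1 / 16) ^ (K - l)) K n

/-- the length of the chains -/
lemma num_massQ {C B : ℝ} (hC : 1 ≤ C) (hB : 1 ≤ B) {A : ℕ} (hA : 3072 * C * B ≤ 4 ^ A) {K L l : ℕ}
    (hlL : l ≤ L) (hLK : L ≤ K) :
    48 * C * 4 ^ (K - L) * (B ^ (K - L) / 4 ^ (A * (K - l + 1))) ≤ (1 / 16) ^ (K - l) := by
  obtain ⟨j, hj⟩ : ∃ j, j = K - l := ⟨_, rfl⟩
  rw [← hj]
  have h1 : (4 * B) ^ (K - L) ≤ (4 * B) ^ j := pow_le_pow_right₀ (by linarith) (by omega)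
  have h2 : (3072 * C * B) ^ (j + 1) ≤ (4 : ℝ) ^ (A * (j + 1)) := by
    rw [pow_mul]
    exact pow_le_pow_left₀ (by positivity) hA _
  have h3 : (48 * C) * (4 * B) ^ j * 16 ^ j ≤ (3072 * C * B) ^ (j + 1) := by
    have e : (3072 * C * B) ^ (j + 1) = (3072 * C * B) * ((48 * C) ^ j * ((4 * B) ^ j * 16 ^ j)) := by
      rw [pow_succ, ← mul_pow, ← mul_pow, mul_comm]
      congr 2
      ring
    rw [e]
    have h4 : 1 ≤ (48 * C) ^ j := one_le_pow₀ (by linarith)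
    have h5 : 0 < (4 * B) ^ j * 16 ^ j := by positivity
    have h6 : 48 * C ≤ 3072 * C * B := by nlinarith
    have h7 : (4 * B) ^ j * 16 ^ j ≤ (48 * C) ^ j * ((4 * B) ^ j * 16 ^ j) := le_mul_of_one_le_left h5.le h4
    have h8 := mul_le_mul h6 h7 h5.le (by positivity)
    linarith
  rw [one_div, inv_pow, ← mul_div_assoc, div_le_iff₀ (by positivity)]
  rw [inv_mul_eq_div, le_div_iff₀ (by positivity)]
  calc 48 * C * 4 ^ (K - L) * B ^ (K - L) * 16 ^ j = 48 * C * (4 * B) ^ (K - L) * 16 ^ j := by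
        rw [mul_pow]
        ring
    _ ≤ 48 * C * (4 * B) ^ j * 16 ^ j := by
        refine mul_le_mul_of_nonneg_right (mul_le_mul_of_nonneg_left h1 (by linarith)) (by positivity)
    _ ≤ _ := h3.trans h2

/-- one stage, all data explicit -/
theorem stage_core {κ Cz B δ θ τ ε bm : ℝ} {C b0 k L0 R d1 d2 A : ℕ} (hB : 1 ≤ B) (hCz : 1 ≤ Cz)
    (hup : ∀ l j : ℕ, PW.mZ (2 ^ (l + j)) ≤ Cz * 4 ^ j * PW.mZ (2 ^ l))
    (hET : ∀ (L : ℕ) (QQ : Set (List Bool)), L0 ≤ L →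
      gf {t | t ∈ WL (L + 16) ∧ t ∈ Fac QQ} ≤ ENNReal.ofReal δ * FK L → ∀ K J s : ℕ, L + 16 ≤ K →
      gf {t | t ∈ WL K ∧ s + 3 * ML L * (J + 1) < t.length ∧ ¬ ∃ g, J ≤ 2 * g ∧ Ch κ C b0 k L QQ J g (t.drop s)} ≤
        ENNReal.ofReal (B ^ (K - L) / 4 ^ J) * FK K)
    (hbm : 0 < bm) (hε : 0 < ε) (hθ : 0 < θ) (hτ : 0 < τ)
    (hτ2 : 2 * (bm + 2) ≤ 2 ^ d1 * τ) (hθ2 : 32 * (2 * R + 19) * (bm + 2) ≤ 2 ^ d1 * (ε * θ)) (hL0 : L0 ≤ d1)
    (hA0 : 1 ≤ A) (hA : 3072 * Cz * B ≤ 4 ^ A) (hA2 : 56 * (A : ℝ) ≤ 2 ^ d2) (hd2 : 16 ≤ d2)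
    {l : ℕ} {V : List Bool → ℝ} {m a b ms : ℝ} (hV : Add1 V) (hm : 0 < m) (hml : m ≤ PW.mZ (2 ^ l)) (ha : 0 ≤ a)
    (hab : a + ε ≤ b) (hb : b ≤ bm)
    (hms2 : gf {t | t ∈ WL (l + d1 + 16) ∧ t ∈ Fac (Mid (l + d1) (ML (l + d1)) \
      TLf R (PW.mZ (2 ^ (l + d1))) (τ * PW.mZ (2 ^ (l + d1))) (bm + 1) θ (ε / 8) ms (fun g => m * V g))} ≤
        ENNReal.ofReal δ * FK (l + d1)) :
    ∃ a' b' : ℝ, a ≤ a' ∧ a' ≤ b' ∧ b' ≤ b ∧ b' - a' ≤ (1 - min θ 1 / 448) * (b - a) ∧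
      ∀ (K n p : ℕ) (e : ℝ), 0 ≤ e → K - l + 1 ≤ 2 ^ p → l + (d1 + d2) + p ≤ K → n ≤ ML (K + 2) → HR V m a b l e K n →
        HR V m a' b' (l + (d1 + d2) + p) (e + (1 / 16) ^ (K - l)) K n := by
  obtain ⟨L, hL⟩ : ∃ L, L = l + d1 := ⟨_, rfl⟩
  rw [← hL] at hms2
  have hET2 := hET L _ (by omega) hms2
  obtain ⟨Mz, hMz⟩ : ∃ Mz, Mz = PW.mZ (2 ^ L) := ⟨_, rfl⟩
  have hlow : (2 : ℝ) ^ d1 * PW.mZ (2 ^ l) ≤ Mz := by
    rw [hMz, hL]
    exact mz_low l d1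
  have hml1 := mz_one l
  have hMz0 : 0 < Mz := by
    rw [hMz]
    exact mz_pos L
  rw [← hMz] at hms2 hET2
  -- the range
  obtain ⟨θs, hθs⟩ : ∃ θs, θs = min θ 1 / 448 := ⟨_, rfl⟩
  have hθs0 : 0 ≤ θs := by
    rw [hθs]
    positivity
  have hθs1 : θs ≤ θ / 448 := by
    rw [hθs]
    have := min_le_left θ 1
    linarith
  have hθs2 : θs ≤ 1 := by
    rw [hθs]
    have := min_le_right θ 1
    linarith
  rw [← hθs]
  have hba : 0 < b - a := by linarith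
  have hsh : θs * (b - a) ≤ (b - a) / 8 * (θ / 56) := by
    have := mul_le_mul_of_nonneg_right hθs1 hba.le
    linarith
  have hsh0 : 0 ≤ θs * (b - a) := mul_nonneg hθs0 hba.le
  have hsh1 : θs * (b - a) ≤ b - a := mul_le_of_le_one_left hba.le hθs2
  -- the new range on the good event
  have good : ∀ a' b' : ℝ, a' ≤ a + (b - a) / 8 * (θ / 56) → b - (b - a) / 8 * (θ / 56) ≤ b' →
      ((a' ≤ a ∧ ms + ε / 8 + 2 * ((b - a) / 8) ≤ b) ∨ (b ≤ b' ∧ a + ε / 8 + 2 * ((b - a) / 8) ≤ ms)) →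
      ∀ (K n p : ℕ) (e : ℝ), 0 ≤ e → K - l + 1 ≤ 2 ^ p → l + (d1 + d2) + p ≤ K → n ≤ ML (K + 2) → HR V m a b l e K n →
        HR V m a' b' (l + (d1 + d2) + p) (e + (1 / 16) ^ (K - l)) K n := by
    intro a' b' ha' hb' hc K n p e he hp hK hn hHR
    have hLK : L + 16 ≤ K := by omega
    obtain ⟨J, hJ⟩ : ∃ J, J = A * (K - l + 1) := ⟨_, rfl⟩
    have hJ1 : 1 ≤ J := by
      rw [hJ]
      exact Nat.mul_pos hA0 (by omega)
    obtain ⟨QQ, hQQ⟩ : ∃ QQ, QQ = Mid L (ML L) \ TLf R Mz (τ * Mz) (bm + 1) θ (ε / 8) ms (fun g => m * V g) := ⟨_, rfl⟩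
    rw [← hQQ] at hET2
    obtain ⟨N0, hN0⟩ : ∃ N0, N0 = ML (K + 2) / ML L + 1 := ⟨_, rfl⟩
    have key : {t | t ∈ WL K ∧ t.length ≤ n ∧ ¬ Rng V m a' b' (ML (l + (d1 + d2) + p)) t} ⊆
        {t | t ∈ WL K ∧ t.length ≤ n ∧ ¬ Rng V m a b (ML l) t} ∪ {t | ∃ i, i < N0 ∧ t ∈ {t | t ∈ WL K ∧
          i * ML L + 3 * ML L * (J + 1) < t.length ∧ ¬ ∃ g, J ≤ 2 * g ∧ Ch κ C b0 k L QQ J g (t.drop (i * ML L))}} := by
      rintro t ⟨h1, h2, h3⟩
      by_cases h4 : Rng V m a b (ML l) t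
      · right
        by_contra h5
        apply h3
        -- short words
        by_cases h6 : ML l ≤ t.length
        · have hSg : Sg V m a b ((bm + 2) * ML l) t (ML l) (τ * Mz) (bm + 1) := by
            refine ⟨hV, hm.le, ha, by linarith, h4, h6, ?_, ?_⟩
            · have k1 := ML_ge l
              have k2 : b * (ML l : ℝ) ≤ bm * ML l := mul_le_mul_of_nonneg_right hb (Nat.cast_nonneg _)
              linarith
            · have k1 := ML_le2 l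
              have k2 : (bm + 2) * (ML l : ℝ) ≤ (bm + 2) * (2 * PW.mZ (2 ^ l)) :=
                mul_le_mul_of_nonneg_left k1 (by linarith)
              have k3 : 2 * (bm + 2) * PW.mZ (2 ^ l) ≤ (2 ^ d1 * τ) * PW.mZ (2 ^ l) :=
                mul_le_mul_of_nonneg_right hτ2 (by linarith)
              have k4 : τ * (2 ^ d1 * PW.mZ (2 ^ l)) ≤ τ * Mz := mul_le_mul_of_nonneg_left hlow hτ.le
              have k5 : τ * Mz ≤ (bm + 1 - b) * (τ * Mz) := le_mul_of_one_le_left (by positivity) (by linarith)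
              linarith
          refine hSg.rng' (L := L) (R := R) (J := J) (M := Mz) (θ := θ) (ε := ε / 8) (ms := ms) (s := (b - a) / 8)
            (κ := κ) (C := C) (b0 := b0) (k := k) hθ.le hMz0.le ?_ hJ1 (by linarith) (QQ := QQ) (by rw [hQQ]) ?_ ?_
            ha' hb' hc ?_ ?_
          · rw [hMz]
            exact ML_le2 L
          · intro i hi
            by_contra h7
            refine h5 ⟨i, ?_, h1, hi, h7⟩
            rw [hN0, Nat.lt_succ_iff, Nat.le_div_iff_mul_le (ML_pos L)]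
            omega
          · have k1 := ML_le2 l
            have k2 : 2 * (2 * (R : ℝ) + 19) * ((bm + 2) * ML l) ≤ 2 * (2 * (R : ℝ) + 19) * ((bm + 2) * (2 * PW.mZ (2 ^ l))) :=
              mul_le_mul_of_nonneg_left (mul_le_mul_of_nonneg_left k1 (by linarith)) (by positivity)
            have k3 : 32 * (2 * (R : ℝ) + 19) * (bm + 2) * PW.mZ (2 ^ l) ≤ (2 ^ d1 * (ε * θ)) * PW.mZ (2 ^ l) :=
              mul_le_mul_of_nonneg_right hθ2 (by linarith)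
            have k4 : (ε * θ) * (2 ^ d1 * PW.mZ (2 ^ l)) ≤ (ε * θ) * Mz := mul_le_mul_of_nonneg_left hlow (by positivity)
            have k5 : ε * (θ * Mz) ≤ (b - a) * (θ * Mz) := mul_le_mul_of_nonneg_right (by linarith) (by positivity)
            linarith
          · exact_mod_cast ML_mono (show l ≤ l + (d1 + d2) + p by omega)
          · have k0 : (1 : ℝ) ≤ J := by exact_mod_cast hJ1
            have k1 := ML_le2 L
            have k2 := ML_ge (l + (d1 + d2) + p)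
            have k3 := mz_low L (d2 + p)
            have e1 : L + (d2 + p) = l + (d1 + d2) + p := by omega
            rw [e1, pow_add] at k3
            have k4 : ((K - l + 1 : ℕ) : ℝ) ≤ 2 ^ p := by exact_mod_cast hp
            have k5 : (4 * ((3 * (J : ℝ) + 4) * ML L)) ≤ 56 * J * Mz := by
              have q1 : (3 * (J : ℝ) + 4) ≤ 7 * J := by linarith
              have q2 : (3 * (J : ℝ) + 4) * ML L ≤ 7 * J * (2 * Mz) := by
                rw [hMz]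
                exact mul_le_mul q1 k1 (Nat.cast_nonneg _) (by linarith)
              linarith
            have k6 : 56 * (J : ℝ) ≤ 2 ^ d2 * 2 ^ p := by
              have e2 : (J : ℝ) = A * ((K - l + 1 : ℕ) : ℝ) := by
                rw [hJ]
                push_cast
                ring
              rw [e2]
              have q1 := mul_le_mul hA2 k4 (Nat.cast_nonneg _) (by positivity)
              linarith
            have k7 := mul_le_mul_of_nonneg_right k6 hMz0.le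
            push_cast
            rw [← hMz] at k3
            linarith
        · intro x y hx hy hxy
          exfalso
          have k1 : (ML l : ℝ) ≤ ML (l + (d1 + d2) + p) := by
            exact_mod_cast ML_mono (show l ≤ l + (d1 + d2) + p by omega)
          have k2 : (ML l : ℝ) ≤ y := by
            have : (0 : ℝ) ≤ x := Nat.cast_nonneg x
            linarith
          have k3 : ML l ≤ y := by exact_mod_cast k2
          omega
      · exact Or.inl ⟨h1, h2, h4⟩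
    refine (gf_mono key).trans ((gf_union_le _ _).trans ?_)
    rw [ENNReal.ofReal_add he (by positivity), add_mul]
    refine add_le_add hHR ?_
    refine (gf_range_le' N0 _ (fun i _ => hET2 K J (i * ML L) hLK)).trans ?_
    rw [← mul_assoc]
    refine mul_le_mul' ?_ le_rfl
    rw [← ENNReal.ofReal_natCast, ← ENNReal.ofReal_mul (Nat.cast_nonneg _)]
    refine ENNReal.ofReal_le_ofReal ?_
    have k1 := num_starts hCz hup (K := K) (L := L) (by omega)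
    rw [← hN0] at k1
    refine (mul_le_mul_of_nonneg_right k1 (by positivity)).trans ?_
    rw [hJ]
    exact num_massQ hCz hB hA (by omega) (by omega)
  rcases le_total ms ((a + b) / 2) with h | h
  · refine ⟨a, b - θs * (b - a), le_rfl, by linarith, by linarith, by linarith, ?_⟩
    exact good _ _ (by linarith) (by linarith) (Or.inl ⟨le_rfl, by linarith⟩)
  · refine ⟨a + θs * (b - a), b, by linarith, by linarith, le_rfl, by linarith, ?_⟩
    exact good _ _ (by linarith) (by linarith) (Or.inr ⟨le_rfl, by linarith⟩)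

/-- a small power of two above a number -/
lemma exists_pow_small (x : ℝ) (hx : 1 ≤ x) : ∃ d : ℕ, x ≤ 2 ^ d ∧ (d : ℝ) ≤ x + 1 := by
  refine ⟨⌈x⌉₊, ?_, ?_⟩
  · have h1 := Nat.le_ceil x
    have h2 : ((⌈x⌉₊ : ℕ) : ℝ) ≤ 2 ^ ⌈x⌉₊ := by exact_mod_cast Nat.lt_two_pow_self.le
    exact h1.trans h2
  · exact (Nat.ceil_lt_add_one (by linarith)).le

/-- **Q4** -/
theorem stageQ_of {κ : ℝ} {C b0 k : ℕ} (hET : ET κ C b0 k) (hLf : LeafQ) : StageQ := by
  intro bm hbm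
  obtain ⟨δ, B, L0, hδ, hB, hET⟩ := hET
  obtain ⟨A1, hA1, hLf⟩ := hLf δ (bm + 1) hδ (by linarith)
  obtain ⟨Cz, hCz, hup⟩ := exists_mz_up
  obtain ⟨A2, hA20, hA2⟩ : ∃ A : ℕ, 1 ≤ A ∧ 3072 * Cz * B ≤ 4 ^ A := by
    obtain ⟨n, hn⟩ := pow_unbounded_of_one_lt (3072 * Cz * B) (show (1 : ℝ) < 4 by norm_num)
    exact ⟨n + 1, by omega, hn.le.trans (pow_le_pow_right₀ (by norm_num) (by omega))⟩
  obtain ⟨g3, hg3⟩ := exists_pow (56 * (A2 : ℝ))
  obtain ⟨d2, hd2⟩ : ∃ d2, d2 = 16 + g3 := ⟨_, rfl⟩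
  have hA3 := pow_lift hg3 (show g3 ≤ d2 by omega)
  have hA1' : (1 : ℝ) ≤ A1 := by exact_mod_cast hA1
  have hC5 : (0 : ℝ) ≤ L0 + d2 + 2 + 674 * (bm + 2) := by positivity
  -- the constant
  obtain ⟨A, hA⟩ : ∃ A : ℕ, (448 * A1 * 8 ^ A1 : ℝ) + (L0 + d2 + 2 + 674 * (bm + 2)) * (A1 ^ 2 * 64 ^ A1) +
      (2 * A1 + 1) ≤ A := exists_nat_ge _
  have hp1 : (0 : ℝ) ≤ 448 * A1 * 8 ^ A1 := by positivity
  have hp2 : (0 : ℝ) ≤ (L0 + d2 + 2 + 674 * (bm + 2)) * (A1 ^ 2 * 64 ^ A1) := mul_nonneg hC5 (by positivity)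
  have hAA : 2 * A1 + 1 ≤ A := by
    have : ((2 * A1 + 1 : ℕ) : ℝ) ≤ A := by
      push_cast
      linarith
    exact_mod_cast this
  refine ⟨A, by omega, fun ε hε hε1 => ?_⟩
  obtain ⟨R, L1, θ, τ, hR, hR2, hL1, hθ, hτ, hτ1, hLf⟩ := hLf (ε / 8) (by linarith) (by linarith)
  obtain ⟨y, hy⟩ : ∃ y, y = 1 / ε := ⟨_, rfl⟩
  have hy1 : 1 ≤ y := by
    rw [hy, le_div_iff₀ hε]
    linarith
  obtain ⟨H, hH⟩ : ∃ H : ℝ, H = A1 * (8 * y) ^ A1 := ⟨_, rfl⟩
  have hH1 : 1 ≤ H := by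
    rw [hH]
    exact one_le_mul_of_one_le_of_one_le hA1' (one_le_pow₀ (by linarith))
  have e1 : 1 / (ε / 8) = 8 * y := by
    rw [hy]
    field_simp
  rw [e1, ← hH] at hR2 hL1
  have e2 : (ε / 8) ^ A1 / A1 = 1 / H := by
    rw [hH, ← e1, one_div, one_div, mul_inv, inv_pow, inv_inv, div_eq_inv_mul]
  rw [e2] at hθ hτ
  have hH0 : 0 < H := by linarith
  have hθ0 : 0 < θ := lt_of_lt_of_le (by positivity) hθ
  have hτ0 : 0 < τ := lt_of_lt_of_le (by positivity) hτ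
  have hθH : 1 ≤ H * θ := by
    rw [div_le_iff₀ hH0] at hθ
    linarith
  have hτH : 1 ≤ H * τ := by
    rw [div_le_iff₀ hH0] at hτ
    linarith
  have hyε : y * ε = 1 := by
    rw [hy]
    field_simp
  obtain ⟨x, hx⟩ : ∃ x, x = 2 * (bm + 2) * H + 32 * (2 * H + 19) * (bm + 2) * (y * H) := ⟨_, rfl⟩
  have hyH : 1 ≤ y * H := one_le_mul_of_one_le_of_one_le hy1 hH1
  have hx1 : 1 ≤ x := by
    rw [hx]
    have k1 : 0 ≤ 2 * (bm + 2) * H := by positivity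
    have k2 : 1 * 1 ≤ (32 * (2 * H + 19) * (bm + 2)) * (y * H) := by
      refine mul_le_mul ?_ hyH (by norm_num) (by positivity)
      nlinarith
    linarith
  obtain ⟨g, hg1, hg2⟩ := exists_pow_small x hx1
  obtain ⟨d1, hd1⟩ : ∃ d1, d1 = L0 + L1 + g := ⟨_, rfl⟩
  have hpow := pow_lift hg1 (show g ≤ d1 by omega)
  have hτ2 : 2 * (bm + 2) ≤ 2 ^ d1 * τ := by
    have k1 : 2 * (bm + 2) * H ≤ 2 ^ d1 := by
      refine le_trans ?_ hpow
      rw [hx]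
      have : 0 ≤ 32 * (2 * H + 19) * (bm + 2) * (y * H) := by positivity
      linarith
    have k2 := mul_le_mul_of_nonneg_right k1 hτ0.le
    have k3 := mul_le_mul_of_nonneg_left hτH (show 0 ≤ 2 * (bm + 2) by linarith)
    linarith
  have hθ2 : 32 * (2 * R + 19) * (bm + 2) ≤ 2 ^ d1 * (ε * θ) := by
    have k1 : 32 * (2 * R + 19) * (bm + 2) * (y * H) ≤ 2 ^ d1 := by
      refine le_trans ?_ hpow
      rw [hx]
      have q1 : 0 ≤ 2 * (bm + 2) * H := by positivity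
      have q2 : 32 * (2 * (R : ℝ) + 19) * (bm + 2) * (y * H) ≤ 32 * (2 * H + 19) * (bm + 2) * (y * H) := by
        refine mul_le_mul_of_nonneg_right (mul_le_mul_of_nonneg_right ?_ (by linarith)) (by linarith)
        linarith
      linarith
    have k2 := mul_le_mul_of_nonneg_right k1 (show 0 ≤ ε * θ by positivity)
    have k3 := mul_le_mul_of_nonneg_left hθH (show 0 ≤ 32 * (2 * (R : ℝ) + 19) * (bm + 2) * (y * ε) by positivity)
    have k4 : 32 * (2 * (R : ℝ) + 19) * (bm + 2) * (y * H) * (ε * θ) =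
        32 * (2 * (R : ℝ) + 19) * (bm + 2) * (y * ε) * (H * θ) := by ring
    rw [k4] at k2
    rw [mul_one, hyε, mul_one] at k3
    rw [hyε, mul_one] at k2
    linarith
  refine ⟨min θ 1 / 448, d1 + d2, ?_, ?_, ?_, ?_⟩
  · have k1 : 1 / H ≤ min θ 1 := by
      refine le_min hθ ?_
      rw [div_le_iff₀ hH0]
      linarith
    have k2 : ε ^ A / A ≤ 1 / H / 448 := by
      have q1 : ε ^ A ≤ ε ^ A1 := pow_le_pow_of_le_one hε.le hε1 (by omega)
      have q2 : 1 / H / 448 = ε ^ A1 / (448 * A1 * 8 ^ A1) := by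
        have q3 : (1 / ε) ^ A1 = (ε ^ A1)⁻¹ := by rw [one_div, inv_pow]
        rw [hH, hy, mul_pow, q3]
        field_simp
      rw [q2]
      refine div_le_div₀ (by positivity) q1 (by positivity) ?_
      linarith
    linarith
  · have := min_le_right θ 1
    linarith
  · have k1 : ((d1 + d2 : ℕ) : ℝ) ≤ L0 + H + (x + 1) + d2 := by
      rw [hd1]
      push_cast
      linarith
    have hHH : H ≤ H ^ 2 * y := by nlinarith [mul_nonneg (sub_nonneg.2 hH1) hH0.le, mul_nonneg (sub_nonneg.2 hy1) (sq_nonneg H)]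
    have h1H : 1 ≤ H ^ 2 * y := hH1.trans hHH
    have hyHH : y * H ≤ H ^ 2 * y := by nlinarith [mul_nonneg (sub_nonneg.2 hH1) (mul_nonneg hH0.le (by linarith : (0 : ℝ) ≤ y))]
    have k2 : x ≤ 674 * (bm + 2) * (H ^ 2 * y) := by
      rw [hx]
      have q1 : 2 * (bm + 2) * H ≤ 2 * (bm + 2) * (H ^ 2 * y) := mul_le_mul_of_nonneg_left hHH (by linarith)
      have q2 : 32 * (2 * H + 19) * (bm + 2) * (y * H) ≤ 672 * (bm + 2) * (H ^ 2 * y) := by
        have q3 : (2 * H + 19) * (y * H) ≤ 21 * (H ^ 2 * y) := by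
          have : (2 * H + 19) * (y * H) = 2 * (H ^ 2 * y) + 19 * (y * H) := by ring
          linarith
        have q4 := mul_le_mul_of_nonneg_left q3 (show 0 ≤ 32 * (bm + 2) by linarith)
        linarith
      linarith
    have k3 : ((d1 + d2 : ℕ) : ℝ) ≤ (L0 + d2 + 2 + 674 * (bm + 2)) * (H ^ 2 * y) := by
      have q1 : ((L0 : ℝ) + d2 + 1) ≤ (L0 + d2 + 1) * (H ^ 2 * y) := le_mul_of_one_le_right (by positivity) h1H
      have q2 : (L0 + d2 + 2 + 674 * (bm + 2)) * (H ^ 2 * y) =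
        (L0 + d2 + 1) * (H ^ 2 * y) + H ^ 2 * y + 674 * (bm + 2) * (H ^ 2 * y) := by ring
      rw [q2]
      linarith
    have k4 : H ^ 2 * y = (A1 ^ 2 * 64 ^ A1) * y ^ (2 * A1 + 1) := by
      have e8 : (64 : ℝ) ^ A1 = (8 ^ A1) ^ 2 := by
        rw [← pow_mul, mul_comm, pow_mul]
        norm_num
      have ey : y ^ (2 * A1 + 1) = (y ^ A1) ^ 2 * y := by rw [pow_succ, mul_comm 2 A1, pow_mul]
      rw [hH, mul_pow, e8, ey]
      ring
    rw [k4, ← mul_assoc] at k3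
    rw [← hy]
    refine k3.trans ?_
    refine mul_le_mul ?_ (pow_le_pow_right₀ hy1 hAA) (by positivity) (by linarith)
    linarith
  · intro l V m a b hV hm hml ha hab hb
    obtain ⟨ms, hms, hms2⟩ := hLf (l + d1) (by omega) (fun g => m * V g) (fun g => mul_nonneg hm.le (hV.pos g))
    exact stage_core hB hCz hup hET hbm hε hθ0 hτ0 hτ2 hθ2 (by omega) hA20 hA2 hA3 (by omega) hV hm hml ha hab hb hms2

end NPR

end HexObs
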