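import Pool.Agent.ERG.Dens
import Pool.Agent.ERG.LowM
import Pool.Agent.NPR.All
import Pool.Agent.NPR.AtypQ

/-!
# ERG (no drift): the density exists, no hypothesis (rows Q1 - Q6: 28, 41, 10; engine: NPR)

* `fk4 : FK4`, `stageQ : StageQ`, **`denG : DenG`**.
-/

set_option autoImplicit false

namespace HexObs

namespace NPR

open Finset TS SDN TIW NTA TIP

open scoped ENNReal

/-- the ratio of two scales -/
theorem fk4 : FK4 := by
  obtain ⟨D, hD, h⟩ := Fast.FK_rat
  refine ⟨max D 1, le_max_right _ _, fun L i => (h (L + i) L).trans (mul_le_mul' (ENNReal.ofReal_le_ofReal ?_) le_rfl)⟩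
  have e : (((L + i : ℕ) : ℝ) - L) = i := by
    push_cast
    ring
  rw [e]
  have h1 : (2 : ℝ) ^ (43 / 24 * (i : ℝ)) ≤ 4 ^ i := by
    calc (2 : ℝ) ^ (43 / 24 * (i : ℝ)) ≤ 2 ^ (2 * (i : ℝ)) :=
          Real.rpow_le_rpow_of_exponent_le (by norm_num) (by
            have : (0 : ℝ) ≤ i := Nat.cast_nonneg i
            linarith)
      _ = 4 ^ i := by
          rw [Real.rpow_mul (by norm_num), Real.rpow_natCast]
          norm_num
  exact mul_le_mul (le_max_left _ _) h1 (by positivity) (by positivity)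

theorem stageQ : StageQ := by
  obtain ⟨κ, C, b0, k, hκ, -, h, hR⟩ := et
  exact stageQ_of h (leafQ_of hκ hR atypQ)

/-- **the density exists** -/
theorem denG : DenG := denG_of stageQ low_mass fk4

end NPR

end HexObs
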