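import Pool.Agent.ERG.DensI
import Pool.Agent.ERG.DensZ

/-!
# ERG (no drift): `shortM : ShortM`, **`denI : DenI`** (no hypothesis)
-/

set_option autoImplicit false

namespace HexObs

namespace NPR

open Finset TS SDN TIW NTA TIP

open scoped ENNReal

theorem shortM : ShortM := by
  obtain ⟨C, hC, h⟩ := Fast.short_mass
  obtain ⟨M, hM, hmu⟩ := VF.mUp VF.sharpZ
  obtain ⟨D, hD, hF⟩ := Fast.le_FK
  obtain ⟨B, hB⟩ : ∃ B : ℝ, B = C * (2 * (1 + M)) ^ (43 / 32 : ℝ) := ⟨_, rfl⟩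
  have hB0 : 0 < B := by rw [hB]; positivity
  refine ⟨D * B, by positivity, fun l i => ?_⟩
  have hp : (0 : ℝ) < 2 ^ (4 / 3 * (l : ℝ)) := by positivity
  have hp1 : (1 : ℝ) ≤ 2 ^ (4 / 3 * (l : ℝ)) := Real.one_le_rpow (by norm_num) (by positivity)
  obtain ⟨x, hx⟩ : ∃ x : ℝ, x = 2 * (1 + M) * 2 ^ (4 / 3 * (l : ℝ)) := ⟨_, rfl⟩
  have hx1 : 1 ≤ x := by
    rw [hx]
    nlinarith
  have h1 : (ML l : ℝ) ≤ x := by
    have k1 := ML_le2 l
    have k2 := hmu l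
    rw [hx]
    nlinarith
  refine (gf_mono (fun t ht => ⟨ht.1, le_trans (by exact_mod_cast ht.2) h1⟩ :
    {t | t ∈ SA ∧ t.length ≤ ML l} ⊆ {t | t ∈ SA ∧ (t.length : ℝ) ≤ x})).trans ((h x hx1).trans ?_)
  have h2 : C * x ^ (43 / 32 : ℝ) = B * 2 ^ (43 / 24 * (l : ℝ)) := by
    rw [hx, hB, Real.mul_rpow (by positivity) hp.le, ← Real.rpow_mul (by norm_num)]
    rw [show 4 / 3 * (l : ℝ) * (43 / 32) = 43 / 24 * (l : ℝ) by ring]
    ring
  rw [h2]
  refine (hF B _ (l + i) hB0.le).trans (mul_le_mul' (ENNReal.ofReal_le_ofReal ?_) le_rfl)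
  have h3 : (2 : ℝ) ^ (43 / 24 * ((l : ℝ) - ((l + i : ℕ) : ℝ))) ≤ (1 / 2) ^ i := by
    have e : (l : ℝ) - ((l + i : ℕ) : ℝ) = -(i : ℝ) := by
      push_cast
      ring
    rw [e, one_div, inv_pow, ← Real.rpow_natCast, ← Real.rpow_neg (by norm_num)]
    refine Real.rpow_le_rpow_of_exponent_le (by norm_num) ?_
    have : (0 : ℝ) ≤ i := Nat.cast_nonneg _
    linarith
  exact mul_le_mul_of_nonneg_left h3 (by positivity)

/-- **the clock constant does not depend on the box** -/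
theorem denI : DenI := denI_of initR_all stageQ low_mass fk4 shortM

end NPR

end HexObs
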