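import Pool.Agent.ERG.Dens
import Pool.Agent.NPR.ExN
import Pool.Agent.NPR.RevN

/-!
# ERG (no drift), row Q7 (helper84): densities for the uniform n-step walk, exactly n letters, all windows

`denN_of : DenG → DenN` : the density of `DenG`, for the words with exactly `n` letters. The numbers `d`, `n0` depend on `bm`
and `ε` only, the density `ρ` on `l0, m, V` only. First three quarters: `pre_of` (row X1); the rest: reversal.
-/

set_option autoImplicit false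

namespace HexObs

namespace NPR

open Finset TS SDN TIW NTA TIP

open scoped ENNReal

/-- **Q7**: densities, exactly `n` letters -/
def DenN : Prop := ∀ bm : ℝ, 0 < bm → ∃ (d n0 : ℝ → ℕ),
  ∀ (l0 : ℕ) (m : ℝ) (V V' : List Bool → ℝ), Add1 V → Add1 V' → 0 < m → m ≤ PW.mZ (2 ^ l0) →
    (∀ u : List Bool, m * V u ≤ bm * (u.length + m)) → (∀ u : List Bool, m * V' u ≤ bm * (u.length + m)) →
    (∀ u, |V u - V' (rev u)| ≤ 1) → ∃ ρ : ℝ, 0 ≤ ρ ∧ ρ ≤ 2 * bm ∧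
      ∀ ε : ℝ, 0 < ε → ∀ k n : ℕ, n0 ε ≤ n → TIP.Sc k n → l0 + d ε ≤ k →
        TOG.Pn n {t | ¬ ∀ x y : ℕ, x ≤ y → y ≤ t.length → |m * V (wd t x y) - ρ * ((y : ℝ) - x)| ≤ ε * n} ≤ ε

namespace ExD

/-- the statement of DenG for one functional -/
def Den (c C : ℝ) (j0 l0 : ℕ) (m ρ : ℝ) (V : List Bool → ℝ) : Prop := ∀ K, l0 + j0 ≤ K →
  gf {t | t ∈ WL K ∧ t.length ≤ ML (K + 2) ∧ ¬ ∀ x y : ℕ, x ≤ y → y ≤ t.length →
    |m * V (wd t x y) - ρ * ((y : ℝ) - x)| ≤ C * ((K : ℝ) - l0 + 1) ^ (-c) * PW.mZ (2 ^ K)} ≤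
    ENNReal.ofReal ((1 / 2) ^ (K - l0)) * FK K

lemma exists_neg_pow {c C : ℝ} (hc : 0 < c) (hC : 0 < C) {e : ℝ} (he : 0 < e) :
    ∃ d : ℕ, ∀ x : ℝ, (d : ℝ) ≤ x → C * (x + 1) ^ (-c) ≤ e := by
  have h1 : Filter.Tendsto (fun x : ℝ => C * (x + 1) ^ (-c)) Filter.atTop (nhds (C * 0)) := by
    refine Filter.Tendsto.const_mul _ ?_
    exact (tendsto_rpow_neg_atTop hc).comp (Filter.tendsto_atTop_add_const_right _ _ Filter.tendsto_id)
  rw [mul_zero] at h1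
  obtain ⟨x0, hx0⟩ := Filter.eventually_atTop.1 (h1.eventually_lt_const he)
  obtain ⟨d, hd⟩ := exists_nat_ge x0
  exact ⟨d, fun x hx => (hx0 x (hd.trans hx)).le⟩

/-- the first three quarters -/
theorem first (c C : ℝ) (j0 : ℕ) (hc : 0 < c) (hC : 0 < C) {ε : ℝ} (hε : 0 < ε) : ∃ d n0 : ℕ,
    ∀ (l0 : ℕ) (m ρ : ℝ) (V : List Bool → ℝ), Den c C j0 l0 m ρ V → ∀ k n : ℕ, n0 ≤ n → TIP.Sc k n → l0 + d ≤ k →
      TOG.Pn n {t | ¬ ∀ x y : ℕ, x ≤ y → 4 * y ≤ 3 * n → |m * V (wd t x y) - ρ * ((y : ℝ) - x)| ≤ ε * n} ≤ ε := by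
  obtain ⟨q, k0, e0, he0, htr⟩ := pre_of hε
  obtain ⟨C4, hC4, hup⟩ := exists_mz_up
  have hC40 : 0 < C4 := by linarith
  obtain ⟨d1, hd1⟩ := exists_neg_pow hc hC (show 0 < ε / (C4 * 4 ^ q) by positivity)
  obtain ⟨d2, hd2⟩ := exists_pow_lt_of_lt_one he0 (show (1 / 2 : ℝ) < 1 by norm_num)
  refine ⟨d1 + d2 + j0, ⌈PW.mZ (2 ^ k0)⌉₊, fun l0 m ρ V hV k n hn hsc hlk => ?_⟩
  have hk : k0 ≤ k := by
    by_contra hcon
    have h1 : PW.mZ (2 ^ (k + 1)) ≤ PW.mZ (2 ^ k0) := mz_mono (by omega)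
    have h2 : PW.mZ (2 ^ k0) ≤ n := (Nat.le_ceil _).trans (by exact_mod_cast hn)
    have h3 := hsc.2
    linarith
  have hM := hV (k + q) (by omega)
  obtain ⟨P, hP⟩ : ∃ P : Set (List Bool), P = {t | ¬ ∀ x y : ℕ, x ≤ y → y ≤ t.length →
    |m * V (wd t x y) - ρ * ((y : ℝ) - x)| ≤ C * (((k + q : ℕ) : ℝ) - l0 + 1) ^ (-c) * PW.mZ (2 ^ (k + q))} := ⟨_, rfl⟩
  have hpre : ∀ A E : List Bool, A ∈ P → A ++ E ∈ P := by
    intro A E hA
    rw [hP] at hA ⊢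
    intro hcon
    refine hA fun x y hxy hy => ?_
    have h1 := hcon x y hxy (by rw [List.length_append]; omega)
    have h2 : wd (A ++ E) x y = wd A x y := by
      unfold wd
      rw [List.take_append_of_le_length hy]
    rwa [h2] at h1
  have h1 : gf {t | t ∈ WL (k + q) ∧ t.length ≤ ML (k + q + 2) ∧ t ∈ P} ≤ ENNReal.ofReal e0 * FK (k + q) := by
    rw [hP]
    refine hM.trans (mul_le_mul' (ENNReal.ofReal_le_ofReal ?_) le_rfl)
    calc (1 / 2 : ℝ) ^ (k + q - l0) ≤ (1 / 2) ^ d2 :=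
          pow_le_pow_of_le_one (by norm_num) (by norm_num) (by omega)
      _ ≤ e0 := hd2.le
  have hnum : C * (((k + q : ℕ) : ℝ) - l0 + 1) ^ (-c) * PW.mZ (2 ^ (k + q)) ≤ ε * n := by
    have h2 := hup k q
    have h3 := hsc.1
    have h4 : C * (((k + q : ℕ) : ℝ) - l0 + 1) ^ (-c) ≤ ε / (C4 * 4 ^ q) := by
      refine hd1 _ ?_
      have h5 : l0 + d1 ≤ k + q := by omega
      have h6 : (l0 : ℝ) + d1 ≤ ((k + q : ℕ) : ℝ) := by exact_mod_cast h5
      linarith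
    calc C * (((k + q : ℕ) : ℝ) - l0 + 1) ^ (-c) * PW.mZ (2 ^ (k + q))
        ≤ ε / (C4 * 4 ^ q) * (C4 * 4 ^ q * PW.mZ (2 ^ k)) := by
          have := mz_pos (k + q)
          gcongr
      _ = ε * PW.mZ (2 ^ k) := by field_simp
      _ ≤ ε * n := by gcongr
  refine (Pn_mono fun t ht hbad => ?_).trans (htr k n hk hsc P hpre h1)
  have hbad : ¬ ∀ x y : ℕ, x ≤ y → 4 * y ≤ 3 * n → |m * V (wd t x y) - ρ * ((y : ℝ) - x)| ≤ ε * n := hbad
  push Not at hbad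
  obtain ⟨x, y, hxy, hy, hgt⟩ := hbad
  refine ⟨y, hy, ?_⟩
  rw [hP]
  intro hcon
  have hyl : y ≤ t.length := by rw [ht.1]; omega
  have h2 := hcon x y hxy (by rw [List.length_take]; omega)
  have h3 : wd (t.take y) x y = wd t x y := by
    unfold wd
    rw [List.take_take, min_self]
  rw [h3] at h2
  linarith

section good

variable {n : ℕ} {m ρ ρ' e bm : ℝ} {V V' : List Bool → ℝ} {t : List Bool}

/-- the windows in the last three quarters -/
lemma late (hV : Add1 V) (hVV : ∀ u, |V u - V' (rev u)| ≤ 1) (hm : 0 < m) (hn : 8 ≤ n)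
    (hme : m ≤ e * n) (hb : ∀ b : Bool, m * V [b] ≤ e * n) (h0 : 0 ≤ ρ') (hρ : ρ' ≤ e * n) (ht : t ∈ SawN n)
    (h : ∀ x y : ℕ, x ≤ y → 4 * y ≤ 3 * n →
      |m * V' (wd (Pool.Agent.IW.rvw t) x y) - ρ' * ((y : ℝ) - x)| ≤ e * n) :
    ∀ x y : ℕ, x ≤ y → y ≤ n → n ≤ 4 * x → |m * V (wd t x y) - ρ' * ((y : ℝ) - x)| ≤ 6 * (e * n) := by
  obtain ⟨s, b, rfl, hs⟩ := Pool.Agent.IW.split_last (by omega) ht.1
  rw [Pool.Agent.IW.rvw_app] at h
  have hlen : (rev s).length = s.length := rev_length s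
  have hen : 0 ≤ e * n := hm.le.trans hme
  have key : ∀ x y : ℕ, x ≤ y → y + 1 ≤ n → n ≤ 4 * x →
      |m * V (wd (s ++ [b]) x y) - ρ' * ((y : ℝ) - x)| ≤ 2 * (e * n) := by
    intro x y hxy hy hx
    have hy' : y ≤ s.length := by omega
    have h1 := h (s.length - y) (s.length - x) (by omega) (by omega)
    rw [RevX.wd_app (by rw [hlen]; omega), RevX.wd_rev hxy hy', ← RevX.wd_app (u := [b]) hy', Nat.cast_sub hy',
      Nat.cast_sub (hxy.trans hy')] at h1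
    have h2 := abs_le.1 (hVV (wd (s ++ [b]) x y))
    have h3 := mul_le_mul_of_nonneg_left h2.1 hm.le
    have h4 := mul_le_mul_of_nonneg_left h2.2 hm.le
    have e1 : ρ' * ((s.length : ℝ) - x - ((s.length : ℝ) - y)) = ρ' * ((y : ℝ) - x) := by ring
    rw [e1] at h1
    rw [abs_le] at h1 ⊢
    constructor
    · linarith [h1.1]
    · linarith [h1.2]
  intro x y hxy hy hx
  rcases Nat.lt_or_ge y n with hlt | hge
  · have := key x y hxy (by omega) hx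
    linarith
  · have hyn : y = n := le_antisymm hy hge
    rcases Nat.lt_or_ge x y with hxl | hxg
    · have h1 := key x (y - 1) (by omega) (by omega) hx
      have h2 : wd (s ++ [b]) x y = wd (s ++ [b]) x (y - 1) ++ wd (s ++ [b]) (y - 1) y :=
        RevX.wd_split (by omega) (by omega)
      have h3 : wd (s ++ [b]) (y - 1) y = [b] := by
        unfold wd
        rw [List.take_of_length_le (by rw [List.length_append, List.length_singleton]; omega),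
          show y - 1 = s.length by omega, List.drop_left]
      rw [h3] at h2
      have h5 := hV.le (wd (s ++ [b]) x (y - 1)) [b]
      have h6 := hV.ge (wd (s ++ [b]) x (y - 1)) [b]
      rw [← h2] at h5 h6
      have h7 := mul_le_mul_of_nonneg_left h5 hm.le
      have h8 := mul_le_mul_of_nonneg_left h6 hm.le
      have h9 := mul_nonneg hm.le (hV.pos [b])
      rw [Nat.cast_sub (by omega)] at h1
      push_cast at h1
      have h10 := hb b
      have e1 : ρ' * ((y : ℝ) - 1 - x) = ρ' * ((y : ℝ) - x) - ρ' := by ring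
      rw [e1] at h1
      rw [abs_le] at h1 ⊢
      constructor
      · linarith [h1.1]
      · linarith [h1.2]
    · have hxy' : x = y := le_antisymm hxy hxg
      have h4 : wd (s ++ [b]) x y = [] := by
        unfold wd
        rw [List.drop_eq_nil_iff, List.length_take]
        omega
      have h5 : V [] ≤ 1 := by
        have := hV.ge [] []
        simp only [List.append_nil] at this
        linarith
      have h6 := mul_le_mul_of_nonneg_left h5 hm.le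
      have h7 := mul_nonneg hm.le (hV.pos [])
      rw [h4, hxy', sub_self, mul_zero, sub_zero, abs_of_nonneg h7]
      linarith

/-- all the windows of a good word -/
lemma allw (hV : Add1 V) (hm : 0 < m) (hn : 8 ≤ n) (hme : m ≤ e * n) (hρρ : |ρ - ρ'| ≤ 64 * e)
    (h1 : ∀ x y : ℕ, x ≤ y → 4 * y ≤ 3 * n → |m * V (wd t x y) - ρ * ((y : ℝ) - x)| ≤ e * n)
    (h2 : ∀ x y : ℕ, x ≤ y → y ≤ n → n ≤ 4 * x → |m * V (wd t x y) - ρ' * ((y : ℝ) - x)| ≤ 6 * (e * n)) :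
    ∀ x y : ℕ, x ≤ y → y ≤ n → |m * V (wd t x y) - ρ * ((y : ℝ) - x)| ≤ 80 * (e * n) := by
  have hn0 : (0 : ℝ) < n := by exact_mod_cast (show 0 < n by omega)
  have hen : 0 < e * n := hm.trans_le hme
  have late2 : ∀ x y : ℕ, x ≤ y → y ≤ n → n ≤ 4 * x →
      |m * V (wd t x y) - ρ * ((y : ℝ) - x)| ≤ 70 * (e * n) := by
    intro x y hxy hy hx
    have h3 := h2 x y hxy hy hx
    have hy' : (y : ℝ) ≤ n := by exact_mod_cast hy
    have hx0 : (0 : ℝ) ≤ x := Nat.cast_nonneg x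
    have hxy' : (x : ℝ) ≤ y := by exact_mod_cast hxy
    have h5 : |ρ' - ρ| * ((y : ℝ) - x) ≤ 64 * e * n := by
      rw [abs_sub_comm]
      have he : 0 ≤ 64 * e := (abs_nonneg _).trans hρρ
      calc |ρ - ρ'| * ((y : ℝ) - x) ≤ 64 * e * ((y : ℝ) - x) := mul_le_mul_of_nonneg_right hρρ (by linarith)
        _ ≤ 64 * e * n := mul_le_mul_of_nonneg_left (by linarith) he
    have h6 : m * V (wd t x y) - ρ * ((y : ℝ) - x) =
      (m * V (wd t x y) - ρ' * ((y : ℝ) - x)) + (ρ' - ρ) * ((y : ℝ) - x) := by ring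
    rw [h6]
    refine (abs_add_le _ _).trans ?_
    rw [abs_mul, abs_of_nonneg (show (0 : ℝ) ≤ (y : ℝ) - x by linarith)]
    linarith
  intro x y hxy hy
  by_cases hc1 : 4 * y ≤ 3 * n
  · have := h1 x y hxy hc1
    linarith
  by_cases hc2 : n ≤ 4 * x
  · have := late2 x y hxy hy hc2
    linarith
  push Not at hc1 hc2
  have hz1 : 4 * (n / 2) ≤ 3 * n := by omega
  have hz2 : n ≤ 4 * (n / 2) := by omega
  have hz3 : x ≤ n / 2 := by omega
  have hz4 : n / 2 ≤ y := by omega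
  have a1 := abs_le.1 (h1 x (n / 2) hz3 hz1)
  have a2 := abs_le.1 (late2 (n / 2) y hz4 hy hz2)
  have a3 := RevX.wd_split (t := t) hz3 hz4
  have a4 := hV.le (wd t x (n / 2)) (wd t (n / 2) y)
  have a5 := hV.ge (wd t x (n / 2)) (wd t (n / 2) y)
  rw [← a3] at a4 a5
  have a6 := mul_le_mul_of_nonneg_left a4 hm.le
  have a7 := mul_le_mul_of_nonneg_left a5 hm.le
  have e1 : ρ * ((y : ℝ) - x) = ρ * (((n / 2 : ℕ) : ℝ) - x) + ρ * ((y : ℝ) - ((n / 2 : ℕ) : ℝ)) := by ring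
  rw [e1, abs_le]
  constructor
  · linarith [a1.1, a2.1]
  · linarith [a1.2, a2.2]

/-- the two densities agree -/
lemma same (hn : 8 ≤ n) (he : 0 < e)
    (h1 : ∀ x y : ℕ, x ≤ y → 4 * y ≤ 3 * n → |m * V (wd t x y) - ρ * ((y : ℝ) - x)| ≤ e * n)
    (h2 : ∀ x y : ℕ, x ≤ y → y ≤ n → n ≤ 4 * x → |m * V (wd t x y) - ρ' * ((y : ℝ) - x)| ≤ 6 * (e * n)) :
    |ρ - ρ'| ≤ 64 * e := by
  have hn0 : (0 : ℝ) < n := by exact_mod_cast (show 0 < n by omega)
  set x := (n + 3) / 4 with hx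
  set y := 3 * n / 4 with hy
  have hxy : x ≤ y := by omega
  have a1 := abs_le.1 (h1 x y hxy (by omega))
  have a2 := abs_le.1 (h2 x y hxy (by omega) (by omega))
  have hl : (n : ℝ) / 8 ≤ (y : ℝ) - x := by
    have : n ≤ 8 * (y - x) := by omega
    have h3 : (n : ℝ) ≤ ((8 * (y - x) : ℕ) : ℝ) := by exact_mod_cast this
    rw [Nat.cast_mul, Nat.cast_sub hxy] at h3
    push_cast at h3
    linarith
  have h3 : |ρ - ρ'| * ((y : ℝ) - x) ≤ 7 * (e * n) := by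
    rw [← abs_of_nonneg (show (0 : ℝ) ≤ (y : ℝ) - x by linarith), ← abs_mul, abs_le]
    constructor <;> nlinarith [a1.1, a1.2, a2.1, a2.2]
  have h4 : |ρ - ρ'| * ((n : ℝ) / 8) ≤ 64 * e * (n / 8) := by
    calc |ρ - ρ'| * ((n : ℝ) / 8) ≤ |ρ - ρ'| * ((y : ℝ) - x) := mul_le_mul_of_nonneg_left hl (abs_nonneg _)
      _ ≤ 7 * (e * n) := h3
      _ ≤ 64 * e * (n / 8) := by nlinarith [mul_pos he hn0]
  exact le_of_mul_le_mul_right h4 (by positivity)

end good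

/-- one ε -/
theorem one (c C bm : ℝ) (j0 : ℕ) (hc : 0 < c) (hC : 0 < C) (hbm : 0 < bm) {ε : ℝ} (hε : 0 < ε) : ∃ d n0 : ℕ,
    ∀ (l0 : ℕ) (m ρ ρ' : ℝ) (V V' : List Bool → ℝ), Add1 V → Add1 V' → 0 < m → m ≤ PW.mZ (2 ^ l0) →
      (∀ u : List Bool, m * V u ≤ bm * (u.length + m)) → (∀ u, |V u - V' (rev u)| ≤ 1) → 0 ≤ ρ' → ρ' ≤ 2 * bm →
      Den c C j0 l0 m ρ V → Den c C j0 l0 m ρ' V' → ∀ k n : ℕ, n0 ≤ n → TIP.Sc k n → l0 + d ≤ k →
      TOG.Pn n {t | ¬ ∀ x y : ℕ, x ≤ y → y ≤ t.length →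
        |m * V (wd t x y) - ρ * ((y : ℝ) - x)| ≤ ε * n} ≤ ε := by
  obtain ⟨e, he⟩ : ∃ e : ℝ, e = min ε 1 / 100 := ⟨_, rfl⟩
  have hmin : 0 < min ε 1 := lt_min hε one_pos
  have he0 : 0 < e := by rw [he]; positivity
  have he1 : 100 * e ≤ 1 := by
    have := min_le_right ε 1
    rw [he]; linarith
  have he2 : 100 * e ≤ ε := by
    have := min_le_left ε 1
    rw [he]; linarith
  obtain ⟨d, n0, hF⟩ := first c C j0 hc hC he0
  obtain ⟨d1, hd1⟩ := exists_pow_lt_of_lt_one (show 0 < e / (2 * (bm + 1)) by positivity)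
    (show (1 / 2 : ℝ) < 1 by norm_num)
  obtain ⟨n1, hn1⟩ := exists_nat_ge (2 * bm / e)
  refine ⟨d + d1, max n0 (max n1 8), fun l0 m ρ ρ' V V' hV hV' hm hml hVb hVV h0 hρ' hD hD' k n hn hk hlk => ?_⟩
  have hn0 : n0 ≤ n := le_trans (le_max_left _ _) hn
  have hn8 : 8 ≤ n := le_trans ((le_max_right _ _).trans (le_max_right _ _)) hn
  have hnr : (0 : ℝ) < n := by exact_mod_cast (show 0 < n by omega)
  have hbn : 2 * bm ≤ e * n := by
    have h1 : (n1 : ℝ) ≤ n := by exact_mod_cast le_trans ((le_max_left _ _).trans (le_max_right _ _)) hn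
    have h2 : 2 * bm / e ≤ n := hn1.trans h1
    rw [div_le_iff₀ he0] at h2
    linarith
  have hmn : m ≤ e / (2 * (bm + 1)) * n := by
    have h1 := mz_low l0 (k - l0)
    rw [show l0 + (k - l0) = k by omega] at h1
    have h2 := hk.1
    have h3 : (2 : ℝ) ^ d1 ≤ 2 ^ (k - l0) := pow_le_pow_right₀ (by norm_num) (by omega)
    have h4 : (2 : ℝ) ^ d1 * m ≤ n := by
      calc (2 : ℝ) ^ d1 * m ≤ 2 ^ (k - l0) * PW.mZ (2 ^ l0) := by
            have := mz_pos l0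
            gcongr
        _ ≤ PW.mZ (2 ^ k) := h1
        _ ≤ n := h2
    calc m = (1 / 2) ^ d1 * (2 ^ d1 * m) := by
          rw [← mul_assoc, ← mul_pow]
          norm_num
      _ ≤ e / (2 * (bm + 1)) * n := by
          have := mul_pos (show (0 : ℝ) < 2 ^ d1 by positivity) hm
          gcongr
  have hme : m ≤ e * n := by
    refine hmn.trans (mul_le_mul_of_nonneg_right ?_ hnr.le)
    rw [div_le_iff₀ (by positivity)]
    nlinarith
  have hbme : bm * m ≤ e * n / 2 := by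
    calc bm * m ≤ bm * (e / (2 * (bm + 1)) * n) := mul_le_mul_of_nonneg_left hmn hbm.le
      _ = e * n / 2 * (bm / (bm + 1)) := by field_simp
      _ ≤ e * n / 2 * 1 := by
          refine mul_le_mul_of_nonneg_left ?_ (by positivity)
          rw [div_le_one (by positivity)]
          linarith
      _ = _ := mul_one _
  have hb : ∀ b : Bool, m * V [b] ≤ e * n := by
    intro b
    have h1 := hVb [b]
    rw [List.length_singleton] at h1
    push_cast at h1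
    nlinarith
  have hρn : ρ' ≤ e * n := hρ'.trans hbn
  have hB := hF l0 m ρ V hD k n hn0 hk (by omega)
  have hB' := hF l0 m ρ' V' hD' k n hn0 hk (by omega)
  set B : Set (List Bool) := {t | ¬ ∀ x y : ℕ, x ≤ y → 4 * y ≤ 3 * n →
    |m * V (wd t x y) - ρ * ((y : ℝ) - x)| ≤ e * n}
  set B' : Set (List Bool) := {t | ¬ ∀ x y : ℕ, x ≤ y → 4 * y ≤ 3 * n →
    |m * V' (wd t x y) - ρ' * ((y : ℝ) - x)| ≤ e * n}
  have hB2 : TOG.Pn n {t | Pool.Agent.IW.rvw t ∈ B'} ≤ e := (Pool.Agent.IW.Pn_rvw (by omega) B').trans_le hB'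
  have hU : TOG.Pn n (B ∪ {t | Pool.Agent.IW.rvw t ∈ B'}) ≤ 2 * e := (RevX.pn_union _ _ _).trans (by linarith)
  have hg1 : ∀ t, t ∉ B → ∀ x y : ℕ, x ≤ y → 4 * y ≤ 3 * n → |m * V (wd t x y) - ρ * ((y : ℝ) - x)| ≤ e * n :=
    fun t ht => not_not.1 ht
  have hg2 : ∀ t ∈ SawN n, Pool.Agent.IW.rvw t ∉ B' → ∀ x y : ℕ, x ≤ y → y ≤ n → n ≤ 4 * x →
      |m * V (wd t x y) - ρ' * ((y : ℝ) - x)| ≤ 6 * (e * n) :=
    fun t ht hb' => late hV hVV hm hn8 hme hb h0 hρn ht (not_not.1 hb')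
  obtain ⟨t0, ht0, hb0⟩ : ∃ t0 ∈ SawN n, t0 ∉ B ∪ {t | Pool.Agent.IW.rvw t ∈ B'} := by
    by_contra hc'
    push Not at hc'
    have h1 : TOG.Pn n Set.univ ≤ TOG.Pn n (B ∪ {t | Pool.Agent.IW.rvw t ∈ B'}) :=
      RevX.pn_mono fun t ht _ => hc' t ht
    have h2 : TOG.Pn n Set.univ = 1 := by
      unfold TOG.Pn
      have h3 : {t | t ∈ SawN n ∧ t ∈ (Set.univ : Set (List Bool))} = SawN n := by
        ext t
        simp
      have h4 : (0 : ℝ) < cS n := Pool.Agent.IW.cS_pos (by omega)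
      have h5 : (SawN n).ncard = cS n := rfl
      rw [h3, h5, div_self h4.ne']
    linarith
  have hb1 : t0 ∉ B := fun h => hb0 (Or.inl h)
  have hb2 : Pool.Agent.IW.rvw t0 ∉ B' := fun h => hb0 (Or.inr h)
  have hsame := same hn8 he0 (hg1 t0 hb1) (hg2 t0 ht0 hb2)
  refine (RevX.pn_mono fun t ht htb => ?_).trans (hU.trans (by linarith))
  by_contra hc'
  have hc1 : t ∉ B := fun h => hc' (Or.inl h)
  have hc2 : Pool.Agent.IW.rvw t ∉ B' := fun h => hc' (Or.inr h)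
  refine htb fun x y hxy hy => ?_
  have h3 := allw hV hm hn8 hme hsame (hg1 t hc1) (hg2 t ht hc2) x y hxy (ht.1 ▸ hy)
  refine h3.trans ?_
  have h4 := mul_le_mul_of_nonneg_right he2 (Nat.cast_nonneg (α := ℝ) n)
  have h5 : 0 ≤ e * n := by positivity
  linarith

end ExD

/-- **Q7** -/
theorem denN_of (hD : DenG) : DenN := by
  intro bm hbm
  obtain ⟨c, C, j0, hc, hC, hD⟩ := hD bm hbm
  have h1 := fun ε : {x : ℝ // 0 < x} => ExD.one c C bm j0 hc hC hbm ε.2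
  choose d n0 h1 using h1
  refine ⟨fun ε => if h : 0 < ε then d ⟨ε, h⟩ else 0, fun ε => if h : 0 < ε then n0 ⟨ε, h⟩ else 0,
    fun l0 m V V' hV hV' hm hml hVb hVb' hVV => ?_⟩
  obtain ⟨ρ, hρ0, hρ1, hρ⟩ := hD l0 m V hV hm hml hVb
  obtain ⟨ρ', hρ0', hρ1', hρ'⟩ := hD l0 m V' hV' hm hml hVb'
  refine ⟨ρ, hρ0, hρ1, fun ε hε k n hn hk hlk => ?_⟩
  simp only [hε, dif_pos] at hn hlk
  exact h1 ⟨ε, hε⟩ l0 m ρ ρ' V V' hV hV' hm hml hVb hVV hρ0' hρ1' hρ hρ' k n hn hk hlk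

end NPR

end HexObs
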