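import Pool.Agent.ERG.Dens
import Pool.Agent.NPR.RevN
import Pool.Agent.NPR.ExN

/-!
# ERG (no drift), row Q7 (helper22): the density, the uniform walk with exactly n steps

* `ExR` : one number ρ for the words of all boxes (form of `DenG`) and for all the n-step walks; the depth d depends only on ε.
* **`exR_of`** : `DenG → ExR`.
-/

set_option autoImplicit false

namespace HexObs

namespace NPR

open Finset TS SDN TIW NTA TIP

open scoped ENNReal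

/-- **Q7: the density, exactly n letters** -/
def ExR : Prop := ∀ bm : ℝ, 0 < bm → ∃ (c C : ℝ) (j0 : ℕ) (ρ : ℕ → ℝ → (List Bool → ℝ) → ℝ), 0 < c ∧ 0 < C ∧
  (∀ (l0 : ℕ) (m : ℝ) (V : List Bool → ℝ), Add1 V → 0 < m → m ≤ PW.mZ (2 ^ l0) →
    (∀ u : List Bool, m * V u ≤ bm * (u.length + m)) → 0 ≤ ρ l0 m V ∧ ρ l0 m V ≤ 2 * bm ∧ ∀ K, l0 + j0 ≤ K →
      gf {t | t ∈ WL K ∧ t.length ≤ ML (K + 2) ∧ ¬ ∀ x y : ℕ, x ≤ y → y ≤ t.length →
        |m * V (wd t x y) - ρ l0 m V * ((y : ℝ) - x)| ≤ C * ((K : ℝ) - l0 + 1) ^ (-c) * PW.mZ (2 ^ K)} ≤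
        ENNReal.ofReal ((1 / 2) ^ (K - l0)) * FK K) ∧
  ∀ ε : ℝ, 0 < ε → ∃ d : ℕ, ∀ (l0 : ℕ) (m : ℝ) (V : List Bool → ℝ), Add1 V → 0 < m → m ≤ PW.mZ (2 ^ l0) →
    (∀ u : List Bool, m * V u ≤ bm * (u.length + m)) → ∀ k n : ℕ, TIP.Sc k n → l0 + d ≤ k →
      TOG.Pn n {t | ¬ ∀ x y : ℕ, x ≤ y → y ≤ t.length → |m * V (wd t x y) - ρ l0 m V * ((y : ℝ) - x)| ≤ ε * n} ≤ ε

namespace Q7R

/-- **the first three quarters**, any functional -/
theorem ex_pre {ε : ℝ} (hε : 0 < ε) : ∃ (q k0 : ℕ) (e0 e1 : ℝ), 0 < e0 ∧ 0 < e1 ∧ ∀ k n : ℕ, k0 ≤ k → TIP.Sc k n →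
    ∀ (V : List Bool → ℝ) (m ρ : ℝ),
      gf {t | t ∈ WL (k + q) ∧ t.length ≤ ML (k + q + 2) ∧ ¬ ∀ x y : ℕ, x ≤ y → y ≤ t.length →
        |m * V (wd t x y) - ρ * ((y : ℝ) - x)| ≤ e1 * PW.mZ (2 ^ (k + q))} ≤ ENNReal.ofReal e0 * FK (k + q) →
      TOG.Pn n {t | ¬ ∀ x y : ℕ, x ≤ y → 4 * y ≤ 3 * n → |m * V (wd t x y) - ρ * ((y : ℝ) - x)| ≤ ε * n} ≤ ε := by
  obtain ⟨q, k0, e0, he0, htr⟩ := pre_of hε
  obtain ⟨C4, hC4, hup⟩ := exists_mz_up
  have hC40 : 0 < C4 := by linarith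
  refine ⟨q, k0, e0, ε / (C4 * 4 ^ q), he0, by positivity, fun k n hk hsc V m ρ hM => ?_⟩
  obtain ⟨e1, he1⟩ : ∃ e1 : ℝ, e1 = ε / (C4 * 4 ^ q) := ⟨_, rfl⟩
  rw [← he1] at hM
  have he10 : 0 < e1 := by rw [he1]; positivity
  obtain ⟨P, hP⟩ : ∃ P : Set (List Bool), P = {t | ¬ ∀ x y : ℕ, x ≤ y → y ≤ t.length →
    |m * V (wd t x y) - ρ * ((y : ℝ) - x)| ≤ e1 * PW.mZ (2 ^ (k + q))} := ⟨_, rfl⟩
  have hpre : ∀ A E : List Bool, A ∈ P → A ++ E ∈ P := by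
    intro A E hA
    rw [hP] at hA ⊢
    intro hcon
    refine hA fun x y hxy hy => ?_
    have h1 := hcon x y hxy (by rw [List.length_append]; omega)
    have h2 : wd (A ++ E) x y = wd A x y := by
      unfold wd
      rw [List.take_append_of_le_length hy]
    rwa [h2] at h1
  have h1 : gf {t | t ∈ WL (k + q) ∧ t.length ≤ ML (k + q + 2) ∧ t ∈ P} ≤ ENNReal.ofReal e0 * FK (k + q) := by
    rw [hP]
    exact hM
  have hnum : e1 * PW.mZ (2 ^ (k + q)) ≤ ε * n := by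
    have h2 := hup k q
    have h3 := hsc.1
    calc e1 * PW.mZ (2 ^ (k + q)) ≤ e1 * (C4 * 4 ^ q * PW.mZ (2 ^ k)) := mul_le_mul_of_nonneg_left h2 he10.le
      _ = ε * PW.mZ (2 ^ k) := by
          rw [he1]
          field_simp
      _ ≤ ε * n := by gcongr
  refine (Pn_mono fun t ht hbad => ?_).trans (htr k n hk hsc P hpre h1)
  have hbad : ¬ ∀ x y : ℕ, x ≤ y → 4 * y ≤ 3 * n → |m * V (wd t x y) - ρ * ((y : ℝ) - x)| ≤ ε * n := hbad
  push Not at hbad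
  obtain ⟨x, y, hxy, hy, hgt⟩ := hbad
  refine ⟨y, hy, ?_⟩
  rw [hP]
  intro hcon
  have hyl : y ≤ t.length := by rw [ht.1]; omega
  have h2 := hcon x y hxy (by rw [List.length_take]; omega)
  have h3 : wd (t.take y) x y = wd t x y := by
    unfold wd
    rw [List.take_take, min_self]
  rw [h3] at h2
  linarith

section good

variable {n : ℕ} {V : List Bool → ℝ} {t : List Bool} {m ρ ρ' E : ℝ}

lemma add_nil (hV : Add1 V) : V [] ≤ 1 := by
  have := hV.ge [] []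
  rw [List.append_nil] at this
  linarith

lemma wd_nil (t : List Bool) (x : ℕ) : wd t x x = [] := by
  unfold wd
  rw [List.drop_eq_nil_iff, List.length_take]
  omega

/-- the windows in the last three quarters -/
lemma late (hV : Add1 V) (hm : 0 < m) (hmE : m ≤ E) (hb : ∀ b, m * V [b] ≤ E) (hρ : 0 ≤ ρ') (hρE : ρ' ≤ E) (hn : 8 ≤ n)
    (ht : t ∈ SawN n)
    (h : ∀ x y : ℕ, x ≤ y → 4 * y ≤ 3 * n → |m * V (rev (wd (Pool.Agent.IW.rvw t) x y)) - ρ' * ((y : ℝ) - x)| ≤ E) :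
    ∀ x y : ℕ, x ≤ y → y ≤ n → n ≤ 4 * x → |m * V (wd t x y) - ρ' * ((y : ℝ) - x)| ≤ 4 * E := by
  obtain ⟨s, b, rfl, hs⟩ := Pool.Agent.IW.split_last (by omega) ht.1
  rw [Pool.Agent.IW.rvw_app] at h
  have hlen : (rev s).length = s.length := rev_length s
  have key : ∀ x y : ℕ, x ≤ y → y + 1 ≤ n → n ≤ 4 * x → |m * V (wd (s ++ [b]) x y) - ρ' * ((y : ℝ) - x)| ≤ E := by
    intro x y hxy hy hx
    have hy' : y ≤ s.length := by omega
    have h1 := h (s.length - y) (s.length - x) (by omega) (by omega)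
    rw [RevX.wd_app (by rw [hlen]; omega), RevX.wd_rev hxy hy', ← RevX.wd_app (u := [b]) hy', rev_rev, Nat.cast_sub hy',
      Nat.cast_sub (hxy.trans hy')] at h1
    have e : (s.length : ℝ) - x - (s.length - y) = (y : ℝ) - x := by ring
    rwa [e] at h1
  intro x y hxy hy hx
  rcases Nat.lt_or_ge y n with hlt | hge
  · have := key x y hxy (by omega) hx
    linarith
  · have hyn : y = n := le_antisymm hy hge
    rcases Nat.lt_or_ge x y with hxl | hxg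
    · have h1 := key x (y - 1) (by omega) (by omega) hx
      have h2 : wd (s ++ [b]) x y = wd (s ++ [b]) x (y - 1) ++ wd (s ++ [b]) (y - 1) y :=
        RevX.wd_split (by omega) (by omega)
      have h3 : wd (s ++ [b]) (y - 1) y = [b] := by
        unfold wd
        rw [List.take_of_length_le (by rw [List.length_append, List.length_singleton]; omega),
          show y - 1 = s.length by omega, List.drop_left]
      rw [h3] at h2
      have h5 := hV.le (wd (s ++ [b]) x (y - 1)) [b]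
      have h6 := hV.ge (wd (s ++ [b]) x (y - 1)) [b]
      rw [← h2] at h5 h6
      have h7 := mul_le_mul_of_nonneg_left h5 hm.le
      have h8 := mul_le_mul_of_nonneg_left h6 hm.le
      have h9 := hb b
      have h10 := mul_nonneg hm.le (hV.pos [b])
      rw [Nat.cast_sub (by omega)] at h1
      push_cast at h1
      rw [abs_le] at h1 ⊢
      constructor
      · linarith [h1.1]
      · linarith [h1.2]
    · have hxy' : x = y := le_antisymm hxy hxg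
      have h4 := mul_le_mul_of_nonneg_left (add_nil hV) hm.le
      have h5 := mul_nonneg hm.le (hV.pos [])
      rw [hxy', wd_nil, sub_self, mul_zero, sub_zero, abs_of_nonneg h5]
      linarith

/-- all the windows of a good word, when the densities are compared -/
lemma allw (hV : Add1 V) (hm : 0 < m) (hmE : m ≤ E) (hn : 8 ≤ n) (hkk : |ρ - ρ'| * n ≤ 40 * E)
    (h1 : ∀ x y : ℕ, x ≤ y → 4 * y ≤ 3 * n → |m * V (wd t x y) - ρ * ((y : ℝ) - x)| ≤ E)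
    (h2 : ∀ x y : ℕ, x ≤ y → y ≤ n → n ≤ 4 * x → |m * V (wd t x y) - ρ' * ((y : ℝ) - x)| ≤ 4 * E) :
    ∀ x y : ℕ, x ≤ y → y ≤ n → |m * V (wd t x y) - ρ * ((y : ℝ) - x)| ≤ 50 * E := by
  have hE : 0 < E := hm.trans_le hmE
  have late2 : ∀ x y : ℕ, x ≤ y → y ≤ n → n ≤ 4 * x → |m * V (wd t x y) - ρ * ((y : ℝ) - x)| ≤ 44 * E := by
    intro x y hxy hy hx
    have h3 := h2 x y hxy hy hx
    have hy' : (y : ℝ) ≤ n := by exact_mod_cast hy
    have hxy' : (x : ℝ) ≤ y := by exact_mod_cast hxy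
    have hx0 : (0 : ℝ) ≤ x := Nat.cast_nonneg x
    have e : m * V (wd t x y) - ρ * ((y : ℝ) - x) =
        (m * V (wd t x y) - ρ' * ((y : ℝ) - x)) + (ρ' - ρ) * ((y : ℝ) - x) := by ring
    rw [e]
    refine (abs_add_le _ _).trans ?_
    rw [abs_mul, abs_of_nonneg (show 0 ≤ (y : ℝ) - x by linarith), abs_sub_comm ρ' ρ]
    have h4 : |ρ - ρ'| * ((y : ℝ) - x) ≤ |ρ - ρ'| * n := mul_le_mul_of_nonneg_left (by linarith) (abs_nonneg _)
    linarith
  intro x y hxy hy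
  by_cases hc1 : 4 * y ≤ 3 * n
  · have := h1 x y hxy hc1
    linarith
  by_cases hc2 : n ≤ 4 * x
  · have := late2 x y hxy hy hc2
    linarith
  push Not at hc1 hc2
  have hz1 : 4 * (n / 2) ≤ 3 * n := by omega
  have hz2 : n ≤ 4 * (n / 2) := by omega
  have hz3 : x ≤ n / 2 := by omega
  have hz4 : n / 2 ≤ y := by omega
  have a1 := abs_le.1 (h1 x (n / 2) hz3 hz1)
  have a2 := abs_le.1 (late2 (n / 2) y hz4 hy hz2)
  have a3 := RevX.wd_split (t := t) hz3 hz4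
  have a4 := hV.le (wd t x (n / 2)) (wd t (n / 2) y)
  have a5 := hV.ge (wd t x (n / 2)) (wd t (n / 2) y)
  rw [← a3] at a4 a5
  have a6 := mul_le_mul_of_nonneg_left a4 hm.le
  have a7 := mul_le_mul_of_nonneg_left a5 hm.le
  rw [abs_le]
  constructor
  · linarith [a1.1, a2.1]
  · linarith [a1.2, a2.2]

/-- the two densities agree -/
lemma same (hn : 8 ≤ n)
    (h1 : ∀ x y : ℕ, x ≤ y → 4 * y ≤ 3 * n → |m * V (wd t x y) - ρ * ((y : ℝ) - x)| ≤ E)
    (h2 : ∀ x y : ℕ, x ≤ y → y ≤ n → n ≤ 4 * x → |m * V (wd t x y) - ρ' * ((y : ℝ) - x)| ≤ 4 * E) :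
    |ρ - ρ'| * n ≤ 40 * E := by
  obtain ⟨x, hx⟩ : ∃ x, x = (n + 3) / 4 := ⟨_, rfl⟩
  obtain ⟨y, hy⟩ : ∃ y, y = 3 * n / 4 := ⟨_, rfl⟩
  have hxy : x ≤ y := by omega
  have a1 := h1 x y hxy (by omega)
  have a2 := h2 x y hxy (by omega) (by omega)
  have hl : (n : ℝ) ≤ 8 * ((y : ℝ) - x) := by
    have : n ≤ 8 * (y - x) := by omega
    have h3 : (n : ℝ) ≤ ((8 * (y - x) : ℕ) : ℝ) := by exact_mod_cast this
    rw [Nat.cast_mul, Nat.cast_sub hxy] at h3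
    push_cast at h3
    linarith
  have h3 : |ρ - ρ'| * ((y : ℝ) - x) ≤ 5 * E := by
    have h4 : 0 ≤ (y : ℝ) - x := by
      have : (x : ℝ) ≤ y := by exact_mod_cast hxy
      linarith
    have h6 : |ρ - ρ'| * ((y : ℝ) - x) = |(ρ - ρ') * ((y : ℝ) - x)| := by rw [abs_mul, abs_of_nonneg h4]
    rw [h6]
    have e : (ρ - ρ') * ((y : ℝ) - x) = (m * V (wd t x y) - ρ' * ((y : ℝ) - x)) - (m * V (wd t x y) - ρ * ((y : ℝ) - x)) := by
      ring
    rw [e]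
    refine (abs_sub _ _).trans ?_
    linarith
  have h4 := mul_le_mul_of_nonneg_left hl (abs_nonneg (ρ - ρ'))
  linarith

end good

/-- reversal of a functional -/
lemma add1_rev {V : List Bool → ℝ} (hV : Add1 V) : Add1 (fun u => V (rev u)) where
  pos := fun u => hV.pos _
  le := fun u v => by
    show V (rev (u ++ v)) ≤ V (rev u) + V (rev v)
    rw [rev_append]
    have := hV.le (rev v) (rev u)
    linarith
  ge := fun u v => by
    show V (rev u) + V (rev v) ≤ V (rev (u ++ v)) + 1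
    rw [rev_append]
    have := hV.ge (rev v) (rev u)
    linarith

/-- the scale is below the number of letters -/
lemma sc_ge {k n : ℕ} (h : TIP.Sc k n) (l0 d : ℕ) (hk : l0 + d ≤ k) : 2 ^ d * PW.mZ (2 ^ l0) ≤ n :=
  (mz_low l0 d).trans ((mz_mono hk).trans h.1)

/-- one functional: from the first three quarters to all the windows -/
lemma both {V : List Bool → ℝ} {m ρ ρ' e : ℝ} {n : ℕ} (hV : Add1 V) (hm : 0 < m) (he1 : 2 * e < 1)
    (hmE : m ≤ e * n) (hb : ∀ b, m * V [b] ≤ e * n) (hρ : 0 ≤ ρ') (hρE : ρ' ≤ e * n) (hn : 8 ≤ n)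
    (h1 : TOG.Pn n {t | ¬ ∀ x y : ℕ, x ≤ y → 4 * y ≤ 3 * n → |m * V (wd t x y) - ρ * ((y : ℝ) - x)| ≤ e * n} ≤ e)
    (h2 : TOG.Pn n {t | ¬ ∀ x y : ℕ, x ≤ y → 4 * y ≤ 3 * n → |m * V (rev (wd t x y)) - ρ' * ((y : ℝ) - x)| ≤ e * n} ≤ e) :
    TOG.Pn n {t | ¬ ∀ x y : ℕ, x ≤ y → y ≤ t.length → |m * V (wd t x y) - ρ * ((y : ℝ) - x)| ≤ 50 * (e * n)} ≤ 2 * e := by
  obtain ⟨B, hB⟩ : ∃ B : Set (List Bool), B = {t | ¬ ∀ x y : ℕ, x ≤ y → 4 * y ≤ 3 * n →
    |m * V (wd t x y) - ρ * ((y : ℝ) - x)| ≤ e * n} := ⟨_, rfl⟩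
  obtain ⟨B', hB'⟩ : ∃ B' : Set (List Bool), B' = {t | ¬ ∀ x y : ℕ, x ≤ y → 4 * y ≤ 3 * n →
    |m * V (rev (wd t x y)) - ρ' * ((y : ℝ) - x)| ≤ e * n} := ⟨_, rfl⟩
  rw [← hB] at h1
  rw [← hB'] at h2
  have hB2 : TOG.Pn n {t | Pool.Agent.IW.rvw t ∈ B'} ≤ e := (Pool.Agent.IW.Pn_rvw (by omega) B').trans_le h2
  have hU : TOG.Pn n (B ∪ {t | Pool.Agent.IW.rvw t ∈ B'}) ≤ 2 * e := (RevX.pn_union _ _ _).trans (by linarith)
  have hg1 : ∀ t, t ∉ B → ∀ x y : ℕ, x ≤ y → 4 * y ≤ 3 * n → |m * V (wd t x y) - ρ * ((y : ℝ) - x)| ≤ e * n := by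
    intro t ht
    rw [hB] at ht
    exact not_not.1 ht
  have hg2 : ∀ t ∈ SawN n, Pool.Agent.IW.rvw t ∉ B' → ∀ x y : ℕ, x ≤ y → y ≤ n → n ≤ 4 * x →
      |m * V (wd t x y) - ρ' * ((y : ℝ) - x)| ≤ 4 * (e * n) := by
    intro t ht hb'
    rw [hB'] at hb'
    exact late hV hm hmE hb hρ hρE hn ht (not_not.1 hb')
  -- a word good for both
  obtain ⟨t0, ht0, hb0⟩ : ∃ t0 ∈ SawN n, t0 ∉ B ∪ {t | Pool.Agent.IW.rvw t ∈ B'} := by
    by_contra hc
    push Not at hc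
    have h3 : TOG.Pn n Set.univ ≤ TOG.Pn n (B ∪ {t | Pool.Agent.IW.rvw t ∈ B'}) := RevX.pn_mono fun t ht _ => hc t ht
    have h4 : TOG.Pn n Set.univ = 1 := by
      unfold TOG.Pn
      have h5 : {t | t ∈ SawN n ∧ t ∈ (Set.univ : Set (List Bool))} = SawN n := by
        ext t
        simp
      have h6 : (0 : ℝ) < cS n := Pool.Agent.IW.cS_pos (by omega)
      have h7 : (SawN n).ncard = cS n := rfl
      rw [h5, h7, div_self h6.ne']
    linarith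
  have hb1 : t0 ∉ B := fun hc => hb0 (Or.inl hc)
  have hb2 : Pool.Agent.IW.rvw t0 ∉ B' := fun hc => hb0 (Or.inr hc)
  have hsame := same hn (hg1 t0 hb1) (hg2 t0 ht0 hb2)
  refine (RevX.pn_mono fun t ht htb => ?_).trans hU
  by_contra hc
  have hc1 : t ∉ B := fun h => hc (Or.inl h)
  have hc2 : Pool.Agent.IW.rvw t ∉ B' := fun h => hc (Or.inr h)
  refine htb fun x y hxy hy => ?_
  exact allw hV hm hmE hn hsame (hg1 t hc1) (hg2 t ht hc2) x y hxy (ht.1 ▸ hy)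

end Q7R

open Q7R in
/-- **Q7** -/
theorem exR_of (hD : DenG) : ExR := by
  intro bm hbm
  obtain ⟨c, C, j0, hc, hC, h⟩ := hD bm hbm
  choose! ρ hρ using h
  refine ⟨c, C, j0, ρ, hc, hC, fun l0 m V hV hm hml hb => hρ l0 m V hV hm hml hb, fun ε hε => ?_⟩
  obtain ⟨e, he⟩ : ∃ e : ℝ, e = min ε 1 / 50 := ⟨_, rfl⟩
  have hmin : 0 < min ε 1 := lt_min hε one_pos
  have he0 : 0 < e := by rw [he]; positivity
  have he1 : 2 * e < 1 := by
    have := min_le_right ε 1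
    rw [he]
    linarith
  have he2 : 50 * e ≤ ε := by
    have := min_le_left ε 1
    rw [he]
    linarith
  obtain ⟨q, k0, e0, e1, he00, he10, hpre⟩ := ex_pre he0
  -- the depth
  have hlim : Filter.Tendsto (fun j : ℕ => C * ((j : ℝ) + 1) ^ (-c)) Filter.atTop (nhds 0) := by
    have h1 : Filter.Tendsto (fun j : ℕ => ((j : ℝ) + 1)) Filter.atTop Filter.atTop :=
      Filter.tendsto_atTop_add_const_right _ _ tendsto_natCast_atTop_atTop
    have h2 := (tendsto_rpow_neg_atTop hc).comp h1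
    have h3 := h2.const_mul C
    rw [mul_zero] at h3
    exact h3
  obtain ⟨d1, hd1⟩ := Filter.eventually_atTop.1 (hlim.eventually (gt_mem_nhds he10))
  obtain ⟨d2, hd2⟩ := exists_pow_lt_of_lt_one he00 (show (1 / 2 : ℝ) < 1 by norm_num)
  obtain ⟨d3, hd3⟩ := pow_unbounded_of_one_lt ((2 * bm + 2) / e) (show (1 : ℝ) < 2 by norm_num)
  refine ⟨k0 + j0 + d1 + d2 + d3 + 8, fun l0 m V hV hm hml hb k n hsc hk => ?_⟩
  have hb' : ∀ u : List Bool, m * V (rev u) ≤ bm * (u.length + m) := by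
    intro u
    have := hb (rev u)
    rwa [rev_length] at this
  have hV' := add1_rev hV
  obtain ⟨r0, r1, r2⟩ := hρ l0 m V hV hm hml hb
  obtain ⟨s0, s1, s2⟩ := hρ l0 m (fun u => V (rev u)) hV' hm hml hb'
  obtain ⟨K, hK⟩ : ∃ K, K = k + q := ⟨_, rfl⟩
  have hcast : ((K - l0 : ℕ) : ℝ) = (K : ℝ) - l0 := Nat.cast_sub (by omega)
  have g1 : C * ((K : ℝ) - l0 + 1) ^ (-c) ≤ e1 := by
    have := hd1 (K - l0) (by omega)
    rw [hcast] at this
    exact this.le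
  have g2 : ((1 : ℝ) / 2) ^ (K - l0) ≤ e0 :=
    (pow_le_pow_of_le_one (by norm_num) (by norm_num) (show d2 ≤ K - l0 by omega)).trans hd2.le
  have hmono : ∀ (W : List Bool → ℝ) (r : ℝ), gf {t | t ∈ WL K ∧ t.length ≤ ML (K + 2) ∧ ¬ ∀ x y : ℕ, x ≤ y →
      y ≤ t.length → |m * W (wd t x y) - r * ((y : ℝ) - x)| ≤ C * ((K : ℝ) - l0 + 1) ^ (-c) * PW.mZ (2 ^ K)} ≤
      ENNReal.ofReal ((1 / 2) ^ (K - l0)) * FK K → gf {t | t ∈ WL (k + q) ∧ t.length ≤ ML (k + q + 2) ∧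
        ¬ ∀ x y : ℕ, x ≤ y → y ≤ t.length → |m * W (wd t x y) - r * ((y : ℝ) - x)| ≤ e1 * PW.mZ (2 ^ (k + q))} ≤
        ENNReal.ofReal e0 * FK (k + q) := by
    intro W r hW
    rw [← hK]
    refine (gf_mono ?_).trans (hW.trans (mul_le_mul' (ENNReal.ofReal_le_ofReal g2) le_rfl))
    rintro t ⟨t1, t2, t3⟩
    refine ⟨t1, t2, fun t4 => t3 fun x y hx hy => (t4 x y hx hy).trans ?_⟩
    exact mul_le_mul_of_nonneg_right g1 (mz_pos K).le
  have hn1 : (2 : ℝ) ^ d3 * PW.mZ (2 ^ l0) ≤ n := sc_ge hsc l0 d3 (by omega)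
  have hz1 := mz_one l0
  have hn8 : 8 ≤ n := (show 8 ≤ k by omega).trans (le_Sc hsc)
  have hen : (2 * bm + 2) * PW.mZ (2 ^ l0) ≤ e * n := by
    rw [div_lt_iff₀ he0] at hd3
    have k1 := mul_le_mul_of_nonneg_right hd3.le (mz_pos l0).le
    have k2 := mul_le_mul_of_nonneg_left hn1 he0.le
    linarith
  have hmz : m * 1 ≤ PW.mZ (2 ^ l0) := by linarith
  have hbmz : bm * m ≤ bm * PW.mZ (2 ^ l0) := mul_le_mul_of_nonneg_left hml hbm.le
  have hbm1 : bm * 1 ≤ bm * PW.mZ (2 ^ l0) := mul_le_mul_of_nonneg_left hz1 hbm.le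
  have hres := both (n := n) hV hm he1 (by linarith) (fun b => by
    have := hb [b]
    rw [List.length_singleton, Nat.cast_one] at this
    linarith) s0 (by linarith) hn8
    (hpre k n (by omega) hsc V m (ρ l0 m V) (hmono V _ (r2 K (by omega))))
    (hpre k n (by omega) hsc (fun u => V (rev u)) m (ρ l0 m fun u => V (rev u)) (hmono (fun u => V (rev u)) _ (s2 K (by omega))))
  refine (RevX.pn_mono fun t ht htb => ?_).trans (hres.trans (by linarith))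
  intro hcon
  refine htb fun x y hx hy => (hcon x y hx hy).trans ?_
  have := mul_le_mul_of_nonneg_right he2 (Nat.cast_nonneg (α := ℝ) n)
  linarith

end NPR

end HexObs
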