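import Mathlib
import Pool.Agent.ERG.Core

/-!
# The matrices of a system are feasible if and only if the system is solvable
-/

namespace Pool.Agent.ERG

open Finset

section GadgetAux

open Classical in
/-- Mass of a matrix on the rows and columns `< n`. -/
private noncomputable def gM (n : ℕ) (X Y : ℕ → ℝ) (P : ℕ → ℕ → Prop) : ℝ :=
  ∑ r ∈ range n, ∑ c ∈ range n, X r * Y c * (if P r c then 1 else 0)

open Classical in
/-- Mass of a set of indices `< n`. -/
private noncomputable def gS (n : ℕ) (X : ℕ → ℝ) (A : ℕ → Prop) : ℝ :=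
  ∑ r ∈ range n, X r * (if A r then 1 else 0)

variable {n : ℕ} {X Y : ℕ → ℝ}

private theorem gM_congr {P Q : ℕ → ℕ → Prop} (h : ∀ r < n, ∀ c < n, (P r c ↔ Q r c)) :
    gM n X Y P = gM n X Y Q := by
  unfold gM
  refine Finset.sum_congr rfl fun r hr => Finset.sum_congr rfl fun c hc => ?_
  have := h r (Finset.mem_range.1 hr) c (Finset.mem_range.1 hc)
  by_cases hP : P r c
  · rw [if_pos hP, if_pos (this.1 hP)]
  · rw [if_neg hP, if_neg (fun hQ => hP (this.2 hQ))]

private theorem gM_rect (A B : ℕ → Prop) :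
    gM n X Y (fun r c => A r ∧ B c) = gS n X A * gS n Y B := by
  unfold gM gS
  rw [Finset.sum_mul_sum]
  refine Finset.sum_congr rfl fun r _ => Finset.sum_congr rfl fun c _ => ?_
  by_cases hA : A r <;> by_cases hB : B c <;> simp [hA, hB]

private theorem gM_or {P Q : ℕ → ℕ → Prop} (h : ∀ r c, P r c → Q r c → False) :
    gM n X Y (fun r c => P r c ∨ Q r c) = gM n X Y P + gM n X Y Q := by
  unfold gM
  rw [← Finset.sum_add_distrib]
  refine Finset.sum_congr rfl fun r _ => ?_
  rw [← Finset.sum_add_distrib]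
  refine Finset.sum_congr rfl fun c _ => ?_
  by_cases hP : P r c
  · by_cases hQ : Q r c
    · exact (h r c hP hQ).elim
    · simp [hP, hQ]
  · by_cases hQ : Q r c <;> simp [hP, hQ]

private theorem gM_diff {P Q : ℕ → ℕ → Prop} (h : ∀ r c, Q r c → P r c) :
    gM n X Y (fun r c => P r c ∧ ¬ Q r c) = gM n X Y P - gM n X Y Q := by
  unfold gM
  rw [← Finset.sum_sub_distrib]
  refine Finset.sum_congr rfl fun r _ => ?_
  rw [← Finset.sum_sub_distrib]
  refine Finset.sum_congr rfl fun c _ => ?_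
  by_cases hQ : Q r c
  · simp [hQ, h r c hQ]
  · by_cases hP : P r c <;> simp [hP, hQ]

private theorem gS_true : gS n X (fun _ => True) = ∑ r ∈ range n, X r := by
  simp [gS]

private theorem gM_true : gM n X Y (fun _ _ => True) =
    (∑ r ∈ range n, X r) * ∑ r ∈ range n, Y r := by
  rw [← gS_true, ← gS_true, ← gM_rect]
  exact gM_congr (by simp)

private theorem gM_not (P : ℕ → ℕ → Prop) : gM n X Y (fun r c => ¬ P r c) =
    (∑ r ∈ range n, X r) * (∑ r ∈ range n, Y r) - gM n X Y P := by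
  rw [← gM_true, ← gM_diff (P := fun _ _ => True) (fun _ _ _ => trivial)]
  exact gM_congr (by simp)

private theorem gS_eq {a : ℕ} (h : a < n) : gS n X (fun r => r = a) = X a := by
  unfold gS
  rw [Finset.sum_eq_single a]
  · simp
  · intro b _ hb
    simp [hb]
  · intro h'
    exact absurd (Finset.mem_range.2 h) h'

private theorem gS_or {A B : ℕ → Prop} (h : ∀ r, A r → B r → False) :
    gS n X (fun r => A r ∨ B r) = gS n X A + gS n X B := by
  unfold gS
  rw [← Finset.sum_add_distrib]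
  refine Finset.sum_congr rfl fun r _ => ?_
  by_cases hP : A r
  · by_cases hQ : B r
    · exact (h r hP hQ).elim
    · simp [hP, hQ]
  · by_cases hQ : B r <;> simp [hP, hQ]

private theorem gS_congr {A B : ℕ → Prop} (h : ∀ r, A r ↔ B r) : gS n X A = gS n X B := by
  have : A = B := funext fun r => propext (h r)
  rw [this]

private theorem gS_not (A : ℕ → Prop) :
    gS n X (fun r => ¬ A r) = (∑ r ∈ range n, X r) - gS n X A := by
  unfold gS
  rw [← Finset.sum_sub_distrib]
  refine Finset.sum_congr rfl fun r _ => ?_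
  by_cases hP : A r <;> simp [hP]

private theorem gS_lt3 (h : 3 ≤ n) : gS n X (fun r => r < 3) = X 0 + X 1 + X 2 := by
  have e : gS n X (fun r => r < 3) = gS n X (fun r => r = 0 ∨ r = 1 ∨ r = 2) :=
    gS_congr (fun r => by omega)
  rw [e, gS_or (fun r h1 h2 => by omega), gS_or (fun r h1 h2 => by omega), gS_eq (by omega),
    gS_eq (by omega), gS_eq (by omega)]
  ring

private theorem gS_two {a b : ℕ} (ha : a < n) (hb : b < n) (hab : a ≠ b) :
    gS n X (fun r => r = a ∨ r = b) = X a + X b := by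
  rw [gS_or (fun r h1 h2 => hab (h1.symm.trans h2)), gS_eq ha, gS_eq hb]

private theorem gS_three {a b c : ℕ} (ha : a < n) (hb : b < n) (hc : c < n) (hab : a ≠ b)
    (hac : a ≠ c) (hbc : b ≠ c) :
    gS n X (fun r => r = a ∨ r = b ∨ r = c) = X a + X b + X c := by
  have h : ∀ r, r = a → (r = b ∨ r = c) → False := by
    intro r h1 h2
    rcases h2 with h2 | h2
    · exact hab (h1.symm.trans h2)
    · exact hac (h1.symm.trans h2)
  rw [gS_or h, gS_two hb hc hbc, gS_eq ha]
  ring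

private theorem gS_14 (h : 5 ≤ n) :
    gS n X (fun r => 1 ≤ r ∧ r ≤ 4) = X 1 + X 2 + (X 3 + X 4) := by
  have e : gS n X (fun r => 1 ≤ r ∧ r ≤ 4) = gS n X (fun r => (r = 1 ∨ r = 2) ∨ (r = 3 ∨ r = 4)) :=
    gS_congr (fun r => by omega)
  rw [e, gS_or (fun r h1 h2 => by omega), gS_two (by omega) (by omega) (by omega),
    gS_two (by omega) (by omega) (by omega)]

private theorem gsum_split (X : ℕ → ℝ) (k : ℕ) : ∑ r ∈ range (2 * k + 3), X r =
    X 0 + ∑ t ∈ range (k + 1), (X (1 + 2 * t) + X (2 + 2 * t)) := by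
  induction k with
  | zero =>
    simp [Finset.sum_range_succ]
    ring
  | succ k ih =>
    rw [Finset.sum_range_succ (n := k + 1), show 2 * (k + 1) + 3 = 2 * k + 3 + 1 + 1 by ring,
      Finset.sum_range_succ, Finset.sum_range_succ, ih,
      show 2 * k + 3 + 1 = 2 + 2 * (k + 1) by ring, show 2 * k + 3 = 1 + 2 * (k + 1) by ring]
    ring

/-- The structure of the two distributions. -/
private structure Str (k : ℕ) (m : ℝ) (X Y a : ℕ → ℝ) : Prop where
  km : (k : ℝ) * m = 1 / 2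
  mpos : 0 < m
  sX : ∑ r ∈ range (2 * k + 3), X r = 1
  sY : ∑ r ∈ range (2 * k + 3), Y r = 2 / 3
  x0 : X 0 = 1 / 2 - m
  x12 : X 1 + X 2 = m
  y0 : Y 0 = 1 / 3 - 2 / 3 * m
  y12 : Y 1 + Y 2 = 2 / 3 * m
  x3 : ∀ v < k, X (3 + 2 * v) = m * (1 + a v) / 2
  x4 : ∀ v < k, X (4 + 2 * v) = m * (1 - a v) / 2
  y3 : ∀ v < k, Y (3 + 2 * v) = m * (1 + a v) / 3
  y4 : ∀ v < k, Y (4 + 2 * v) = m * (1 - a v) / 3

private theorem Str.eqc {k : ℕ} {m : ℝ} {a : ℕ → ℝ} (S : Str k m X Y a) (hk : 0 < k) (s : ℕ → ℕ)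
    (hs : ∀ i, 1 ≤ i → i ≤ 4 → s i < k) :
    gM (2 * k + 3) X Y (eqCell s) = 1 / 3 ↔
      ((s 0 = 0 → a (s 1) + a (s 2) = a (s 3) + a (s 4)) ∧
      (s 0 = 1 → a (s 1) * a (s 2) = a (s 3) * a (s 4)) ∧ (2 ≤ s 0 → a (s 1) = 0)) := by
  have h1 := hs 1 (by norm_num) (by norm_num)
  have h2 := hs 2 (by norm_num) (by norm_num)
  have h3 := hs 3 (by norm_num) (by norm_num)
  have h4 := hs 4 (by norm_num) (by norm_num)
  have hm := S.mpos
  have x3' := S.x3 0 hk
  have x4' := S.x4 0 hk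
  have y3' := S.y3 0 hk
  have y4' := S.y4 0 hk
  simp only [mul_zero, add_zero] at x3' x4' y3' y4'
  have hR : gM (2 * k + 3) X Y (fun r c => r < 3 ∧ ¬ ((r = 1 ∨ r = 2) ∧ (c = 1 ∨ c = 2))) =
      1 / 3 - m * (2 / 3 * m) := by
    have e : gM (2 * k + 3) X Y (fun r c => r < 3 ∧ ¬ ((r = 1 ∨ r = 2) ∧ (c = 1 ∨ c = 2))) =
        gM (2 * k + 3) X Y (fun r c => (r < 3 ∧ True) ∧ ¬ ((r = 1 ∨ r = 2) ∧ (c = 1 ∨ c = 2))) :=
      gM_congr (fun r _ c _ => by simp)
    rw [e, gM_diff (P := fun r c => r < 3 ∧ True) (Q := fun r c => (r = 1 ∨ r = 2) ∧ (c = 1 ∨ c = 2))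
      (fun r c h => ⟨by omega, trivial⟩), gM_rect, gM_rect, gS_true, gS_lt3 (by omega),
      gS_two (by omega) (by omega) (by omega), gS_two (by omega) (by omega) (by omega), S.sY, S.y12,
      S.x12, S.x0, add_assoc, S.x12]
    ring
  rcases Nat.lt_trichotomy (s 0) 1 with h0 | h0 | h0
  · have h0' : s 0 = 0 := by omega
    have hR2 : gM (2 * k + 3) X Y (fun r c => r < 3 ∧ ¬ ((r = 1 ∨ r = 2) ∧ (1 ≤ c ∧ c ≤ 4))) =
        1 / 3 - m * (4 / 3 * m) := by
      have e : gM (2 * k + 3) X Y (fun r c => r < 3 ∧ ¬ ((r = 1 ∨ r = 2) ∧ (1 ≤ c ∧ c ≤ 4))) =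
          gM (2 * k + 3) X Y
            (fun r c => (r < 3 ∧ True) ∧ ¬ ((r = 1 ∨ r = 2) ∧ (1 ≤ c ∧ c ≤ 4))) :=
        gM_congr (fun r _ c _ => by simp)
      rw [e, gM_diff (P := fun r c => r < 3 ∧ True)
        (Q := fun r c => (r = 1 ∨ r = 2) ∧ (1 ≤ c ∧ c ≤ 4))
        (fun r c h => ⟨by omega, trivial⟩), gM_rect, gM_rect, gS_true, gS_lt3 (by omega),
        gS_two (by omega) (by omega) (by omega), gS_14 (by omega), S.sY, S.y12,
        S.x0, add_assoc, S.x12, y3', y4']
      ring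
    have e : gM (2 * k + 3) X Y (eqCell s) = m * (1 + a (s 1)) / 2 * (2 / 3 * m) +
        (m * (1 + a (s 2)) / 2 * (2 / 3 * m) + (m * (1 - a (s 3)) / 2 * (2 / 3 * m) +
        (m * (1 - a (s 4)) / 2 * (2 / 3 * m) + (1 / 3 - m * (4 / 3 * m))))) := by
      have e1 : gM (2 * k + 3) X Y (eqCell s) = gM (2 * k + 3) X Y (fun r c =>
          (r = 3 + 2 * s 1 ∧ (c = 1 ∨ c = 2)) ∨ ((r = 3 + 2 * s 2 ∧ (c = 3 ∨ c = 4)) ∨
          ((r = 4 + 2 * s 3 ∧ (c = 1 ∨ c = 2)) ∨ ((r = 4 + 2 * s 4 ∧ (c = 3 ∨ c = 4)) ∨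
          (r < 3 ∧ ¬ ((r = 1 ∨ r = 2) ∧ (1 ≤ c ∧ c ≤ 4))))))) :=
        gM_congr (fun r _ c _ => by simp only [eqCell, h0', if_true])
      rw [e1, gM_or (P := fun r c => r = 3 + 2 * s 1 ∧ (c = 1 ∨ c = 2))
          (fun r c p q => by omega),
        gM_or (P := fun r c => r = 3 + 2 * s 2 ∧ (c = 3 ∨ c = 4)) (fun r c p q => by omega),
        gM_or (P := fun r c => r = 4 + 2 * s 3 ∧ (c = 1 ∨ c = 2)) (fun r c p q => by omega),
        gM_or (P := fun r c => r = 4 + 2 * s 4 ∧ (c = 3 ∨ c = 4)) (fun r c p q => by omega),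
        gM_rect, gM_rect, gM_rect, gM_rect, hR2, gS_eq (by omega), gS_eq (by omega),
        gS_eq (by omega), gS_eq (by omega), gS_two (by omega) (by omega) (by omega),
        gS_two (by omega) (by omega) (by omega), S.y12, y3', y4', S.x3 _ h1, S.x3 _ h2,
        S.x4 _ h3, S.x4 _ h4]
      ring
    rw [e]
    constructor
    · intro h
      refine ⟨fun _ => ?_, fun h' => by omega, fun h' => by omega⟩
      have h5 : m * m * ((a (s 1) + a (s 2)) - (a (s 3) + a (s 4))) = 0 := by linear_combination 3 * h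
      rcases mul_eq_zero.1 h5 with h6 | h6
      · exact absurd h6 (mul_pos hm hm).ne'
      · linarith
    · rintro ⟨h, -, -⟩
      linear_combination (m * m / 3) * h h0'
  · have e : gM (2 * k + 3) X Y (eqCell s) =
        m * (1 + a (s 1)) / 2 * (m * (1 + a (s 2)) / 3) +
        (m * (1 - a (s 1)) / 2 * (m * (1 - a (s 2)) / 3) +
        (m * (1 - a (s 3)) / 2 * (m * (1 + a (s 4)) / 3) +
        (m * (1 + a (s 3)) / 2 * (m * (1 - a (s 4)) / 3) + (1 / 3 - m * (2 / 3 * m))))) := by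
      have e1 : gM (2 * k + 3) X Y (eqCell s) = gM (2 * k + 3) X Y (fun r c =>
          (r = 3 + 2 * s 1 ∧ c = 3 + 2 * s 2) ∨ ((r = 4 + 2 * s 1 ∧ c = 4 + 2 * s 2) ∨
          ((r = 4 + 2 * s 3 ∧ c = 3 + 2 * s 4) ∨ ((r = 3 + 2 * s 3 ∧ c = 4 + 2 * s 4) ∨
          (r < 3 ∧ ¬ ((r = 1 ∨ r = 2) ∧ (c = 1 ∨ c = 2))))))) :=
        gM_congr (fun r _ c _ => by simp only [eqCell, h0, if_true, one_ne_zero, if_false])
      rw [e1, gM_or (P := fun r c => r = 3 + 2 * s 1 ∧ c = 3 + 2 * s 2)
          (fun r c p q => by omega),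
        gM_or (P := fun r c => r = 4 + 2 * s 1 ∧ c = 4 + 2 * s 2) (fun r c p q => by omega),
        gM_or (P := fun r c => r = 4 + 2 * s 3 ∧ c = 3 + 2 * s 4) (fun r c p q => by omega),
        gM_or (P := fun r c => r = 3 + 2 * s 3 ∧ c = 4 + 2 * s 4) (fun r c p q => by omega),
        gM_rect (fun r => r = 3 + 2 * s 1) (fun c => c = 3 + 2 * s 2),
        gM_rect (fun r => r = 4 + 2 * s 1) (fun c => c = 4 + 2 * s 2),
        gM_rect (fun r => r = 4 + 2 * s 3) (fun c => c = 3 + 2 * s 4),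
        gM_rect (fun r => r = 3 + 2 * s 3) (fun c => c = 4 + 2 * s 4), hR,
        gS_eq (by omega), gS_eq (by omega),
        gS_eq (by omega), gS_eq (by omega), gS_eq (by omega), gS_eq (by omega), gS_eq (by omega),
        gS_eq (by omega), S.x3 _ h1, S.x4 _ h1, S.x3 _ h3, S.x4 _ h3, S.y3 _ h2, S.y4 _ h2,
        S.y3 _ h4, S.y4 _ h4]
    rw [e]
    constructor
    · intro h
      refine ⟨fun h' => by omega, fun _ => ?_, fun h' => by omega⟩
      have h5 : m * m * (a (s 1) * a (s 2) - a (s 3) * a (s 4)) = 0 := by linear_combination 3 * h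
      rcases mul_eq_zero.1 h5 with h6 | h6
      · exact absurd h6 (mul_pos hm hm).ne'
      · linarith
    · rintro ⟨-, h, -⟩
      linear_combination (m * m / 3) * h h0
  · have e : gM (2 * k + 3) X Y (eqCell s) =
        m * (1 + a (s 1)) / 2 * (4 / 3 * m) + (1 / 3 - m * (2 / 3 * m)) := by
      have e1 : gM (2 * k + 3) X Y (eqCell s) = gM (2 * k + 3) X Y (fun r c =>
          (r = 3 + 2 * s 1 ∧ (1 ≤ c ∧ c ≤ 4)) ∨
          (r < 3 ∧ ¬ ((r = 1 ∨ r = 2) ∧ (c = 1 ∨ c = 2)))) :=
        gM_congr (fun r _ c _ => by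
          rw [eqCell, if_neg (by omega), if_neg (by omega)])
      rw [e1, gM_or (P := fun r c => r = 3 + 2 * s 1 ∧ (1 ≤ c ∧ c ≤ 4))
          (fun r c p q => by omega), gM_rect, hR, gS_eq (by omega), gS_14 (by omega), S.y12, y3', y4',
          S.x3 _ h1]
      ring
    rw [e]
    constructor
    · intro h
      refine ⟨fun h' => by omega, fun h' => by omega, fun _ => ?_⟩
      have h5 : m * m * a (s 1) = 0 := by linear_combination (3 / 2) * h
      rcases mul_eq_zero.1 h5 with h6 | h6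
      · exact absurd h6 (mul_pos hm hm).ne'
      · exact h6
    · rintro ⟨-, -, h⟩
      linear_combination (m * m * (2 / 3)) * h (by omega)

private theorem mass_cP (k : ℕ) (q : ℕ → ℕ → ℕ) (c : ℕ) (x : Fin (2 * k + 3) → ℝ)
    (y : Fin (2 * k + 4) → ℝ) (hx : ∀ i, x i = X i) (hy : ∀ j, y j = Y j) :
    mass (fun (i : Fin (2 * k + 3)) (j : Fin (2 * k + 4)) => cP k q c i j) x y =
      gM (2 * k + 3) X Y (fun r j => if c = 0 then r = 4 ∨ (r ≠ 3 ∧ j < 3)
        else if c % 2 = 1 then cellP k q ((c - 1) / 2) r j else ¬ cellP k q ((c - 1) / 2) r j) +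
      (∑ r ∈ range (2 * k + 3), X r) * Y (2 * k + 3) := by
  classical
  have h1 : ∀ i : Fin (2 * k + 3), (∑ j : Fin (2 * k + 4), x i * y j *
      (if cP k q c i j then (1 : ℝ) else 0)) =
      (fun r : ℕ => ∑ j ∈ range (2 * k + 4), X r * Y j * (if cP k q c r j then (1 : ℝ) else 0)) i := by
    intro i
    simp only [hx, hy]
    rw [Finset.sum_range]
  have h2 : mass (fun (i : Fin (2 * k + 3)) (j : Fin (2 * k + 4)) => cP k q c i j) x y =
      ∑ i : Fin (2 * k + 3), ∑ j : Fin (2 * k + 4), x i * y j *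
      (if cP k q c i j then (1 : ℝ) else 0) := by
    unfold mass
    refine Finset.sum_congr rfl fun i _ => Finset.sum_congr rfl fun j _ => ?_
    by_cases h : cP k q c i j
    · simp only [if_pos h]
    · simp only [if_neg h]
  rw [h2, Finset.sum_congr rfl (fun i _ => h1 i), ← Finset.sum_range
    (fun r : ℕ => ∑ j ∈ range (2 * k + 4), X r * Y j * (if cP k q c r j then (1 : ℝ) else 0)),
    Finset.sum_mul]
  unfold gM
  rw [← Finset.sum_add_distrib]
  refine Finset.sum_congr rfl fun r _ => ?_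
  rw [show 2 * k + 4 = 2 * k + 3 + 1 by ring, Finset.sum_range_succ]
  congr 1
  · refine Finset.sum_congr rfl fun j hj => ?_
    have hj' := Finset.mem_range.1 hj
    congr 1
    have e : cP k q c r j ↔ (if c = 0 then r = 4 ∨ (r ≠ 3 ∧ j < 3)
        else if c % 2 = 1 then cellP k q ((c - 1) / 2) r j
        else ¬ cellP k q ((c - 1) / 2) r j) := by
      unfold cP
      constructor
      · rintro (h | h)
        · omega
        · exact h
      · intro h
        exact Or.inr h
    by_cases hP : cP k q c r j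
    · rw [if_pos hP, if_pos (e.1 hP)]
    · rw [if_neg hP, if_neg (fun hQ => hP (e.2 hQ))]
  · have : cP k q c r (2 * k + 3) := Or.inl rfl
    rw [if_pos this, mul_one]

private theorem bmass_range (k : ℕ) (y : Fin (2 * k + 4) → ℝ) (hy : ∀ j, y j = Y j) (b : Fin 3) :
    bmass (fun j : Fin (2 * k + 4) => cblk k j) y b =
      gS (2 * k + 4) Y (fun j => cblk k j = b) := by
  classical
  unfold bmass gS
  rw [Finset.sum_range]
  refine Finset.sum_congr rfl fun j _ => ?_
  rw [hy]
  by_cases h : cblk k j = b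
  · simp only [if_pos h, mul_one]
  · simp only [if_neg h, mul_zero]

private theorem cblk_zero (k j : ℕ) : cblk k j = 0 ↔ j = 2 * k + 3 := by
  unfold cblk
  split_ifs with h1 h2
  · simp [h1]
  · simp [h1]
  · simp [h1]

private theorem cblk_one (k j : ℕ) : cblk k j = 1 ↔ j < 3 := by
  unfold cblk
  split_ifs with h1 h2
  · simp only [Fin.isValue, zero_ne_one, false_iff, not_lt]
    omega
  · simp [h2]
  · simp only [Fin.isValue, Fin.reduceEq, false_iff]
    exact h2

private theorem cblk_two (k j : ℕ) : cblk k j = 2 ↔ ¬ (j = 2 * k + 3 ∨ j < 3) := by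
  unfold cblk
  split_ifs with h1 h2
  · simp [h1]
  · simp [h2]
  · simp [h1]
    omega

private theorem bmass_zero (k : ℕ) (y : Fin (2 * k + 4) → ℝ) (hy : ∀ j, y j = Y j) :
    bmass (fun j : Fin (2 * k + 4) => cblk k j) y 0 = Y (2 * k + 3) := by
  rw [bmass_range k y hy, gS_congr (cblk_zero k), gS_eq (by omega)]

private theorem bmass_one (k : ℕ) (y : Fin (2 * k + 4) → ℝ) (hy : ∀ j, y j = Y j) :
    bmass (fun j : Fin (2 * k + 4) => cblk k j) y 1 = Y 0 + Y 1 + Y 2 := by
  rw [bmass_range k y hy, gS_congr (cblk_one k), gS_lt3 (by omega)]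

private theorem bmass_two (k : ℕ) (y : Fin (2 * k + 4) → ℝ) (hy : ∀ j, y j = Y j) :
    bmass (fun j : Fin (2 * k + 4) => cblk k j) y 2 =
      ∑ r ∈ range (2 * k + 4), Y r - (Y (2 * k + 3) + (Y 0 + Y 1 + Y 2)) := by
  rw [bmass_range k y hy, gS_congr (cblk_two k), gS_not, gS_or (fun r h1 h2 => by omega),
    gS_eq (by omega), gS_lt3 (by omega)]

/-- The mass of the strict constraint. -/
private theorem strict_mass (k : ℕ) (hk : 0 < k) : gM (2 * k + 3) X Y
    (fun r j => r = 4 ∨ (r ≠ 3 ∧ j < 3)) = X 4 * (∑ r ∈ range (2 * k + 3), Y r) +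
      (∑ r ∈ range (2 * k + 3), X r - (X 3 + X 4)) * (Y 0 + Y 1 + Y 2) := by
  have e : gM (2 * k + 3) X Y (fun r j => r = 4 ∨ (r ≠ 3 ∧ j < 3)) =
      gM (2 * k + 3) X Y (fun r j => (r = 4 ∧ True) ∨ (¬ (r = 3 ∨ r = 4) ∧ j < 3)) :=
    gM_congr (fun r _ c _ => by
      constructor
      · rintro (h | ⟨h1, h2⟩)
        · exact Or.inl ⟨h, trivial⟩
        · by_cases h4 : r = 4
          · exact Or.inl ⟨h4, trivial⟩
          · exact Or.inr ⟨by omega, h2⟩
      · rintro (⟨h, -⟩ | ⟨h1, h2⟩)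
        · exact Or.inl h
        · exact Or.inr ⟨by omega, h2⟩)
  rw [e, gM_or (P := fun r j => r = 4 ∧ True) (fun r c p q => by omega), gM_rect, gM_rect, gS_true,
    gS_not, gS_eq (by omega), gS_two (by omega) (by omega) (by omega), gS_lt3 (by omega)]

/-- Scaling of a solution. -/
private theorem Sys_smul {E : ℕ} {q : ℕ → ℕ → ℕ} {a : ℕ → ℝ} (h : Sys E q a) (c : ℝ) :
    Sys E q (fun v => c * a v) := by
  intro e he
  obtain ⟨h1, h2, h3⟩ := h e he
  refine ⟨fun h0 => ?_, fun h0 => ?_, fun h0 => ?_⟩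
  · have := h1 h0
    linear_combination c * this
  · have := h2 h0
    show c * a _ * (c * a _) = c * a _ * (c * a _)
    linear_combination c * c * this
  · show c * a _ = 0
    rw [h3 h0, mul_zero]

private theorem cellP_row (k : ℕ) (q : ℕ → ℕ → ℕ) (g : ℕ) (hg : g < k + 1) :
    gM (2 * k + 3) X Y (cellP k q g) =
      (X 0 + X (1 + 2 * g) + X (2 + 2 * g)) * ∑ r ∈ range (2 * k + 3), Y r := by
  have e : gM (2 * k + 3) X Y (cellP k q g) = gM (2 * k + 3) X Y
      (fun r _ => (r = 0 ∨ r = 1 + 2 * g ∨ r = 2 + 2 * g) ∧ True) :=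
    gM_congr (fun r _ c _ => by simp only [cellP, if_pos hg, and_true])
  rw [e, gM_rect, gS_true, gS_three (by omega) (by omega) (by omega) (by omega) (by omega)
    (by omega)]

private theorem cellP_col (k : ℕ) (q : ℕ → ℕ → ℕ) (t : ℕ) (ht : 1 ≤ t) (htk : t ≤ k) :
    gM (2 * k + 3) X Y (cellP k q (k + t)) =
      (∑ r ∈ range (2 * k + 3), X r) * (Y 0 + Y (1 + 2 * t) + Y (2 + 2 * t)) := by
  have e : gM (2 * k + 3) X Y (cellP k q (k + t)) = gM (2 * k + 3) X Y
      (fun _ c => True ∧ (c = 0 ∨ c = 1 + 2 * t ∨ c = 2 + 2 * t)) :=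
    gM_congr (fun r _ c _ => by
      simp only [cellP, if_neg (show ¬ k + t < k + 1 by omega),
        if_pos (show k + t < 2 * k + 1 by omega), show k + t - k = t by omega, true_and])
  rw [e, gM_rect, gS_true, gS_three (by omega) (by omega) (by omega) (by omega) (by omega)
    (by omega)]

private theorem cellP_con (k : ℕ) (q : ℕ → ℕ → ℕ) (t : ℕ) (ht : 1 ≤ t) (htk : t ≤ k) :
    gM (2 * k + 3) X Y (cellP k q (2 * k + t)) =
      X (1 + 2 * t) * (Y 0 + Y 1 + Y 2) +
      (X 0 + X 1 + X 2) * (∑ r ∈ range (2 * k + 3), Y r - Y (1 + 2 * t)) := by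
  have e : gM (2 * k + 3) X Y (cellP k q (2 * k + t)) = gM (2 * k + 3) X Y
      (fun r c => (r = 1 + 2 * t ∧ c < 3) ∨ (r < 3 ∧ ¬ c = 1 + 2 * t)) :=
    gM_congr (fun r _ c _ => by
      simp only [cellP, if_neg (show ¬ 2 * k + t < k + 1 by omega),
        if_neg (show ¬ 2 * k + t < 2 * k + 1 by omega),
        if_pos (show 2 * k + t < 3 * k + 1 by omega),
        show 2 * k + t - 2 * k = t by omega, ne_eq])
  rw [e, gM_or (P := fun r c => r = 1 + 2 * t ∧ c < 3) (fun r c p q => by omega), gM_rect, gM_rect,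
    gS_not, gS_eq (by omega), gS_eq (by omega), gS_lt3 (by omega), gS_lt3 (by omega)]

private theorem cellP_equ (k : ℕ) (q : ℕ → ℕ → ℕ) (e : ℕ) :
    gM (2 * k + 3) X Y (cellP k q (3 * k + 1 + e)) = gM (2 * k + 3) X Y (eqCell (q e)) :=
  gM_congr (fun r _ c _ => by
    simp only [cellP, if_neg (show ¬ 3 * k + 1 + e < k + 1 by omega),
      if_neg (show ¬ 3 * k + 1 + e < 2 * k + 1 by omega),
      if_neg (show ¬ 3 * k + 1 + e < 3 * k + 1 by omega),
      show 3 * k + 1 + e - (3 * k + 1) = e by omega])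

/-- The cell part of the matrix of a constraint strategy. -/
private def cellC (k : ℕ) (q : ℕ → ℕ → ℕ) (c r j : ℕ) : Prop :=
  if c = 0 then r = 4 ∨ (r ≠ 3 ∧ j < 3)
  else if c % 2 = 1 then cellP k q ((c - 1) / 2) r j else ¬ cellP k q ((c - 1) / 2) r j

private theorem cellC_zero (k : ℕ) (q : ℕ → ℕ → ℕ) (hk : 0 < k) :
    gM (2 * k + 3) X Y (cellC k q 0) = X 4 * (∑ r ∈ range (2 * k + 3), Y r) +
      (∑ r ∈ range (2 * k + 3), X r - (X 3 + X 4)) * (Y 0 + Y 1 + Y 2) := by
  rw [← strict_mass k hk]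
  exact gM_congr (fun r _ c _ => by simp only [cellC, if_true])

private theorem cellC_odd (k : ℕ) (q : ℕ → ℕ → ℕ) (g : ℕ) :
    gM (2 * k + 3) X Y (cellC k q (1 + 2 * g)) = gM (2 * k + 3) X Y (cellP k q g) :=
  gM_congr (fun r _ c _ => by
    simp only [cellC, if_neg (show ¬ 1 + 2 * g = 0 by omega),
      if_pos (show (1 + 2 * g) % 2 = 1 by omega), show (1 + 2 * g - 1) / 2 = g by omega])

private theorem cellC_even (k : ℕ) (q : ℕ → ℕ → ℕ) (g : ℕ) :
    gM (2 * k + 3) X Y (cellC k q (2 + 2 * g)) = (∑ r ∈ range (2 * k + 3), X r) *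
      (∑ r ∈ range (2 * k + 3), Y r) - gM (2 * k + 3) X Y (cellP k q g) := by
  rw [← gM_not]
  exact gM_congr (fun r _ c _ => by
    simp only [cellC, if_neg (show ¬ 2 + 2 * g = 0 by omega),
      if_neg (show ¬ (2 + 2 * g) % 2 = 1 by omega), show (2 + 2 * g - 1) / 2 = g by omega])

/-- All equality constraints follow from the structure and the equations. -/
private theorem Str.all {k : ℕ} {m : ℝ} {a : ℕ → ℝ} (S : Str k m X Y a) (hk : 0 < k)
    (E : ℕ) (q : ℕ → ℕ → ℕ) (hq : ∀ e < E, ∀ s, 1 ≤ s → s ≤ 4 → q e s < k) (ha : Sys E q a)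
    (g : ℕ) (hg : g < 3 * k + 1 + E) : gM (2 * k + 3) X Y (cellP k q g) = 1 / 3 := by
  rcases Nat.lt_or_ge g (k + 1) with h | h
  · rw [cellP_row k q g h, S.sY]
    rcases Nat.eq_zero_or_pos g with h0 | h0
    · subst h0
      simp only [mul_zero, add_zero]
      rw [add_assoc, S.x12, S.x0]
      ring
    · obtain ⟨v, rfl⟩ : ∃ v, g = v + 1 := ⟨g - 1, by omega⟩
      rw [show 1 + 2 * (v + 1) = 3 + 2 * v by ring, show 2 + 2 * (v + 1) = 4 + 2 * v by ring,
        S.x3 v (by omega), S.x4 v (by omega), S.x0]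
      ring
  rcases Nat.lt_or_ge g (2 * k + 1) with h' | h'
  · obtain ⟨t, rfl⟩ : ∃ t, g = k + t := ⟨g - k, by omega⟩
    obtain ⟨v, rfl⟩ : ∃ v, t = v + 1 := ⟨t - 1, by omega⟩
    rw [cellP_col k q (v + 1) (by omega) (by omega), S.sX,
      show 1 + 2 * (v + 1) = 3 + 2 * v by ring, show 2 + 2 * (v + 1) = 4 + 2 * v by ring,
      S.y3 v (by omega), S.y4 v (by omega), S.y0]
    ring
  rcases Nat.lt_or_ge g (3 * k + 1) with h'' | h''
  · obtain ⟨t, rfl⟩ : ∃ t, g = 2 * k + t := ⟨g - 2 * k, by omega⟩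
    obtain ⟨v, rfl⟩ : ∃ v, t = v + 1 := ⟨t - 1, by omega⟩
    rw [cellP_con k q (v + 1) (by omega) (by omega), S.sY,
      show 1 + 2 * (v + 1) = 3 + 2 * v by ring, S.y3 v (by omega), S.x3 v (by omega),
      add_assoc (Y 0), add_assoc (X 0), S.y12, S.x12, S.y0, S.x0]
    ring
  · obtain ⟨e, rfl⟩ : ∃ e, g = 3 * k + 1 + e := ⟨g - (3 * k + 1), by omega⟩
    rw [cellP_equ, S.eqc hk (q e) (hq e (by omega))]
    exact ha e (by omega)

end GadgetAux

/-- Doc proof/MP_d68d66_lc, Section 2 (variable number `v < k`, `v₀ = 0`). -/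
theorem cfeas_iff (k E : ℕ) (q : ℕ → ℕ → ℕ) (hk : 0 < k)
    (hq : ∀ e < E, ∀ s, 1 ≤ s → s ≤ 4 → q e s < k) :
    CFeas k E q ↔ ∃ a : ℕ → ℝ, a 0 = 1 ∧ Sys E q a := by
  have hk' : (0 : ℝ) < k := Nat.cast_pos.2 hk
  constructor
  · rintro ⟨x, hx, y, hy, hb, hc, hst⟩
    obtain ⟨X, hX⟩ : ∃ X : ℕ → ℝ, ∀ i : Fin (2 * k + 3), x i = X i :=
      ⟨fun r => if h : r < 2 * k + 3 then x ⟨r, h⟩ else 0, fun i => by simp⟩
    obtain ⟨Y, hY⟩ : ∃ Y : ℕ → ℝ, ∀ i : Fin (2 * k + 4), y i = Y i :=
      ⟨fun r => if h : r < 2 * k + 4 then y ⟨r, h⟩ else 0, fun i => by simp⟩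
    have sX : ∑ r ∈ range (2 * k + 3), X r = 1 := by
      rw [Finset.sum_range, ← hx.2]
      exact Finset.sum_congr rfl fun i _ => (hX i).symm
    have sY' : ∑ r ∈ range (2 * k + 4), Y r = 1 := by
      rw [Finset.sum_range, ← hy.2]
      exact Finset.sum_congr rfl fun i _ => (hY i).symm
    have b0 : Y (2 * k + 3) = 1 / 3 := by rw [← bmass_zero k y hY]; exact hb 0
    have b1 : Y 0 + Y 1 + Y 2 = 1 / 3 := by rw [← bmass_one k y hY]; exact hb 1
    have sY : ∑ r ∈ range (2 * k + 3), Y r = 2 / 3 := by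
      rw [show 2 * k + 4 = 2 * k + 3 + 1 by ring, Finset.sum_range_succ, b0] at sY'
      linarith
    have hmass : ∀ c : ℕ, c < nC k E → gM (2 * k + 3) X Y (cellC k q c) ≤ 1 / 3 := by
      intro c hc'
      have h := hc ⟨c, hc'⟩
      have h2 := mass_cP (X := X) (Y := Y) k q c x y hX hY
      rw [sX, b0] at h2
      have h3 : gM (2 * k + 3) X Y (cellC k q c) + 1 * (1 / 3) ≤ 2 / 3 := h2 ▸ h
      linarith
    have hst' : gM (2 * k + 3) X Y (cellC k q 0) < 1 / 3 := by
      have hc' : 0 < nC k E := by unfold nC; omega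
      have h := hst ⟨0, hc'⟩ rfl
      have h2 := mass_cP (X := X) (Y := Y) k q 0 x y hX hY
      rw [sX, b0] at h2
      have h3 : gM (2 * k + 3) X Y (cellC k q 0) + 1 * (1 / 3) < 2 / 3 := h2 ▸ h
      linarith
    have hG : ∀ g < 3 * k + 1 + E, gM (2 * k + 3) X Y (cellP k q g) = 1 / 3 := by
      intro g hg
      have h1 := hmass (1 + 2 * g) (by unfold nC; omega)
      have h2 := hmass (2 + 2 * g) (by unfold nC; omega)
      rw [cellC_odd] at h1
      rw [cellC_even, sX, sY] at h2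
      linarith
    obtain ⟨m, hm⟩ : ∃ m, m = 1 / 2 - X 0 := ⟨_, rfl⟩
    have T : ∀ t < k + 1, X (1 + 2 * t) + X (2 + 2 * t) = m := by
      intro t ht
      have h := hG t (by omega)
      rw [cellP_row k q t ht, sY] at h
      rw [hm]
      linarith
    have km : (k : ℝ) * m = 1 / 2 := by
      have h := sX
      rw [gsum_split, Finset.sum_congr rfl (fun t ht => T t (Finset.mem_range.1 ht)),
        Finset.sum_const, Finset.card_range, nsmul_eq_mul] at h
      push_cast at h
      linarith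
    have mpos : 0 < m := by
      by_contra hneg
      have := mul_nonneg hk'.le (neg_nonneg.2 (not_lt.1 hneg))
      linarith
    have U : ∀ t < k + 1, Y (1 + 2 * t) + Y (2 + 2 * t) = 1 / 3 - Y 0 := by
      intro t ht
      rcases Nat.eq_zero_or_pos t with h0 | h0
      · subst h0
        simp only [mul_zero, add_zero]
        linarith
      · have h := hG (k + t) (by omega)
        rw [cellP_col k q t h0 (by omega), sX] at h
        linarith
    have y0 : 1 / 3 - Y 0 = 2 / 3 * m := by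
      have h := sY
      rw [gsum_split, Finset.sum_congr rfl (fun t ht => U t (Finset.mem_range.1 ht)),
        Finset.sum_const, Finset.card_range, nsmul_eq_mul] at h
      push_cast at h
      have h2 : (k : ℝ) * (1 / 3 - Y 0) = k * (2 / 3 * m) := by linarith
      exact mul_left_cancel₀ hk'.ne' h2
    have x12 : X 1 + X 2 = m := T 0 (by omega)
    have R : ∀ v < k, Y (3 + 2 * v) = 2 / 3 * X (3 + 2 * v) := by
      intro v hv
      have h := hG (2 * k + (v + 1)) (by omega)
      rw [cellP_con k q (v + 1) (by omega) (by omega), sY, b1, add_assoc, x12,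
        show 1 + 2 * (v + 1) = 3 + 2 * v by ring] at h
      have h5 : X 0 + m = 1 / 2 := by linarith
      rw [h5] at h
      linarith
    have S : Str k m X Y (fun v => 2 * X (3 + 2 * v) / m - 1) := by
      have e3 : ∀ v, m * (1 + (2 * X (3 + 2 * v) / m - 1)) = 2 * X (3 + 2 * v) := by
        intro v
        have : 2 * X (3 + 2 * v) / m * m = 2 * X (3 + 2 * v) := div_mul_cancel₀ _ mpos.ne'
        linear_combination this
      have T' : ∀ v < k, X (3 + 2 * v) + X (4 + 2 * v) = m := by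
        intro v hv
        have h := T (v + 1) (by omega)
        rw [show 1 + 2 * (v + 1) = 3 + 2 * v by ring, show 2 + 2 * (v + 1) = 4 + 2 * v by ring] at h
        exact h
      have U' : ∀ v < k, Y (3 + 2 * v) + Y (4 + 2 * v) = 2 / 3 * m := by
        intro v hv
        have h := U (v + 1) (by omega)
        rw [show 1 + 2 * (v + 1) = 3 + 2 * v by ring, show 2 + 2 * (v + 1) = 4 + 2 * v by ring,
          y0] at h
        exact h
      refine ⟨km, mpos, sX, sY, by linarith, x12, by linarith, by linarith, ?_, ?_, ?_, ?_⟩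
      · intro v hv
        have := e3 v
        show X (3 + 2 * v) = m * (1 + (2 * X (3 + 2 * v) / m - 1)) / 2
        linarith
      · intro v hv
        have h1 := e3 v
        have h2 := T' v hv
        show X (4 + 2 * v) = m * (1 - (2 * X (3 + 2 * v) / m - 1)) / 2
        linarith
      · intro v hv
        have h1 := e3 v
        have h2 := R v hv
        show Y (3 + 2 * v) = m * (1 + (2 * X (3 + 2 * v) / m - 1)) / 3
        linarith
      · intro v hv
        have h1 := e3 v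
        have h2 := R v hv
        have h3 := U' v hv
        show Y (4 + 2 * v) = m * (1 - (2 * X (3 + 2 * v) / m - 1)) / 3
        linarith
    obtain ⟨a, ha⟩ : ∃ a : ℕ → ℝ, a = fun v => 2 * X (3 + 2 * v) / m - 1 := ⟨_, rfl⟩
    rw [← ha] at S
    have hsys : Sys E q a := by
      intro e he
      exact (S.eqc hk (q e) (hq e he)).1 (by rw [← cellP_equ k q e]; exact hG _ (by omega))
    have ha0 : 0 < a 0 := by
      rw [cellC_zero k q hk, sX, sY, b1] at hst'
      have h3 := S.x3 0 hk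
      have h4 := S.x4 0 hk
      simp only [mul_zero, add_zero] at h3 h4
      rw [h3, h4] at hst'
      have : 0 < m * a 0 := by linarith
      exact (pos_iff_pos_of_mul_pos this).1 mpos
    exact ⟨fun v => (1 / a 0) * a v, one_div_mul_cancel ha0.ne', Sys_smul hsys _⟩
  · rintro ⟨a, ha0, ha⟩
    obtain ⟨M, hM⟩ : ∃ M : ℝ, M = 1 + ∑ v ∈ range k, |a v| := ⟨_, rfl⟩
    have hM0 : 0 < M := by
      have : 0 ≤ ∑ v ∈ range k, |a v| := Finset.sum_nonneg fun _ _ => abs_nonneg _
      linarith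
    have hMa : ∀ v < k, |a v| ≤ M := by
      intro v hv
      have := Finset.single_le_sum (f := fun v => |a v|) (fun _ _ => abs_nonneg _)
        (Finset.mem_range.2 hv)
      linarith
    obtain ⟨b, hb⟩ : ∃ b : ℕ → ℝ, b = fun v => (1 / M) * a v := ⟨_, rfl⟩
    have hb0 : 0 < b 0 := by
      rw [hb]
      simp only [ha0, mul_one]
      positivity
    have hb1 : ∀ v < k, |b v| ≤ 1 := by
      intro v hv
      rw [hb]
      simp only [abs_mul, abs_div, abs_one, abs_of_pos hM0]
      rw [one_div, inv_mul_le_iff₀ hM0, mul_one]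
      exact hMa v hv
    have hbs : Sys E q b := by
      rw [hb]
      exact Sys_smul ha _
    obtain ⟨m, hm⟩ : ∃ m : ℝ, m = 1 / (2 * k) := ⟨_, rfl⟩
    have km : (k : ℝ) * m = 1 / 2 := by
      rw [hm]
      field_simp
    have mpos : 0 < m := by
      rw [hm]
      positivity
    have mle : m ≤ 1 / 2 := by
      have : (1 : ℝ) ≤ k := by exact_mod_cast hk
      nlinarith
    obtain ⟨X, hX⟩ : ∃ X : ℕ → ℝ, X = fun r => if r = 0 then 1 / 2 - m else if r < 3 then m / 2
      else if r % 2 = 1 then m * (1 + b ((r - 3) / 2)) / 2 else m * (1 - b ((r - 4) / 2)) / 2 :=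
      ⟨_, rfl⟩
    obtain ⟨Y, hY⟩ : ∃ Y : ℕ → ℝ, Y = fun c => if c = 2 * k + 3 then 1 / 3 else 2 / 3 * X c :=
      ⟨_, rfl⟩
    have X0 : X 0 = 1 / 2 - m := by rw [hX]; simp
    have X1 : X 1 = m / 2 := by rw [hX]; simp
    have X2 : X 2 = m / 2 := by rw [hX]; simp
    have X3 : ∀ v, X (3 + 2 * v) = m * (1 + b v) / 2 := by
      intro v
      rw [hX]
      simp only [if_neg (show ¬ 3 + 2 * v = 0 by omega), if_neg (show ¬ 3 + 2 * v < 3 by omega),
        if_pos (show (3 + 2 * v) % 2 = 1 by omega), show (3 + 2 * v - 3) / 2 = v by omega]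
    have X4 : ∀ v, X (4 + 2 * v) = m * (1 - b v) / 2 := by
      intro v
      rw [hX]
      simp only [if_neg (show ¬ 4 + 2 * v = 0 by omega), if_neg (show ¬ 4 + 2 * v < 3 by omega),
        if_neg (show ¬ (4 + 2 * v) % 2 = 1 by omega), show (4 + 2 * v - 4) / 2 = v by omega]
    have Yn : ∀ c, c < 2 * k + 3 → Y c = 2 / 3 * X c := by
      intro c hc
      rw [hY]
      simp only [if_neg (show ¬ c = 2 * k + 3 by omega)]
    have Yl : Y (2 * k + 3) = 1 / 3 := by rw [hY]; simp
    have sX : ∑ r ∈ range (2 * k + 3), X r = 1 := by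
      have T : ∀ t ∈ range (k + 1), X (1 + 2 * t) + X (2 + 2 * t) = m := by
        intro t _
        rcases Nat.eq_zero_or_pos t with h0 | h0
        · subst h0
          simp only [mul_zero, add_zero, X1, X2]
          ring
        · obtain ⟨v, rfl⟩ : ∃ v, t = v + 1 := ⟨t - 1, by omega⟩
          rw [show 1 + 2 * (v + 1) = 3 + 2 * v by ring, show 2 + 2 * (v + 1) = 4 + 2 * v by ring,
            X3, X4]
          ring
      rw [gsum_split, Finset.sum_congr rfl T, Finset.sum_const, Finset.card_range, nsmul_eq_mul, X0]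
      push_cast
      linarith
    have sY : ∑ r ∈ range (2 * k + 3), Y r = 2 / 3 := by
      rw [Finset.sum_congr rfl (fun c hc => Yn c (Finset.mem_range.1 hc)), ← Finset.mul_sum, sX,
        mul_one]
    have sY' : ∑ r ∈ range (2 * k + 4), Y r = 1 := by
      rw [show 2 * k + 4 = 2 * k + 3 + 1 by ring, Finset.sum_range_succ, Yl, sY]
      norm_num
    have Xnn : ∀ r, r < 2 * k + 3 → 0 ≤ X r := by
      intro r hr
      rcases Nat.lt_or_ge r 3 with h | h
      · interval_cases r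
        · rw [X0]; linarith
        · rw [X1]; linarith
        · rw [X2]; linarith
      · rcases Nat.even_or_odd' r with ⟨w, hw | hw⟩
        · obtain ⟨v, rfl⟩ : ∃ v, w = v + 2 := ⟨w - 2, by omega⟩
          rw [hw, show 2 * (v + 2) = 4 + 2 * v by ring, X4]
          have := abs_le.1 (hb1 v (by omega))
          have h5 : 0 ≤ m * (1 - b v) := mul_nonneg mpos.le (by linarith)
          linarith
        · obtain ⟨v, rfl⟩ : ∃ v, w = v + 1 := ⟨w - 1, by omega⟩
          rw [hw, show 2 * (v + 1) + 1 = 3 + 2 * v by ring, X3]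
          have := abs_le.1 (hb1 v (by omega))
          have h5 : 0 ≤ m * (1 + b v) := mul_nonneg mpos.le (by linarith)
          linarith
    have S : Str k m X Y b := by
      refine ⟨km, mpos, sX, sY, X0, by rw [X1, X2]; ring, ?_, ?_, fun v _ => X3 v, fun v _ => X4 v,
        ?_, ?_⟩
      · rw [Yn 0 (by omega), X0]
        ring
      · rw [Yn 1 (by omega), Yn 2 (by omega), X1, X2]
        ring
      · intro v hv
        rw [Yn _ (by omega), X3]
        ring
      · intro v hv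
        rw [Yn _ (by omega), X4]
        ring
    have b1 : Y 0 + Y 1 + Y 2 = 1 / 3 := by
      have h1 := S.y0
      have h2 := S.y12
      linarith
    have hall := S.all hk E q hq hbs
    have hmass : ∀ c : ℕ, mass (fun (i : Fin (2 * k + 3)) (j : Fin (2 * k + 4)) => cP k q c i j)
        (fun i => X i) (fun j => Y j) = gM (2 * k + 3) X Y (cellC k q c) + 1 / 3 := by
      intro c
      have h := mass_cP (X := X) (Y := Y) k q c (fun i => X i) (fun j => Y j) (fun _ => rfl)
        (fun _ => rfl)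
      rw [sX, Yl, one_mul] at h
      exact h
    have hz : mass (fun (i : Fin (2 * k + 3)) (j : Fin (2 * k + 4)) => cP k q 0 i j)
        (fun i => X i) (fun j => Y j) < 2 / 3 := by
      have h3 := X3 0
      have h4 := X4 0
      simp only [mul_zero, add_zero] at h3 h4
      rw [hmass, cellC_zero k q hk, sX, sY, b1, h3, h4]
      have : 0 < m * b 0 := mul_pos mpos hb0
      linarith
    refine ⟨fun i => X i, ⟨fun i => Xnn i i.2, ?_⟩, fun j => Y j, ⟨fun j => ?_, ?_⟩, ?_, ?_, ?_⟩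
    · rw [← sX, Finset.sum_range]
    · show 0 ≤ Y j
      rcases Nat.lt_or_ge (j : ℕ) (2 * k + 3) with h | h
      · rw [Yn _ h]
        have := Xnn _ h
        linarith
      · have : (j : ℕ) = 2 * k + 3 := by omega
        rw [this, Yl]
        norm_num
    · rw [← sY', Finset.sum_range]
    · intro b'
      fin_cases b'
      · show bmass (fun j : Fin (2 * k + 4) => cblk k j) (fun j : Fin (2 * k + 4) => Y j) 0 = 1 / 3
        rw [bmass_zero (Y := Y) k _ (fun _ => rfl), Yl]
      · show bmass (fun j : Fin (2 * k + 4) => cblk k j) (fun j : Fin (2 * k + 4) => Y j) 1 = 1 / 3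
        rw [bmass_one (Y := Y) k _ (fun _ => rfl), b1]
      · show bmass (fun j : Fin (2 * k + 4) => cblk k j) (fun j : Fin (2 * k + 4) => Y j) 2 = 1 / 3
        rw [bmass_two (Y := Y) k _ (fun _ => rfl), b1, Yl, sY']
        norm_num
    · intro c
      show mass (fun (i : Fin (2 * k + 3)) (j : Fin (2 * k + 4)) => cP k q c i j)
        (fun i => X i) (fun j => Y j) ≤ 2 / 3
      rcases Nat.eq_zero_or_pos (c : ℕ) with h0 | h0
      · rw [h0]
        exact hz.le
      · have hlt := c.2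
        unfold nC at hlt
        rw [hmass]
        rcases Nat.even_or_odd' (c : ℕ) with ⟨w, hw | hw⟩
        · obtain ⟨g, rfl⟩ : ∃ g, w = g + 1 := ⟨w - 1, by omega⟩
          rw [hw, show 2 * (g + 1) = 2 + 2 * g by ring, cellC_even, sX, sY, hall g (by omega)]
          norm_num
        · rw [hw, show 2 * w + 1 = 1 + 2 * w by ring, cellC_odd, hall w (by omega)]
          norm_num
    · intro c h0
      show mass (fun (i : Fin (2 * k + 3)) (j : Fin (2 * k + 4)) => cP k q c i j)
        (fun i => X i) (fun j => Y j) < 2 / 3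
      rw [show (c : ℕ) = 0 from h0]
      exact hz

end Pool.Agent.ERG
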