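import Mathlib
import Pool.Agent.ERG.Core

/-!
# The code of the game is computable in polynomial time
-/

namespace Pool.Agent.ERG

open Finset Pool.Agent.PolyTime

namespace PTabAux

variable {α : Type} [Ctx α]

theorem proj_unit : Proj (fun _ : α => ()) :=
  ⟨Nat.zero_le _, fun _ i hi => absurd hi (Nat.not_lt_zero i)⟩

theorem PD_false : PD (fun (_ : List Bool) (_ : α) => False) :=
  PD.true.not.congr (fun _ _ => by simp)

theorem PD_ite {A P Q : List Bool → α → Prop} [∀ x a, Decidable (A x a)] (hA : PD A)
    (hP : PD P) (hQ : PD Q) : PD (fun x a => if A x a then P x a else Q x a) :=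
  ((hA.and hP).or (hA.not.and hQ)).congr fun x a => by
    by_cases h : A x a <;> simp [h]

theorem PD_ne {F G : List Bool → α → ℕ} (hF : PF F) (hG : PF G) :
    PD (fun x a => F x a ≠ G x a) := (PD.eq hF hG).not

theorem pd_eqCell {s : List Bool → α → ℕ → ℕ} {R C : List Bool → α → ℕ}
    (hs : ∀ i, PF (fun x b => s x b i)) (hR : PF R) (hC : PF C) :
    PD (fun x b => eqCell (s x b) (R x b) (C x b)) := by
  have h0 := hs 0
  have h1 := hs 1
  have h2 := hs 2
  have h3 := hs 3
  have h4 := hs 4
  unfold eqCell
  (repeat' (first | assumption | exact PD_false | apply PD_ite | apply PD.or | apply PD.and | apply PD_ne | apply PD.eq | apply PD.lt | apply PD.le | apply PD.not | exact PF.const _ | apply PF.add | apply PF.sub | apply PF.mul | apply PF.div | apply PF.mod))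

theorem pd_cellP {k : List Bool → ℕ} {q : List Bool → ℕ → ℕ → ℕ} {G R C : List Bool → α → ℕ}
    (hk : PF (fun x (_ : Unit) => k x))
    (hq : PF (fun x (p : (Unit × ℕ) × ℕ) => q x p.1.2 p.2))
    (hG : PF G) (hR : PF R) (hC : PF C) :
    PD (fun x b => cellP (k x) (q x) (G x b) (R x b) (C x b)) := by
  have hk' : PF (fun x (_ : α) => k x) := hk.proj proj_unit
  have hE : PD (fun x b => eqCell (q x (G x b - (3 * k x + 1))) (R x b) (C x b)) := by
    refine pd_eqCell (s := fun x b i => q x (G x b - (3 * k x + 1)) i) (fun i => ?_) hR hC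
    refine PF.sub2 (π := fun _ : α => ()) proj_unit (A := fun x b => G x b - (3 * k x + 1))
      (B := fun _ _ => i) ?_ (PF.const i) hq
    (repeat' (first | assumption | exact PD_false | apply PD_ite | apply PD.or | apply PD.and | apply PD_ne | apply PD.eq | apply PD.lt | apply PD.le | apply PD.not | exact PF.const _ | apply PF.add | apply PF.sub | apply PF.mul | apply PF.div | apply PF.mod))
  unfold cellP
  (repeat' (first | assumption | exact PD_false | apply PD_ite | apply PD.or | apply PD.and | apply PD_ne | apply PD.eq | apply PD.lt | apply PD.le | apply PD.not | exact PF.const _ | apply PF.add | apply PF.sub | apply PF.mul | apply PF.div | apply PF.mod))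

theorem pd_cP {k : List Bool → ℕ} {q : List Bool → ℕ → ℕ → ℕ} {c R C : List Bool → α → ℕ}
    (hk : PF (fun x (_ : Unit) => k x))
    (hq : PF (fun x (p : (Unit × ℕ) × ℕ) => q x p.1.2 p.2))
    (hc : PF c) (hR : PF R) (hC : PF C) :
    PD (fun x b => cP (k x) (q x) (c x b) (R x b) (C x b)) := by
  have hk' : PF (fun x (_ : α) => k x) := hk.proj proj_unit
  have hE : PD (fun x b => cellP (k x) (q x) ((c x b - 1) / 2) (R x b) (C x b)) := by
    refine pd_cellP (G := fun x b => (c x b - 1) / 2) hk hq ?_ hR hC
    (repeat' (first | assumption | exact PD_false | apply PD_ite | apply PD.or | apply PD.and | apply PD_ne | apply PD.eq | apply PD.lt | apply PD.le | apply PD.not | exact PF.const _ | apply PF.add | apply PF.sub | apply PF.mul | apply PF.div | apply PF.mod))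
  unfold cP
  (repeat' (first | assumption | exact PD_false | apply PD_ite | apply PD.or | apply PD.and | apply PD_ne | apply PD.eq | apply PD.lt | apply PD.le | apply PD.not | exact PF.const _ | apply PF.add | apply PF.sub | apply PF.mul | apply PF.div | apply PF.mod))

theorem pf_blkN {k : List Bool → ℕ} {C : List Bool → α → ℕ}
    (hk : PF (fun x (_ : Unit) => k x)) (hC : PF C) :
    PF (fun x b => blkN (k x) (C x b)) := by
  have hk' : PF (fun x (_ : α) => k x) := hk.proj proj_unit
  unfold blkN
  refine PF.ite ?_ (PF.const 0) (PF.ite ?_ (PF.const 1) (PF.const 2)) <;> (repeat' (first | assumption | exact PD_false | apply PD_ite | apply PD.or | apply PD.and | apply PD_ne | apply PD.eq | apply PD.lt | apply PD.le | apply PD.not | exact PF.const _ | apply PF.add | apply PF.sub | apply PF.mul | apply PF.div | apply PF.mod))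

theorem pd_cpay {k : List Bool → ℕ} {q : List Bool → ℕ → ℕ → ℕ} {P R C S : List Bool → α → ℕ}
    (hk : PF (fun x (_ : Unit) => k x))
    (hq : PF (fun x (p : (Unit × ℕ) × ℕ) => q x p.1.2 p.2))
    (hP : PF P) (hR : PF R) (hC : PF C) (hS : PF S) :
    PD (fun x b => cpay (k x) (q x) (P x b) (R x b) (C x b) (S x b)) := by
  have hk' : PF (fun x (_ : α) => k x) := hk.proj proj_unit
  have hE : PD (fun x b => cP (k x) (q x) (S x b - 3) (R x b) (C x b)) := by
    refine pd_cP (c := fun x b => S x b - 3) hk hq ?_ hR hC
    (repeat' (first | assumption | exact PD_false | apply PD_ite | apply PD.or | apply PD.and | apply PD_ne | apply PD.eq | apply PD.lt | apply PD.le | apply PD.not | exact PF.const _ | apply PF.add | apply PF.sub | apply PF.mul | apply PF.div | apply PF.mod))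
  have hB : PF (fun x b => blkN (k x) (C x b)) := pf_blkN hk hC
  unfold cpay
  (repeat' (first | assumption | exact PD_false | apply PD_ite | apply PD.or | apply PD.and | apply PD_ne | apply PD.eq | apply PD.lt | apply PD.le | apply PD.not | exact PF.const _ | apply PF.add | apply PF.sub | apply PF.mul | apply PF.div | apply PF.mod))

theorem flatMap_finRange {β : Type} (n : ℕ) (f : ℕ → List β) :
    (List.finRange n).flatMap (fun i : Fin n => f (i : ℕ)) = (List.range n).flatMap f := by
  rw [← List.map_coe_finRange_eq_range, List.flatMap_map]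

theorem map_finRange {β : Type} (n : ℕ) (f : ℕ → β) :
    (List.finRange n).map (fun i : Fin n => f (i : ℕ)) = (List.range n).map f := by
  rw [← List.map_coe_finRange_eq_range, List.map_map]
  rfl

theorem table_eq {n1 n2 n3 : ℕ} (f : ℕ → ℕ → ℕ → Bool) :
    table (fun (i : Fin n1) (j : Fin n2) (l : Fin n3) => f i j l) =
      (List.range n1).flatMap fun i => (List.range n2).flatMap fun j =>
        (List.range n3).map fun l => f i j l := by
  unfold table
  rw [← flatMap_finRange]
  refine List.flatMap_congr fun i _ => ?_
  rw [← flatMap_finRange]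
  refine List.flatMap_congr fun j _ => ?_
  rw [← map_finRange]

theorem pl_table {n1 n2 n3 : List Bool → ℕ} {W : List Bool → ℕ → ℕ → ℕ → Prop}
    (h1 : PF (fun x (_ : Unit) => n1 x)) (h2 : PF (fun x (_ : Unit) => n2 x))
    (h3 : PF (fun x (_ : Unit) => n3 x))
    (hW : PD (fun x (p : ((Unit × ℕ) × ℕ) × ℕ) => W x p.1.1.2 p.1.2 p.2)) :
    PL (fun x (_ : Unit) => table (fun (i : Fin (n1 x)) (j : Fin (n2 x)) (l : Fin (n3 x)) =>
      @decide (W x i j l) (Classical.propDecidable _))) := by
  classical
  have hl : PL (fun x (p : (Unit × ℕ) × ℕ) => (List.range (n3 x)).map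
      (fun l => @decide (W x p.1.2 p.2 l) (Classical.propDecidable _))) :=
    ⟨fun x _ => n3 x, fun x p => W x p.1.1.2 p.1.2 p.2, h3.proj proj_unit, hW, fun _ _ => rfl⟩
  have hm : PL (fun x (p : Unit × ℕ) => (List.range (n2 x)).flatMap
      (fun j => (List.range (n3 x)).map
        (fun l => @decide (W x p.2 j l) (Classical.propDecidable _)))) :=
    PL.flatMap (C := fun x (_ : Unit × ℕ) => n2 x) (h2.proj proj_unit) hl
  have hn := PL.flatMap (C := fun x (_ : Unit) => n1 x) h1 hm
  refine hn.congr fun x a => ?_
  exact (table_eq (fun i j l => @decide (W x i j l) (Classical.propDecidable _))).symm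

theorem pl_unary3 {a b c : List Bool → ℕ} (ha : PF (fun x (_ : Unit) => a x))
    (hb : PF (fun x (_ : Unit) => b x)) (hc : PF (fun x (_ : Unit) => c x)) :
    PL (fun x (_ : Unit) => unary [a x, b x, c x]) := by
  have h : ∀ {f : List Bool → ℕ}, PF (fun x (_ : Unit) => f x) →
      PL (fun x (_ : Unit) => List.replicate (f x) true ++ [false]) := fun hf =>
    (PL.replicate hf true).append (PL.const_cons false)
  refine ((h ha).append ((h hb).append (h hc))).congr fun x _ => ?_
  simp [unary]

end PTabAux

open PTabAux in
/-- The code of the game of a system, when the numbers of variables and equations and the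
equations are given by expressions. -/
theorem pl_cgame {k E : List Bool → ℕ} {q : List Bool → ℕ → ℕ → ℕ}
    (hk : PF (fun x (_ : Unit) => k x)) (hE : PF (fun x (_ : Unit) => E x))
    (hq : PF (fun x (p : (Unit × ℕ) × ℕ) => q x p.1.2 p.2)) :
    PL (fun x (_ : Unit) => (cgame (k x) (E x) (q x)).enc) := by
  have h1 : PF (fun x (_ : Unit) => 2 * k x + 3 + 4) := by (repeat' (first | assumption | exact PD_false | apply PD_ite | apply PD.or | apply PD.and | apply PD_ne | apply PD.eq | apply PD.lt | apply PD.le | apply PD.not | exact PF.const _ | apply PF.add | apply PF.sub | apply PF.mul | apply PF.div | apply PF.mod))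
  have h2 : PF (fun x (_ : Unit) => 2 * k x + 4 + 1) := by (repeat' (first | assumption | exact PD_false | apply PD_ite | apply PD.or | apply PD.and | apply PD_ne | apply PD.eq | apply PD.lt | apply PD.le | apply PD.not | exact PF.const _ | apply PF.add | apply PF.sub | apply PF.mul | apply PF.div | apply PF.mod))
  have h3 : PF (fun x (_ : Unit) => 3 + nC (k x) (E x)) := by
    unfold nC
    (repeat' (first | assumption | exact PD_false | apply PD_ite | apply PD.or | apply PD.and | apply PD_ne | apply PD.eq | apply PD.lt | apply PD.le | apply PD.not | exact PF.const _ | apply PF.add | apply PF.sub | apply PF.mul | apply PF.div | apply PF.mod))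
  have ht : ∀ c : ℕ, PL (fun x (_ : Unit) =>
      table (fun (i : Fin (2 * k x + 3 + 4)) (j : Fin (2 * k x + 4 + 1))
        (l : Fin (3 + nC (k x) (E x))) =>
        @decide (cpay (k x) (q x) c i j l) (Classical.propDecidable _))) := fun c =>
    pl_table (W := fun x i j l => cpay (k x) (q x) c i j l) h1 h2 h3
      (pd_cpay (P := fun _ _ => c) hk hq (PF.const c) PF.snd.fst.fst PF.snd.fst PF.snd)
  exact (pl_unary3 h1 h2 h3).append ((ht 0).append ((ht 1).append (ht 2)))

end Pool.Agent.ERG
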