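import Mathlib
import Pool.Agent.ERG.Core

/-!
# The tokens, the pointers, well-formedness and the system are given by expressions
-/

namespace Pool.Agent.ERG

open Finset Pool.Agent.PolyTime Pool.Agent.BCP

variable {α : Type} [Ctx α]

namespace PTokAux

theorem PD_imp {P Q : List Bool → α → Prop} (hP : PD P) (hQ : PD Q) :
    PD (fun x a => P x a → Q x a) :=
  (hP.not.or hQ).congr fun x a => by tauto

theorem pf_ar {F : List Bool → α → ℕ} (hF : PF F) : PF (fun x a => ar (F x a)) := by
  unfold ar
  refine PF.ite ?_ (PF.const 0) (PF.ite ?_ (PF.const 1) (PF.const 2)) <;>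
    (repeat' (first
      | assumption
      | apply PD.or
      | apply PD.and
      | apply PD.eq
      | apply PD.lt
      | apply PD.le
      | apply PD.not
      | exact PF.const _
      | exact PF.len
      | apply pf_num
      | apply PA_pf_zeros
      | apply PF.add
      | apply PF.sub
      | apply PF.mul
      | apply PF.div
      | apply PF.mod))

theorem pf_sumar {P D : List Bool → α → ℕ} (hP : PF P) (hD : PF D) :
    PF (fun x a => ∑ j ∈ range (D x a), ar (num x (P x a + j))) :=
  PF.sum hD (F := fun x (q : α × ℕ) => ar (num x (P x q.1 + q.2)))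
    (pf_ar (pf_num (hP.fst.add PF.snd)))

theorem pd_Inc {P D : List Bool → α → ℕ} (hP : PF P) (hD : PF D) :
    PD (fun x a => Inc (num x) (P x a) (D x a)) := by
  unfold Inc
  refine PD.forall_lt (hD.add (PF.const 1)) (P := fun x (q : α × ℕ) =>
    q.2 + 1 < ∑ j ∈ range (q.2 + 1), ar (num x (P x q.1 + j)) + 1) ?_
  exact PD.lt (PF.snd.add (PF.const 1))
    ((pf_sumar hP.fst (PF.snd.add (PF.const 1))).add (PF.const 1))

theorem pf_m : PF (fun x (_ : α) => zeros x x.length) := PA_pf_zeros PF.len

theorem pf_ep {P : List Bool → α → ℕ} (hP : PF P) :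
    PF (fun x a => ep (num x) (zeros x x.length) (P x a)) := by
  classical
  unfold ep
  refine (hP.add (PF.const 1)).add ?_
  have h := PF.count (P := fun x (q : α × ℕ) => Inc (num x) (P x q.1) q.2) (pf_m (α := α))
    (pd_Inc hP.fst PF.snd)
  refine h.congr fun x a => ?_
  congr 1

theorem pf_c2 {P : List Bool → α → ℕ} (hP : PF P) :
    PF (fun x a => c2 (num x) (zeros x x.length) (P x a)) :=
  pf_ep (hP.add (PF.const 1))

theorem pd_isT {F : List Bool → α → ℕ} (hF : PF F) : PD (fun x a => isT (F x a)) := by
  unfold isT
  (repeat' (first
      | assumption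
      | apply PD.or
      | apply PD.and
      | apply PD.eq
      | apply PD.lt
      | apply PD.le
      | apply PD.not
      | exact PF.const _
      | exact PF.len
      | apply pf_num
      | apply PA_pf_zeros
      | apply PF.add
      | apply PF.sub
      | apply PF.mul
      | apply PF.div
      | apply PF.mod))

theorem pd_isF {F : List Bool → α → ℕ} (hF : PF F) : PD (fun x a => isF (F x a)) := by
  unfold isF
  (repeat' (first
      | assumption
      | apply PD.or
      | apply PD.and
      | apply PD.eq
      | apply PD.lt
      | apply PD.le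
      | apply PD.not
      | exact PF.const _
      | exact PF.len
      | apply pf_num
      | apply PA_pf_zeros
      | apply PF.add
      | apply PF.sub
      | apply PF.mul
      | apply PF.div
      | apply PF.mod))

theorem pd_LocOK {P : List Bool → α → ℕ} (hP : PF P) :
    PD (fun x a => LocOK (num x) (zeros x x.length) (P x a)) := by
  have h0 : PF (fun x a => num x (P x a)) := pf_num hP
  have h1 : PF (fun x a => num x (P x a + 1)) := pf_num (hP.add (PF.const 1))
  have h2 : PF (fun x a => num x (c2 (num x) (zeros x x.length) (P x a))) := pf_num (pf_c2 hP)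
  have hT1 := pd_isT h1
  have hT2 := pd_isT h2
  have hF1 := pd_isF h1
  have hF2 := pd_isF h2
  unfold LocOK
  refine PD.and (PD_imp ?_ ?_) (PD.and (PD_imp ?_ ?_) (PD.and (PD_imp ?_ ?_)
    (PD.and (PD_imp ?_ ?_) (PD_imp ?_ ?_)))) <;>
    (repeat' (first
      | assumption
      | apply PD.or
      | apply PD.and
      | apply PD.eq
      | apply PD.lt
      | apply PD.le
      | apply PD.not
      | exact PF.const _
      | exact PF.len
      | apply pf_num
      | apply PA_pf_zeros
      | apply PF.add
      | apply PF.sub
      | apply PF.mul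
      | apply PF.div
      | apply PF.mod))

theorem pf_eqEnt {A B C : List Bool → α → ℕ} (hA : PF A) (hB : PF B) (hC : PF C)
    (hA' : ∀ x a, A x a ≤ 12) (hB' : ∀ x a, B x a < 9) :
    PF (fun x a => eqEnt (A x a) (B x a) (C x a)) := by
  have hlen : ∀ a < 13, ∀ b < 9,
      ((eqTab.getD a []).getD b [0, 11, 11, 11, 11]).length = 5 := by decide
  have hidx : PF (fun x a => 45 * A x a + (5 * B x a + C x a)) := by
    (repeat' (first
      | assumption
      | apply PD.or
      | apply PD.and
      | apply PD.eq
      | apply PD.lt
      | apply PD.le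
      | apply PD.not
      | exact PF.const _
      | exact PF.len
      | apply pf_num
      | apply PA_pf_zeros
      | apply PF.add
      | apply PF.sub
      | apply PF.mul
      | apply PF.div
      | apply PF.mod))
  have ht : PF (fun x a => if 45 * A x a + (5 * B x a + C x a) < 585 then
      (fun t => eqEnt (t / 45) (t / 5 % 9) (t % 5)) (45 * A x a + (5 * B x a + C x a)) else 0) :=
    PF.table' (fun t => eqEnt (t / 45) (t / 5 % 9) (t % 5)) 585 hidx
  have h5 : PD (fun x a => C x a < 5) := by
    (repeat' (first
      | assumption
      | apply PD.or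
      | apply PD.and
      | apply PD.eq
      | apply PD.lt
      | apply PD.le
      | apply PD.not
      | exact PF.const _
      | exact PF.len
      | apply pf_num
      | apply PA_pf_zeros
      | apply PF.add
      | apply PF.sub
      | apply PF.mul
      | apply PF.div
      | apply PF.mod))
  refine (PF.ite h5 ht (PF.const 0)).congr fun x a => ?_
  have hA1 := hA' x a
  have hB1 := hB' x a
  generalize A x a = u at *
  generalize B x a = v at *
  generalize C x a = w at *
  by_cases h : w < 5
  · rw [if_pos h, if_pos (by omega)]
    simp only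
    congr 1 <;> omega
  · rw [if_neg h]
    unfold eqEnt
    rw [List.getD_eq_default _ _ (by rw [hlen u (by omega) v hB1]; omega)]

end PTokAux

open PTokAux

/-- The system of the tokens of a string: `num x` are the tokens, `zeros x x.length` is their
number (files BCP/Parse and Lib/PolyTime). -/
theorem pf_qF {F G : List Bool → α → ℕ} (hF : PF F) (hG : PF G) :
    PF (fun x a => qF x.length (zeros x x.length) (num x) (F x a) (G x a)) := by
  have hm : PF (fun x (_ : α) => zeros x x.length) := pf_m
  have hp : PF (fun x a => (F x a - 2) / 9) := by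
    (repeat' (first
      | assumption
      | apply PD.or
      | apply PD.and
      | apply PD.eq
      | apply PD.lt
      | apply PD.le
      | apply PD.not
      | exact PF.const _
      | exact PF.len
      | apply pf_num
      | apply PA_pf_zeros
      | apply PF.add
      | apply PF.sub
      | apply PF.mul
      | apply PF.div
      | apply PF.mod))
  have hn : PF (fun x a => (F x a - 2) % 9) := by
    (repeat' (first
      | assumption
      | apply PD.or
      | apply PD.and
      | apply PD.eq
      | apply PD.lt
      | apply PD.le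
      | apply PD.not
      | exact PF.const _
      | exact PF.len
      | apply pf_num
      | apply PA_pf_zeros
      | apply PF.add
      | apply PF.sub
      | apply PF.mul
      | apply PF.div
      | apply PF.mod))
  have ht : PF (fun x a => num x ((F x a - 2) / 9)) := pf_num hp
  have hcl : PF (fun x a => min (num x ((F x a - 2) / 9)) 12) := by
    refine (PF.ite (PD.lt ht (PF.const 12)) ht (PF.const 12)).congr fun x a => ?_
    split_ifs with h
    · exact (min_eq_left h.le).symm
    · exact (min_eq_right (by omega)).symm
  have he0 : PF (fun x a => eqEnt (min (num x ((F x a - 2) / 9)) 12) ((F x a - 2) % 9) 0) :=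
    pf_eqEnt hcl hn (PF.const 0) (fun _ _ => min_le_right _ _)
      (fun _ _ => Nat.mod_lt _ (by norm_num))
  have he : PF (fun x a => eqEnt (min (num x ((F x a - 2) / 9)) 12) ((F x a - 2) % 9) (G x a)) :=
    pf_eqEnt hcl hn hG (fun _ _ => min_le_right _ _) (fun _ _ => Nat.mod_lt _ (by norm_num))
  have hc2 : PF (fun x a => c2 (num x) (zeros x x.length) ((F x a - 2) / 9)) := pf_c2 hp
  have hdec : PF (fun x a => decV x.length (zeros x x.length) (num x) ((F x a - 2) / 9)
      (eqEnt (min (num x ((F x a - 2) / 9)) 12) ((F x a - 2) % 9) (G x a))) := by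
    unfold decV
    refine PF.ite ?_ ?_ (PF.ite ?_ ?_ (PF.ite ?_ ?_ (PF.ite ?_ ?_ (PF.ite ?_ ?_ ?_)))) <;>
    (repeat' (first
      | assumption
      | apply PD.or
      | apply PD.and
      | apply PD.eq
      | apply PD.lt
      | apply PD.le
      | apply PD.not
      | exact PF.const _
      | exact PF.len
      | apply pf_num
      | apply PA_pf_zeros
      | apply PF.add
      | apply PF.sub
      | apply PF.mul
      | apply PF.div
      | apply PF.mod))
  unfold qF
  refine PF.ite ?_ (PF.ite ?_ ?_ ?_) (PF.ite ?_ (PF.ite ?_ ?_ (PF.ite ?_ ?_ (PF.ite ?_ ?_ ?_)))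
    (PF.ite ?_ he0 hdec)) <;>
    (repeat' (first
      | assumption
      | apply PD.or
      | apply PD.and
      | apply PD.eq
      | apply PD.lt
      | apply PD.le
      | apply PD.not
      | exact PF.const _
      | exact PF.len
      | apply pf_num
      | apply PA_pf_zeros
      | apply PF.add
      | apply PF.sub
      | apply PF.mul
      | apply PF.div
      | apply PF.mod))

theorem pd_WF : PD (fun x (_ : Unit) => WF (num x) (zeros x x.length)) := by
  have hm : PF (fun x (_ : Unit) => zeros x x.length) := pf_m
  have hs : PF (fun x (_ : Unit) => ∑ j ∈ range (zeros x x.length), ar (num x j)) :=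
    PF.sum hm (F := fun x (q : Unit × ℕ) => ar (num x q.2)) (pf_ar (pf_num PF.snd))
  unfold WF
  refine PD.and (PD.eq (hs.add (PF.const 1)) hm) (PD.and ?_ (PD.and ?_ ?_))
  · refine PD.forall_lt hm (P := fun x (q : Unit × ℕ) => q.2 ≠ 0 →
      q.2 < ∑ j ∈ range q.2, ar (num x j) + 1) ?_
    refine PD_imp PF.snd.ne_zero (PD.lt PF.snd (PF.add ?_ (PF.const 1)))
    exact PF.sum PF.snd (F := fun x (r : (Unit × ℕ) × ℕ) => ar (num x r.2)) (pf_ar (pf_num PF.snd))
  · exact pd_isF (pf_num (PF.const 0))
  · exact PD.forall_lt hm (P := fun x (q : Unit × ℕ) => LocOK (num x) (zeros x x.length) q.2)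
      (pd_LocOK PF.snd)

end Pool.Agent.ERG
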