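import Mathlib
import Pool.Agent.ERG.Core

/-!
# Polish order: the end of an expression
-/

namespace Pool.Agent.ERG

open Finset

/-- `w` is one complete expression in Polish order (operators first). -/
def Complete (w : List ℕ) : Prop :=
  (w.map ar).sum + 1 = w.length ∧ ∀ d < w.length, d ≠ 0 → d < ((w.take d).map ar).sum + 1

private theorem Complete.lt {w : List ℕ} (hw : Complete w) {d : ℕ} (hd : d < w.length) :
    d < ((w.take d).map ar).sum + 1 := by
  rcases Nat.eq_zero_or_pos d with rfl | h
  · simp
  · exact hw.2 d hd (by omega)

private theorem complete_leaf (t : ℕ) (ht : ar t = 0) : Complete [t] := by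
  refine ⟨by simp [ht], ?_⟩
  intro d hd h0
  simp at hd
  omega

private theorem complete_one (t : ℕ) (ht : ar t = 1) {w : List ℕ} (hw : Complete w) :
    Complete (t :: w) := by
  refine ⟨?_, ?_⟩
  · have := hw.1
    simp only [List.map_cons, List.sum_cons, List.length_cons, ht]
    omega
  · intro d hd h0
    obtain ⟨d', rfl⟩ : ∃ d', d = d' + 1 := ⟨d - 1, by omega⟩
    simp only [List.length_cons] at hd
    have := hw.lt (d := d') (by omega)
    simp only [List.take_succ_cons, List.map_cons, List.sum_cons, ht]
    omega

private theorem complete_two (t : ℕ) (ht : ar t = 2) {w₁ w₂ : List ℕ} (h₁ : Complete w₁)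
    (h₂ : Complete w₂) : Complete (t :: (w₁ ++ w₂)) := by
  refine ⟨?_, ?_⟩
  · have a1 := h₁.1
    have a2 := h₂.1
    simp only [List.map_cons, List.sum_cons, List.length_cons, ht, List.map_append,
      List.sum_append, List.length_append]
    omega
  · intro d hd h0
    obtain ⟨d', rfl⟩ : ∃ d', d = d' + 1 := ⟨d - 1, by omega⟩
    simp only [List.length_cons, List.length_append] at hd
    simp only [List.take_succ_cons, List.map_cons, List.sum_cons, ht, List.take_append,
      List.map_append, List.sum_append]
    rcases lt_or_ge d' w₁.length with h | h
    · have := h₁.lt h
      omega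
    · have a1 := h₁.1
      have := h₂.lt (d := d' - w₁.length) (by omega)
      rw [List.take_of_length_le h]
      omega

theorem complete_tm (t : Tm) : Complete t.toks := by
  induction t with
  | num bs =>
    unfold Tm.toks
    induction bs with
    | nil => exact complete_leaf 0 (by decide)
    | cons b bs ih =>
      rw [List.map_cons, List.cons_append]
      refine complete_one _ ?_ ih
      cases b <;> decide
  | var i => exact complete_leaf _ (by simp [ar])
  | neg t ih => exact complete_one 3 (by decide) ih
  | add s t ihs iht => exact complete_two 4 (by decide) ihs iht
  | mul s t ihs iht => exact complete_two 5 (by decide) ihs iht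

theorem complete_fm (f : Fm) : Complete f.toks := by
  induction f with
  | eq s t => exact complete_two 6 (by decide) (complete_tm s) (complete_tm t)
  | lt s t => exact complete_two 7 (by decide) (complete_tm s) (complete_tm t)
  | le s t => exact complete_two 8 (by decide) (complete_tm s) (complete_tm t)
  | not f ih => exact complete_one 9 (by decide) ih
  | and f g ihf ihg => exact complete_two 10 (by decide) ihf ihg
  | or f g ihf ihg => exact complete_two 11 (by decide) ihf ihg

private theorem toks_sum (pre w post : List ℕ) (d : ℕ) (hd : d ≤ w.length) :
    ∑ j ∈ range d, ar ((pre ++ (w ++ post)).getD (pre.length + j) 0) =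
      ((w.take d).map ar).sum := by
  induction d with
  | zero => simp
  | succ d ih =>
    rw [Finset.sum_range_succ, ih (by omega)]
    have h : d < w.length := by omega
    rw [List.take_succ_eq_append_getElem h, List.map_append, List.sum_append]
    congr 1
    rw [List.getD_append_right _ _ _ _ (by omega), Nat.add_sub_cancel_left,
      List.getD_append _ _ _ _ h]
    simp [h]

/-- The expression `w` that follows `pre` ends where it should. -/
theorem ep_append (pre w post : List ℕ) (hw : Complete w) :
    ep (fun p => (pre ++ (w ++ post)).getD p 0) (pre ++ (w ++ post)).length pre.length =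
      pre.length + w.length := by
  classical
  have hpos : 0 < w.length := by have := hw.1; omega
  have hinc : ∀ d, Inc (fun p => (pre ++ (w ++ post)).getD p 0) pre.length d ↔
      d + 1 < w.length := by
    intro d
    constructor
    · intro h
      by_contra hlt
      have h1 := h (w.length - 1) (by omega)
      have e : w.length - 1 + 1 = w.length := by omega
      rw [e] at h1
      have h2 := toks_sum pre w post w.length le_rfl
      simp only at h1
      rw [h2, List.take_length, hw.1] at h1
      omega
    · intro h d' hd'
      have h2 := toks_sum pre w post (d' + 1) (by omega)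
      simp only
      rw [h2]
      exact hw.lt (by omega)
  have hcard : ((range (pre ++ (w ++ post)).length).filter
      (fun d => Inc (fun p => (pre ++ (w ++ post)).getD p 0) pre.length d)).card =
      w.length - 1 := by
    rw [← Finset.card_range (w.length - 1)]
    congr 1
    ext d
    simp only [Finset.mem_filter, Finset.mem_range, hinc, List.length_append]
    omega
  have : ∀ a b c : ℕ, a = b → b + 1 = c → pre.length + 1 + a = pre.length + c := by
    intro a b c h1 h2; omega
  exact this _ _ _ hcard (Nat.sub_add_cancel hpos)

/-- The second child of a node. -/
theorem c2_append (pre : List ℕ) (t : ℕ) (w post : List ℕ) (hw : Complete w) :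
    c2 (fun p => (pre ++ t :: (w ++ post)).getD p 0) (pre ++ t :: (w ++ post)).length pre.length =
      pre.length + 1 + w.length := by
  have h := ep_append (pre ++ [t]) w post hw
  have e : pre ++ [t] ++ (w ++ post) = pre ++ t :: (w ++ post) := by simp
  have e2 : (pre ++ [t]).length = pre.length + 1 := by simp
  rw [e, e2] at h
  exact h

end Pool.Agent.ERG
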