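import Mathlib
import Pool.Agent.ERG.Toks

/-!
# Well-formed lists of tokens are the tokens of formulas
-/

namespace Pool.Agent.ERG

open Finset

/-! ### Sums and heads -/

private theorem pr_sum (l : List ℕ) : ∀ d, d ≤ l.length →
    ∑ j ∈ range d, ar (l.getD j 0) = ((l.take d).map ar).sum := by
  intro d
  induction d with
  | zero => intro _; simp
  | succ d ih =>
    intro h
    have hd : d < l.length := by omega
    rw [sum_range_succ, ih (by omega), List.take_succ_eq_append_getElem hd, List.map_append,
      List.sum_append, List.getD_eq_getElem l 0 hd]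
    simp only [List.map_cons, List.map_nil, List.sum_cons, List.sum_nil, add_zero]

private theorem pr_complete_iff (l : List ℕ) :
    Complete l ↔ (∑ j ∈ range l.length, ar (l.getD j 0) + 1 = l.length ∧
      ∀ d < l.length, d ≠ 0 → d < ∑ j ∈ range d, ar (l.getD j 0) + 1) := by
  unfold Complete
  rw [pr_sum l l.length le_rfl, List.take_length]
  constructor
  · rintro ⟨h1, h2⟩
    refine ⟨h1, fun d hd h0 => ?_⟩
    rw [pr_sum l d hd.le]
    exact h2 d hd h0
  · rintro ⟨h1, h2⟩
    refine ⟨h1, fun d hd h0 => ?_⟩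
    have := h2 d hd h0
    rwa [pr_sum l d hd.le] at this

private theorem pr_get0 (pre : List ℕ) (t : ℕ) (post : List ℕ) :
    (pre ++ t :: post).getD pre.length 0 = t := by
  simp

private theorem pr_get1 (pre : List ℕ) (t s : ℕ) (post : List ℕ) :
    (pre ++ t :: s :: post).getD (pre.length + 1) 0 = s := by
  simp

/-! ### Decomposition of complete lists -/

private theorem pr_ne_nil {w : List ℕ} (h : Complete w) : w ≠ [] := by
  rintro rfl
  have := h.1
  simp at this

private theorem pr_dec0 {t : ℕ} {v : List ℕ} (h : Complete (t :: v)) (ht : ar t = 0) : v = [] := by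
  by_contra hv
  have h1 : 1 < (t :: v).length := by
    rcases v with _ | ⟨a, v⟩
    · exact absurd rfl hv
    · simp
  have h2 := h.2 1 h1 one_ne_zero
  simp [ht] at h2

private theorem pr_dec1 {t : ℕ} {v : List ℕ} (h : Complete (t :: v)) (ht : ar t = 1) :
    Complete v := by
  constructor
  · have := h.1
    simp only [List.map_cons, List.sum_cons, List.length_cons, ht] at this
    omega
  · intro d hd _
    have h2 := h.2 (d + 1) (by simpa using hd) (by omega)
    simp only [List.take_succ_cons, List.map_cons, List.sum_cons, ht] at h2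
    omega

private theorem pr_sum_take_mono (v : List ℕ) (d : ℕ) :
    ((v.take d).map ar).sum ≤ ((v.take (d + 1)).map ar).sum := by
  rcases lt_or_ge d v.length with h | h
  · rw [List.take_succ_eq_append_getElem h, List.map_append, List.sum_append]
    exact Nat.le_add_right _ _
  · rw [List.take_of_length_le h, List.take_of_length_le (by omega)]

private theorem pr_dec2 {t : ℕ} {v : List ℕ} (h : Complete (t :: v)) (ht : ar t = 2) :
    ∃ v1 v2, v = v1 ++ v2 ∧ Complete v1 ∧ Complete v2 := by
  have hs : (v.map ar).sum + 2 = v.length := by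
    have := h.1
    simp only [List.map_cons, List.sum_cons, List.length_cons, ht] at this
    omega
  have hp : ∀ d < v.length, d < ((v.take d).map ar).sum + 2 := by
    intro d hd
    have h2 := h.2 (d + 1) (by simpa using hd) (by omega)
    simp only [List.take_succ_cons, List.map_cons, List.sum_cons, ht] at h2
    omega
  have hex : ∃ e, ((v.take e).map ar).sum + 1 ≤ e := by
    refine ⟨v.length, ?_⟩
    rw [List.take_length]
    omega
  classical
  obtain ⟨e, he, hmin⟩ : ∃ e, ((v.take e).map ar).sum + 1 ≤ e ∧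
      ∀ d < e, d < ((v.take d).map ar).sum + 1 := by
    refine ⟨Nat.find hex, Nat.find_spec hex, fun d hd => ?_⟩
    have := Nat.find_min hex hd
    omega
  have hel : e < v.length := by
    by_contra hc
    have h1 : v.length - 1 < e := by omega
    have h2 := hmin (v.length - 1) h1
    have h3 := pr_sum_take_mono v (v.length - 1)
    rw [show v.length - 1 + 1 = v.length by omega, List.take_length] at h3
    omega
  have he1 : ((v.take e).map ar).sum + 1 = e := by
    have h0 : e ≠ 0 := by omega
    have h2 := hmin (e - 1) (by omega)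
    have h3 := pr_sum_take_mono v (e - 1)
    rw [show e - 1 + 1 = e by omega] at h3
    omega
  refine ⟨v.take e, v.drop e, (List.take_append_drop e v).symm, ⟨?_, ?_⟩, ⟨?_, ?_⟩⟩
  · rw [List.length_take]
    omega
  · intro d hd _
    rw [List.length_take] at hd
    rw [List.take_take, min_eq_left (by omega)]
    exact hmin d (by omega)
  · have h1 : (v.map ar).sum = ((v.take e).map ar).sum + ((v.drop e).map ar).sum := by
      rw [← List.sum_append, ← List.map_append, List.take_append_drop]
    rw [List.length_drop]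
    omega
  · intro d hd _
    rw [List.length_drop] at hd
    have h1 : ((v.take (e + d)).map ar).sum =
        ((v.take e).map ar).sum + (((v.drop e).take d).map ar).sum := by
      rw [← List.sum_append, ← List.map_append, List.take_add]
    have h2 := hp (e + d) (by omega)
    omega

/-! ### From the local conditions to formulas -/

private theorem pr_ar0 {t : ℕ} (h : t = 0 ∨ 12 ≤ t) : ar t = 0 := by
  unfold ar; rw [if_pos h]

private theorem pr_ar1 {t : ℕ} (h : t = 1 ∨ t = 2 ∨ t = 3 ∨ t = 9) : ar t = 1 := by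
  unfold ar; rw [if_neg (by omega), if_pos h]

private theorem pr_ar2 {t : ℕ} (h0 : ¬ (t = 0 ∨ 12 ≤ t)) (h : ¬ (t = 1 ∨ t = 2 ∨ t = 3 ∨ t = 9)) :
    ar t = 2 := by
  unfold ar; rw [if_neg h0, if_neg h]

private theorem pr_main (l : List ℕ)
    (hl : ∀ p < l.length, LocOK (fun p => l.getD p 0) l.length p) :
    ∀ (n : ℕ) (pre w post : List ℕ) (a : ℕ), w.length < n → Complete (a :: w) →
      l = pre ++ ((a :: w) ++ post) →
      (a ≤ 2 → ∃ bs : List Bool, (Tm.num bs).toks = a :: w) ∧
      (isT a → ∃ t : Tm, t.toks = a :: w) ∧ (isF a → ∃ f : Fm, f.toks = a :: w) := by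
  intro n
  induction n with
  | zero => intro _ w _ _ h; exact absurd h (Nat.not_lt_zero _)
  | succ n ih =>
    intro pre w post a hn hc hlw
    have hp : pre.length < l.length := by rw [hlw]; simp
    have hloc := hl pre.length hp
    have h0 : l.getD pre.length 0 = a := by
      rw [hlw]; exact pr_get0 pre a (w ++ post)
    unfold LocOK at hloc
    simp only [h0] at hloc
    obtain ⟨hL1, hL2, hL3, hL4, hL5⟩ := hloc
    by_cases ha0 : a = 0 ∨ 12 ≤ a
    · have hw : w = [] := pr_dec0 hc (pr_ar0 ha0)
      subst hw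
      rcases ha0 with rfl | ha
      · refine ⟨fun _ => ⟨[], rfl⟩, fun _ => ⟨Tm.num [], rfl⟩, fun h => ?_⟩
        unfold isF at h; omega
      · refine ⟨fun h => by omega, fun _ => ⟨Tm.var (a - 12), ?_⟩, fun h => ?_⟩
        · show [12 + (a - 12)] = [a]
          rw [show 12 + (a - 12) = a by omega]
        · unfold isF at h; omega
    · by_cases ha1 : a = 1 ∨ a = 2 ∨ a = 3 ∨ a = 9
      · have hcw : Complete w := pr_dec1 hc (pr_ar1 ha1)
        obtain ⟨b, v, rfl⟩ := List.exists_cons_of_ne_nil (pr_ne_nil hcw)
        have h1 : l.getD (pre.length + 1) 0 = b := by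
          rw [hlw]; exact pr_get1 pre a b (v ++ post)
        obtain ⟨i1, i2, i3⟩ := ih (pre ++ [a]) v post b (by simp at hn; omega) hcw
          (by rw [hlw]; simp)
        simp only [h1] at hL1 hL2 hL4
        have hdig : a = 1 ∨ a = 2 → ∃ bs : List Bool, (Tm.num bs).toks = a :: b :: v := by
          intro h
          obtain ⟨bs, hbs⟩ := i1 (hL1 h)
          rcases h with rfl | rfl
          · refine ⟨false :: bs, ?_⟩
            rw [← hbs]; simp [Tm.toks]
          · refine ⟨true :: bs, ?_⟩
            rw [← hbs]; simp [Tm.toks]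
        refine ⟨fun h => hdig (by omega), fun h => ?_, fun h => ?_⟩
        · unfold isT at h
          by_cases h12 : a = 1 ∨ a = 2
          · obtain ⟨bs, hbs⟩ := hdig h12
            exact ⟨_, hbs⟩
          · have h3 : a = 3 := by omega
            obtain ⟨t, ht⟩ := i2 (hL2 h3)
            refine ⟨Tm.neg t, ?_⟩
            rw [← ht, h3]; rfl
        · unfold isF at h
          have h9 : a = 9 := by omega
          obtain ⟨f, hf⟩ := i3 (hL4 h9)
          refine ⟨Fm.not f, ?_⟩
          rw [← hf, h9]; rfl
      · obtain ⟨v1, v2, hv, hc1, hc2⟩ := pr_dec2 hc (pr_ar2 ha0 ha1)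
        obtain ⟨b1, u1, rfl⟩ := List.exists_cons_of_ne_nil (pr_ne_nil hc1)
        obtain ⟨b2, u2, rfl⟩ := List.exists_cons_of_ne_nil (pr_ne_nil hc2)
        subst hv
        have h1 : l.getD (pre.length + 1) 0 = b1 := by
          rw [hlw]; exact pr_get1 pre a b1 _
        have hcc : c2 (fun p => l.getD p 0) l.length pre.length =
            pre.length + 1 + (b1 :: u1).length := by
          have := c2_append pre a (b1 :: u1) ((b2 :: u2) ++ post) hc1
          have hll : pre ++ a :: (b1 :: u1 ++ (b2 :: u2 ++ post)) = l := by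
            rw [hlw]; simp
          rw [hll] at this
          exact this
        have h2 : l.getD (c2 (fun p => l.getD p 0) l.length pre.length) 0 = b2 := by
          rw [hcc, hlw]
          have := pr_get0 (pre ++ a :: b1 :: u1) b2 (u2 ++ post)
          simpa [add_assoc, add_comm, add_left_comm] using this
        simp only [h1, h2] at hL3 hL5
        obtain ⟨-, i2, i3⟩ := ih (pre ++ [a]) u1 (b2 :: u2 ++ post) b1
          (by simp at hn; omega) hc1 (by rw [hlw]; simp)
        obtain ⟨-, j2, j3⟩ := ih (pre ++ a :: b1 :: u1) u2 post b2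
          (by simp at hn; omega) hc2 (by rw [hlw]; simp)
        refine ⟨fun h => by omega, fun h => ?_, fun h => ?_⟩
        · unfold isT at h
          have h45 : a = 4 ∨ a = 5 := by omega
          obtain ⟨t1, ht1⟩ := i2 (hL3 (by omega)).1
          obtain ⟨t2, ht2⟩ := j2 (hL3 (by omega)).2
          rcases h45 with rfl | rfl
          · exact ⟨Tm.add t1 t2, by rw [← ht1, ← ht2]; rfl⟩
          · exact ⟨Tm.mul t1 t2, by rw [← ht1, ← ht2]; rfl⟩
        · unfold isF at h
          by_cases h8 : a ≤ 8
          · obtain ⟨t1, ht1⟩ := i2 (hL3 (by omega)).1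
            obtain ⟨t2, ht2⟩ := j2 (hL3 (by omega)).2
            have h678 : a = 6 ∨ a = 7 ∨ a = 8 := by omega
            rcases h678 with rfl | rfl | rfl
            · exact ⟨Fm.eq t1 t2, by rw [← ht1, ← ht2]; rfl⟩
            · exact ⟨Fm.lt t1 t2, by rw [← ht1, ← ht2]; rfl⟩
            · exact ⟨Fm.le t1 t2, by rw [← ht1, ← ht2]; rfl⟩
          · obtain ⟨f1, hf1⟩ := i3 (hL5 (by omega)).1
            obtain ⟨f2, hf2⟩ := j3 (hL5 (by omega)).2
            have h1011 : a = 10 ∨ a = 11 := by omega
            rcases h1011 with rfl | rfl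
            · exact ⟨Fm.and f1 f2, by rw [← hf1, ← hf2]; rfl⟩
            · exact ⟨Fm.or f1 f2, by rw [← hf1, ← hf2]; rfl⟩

/-! ### From formulas to the local conditions -/

private theorem pr_tm_head (t : Tm) : ∃ a v, t.toks = a :: v ∧ isT a := by
  cases t with
  | num bs =>
    cases bs with
    | nil => exact ⟨0, [], rfl, Or.inl (by norm_num)⟩
    | cons b bs =>
      refine ⟨if b then 2 else 1, bs.map (fun b => if b then 2 else 1) ++ [0], by simp [Tm.toks], ?_⟩
      left; split <;> norm_num
  | var i => exact ⟨12 + i, [], rfl, Or.inr (by omega)⟩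
  | neg t => exact ⟨3, t.toks, rfl, Or.inl (by norm_num)⟩
  | add s t => exact ⟨4, _, rfl, Or.inl (by norm_num)⟩
  | mul s t => exact ⟨5, _, rfl, Or.inl (by norm_num)⟩

private theorem pr_fm_head (f : Fm) : ∃ a v, f.toks = a :: v ∧ isF a := by
  cases f with
  | eq s t => exact ⟨6, _, rfl, by unfold isF; omega⟩
  | lt s t => exact ⟨7, _, rfl, by unfold isF; omega⟩
  | le s t => exact ⟨8, _, rfl, by unfold isF; omega⟩
  | not f => exact ⟨9, _, rfl, by unfold isF; omega⟩
  | and f g => exact ⟨10, _, rfl, by unfold isF; omega⟩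
  | or f g => exact ⟨11, _, rfl, by unfold isF; omega⟩

/-- Local conditions on the part `w` of `pre ++ (w ++ post)`. -/
private def PLoc (w : List ℕ) : Prop :=
  ∀ pre post : List ℕ, ∀ p < w.length,
    LocOK (fun p => (pre ++ (w ++ post)).getD p 0) (pre ++ (w ++ post)).length (pre.length + p)

private theorem pr_loc1 {a : ℕ} {w : List ℕ} (hw : PLoc w)
    (h : ∀ pre post : List ℕ, LocOK (fun p => (pre ++ (a :: w ++ post)).getD p 0)
      (pre ++ (a :: w ++ post)).length pre.length) : PLoc (a :: w) := by
  intro pre post p hp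
  rcases p with _ | p
  · exact h pre post
  · have := hw (pre ++ [a]) post p (by simpa using hp)
    simpa [add_assoc, add_comm, add_left_comm] using this

private theorem pr_locapp {w1 w2 : List ℕ} (h1 : PLoc w1) (h2 : PLoc w2) : PLoc (w1 ++ w2) := by
  intro pre post p hp
  rcases lt_or_ge p w1.length with h | h
  · have := h1 pre (w2 ++ post) p h
    simpa using this
  · obtain ⟨q, rfl⟩ := Nat.exists_eq_add_of_le h
    have := h2 (pre ++ w1) post q (by simpa using hp)
    simpa [add_assoc] using this

private theorem pr_locT2 {a b c : ℕ} {w1 w2 : List ℕ} (hc : Complete (b :: w1))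
    (ha : 4 ≤ a ∧ a ≤ 8) (hb : isT b) (hcc : isT c) (pre post : List ℕ) :
    LocOK (fun p => (pre ++ (a :: ((b :: w1) ++ (c :: w2)) ++ post)).getD p 0)
      (pre ++ (a :: ((b :: w1) ++ (c :: w2)) ++ post)).length pre.length := by
  have h0 := pr_get0 pre a ((b :: w1) ++ (c :: w2) ++ post)
  have h1 := pr_get1 pre a b (w1 ++ (c :: w2) ++ post)
  have h3 := c2_append pre a (b :: w1) ((c :: w2) ++ post) hc
  have h2 := pr_get0 (pre ++ a :: b :: w1) c (w2 ++ post)
  have e1 : pre ++ (a :: ((b :: w1) ++ (c :: w2)) ++ post) =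
      pre ++ a :: ((b :: w1) ++ (c :: w2) ++ post) := by simp
  have e2 : pre ++ (a :: ((b :: w1) ++ (c :: w2)) ++ post) =
      pre ++ a :: b :: (w1 ++ (c :: w2) ++ post) := by simp
  have e3 : pre ++ (a :: ((b :: w1) ++ (c :: w2)) ++ post) =
      pre ++ a :: ((b :: w1) ++ ((c :: w2) ++ post)) := by simp
  have e4 : pre ++ (a :: ((b :: w1) ++ (c :: w2)) ++ post) =
      (pre ++ a :: b :: w1) ++ c :: (w2 ++ post) := by simp
  have e5 : (pre ++ a :: b :: w1).length = pre.length + 1 + (b :: w1).length := by
    simp only [List.length_append, List.length_cons]; omega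
  rw [← e1] at h0
  rw [← e2] at h1
  rw [← e3] at h3
  rw [← e4, e5] at h2
  generalize hL : pre ++ (a :: ((b :: w1) ++ (c :: w2)) ++ post) = L at *
  unfold LocOK
  simp only [h3, h0, h1, h2]
  refine ⟨fun h => by omega, fun h => by omega, fun _ => ⟨hb, hcc⟩, fun h => by omega,
    fun h => by omega⟩

private theorem pr_locF2 {a b c : ℕ} {w1 w2 : List ℕ} (hc : Complete (b :: w1))
    (ha : 10 ≤ a ∧ a ≤ 11) (hb : isF b) (hcc : isF c) (pre post : List ℕ) :
    LocOK (fun p => (pre ++ (a :: ((b :: w1) ++ (c :: w2)) ++ post)).getD p 0)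
      (pre ++ (a :: ((b :: w1) ++ (c :: w2)) ++ post)).length pre.length := by
  have h0 := pr_get0 pre a ((b :: w1) ++ (c :: w2) ++ post)
  have h1 := pr_get1 pre a b (w1 ++ (c :: w2) ++ post)
  have h3 := c2_append pre a (b :: w1) ((c :: w2) ++ post) hc
  have h2 := pr_get0 (pre ++ a :: b :: w1) c (w2 ++ post)
  have e1 : pre ++ (a :: ((b :: w1) ++ (c :: w2)) ++ post) =
      pre ++ a :: ((b :: w1) ++ (c :: w2) ++ post) := by simp
  have e2 : pre ++ (a :: ((b :: w1) ++ (c :: w2)) ++ post) =
      pre ++ a :: b :: (w1 ++ (c :: w2) ++ post) := by simp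
  have e3 : pre ++ (a :: ((b :: w1) ++ (c :: w2)) ++ post) =
      pre ++ a :: ((b :: w1) ++ ((c :: w2) ++ post)) := by simp
  have e4 : pre ++ (a :: ((b :: w1) ++ (c :: w2)) ++ post) =
      (pre ++ a :: b :: w1) ++ c :: (w2 ++ post) := by simp
  have e5 : (pre ++ a :: b :: w1).length = pre.length + 1 + (b :: w1).length := by
    simp only [List.length_append, List.length_cons]; omega
  rw [← e1] at h0
  rw [← e2] at h1
  rw [← e3] at h3
  rw [← e4, e5] at h2
  generalize hL : pre ++ (a :: ((b :: w1) ++ (c :: w2)) ++ post) = L at *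
  unfold LocOK
  simp only [h3, h0, h1, h2]
  refine ⟨fun h => by omega, fun h => by omega, fun h => by omega, fun h => by omega,
    fun _ => ⟨hb, hcc⟩⟩

private theorem pr_loc_T2 {a : ℕ} (ha : 4 ≤ a ∧ a ≤ 8) {s t : Tm} (hs : PLoc s.toks)
    (ht : PLoc t.toks) : PLoc (a :: (s.toks ++ t.toks)) := by
  refine pr_loc1 (pr_locapp hs ht) fun pre post => ?_
  obtain ⟨b, w1, h1, hb⟩ := pr_tm_head s
  obtain ⟨c, w2, h2, hc⟩ := pr_tm_head t
  have hcs := complete_tm s
  rw [h1] at hcs ⊢
  rw [h2]
  exact pr_locT2 hcs ha hb hc pre post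

private theorem pr_loc_F2 {a : ℕ} (ha : 10 ≤ a ∧ a ≤ 11) {s t : Fm} (hs : PLoc s.toks)
    (ht : PLoc t.toks) : PLoc (a :: (s.toks ++ t.toks)) := by
  refine pr_loc1 (pr_locapp hs ht) fun pre post => ?_
  obtain ⟨b, w1, h1, hb⟩ := pr_fm_head s
  obtain ⟨c, w2, h2, hc⟩ := pr_fm_head t
  have hcs := complete_fm s
  rw [h1] at hcs ⊢
  rw [h2]
  exact pr_locF2 hcs ha hb hc pre post

private theorem pr_loc_tm (t : Tm) : PLoc t.toks := by
  induction t with
  | num bs =>
    induction bs with
    | nil =>
      intro pre post p hp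
      have hp0 : p = 0 := by simpa [Tm.toks] using hp
      subst hp0
      have h0 := pr_get0 pre 0 post
      unfold LocOK
      have e : pre ++ ((Tm.num []).toks ++ post) = pre ++ 0 :: post := by simp [Tm.toks]
      rw [e]
      simp only [add_zero, h0]
      refine ⟨fun h => by omega, fun h => by omega, fun h => by omega, fun h => by omega,
        fun h => by omega⟩
    | cons b bs ih =>
      have e : (Tm.num (b :: bs)).toks = (if b then 2 else 1) :: (Tm.num bs).toks := by
        simp [Tm.toks]
      rw [e]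
      refine pr_loc1 ih fun pre post => ?_
      obtain ⟨c, v, hv, hc⟩ : ∃ c v, (Tm.num bs).toks = c :: v ∧ c ≤ 2 := by
        cases bs with
        | nil => exact ⟨0, [], rfl, by norm_num⟩
        | cons b bs =>
          refine ⟨if b then 2 else 1, bs.map (fun b => if b then 2 else 1) ++ [0],
            by simp [Tm.toks], ?_⟩
          split <;> norm_num
      rw [hv]
      have ha : (if b then 2 else 1) = 1 ∨ (if b then 2 else 1) = 2 := by
        cases b <;> simp
      generalize (if b then 2 else 1) = a at ha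
      have h0 := pr_get0 pre a (c :: v ++ post)
      have h1 := pr_get1 pre a c (v ++ post)
      unfold LocOK
      have e1 : pre ++ (a :: c :: v ++ post) = pre ++ a :: (c :: v ++ post) := by simp
      have e2 : pre ++ a :: c :: (v ++ post) = pre ++ a :: (c :: v ++ post) := by simp
      rw [e2] at h1
      rw [e1]
      simp only [h0, h1]
      refine ⟨fun _ => hc, fun h => by omega, fun h => by omega, fun h => by omega,
        fun h => by omega⟩
  | var i =>
    intro pre post p hp
    have hp0 : p = 0 := by simpa [Tm.toks] using hp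
    subst hp0
    have h0 := pr_get0 pre (12 + i) post
    unfold LocOK
    have e : pre ++ ((Tm.var i).toks ++ post) = pre ++ (12 + i) :: post := by simp [Tm.toks]
    rw [e]
    simp only [add_zero, h0]
    refine ⟨fun h => by omega, fun h => by omega, fun h => by omega, fun h => by omega,
      fun h => by omega⟩
  | neg t ih =>
    refine pr_loc1 ih fun pre post => ?_
    obtain ⟨c, v, hv, hc⟩ := pr_tm_head t
    rw [hv]
    have h0 := pr_get0 pre 3 (c :: v ++ post)
    have h1 := pr_get1 pre 3 c (v ++ post)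
    unfold LocOK
    have e1 : pre ++ (3 :: c :: v ++ post) = pre ++ 3 :: (c :: v ++ post) := by simp
    have e2 : pre ++ 3 :: c :: (v ++ post) = pre ++ 3 :: (c :: v ++ post) := by simp
    rw [e2] at h1
    rw [e1]
    simp only [h0, h1]
    refine ⟨fun h => by omega, fun _ => hc, fun h => by omega, fun h => by omega,
      fun h => by omega⟩
  | add s t hs ht => exact pr_loc_T2 (by omega) hs ht
  | mul s t hs ht => exact pr_loc_T2 (by omega) hs ht

private theorem pr_loc_fm (f : Fm) : PLoc f.toks := by
  induction f with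
  | eq s t => exact pr_loc_T2 (by omega) (pr_loc_tm s) (pr_loc_tm t)
  | lt s t => exact pr_loc_T2 (by omega) (pr_loc_tm s) (pr_loc_tm t)
  | le s t => exact pr_loc_T2 (by omega) (pr_loc_tm s) (pr_loc_tm t)
  | not f ih =>
    refine pr_loc1 ih fun pre post => ?_
    obtain ⟨c, v, hv, hc⟩ := pr_fm_head f
    rw [hv]
    have h0 := pr_get0 pre 9 (c :: v ++ post)
    have h1 := pr_get1 pre 9 c (v ++ post)
    unfold LocOK
    have e1 : pre ++ (9 :: c :: v ++ post) = pre ++ 9 :: (c :: v ++ post) := by simp
    have e2 : pre ++ 9 :: c :: (v ++ post) = pre ++ 9 :: (c :: v ++ post) := by simp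
    rw [e2] at h1
    rw [e1]
    simp only [h0, h1]
    refine ⟨fun h => by omega, fun h => by omega, fun h => by omega, fun _ => hc,
      fun h => by omega⟩
  | and f g hf hg => exact pr_loc_F2 (by omega) hf hg
  | or f g hf hg => exact pr_loc_F2 (by omega) hf hg

theorem wf_iff (l : List ℕ) : WF (fun p => l.getD p 0) l.length ↔ ∃ φ : Fm, φ.toks = l := by
  constructor
  · rintro ⟨h1, h2, h3, h4⟩
    have hc : Complete l := (pr_complete_iff l).2 ⟨h1, h2⟩
    obtain ⟨a, w, rfl⟩ := List.exists_cons_of_ne_nil (pr_ne_nil hc)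
    have h3' : isF a := h3
    exact (pr_main (a :: w) h4 (w.length + 1) [] w [] a (Nat.lt_succ_self _) hc (by simp)).2.2 h3'
  · rintro ⟨φ, rfl⟩
    obtain ⟨h1, h2⟩ := (pr_complete_iff _).1 (complete_fm φ)
    refine ⟨h1, h2, ?_, fun p hp => ?_⟩
    · obtain ⟨a, v, hv, ha⟩ := pr_fm_head φ
      rw [hv]
      exact ha
    · have := pr_loc_fm φ [] [] p hp
      simpa using this

end Pool.Agent.ERG
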