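import Mathlib
import Pool.Agent.ERG.Toks

/-!
# The system of the tokens of a formula
-/

set_option linter.unusedSimpArgs false
set_option linter.unnecessarySeqFocus false
set_option linter.unusedVariables false

namespace Pool.Agent.ERG

open Finset

/-! ### The equations of one node -/

/-- The equations of a node of class `cl`, for the values `f` of the variables with codes
`0, …, 12`. -/
private def NE (f : ℕ → ℝ) (cl : ℕ) : Prop :=
  ∀ n < 9, (eqEnt cl n 0 = 0 → f (eqEnt cl n 1) + f (eqEnt cl n 2) =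
      f (eqEnt cl n 3) + f (eqEnt cl n 4)) ∧
    (eqEnt cl n 0 = 1 → f (eqEnt cl n 1) * f (eqEnt cl n 2) =
      f (eqEnt cl n 3) * f (eqEnt cl n 4)) ∧
    (2 ≤ eqEnt cl n 0 → f (eqEnt cl n 1) = 0)

/-- The system, written node by node. -/
private theorem sys_node (N m : ℕ) (T : ℕ → ℕ) (a : ℕ → ℝ) :
    Sys (eF m) (qF N m T) a ↔ a 1 = 0 ∧ a (2 + N) + a 1 = a 0 + a 1 ∧
      ∀ p < m, NE (fun v => a (decV N m T p v)) (min (T p) 12) := by
  constructor
  · intro h
    refine ⟨?_, ?_, ?_⟩
    · have := (h 0 (by unfold eF; omega)).2.2 (by simp [qF])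
      simpa [qF] using this
    · have := (h 1 (by unfold eF; omega)).1 (by simp [qF])
      simpa [qF] using this
    · intro p hp n hn
      have h1 := h (2 + 9 * p + n) (by unfold eF; omega)
      have e0 : ¬ (2 + 9 * p + n = 0) := by omega
      have e1 : ¬ (2 + 9 * p + n = 1) := by omega
      have e2 : (2 + 9 * p + n - 2) / 9 = p := by omega
      have e3 : (2 + 9 * p + n - 2) % 9 = n := by omega
      simp only [qF, if_neg e0, if_neg e1, e2, e3] at h1
      simpa using h1
  · rintro ⟨h1, h2, h3⟩ e he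
    rcases Nat.eq_zero_or_pos e with rfl | he0
    · simp [qF, h1]
    rcases Nat.lt_or_ge 1 e with he1 | he1
    · have e0 : ¬ (e = 0) := by omega
      have e1 : ¬ (e = 1) := by omega
      have hp : (e - 2) / 9 < m := by unfold eF at he; omega
      have h4 := h3 _ hp ((e - 2) % 9) (Nat.mod_lt _ (by norm_num))
      simp only [qF, if_neg e0, if_neg e1]
      simpa using h4
    · have : e = 1 := by omega
      subst this
      simp only [qF]
      simpa using h2

/-! ### Values of the nodes from the equations -/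

section val

variable {f : ℕ → ℝ}

private theorem ne0 (h : NE f 0) (h11 : f 11 = 0) : f 0 = 0 := by
  have := (h 0 (by norm_num)).1 rfl
  have h' : f 0 + f 11 = f 11 + f 11 := this
  linarith

private theorem ne1 (h : NE f 1) (h11 : f 11 = 0) : f 0 = 2 * f 8 := by
  have h' : f 0 + f 11 = f 8 + f 8 := (h 0 (by norm_num)).1 rfl
  linarith

private theorem ne2 (h : NE f 2) (h10 : f 10 = 1) (h11 : f 11 = 0) : f 0 = 2 * f 8 + 1 := by
  have h1 : f 1 + f 11 = f 8 + f 8 := (h 0 (by norm_num)).1 rfl
  have h2 : f 0 + f 11 = f 1 + f 10 := (h 1 (by norm_num)).1 rfl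
  linarith

private theorem ne3 (h : NE f 3) (h11 : f 11 = 0) : f 0 = - f 8 := by
  have h' : f 0 + f 8 = f 11 + f 11 := (h 0 (by norm_num)).1 rfl
  linarith

private theorem ne4 (h : NE f 4) (h11 : f 11 = 0) : f 0 = f 8 + f 9 := by
  have h' : f 0 + f 11 = f 8 + f 9 := (h 0 (by norm_num)).1 rfl
  linarith

private theorem ne5 (h : NE f 5) (h10 : f 10 = 1) : f 0 = f 8 * f 9 := by
  have h' : f 0 * f 10 = f 8 * f 9 := (h 0 (by norm_num)).2.1 rfl
  rw [h10, mul_one] at h'
  exact h'

private theorem ne6 (h : NE f 6) (h10 : f 10 = 1) (h11 : f 11 = 0) :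
    f 0 = open Classical in if f 8 = f 9 then 1 else 0 := by
  have h1 : f 1 + f 9 = f 8 + f 11 := (h 0 (by norm_num)).1 rfl
  have h2 : f 0 * f 1 = f 11 * f 11 := (h 1 (by norm_num)).2.1 rfl
  have h3 : f 2 + f 0 = f 10 + f 11 := (h 2 (by norm_num)).1 rfl
  have h4 : f 2 * f 10 = f 1 * f 3 := (h 3 (by norm_num)).2.1 rfl
  rw [h10, h11] at *
  split_ifs with hc
  · have : f 1 = 0 := by linarith
    rw [this] at h4
    linarith
  · have h5 : f 1 ≠ 0 := fun h0 => hc (by linarith)
    rcases mul_eq_zero.mp (by linarith : f 0 * f 1 = 0) with h6 | h6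
    · exact h6
    · exact absurd h6 h5

private theorem ne7 (h : NE f 7) (h10 : f 10 = 1) (h11 : f 11 = 0) :
    f 0 = open Classical in if f 8 < f 9 then 1 else 0 := by
  have h1 : f 1 + f 8 = f 9 + f 11 := (h 0 (by norm_num)).1 rfl
  have h2 : f 0 * f 0 = f 0 * f 10 := (h 1 (by norm_num)).2.1 rfl
  have h3 : f 2 + f 0 = f 10 + f 11 := (h 2 (by norm_num)).1 rfl
  have h4 : f 4 * f 10 = f 3 * f 3 := (h 3 (by norm_num)).2.1 rfl
  have h5 : f 5 * f 10 = f 1 * f 4 := (h 4 (by norm_num)).2.1 rfl
  have h6 : f 6 + f 10 = f 5 + f 11 := (h 5 (by norm_num)).1 rfl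
  have h7 : f 0 * f 6 = f 11 * f 11 := (h 6 (by norm_num)).2.1 rfl
  have h8 : f 7 + f 11 = f 1 + f 4 := (h 7 (by norm_num)).1 rfl
  have h9 : f 2 * f 7 = f 11 * f 11 := (h 8 (by norm_num)).2.1 rfl
  rw [h10] at h2 h3 h4 h5 h6
  rw [h11] at h1 h3 h6 h7 h8 h9
  have hsq : 0 ≤ f 4 := by nlinarith [mul_self_nonneg (f 3)]
  have h01 : f 0 = 0 ∨ f 0 = 1 := by
    have : f 0 * (f 0 - 1) = 0 := by linarith
    rcases mul_eq_zero.mp this with h | h
    · exact Or.inl h
    · exact Or.inr (by linarith)
  rcases h01 with h0 | h0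
  · have e2 : f 2 = 1 := by linarith
    rw [e2] at h9
    have : f 9 ≤ f 8 := by linarith
    rw [if_neg (not_lt.mpr this), h0]
  · rw [h0] at h7
    have e5 : f 1 * f 4 = 1 := by linarith
    have : 0 < f 1 := by
      by_contra hc
      have := mul_nonneg (neg_nonneg.mpr (not_lt.mp hc)) hsq
      linarith
    rw [if_pos (by linarith), h0]

private theorem ne8 (h : NE f 8) (h10 : f 10 = 1) (h11 : f 11 = 0) :
    f 0 = open Classical in if f 8 ≤ f 9 then 1 else 0 := by
  have h1 : f 1 + f 9 = f 8 + f 11 := (h 0 (by norm_num)).1 rfl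
  have h2 : f 2 * f 2 = f 2 * f 10 := (h 1 (by norm_num)).2.1 rfl
  have h3 : f 0 + f 2 = f 10 + f 11 := (h 2 (by norm_num)).1 rfl
  have h4 : f 4 * f 10 = f 3 * f 3 := (h 3 (by norm_num)).2.1 rfl
  have h5 : f 5 * f 10 = f 1 * f 4 := (h 4 (by norm_num)).2.1 rfl
  have h6 : f 6 + f 10 = f 5 + f 11 := (h 5 (by norm_num)).1 rfl
  have h7 : f 2 * f 6 = f 11 * f 11 := (h 6 (by norm_num)).2.1 rfl
  have h8 : f 7 + f 11 = f 1 + f 4 := (h 7 (by norm_num)).1 rfl
  have h9 : f 0 * f 7 = f 11 * f 11 := (h 8 (by norm_num)).2.1 rfl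
  rw [h10] at h2 h3 h4 h5 h6
  rw [h11] at h1 h3 h6 h7 h8 h9
  have hsq : 0 ≤ f 4 := by nlinarith [mul_self_nonneg (f 3)]
  have h01 : f 2 = 0 ∨ f 2 = 1 := by
    have : f 2 * (f 2 - 1) = 0 := by linarith
    rcases mul_eq_zero.mp this with h | h
    · exact Or.inl h
    · exact Or.inr (by linarith)
  rcases h01 with h0 | h0
  · have e2 : f 0 = 1 := by linarith
    rw [e2] at h9
    have : f 8 ≤ f 9 := by linarith
    rw [if_pos this, e2]
  · rw [h0] at h7
    have e5 : f 1 * f 4 = 1 := by linarith
    have : 0 < f 1 := by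
      by_contra hc
      have := mul_nonneg (neg_nonneg.mpr (not_lt.mp hc)) hsq
      linarith
    have h10' : ¬ (f 8 ≤ f 9) := by
      intro h; linarith
    rw [if_neg h10']
    linarith

private theorem ne9 (h : NE f 9) (h10 : f 10 = 1) (h11 : f 11 = 0) : f 0 = 1 - f 8 := by
  have h' : f 0 + f 8 = f 10 + f 11 := (h 0 (by norm_num)).1 rfl
  linarith

private theorem ne10 (h : NE f 10) (h10 : f 10 = 1) : f 0 = f 8 * f 9 := by
  have h' : f 0 * f 10 = f 8 * f 9 := (h 0 (by norm_num)).2.1 rfl
  rw [h10, mul_one] at h'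
  exact h'

private theorem ne11 (h : NE f 11) (h10 : f 10 = 1) : f 0 = f 8 + f 9 - f 8 * f 9 := by
  have h1 : f 1 * f 10 = f 8 * f 9 := (h 0 (by norm_num)).2.1 rfl
  have h2 : f 0 + f 1 = f 8 + f 9 := (h 1 (by norm_num)).1 rfl
  rw [h10, mul_one] at h1
  linarith

private theorem ne12 (h : NE f 12) (h11 : f 11 = 0) : f 0 = f 12 := by
  have h' : f 0 + f 11 = f 12 + f 11 := (h 0 (by norm_num)).1 rfl
  linarith

end val

/-! ### Solution of the equations of a node -/

open Classical in
/-- Values of the eight variables of a node of class `cl` whose children have the values `c` and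
`d`, and `x` is the value of the variable named by the token. -/
private noncomputable def nodeAux (cl : ℕ) (c d x : ℝ) (v : ℕ) : ℝ :=
  if cl = 0 then 0
  else if cl = 1 then (if v = 0 then 2 * c else 0)
  else if cl = 2 then (if v = 0 then 2 * c + 1 else if v = 1 then 2 * c else 0)
  else if cl = 3 then (if v = 0 then - c else 0)
  else if cl = 4 then (if v = 0 then c + d else 0)
  else if cl = 5 then (if v = 0 then c * d else 0)
  else if cl = 6 then
    (if c = d then (if v = 0 then 1 else 0)
     else [0, c - d, 1, (c - d)⁻¹].getD v 0)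
  else if cl = 7 then
    (if c < d then [1, d - c, 0, (Real.sqrt (d - c))⁻¹, (d - c)⁻¹, 1, 0, (d - c) + (d - c)⁻¹].getD v 0
     else [0, d - c, 1, Real.sqrt (c - d), c - d, (d - c) * (c - d), (d - c) * (c - d) - 1, 0].getD v 0)
  else if cl = 8 then
    (if d < c then [0, c - d, 1, (Real.sqrt (c - d))⁻¹, (c - d)⁻¹, 1, 0, (c - d) + (c - d)⁻¹].getD v 0
     else [1, c - d, 0, Real.sqrt (d - c), d - c, (c - d) * (d - c), (c - d) * (d - c) - 1, 0].getD v 0)
  else if cl = 9 then (if v = 0 then 1 - c else 0)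
  else if cl = 10 then (if v = 0 then c * d else 0)
  else if cl = 11 then (if v = 0 then c + d - c * d else if v = 1 then c * d else 0)
  else (if v = 0 then x else 0)

private theorem ne_aux (f : ℕ → ℝ) (cl : ℕ) (hcl : cl ≤ 12) (h10 : f 10 = 1) (h11 : f 11 = 0)
    (hv : ∀ v < 8, f v = nodeAux cl (f 8) (f 9) (f 12) v) : NE f cl := by
  have e0 := hv 0 (by norm_num)
  have e1 := hv 1 (by norm_num)
  have e2 := hv 2 (by norm_num)
  have e3 := hv 3 (by norm_num)
  have e4 := hv 4 (by norm_num)
  have e5 := hv 5 (by norm_num)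
  have e6 := hv 6 (by norm_num)
  have e7 := hv 7 (by norm_num)
  clear hv
  interval_cases cl
  · simp only [nodeAux, if_true] at e0 e1 e2 e3 e4 e5 e6 e7
    intro n hn
    interval_cases n <;> simp [eqEnt, eqTab, e0, e1, e2, e3, e4, e5, e6, e7, h10, h11]
  · simp [nodeAux] at e0 e1 e2 e3 e4 e5 e6 e7
    intro n hn
    interval_cases n <;> simp [eqEnt, eqTab, e0, e1, e2, e3, e4, e5, e6, e7, h10, h11] <;> ring
  · simp [nodeAux] at e0 e1 e2 e3 e4 e5 e6 e7
    intro n hn
    interval_cases n <;> simp [eqEnt, eqTab, e0, e1, e2, e3, e4, e5, e6, e7, h10, h11] <;> ring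
  · simp [nodeAux] at e0 e1 e2 e3 e4 e5 e6 e7
    intro n hn
    interval_cases n <;> simp [eqEnt, eqTab, e0, e1, e2, e3, e4, e5, e6, e7, h10, h11]
  · simp [nodeAux] at e0 e1 e2 e3 e4 e5 e6 e7
    intro n hn
    interval_cases n <;> simp [eqEnt, eqTab, e0, e1, e2, e3, e4, e5, e6, e7, h10, h11]
  · simp [nodeAux] at e0 e1 e2 e3 e4 e5 e6 e7
    intro n hn
    interval_cases n <;> simp [eqEnt, eqTab, e0, e1, e2, e3, e4, e5, e6, e7, h10, h11]
  · by_cases hc : f 8 = f 9
    · simp [nodeAux, hc] at e0 e1 e2 e3 e4 e5 e6 e7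
      intro n hn
      interval_cases n <;> simp [eqEnt, eqTab, e0, e1, e2, e3, e4, e5, e6, e7, h10, h11, hc]
    · have hne : f 8 - f 9 ≠ 0 := sub_ne_zero.mpr hc
      simp [nodeAux, hc] at e0 e1 e2 e3 e4 e5 e6 e7
      intro n hn
      interval_cases n <;> simp [eqEnt, eqTab, e0, e1, e2, e3, e4, e5, e6, e7, h10, h11]
      rw [mul_inv_cancel₀ hne]
  · by_cases hc : f 8 < f 9
    · have hpos : 0 < f 9 - f 8 := by linarith
      have hs : (Real.sqrt (f 9 - f 8))⁻¹ * (Real.sqrt (f 9 - f 8))⁻¹ = (f 9 - f 8)⁻¹ := by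
        rw [← mul_inv, Real.mul_self_sqrt hpos.le]
      have hi : (f 9 - f 8) * (f 9 - f 8)⁻¹ = 1 := mul_inv_cancel₀ hpos.ne'
      simp [nodeAux, hc] at e0 e1 e2 e3 e4 e5 e6 e7
      intro n hn
      interval_cases n <;> simp [eqEnt, eqTab, e0, e1, e2, e3, e4, e5, e6, e7, h10, h11, hs, hi]
    · have hpos : 0 ≤ f 8 - f 9 := by linarith
      have hs : Real.sqrt (f 8 - f 9) * Real.sqrt (f 8 - f 9) = f 8 - f 9 :=
        Real.mul_self_sqrt hpos
      simp [nodeAux, hc] at e0 e1 e2 e3 e4 e5 e6 e7
      intro n hn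
      interval_cases n <;> simp [eqEnt, eqTab, e0, e1, e2, e3, e4, e5, e6, e7, h10, h11, hs]
  · by_cases hc : f 9 < f 8
    · have hpos : 0 < f 8 - f 9 := by linarith
      have hs : (Real.sqrt (f 8 - f 9))⁻¹ * (Real.sqrt (f 8 - f 9))⁻¹ = (f 8 - f 9)⁻¹ := by
        rw [← mul_inv, Real.mul_self_sqrt hpos.le]
      have hi : (f 8 - f 9) * (f 8 - f 9)⁻¹ = 1 := mul_inv_cancel₀ hpos.ne'
      simp [nodeAux, hc] at e0 e1 e2 e3 e4 e5 e6 e7
      intro n hn
      interval_cases n <;> simp [eqEnt, eqTab, e0, e1, e2, e3, e4, e5, e6, e7, h10, h11, hs, hi]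
    · have hpos : 0 ≤ f 9 - f 8 := by linarith
      have hs : Real.sqrt (f 9 - f 8) * Real.sqrt (f 9 - f 8) = f 9 - f 8 :=
        Real.mul_self_sqrt hpos
      simp [nodeAux, hc] at e0 e1 e2 e3 e4 e5 e6 e7
      intro n hn
      interval_cases n <;> simp [eqEnt, eqTab, e0, e1, e2, e3, e4, e5, e6, e7, h10, h11, hs]
  · simp [nodeAux] at e0 e1 e2 e3 e4 e5 e6 e7
    intro n hn
    interval_cases n <;> simp [eqEnt, eqTab, e0, e1, e2, e3, e4, e5, e6, e7, h10, h11]
  · simp [nodeAux] at e0 e1 e2 e3 e4 e5 e6 e7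
    intro n hn
    interval_cases n <;> simp [eqEnt, eqTab, e0, e1, e2, e3, e4, e5, e6, e7, h10, h11]
  · simp [nodeAux] at e0 e1 e2 e3 e4 e5 e6 e7
    intro n hn
    interval_cases n <;> simp [eqEnt, eqTab, e0, e1, e2, e3, e4, e5, e6, e7, h10, h11]
  · simp [nodeAux] at e0 e1 e2 e3 e4 e5 e6 e7
    intro n hn
    interval_cases n <;> simp [eqEnt, eqTab, e0, e1, e2, e3, e4, e5, e6, e7, h10, h11]

/-! ### Values of all nodes -/

private theorem getD_pre (pre : List ℕ) (t : ℕ) (r : List ℕ) :
    (pre ++ t :: r).getD pre.length 0 = t := by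
  simp [List.getD]

section str

variable {L : List ℕ} {N : ℕ} {a x : ℕ → ℝ}

/-- The equations of all nodes hold. -/
private def Sol (L : List ℕ) (N : ℕ) (a x : ℕ → ℝ) : Prop :=
  a 0 = 1 ∧ a 1 = 0 ∧ (∀ i < N, a (2 + i) = x i) ∧ (∀ t ∈ L, t < 12 + N) ∧
  ∀ p < L.length, NE (fun v => a (decV N L.length (fun p => L.getD p 0) p v)) (min (L.getD p 0) 12)

private theorem sol_node (h : Sol L N a x) (pre : List ℕ) (t : ℕ) (r : List ℕ)
    (hL : L = pre ++ t :: r) :
    NE (fun v => a (decV N L.length (fun p => L.getD p 0) pre.length v)) (min t 12) := by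
  have h1 := h.2.2.2.2 pre.length (by rw [hL]; simp)
  have h2 : L.getD pre.length 0 = t := by rw [hL]; exact getD_pre pre t r
  rwa [h2] at h1

private theorem sol10 (h : Sol L N a x) (p : ℕ) :
    (fun v => a (decV N L.length (fun p => L.getD p 0) p v)) 10 = 1 := by
  simp [decV, h.1]

private theorem sol11 (h : Sol L N a x) (p : ℕ) :
    (fun v => a (decV N L.length (fun p => L.getD p 0) p v)) 11 = 0 := by
  simp [decV, h.2.1]

private theorem c2_eq (pre : List ℕ) (t : ℕ) (w post : List ℕ) (hw : Complete w)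
    (hL : L = pre ++ t :: (w ++ post)) :
    c2 (fun p => L.getD p 0) L.length pre.length = pre.length + 1 + w.length := by
  subst hL
  exact c2_append pre t w post hw

private theorem bin_node {P : ℝ → ℝ → ℝ → Prop} (pre : List ℕ) (t : ℕ) (w w' post : List ℕ)
    (hw : Complete w) (hL : L = pre ++ (t :: (w ++ w')) ++ post) {u v : ℝ}
    (h8 : ∀ pre' post', L = pre' ++ (w ++ post') → a (2 + N + 8 * pre'.length) = u)
    (h9 : ∀ pre' post', L = pre' ++ (w' ++ post') → a (2 + N + 8 * pre'.length) = v)
    (h : P (a (decV N L.length (fun p => L.getD p 0) pre.length 0))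
      (a (decV N L.length (fun p => L.getD p 0) pre.length 8))
      (a (decV N L.length (fun p => L.getD p 0) pre.length 9))) :
    P (a (2 + N + 8 * pre.length)) u v := by
  have e0 : decV N L.length (fun p => L.getD p 0) pre.length 0 = 2 + N + 8 * pre.length := by
    simp [decV]
  have e8 : a (decV N L.length (fun p => L.getD p 0) pre.length 8) = u := by
    have := h8 (pre ++ [t]) (w' ++ post) (by rw [hL]; simp)
    rw [← this]
    simp [decV]
  have e9 : a (decV N L.length (fun p => L.getD p 0) pre.length 9) = v := by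
    have := h9 (pre ++ t :: w) post (by rw [hL]; simp)
    rw [← this]
    have hc := c2_eq (L := L) pre t w (w' ++ post) hw (by rw [hL]; simp)
    simp only [decV, hc]
    simp
    congr 1
    ring
  rw [e0, e8, e9] at h
  exact h

private theorem un_node {P : ℝ → ℝ → Prop} (pre : List ℕ) (t : ℕ) (w post : List ℕ)
    (hL : L = pre ++ (t :: w) ++ post) {u : ℝ}
    (h8 : ∀ pre' post', L = pre' ++ (w ++ post') → a (2 + N + 8 * pre'.length) = u)
    (h : P (a (decV N L.length (fun p => L.getD p 0) pre.length 0))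
      (a (decV N L.length (fun p => L.getD p 0) pre.length 8))) :
    P (a (2 + N + 8 * pre.length)) u := by
  have e0 : decV N L.length (fun p => L.getD p 0) pre.length 0 = 2 + N + 8 * pre.length := by
    simp [decV]
  have e8 : a (decV N L.length (fun p => L.getD p 0) pre.length 8) = u := by
    have := h8 (pre ++ [t]) post (by rw [hL]; simp)
    rw [← this]
    simp [decV]
  rw [e0, e8] at h
  exact h

private theorem num_val (h : Sol L N a x) (bs : List Bool) : ∀ (pre post : List ℕ),
    L = pre ++ ((bs.map (fun b => if b then 2 else 1) ++ [0]) ++ post) →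
      a (2 + N + 8 * pre.length) = (numVal bs : ℝ) := by
  induction bs with
  | nil =>
    intro pre post hL
    have h1 := ne0 (sol_node h pre 0 post (by rw [hL]; simp)) (sol11 h _)
    simpa [decV, numVal] using h1
  | cons b bs ih =>
    intro pre post hL
    cases b with
    | true =>
      have h1 := ne2 (sol_node h pre 2 ((bs.map (fun b => if b then 2 else 1) ++ [0]) ++ post)
        (by rw [hL]; simp)) (sol10 h _) (sol11 h _)
      have h2 := un_node (P := fun s t => s = 2 * t + 1) pre 2
        (bs.map (fun b => if b then 2 else 1) ++ [0]) post (by rw [hL]; simp) ih h1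
      have h3 : numVal (true :: bs) = 1 + 2 * numVal bs := rfl
      rw [h2, h3]
      push_cast
      ring
    | false =>
      have h1 := ne1 (sol_node h pre 1 ((bs.map (fun b => if b then 2 else 1) ++ [0]) ++ post)
        (by rw [hL]; simp)) (sol11 h _)
      have h2 := un_node (P := fun s t => s = 2 * t) pre 1
        (bs.map (fun b => if b then 2 else 1) ++ [0]) post (by rw [hL]; simp) ih h1
      have h3 : numVal (false :: bs) = 0 + 2 * numVal bs := rfl
      rw [h2, h3]
      push_cast
      ring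

private theorem tm_val (h : Sol L N a x) (t : Tm) : ∀ (pre post : List ℕ),
    L = pre ++ (t.toks ++ post) → a (2 + N + 8 * pre.length) = t.val x := by
  induction t with
  | num bs =>
    intro pre post hL
    exact num_val h bs pre post hL
  | var i =>
    intro pre post hL
    have hL' : L = pre ++ (12 + i) :: post := by rw [hL]; simp [Tm.toks]
    have hi : i < N := by
      have := h.2.2.2.1 (12 + i) (by rw [hL']; simp)
      omega
    have h0 := sol_node h pre (12 + i) post hL'
    rw [show min (12 + i) 12 = 12 by omega] at h0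
    have h1 := ne12 h0 (sol11 h _)
    have h2 : L.getD pre.length 0 = 12 + i := by rw [hL']; exact getD_pre _ _ _
    have h3 : a (2 + N + 8 * pre.length) = a (2 + i) := by
      have : decV N L.length (fun p => L.getD p 0) pre.length 12 = 2 + i := by
        simp only [decV, h2]
        simp
      simp only [this] at h1
      simpa [decV] using h1
    rw [h3, h.2.2.1 i hi]
    rfl
  | neg t ih =>
    intro pre post hL
    have h1 := ne3 (sol_node h pre 3 (t.toks ++ post) (by rw [hL]; simp [Tm.toks])) (sol11 h _)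
    exact un_node (P := fun s t => s = - t) pre 3 t.toks post (by rw [hL]; simp [Tm.toks]) ih h1
  | add s t ihs iht =>
    intro pre post hL
    have h1 := ne4 (sol_node h pre 4 (s.toks ++ t.toks ++ post) (by rw [hL]; simp [Tm.toks]))
      (sol11 h _)
    exact bin_node (P := fun r s t => r = s + t) pre 4 s.toks t.toks post (complete_tm s)
      (by rw [hL]; simp [Tm.toks]) ihs iht h1
  | mul s t ihs iht =>
    intro pre post hL
    have h1 := ne5 (sol_node h pre 5 (s.toks ++ t.toks ++ post) (by rw [hL]; simp [Tm.toks]))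
      (sol10 h _)
    exact bin_node (P := fun r s t => r = s * t) pre 5 s.toks t.toks post (complete_tm s)
      (by rw [hL]; simp [Tm.toks]) ihs iht h1

open Classical in
private theorem fm_val (h : Sol L N a x) (f : Fm) : ∀ (pre post : List ℕ),
    L = pre ++ (f.toks ++ post) → a (2 + N + 8 * pre.length) = if f.Holds x then 1 else 0 := by
  induction f with
  | eq s t =>
    intro pre post hL
    have h1 := ne6 (sol_node h pre 6 (s.toks ++ t.toks ++ post) (by rw [hL]; simp [Fm.toks]))
      (sol10 h _) (sol11 h _)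
    exact bin_node (P := fun r s t => r = if s = t then 1 else 0) pre 6 s.toks t.toks post
      (complete_tm s) (by rw [hL]; simp [Fm.toks]) (tm_val h s) (tm_val h t) h1
  | lt s t =>
    intro pre post hL
    have h1 := ne7 (sol_node h pre 7 (s.toks ++ t.toks ++ post) (by rw [hL]; simp [Fm.toks]))
      (sol10 h _) (sol11 h _)
    exact bin_node (P := fun r s t => r = if s < t then 1 else 0) pre 7 s.toks t.toks post
      (complete_tm s) (by rw [hL]; simp [Fm.toks]) (tm_val h s) (tm_val h t) h1
  | le s t =>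
    intro pre post hL
    have h1 := ne8 (sol_node h pre 8 (s.toks ++ t.toks ++ post) (by rw [hL]; simp [Fm.toks]))
      (sol10 h _) (sol11 h _)
    exact bin_node (P := fun r s t => r = if s ≤ t then 1 else 0) pre 8 s.toks t.toks post
      (complete_tm s) (by rw [hL]; simp [Fm.toks]) (tm_val h s) (tm_val h t) h1
  | not f ih =>
    intro pre post hL
    have h1 := ne9 (sol_node h pre 9 (f.toks ++ post) (by rw [hL]; simp [Fm.toks]))
      (sol10 h _) (sol11 h _)
    have h2 := un_node (P := fun s t => s = 1 - t) pre 9 f.toks post (by rw [hL]; simp [Fm.toks])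
      ih h1
    rw [h2]
    by_cases hf : f.Holds x <;> simp [Fm.Holds, hf]
  | and f g ihf ihg =>
    intro pre post hL
    have h1 := ne10 (sol_node h pre 10 (f.toks ++ g.toks ++ post) (by rw [hL]; simp [Fm.toks]))
      (sol10 h _)
    have h2 := bin_node (P := fun r s t => r = s * t) pre 10 f.toks g.toks post (complete_fm f)
      (by rw [hL]; simp [Fm.toks]) ihf ihg h1
    rw [h2]
    by_cases hf : f.Holds x <;> by_cases hg : g.Holds x <;> simp [Fm.Holds, hf, hg]
  | or f g ihf ihg =>
    intro pre post hL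
    have h1 := ne11 (sol_node h pre 11 (f.toks ++ g.toks ++ post) (by rw [hL]; simp [Fm.toks]))
      (sol10 h _)
    have h2 := bin_node (P := fun r s t => r = s + t - s * t) pre 11 f.toks g.toks post
      (complete_fm f) (by rw [hL]; simp [Fm.toks]) ihf ihg h1
    rw [h2]
    by_cases hf : f.Holds x <;> by_cases hg : g.Holds x <;> simp [Fm.Holds, hf, hg]

end str

/-! ### Construction of a solution -/

/-- Value of the node at `p`. -/
private noncomputable def V (x : ℕ → ℝ) (T : ℕ → ℕ) (m : ℕ) (p : ℕ) : ℝ :=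
  if h : p < m then
    nodeAux (min (T p) 12) (V x T m (p + 1)) (V x T m (c2 T m p)) (x (T p - 12)) 0
  else 0
termination_by m - p
decreasing_by
  · omega
  · have : p < c2 T m p := by unfold c2 ep; omega
    omega

/-- Values of the variables of the node at `p`. -/
private noncomputable def B (x : ℕ → ℝ) (T : ℕ → ℕ) (m : ℕ) (p v : ℕ) : ℝ :=
  if p < m then
    nodeAux (min (T p) 12) (V x T m (p + 1)) (V x T m (c2 T m p)) (x (T p - 12)) v
  else 0

private theorem B_zero (x : ℕ → ℝ) (T : ℕ → ℕ) (m : ℕ) (p : ℕ) : B x T m p 0 = V x T m p := by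
  rw [V, B]
  by_cases h : p < m <;> simp [h]

/-- The solution. -/
private noncomputable def sol (x : ℕ → ℝ) (N m : ℕ) (T : ℕ → ℕ) (j : ℕ) : ℝ :=
  if j = 0 then 1 else if j = 1 then 0 else if j < 2 + N then x (j - 2)
  else B x T m ((j - (2 + N)) / 8) ((j - (2 + N)) % 8)

private theorem sol_B (x : ℕ → ℝ) (N m : ℕ) (T : ℕ → ℕ) (p v : ℕ) (hv : v < 8) :
    sol x N m T (2 + N + 8 * p + v) = B x T m p v := by
  have e0 : ¬ (2 + N + 8 * p + v = 0) := by omega
  have e1 : ¬ (2 + N + 8 * p + v = 1) := by omega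
  have e2 : ¬ (2 + N + 8 * p + v < 2 + N) := by omega
  have e3 : (2 + N + 8 * p + v - (2 + N)) / 8 = p := by omega
  have e4 : (2 + N + 8 * p + v - (2 + N)) % 8 = v := by omega
  simp only [sol, if_neg e0, if_neg e1, if_neg e2, e3, e4]

private theorem sol_V (x : ℕ → ℝ) (N m : ℕ) (T : ℕ → ℕ) (p : ℕ) :
    sol x N m T (2 + N + 8 * p) = V x T m p := by
  have := sol_B x N m T p 0 (by norm_num)
  rw [Nat.add_zero] at this
  rw [this, B_zero]

private theorem sol_x (x : ℕ → ℝ) (N m : ℕ) (T : ℕ → ℕ) (i : ℕ) (hi : i < N) :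
    sol x N m T (2 + i) = x i := by
  have e0 : ¬ (2 + i = 0) := by omega
  have e1 : ¬ (2 + i = 1) := by omega
  have e2 : 2 + i < 2 + N := by omega
  have e3 : 2 + i - 2 = i := by omega
  simp only [sol, if_neg e0, if_neg e1, if_pos e2, e3]

private theorem sol_spec (L : List ℕ) (N : ℕ) (x : ℕ → ℝ) (hN : ∀ t ∈ L, t < 12 + N) :
    Sol L N (sol x N L.length (fun p => L.getD p 0)) x := by
  set T : ℕ → ℕ := fun p => L.getD p 0 with hT
  set m := L.length with hm
  refine ⟨by simp [sol], by simp [sol], fun i hi => sol_x x N m T i hi, hN, ?_⟩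
  intro p hp
  have hTp : T p < 12 + N := by
    have : T p ∈ L := by
      simp only [hT]
      rw [List.getD_eq_getElem _ _ hp]
      exact List.getElem_mem hp
    exact hN _ this
  change NE (fun v => sol x N m T (decV N m T p v)) (min (T p) 12)
  apply ne_aux _ _ (by omega)
  · simp [decV, sol]
  · simp [decV, sol]
  · intro v hv
    have e8 : sol x N m T (decV N m T p 8) = V x T m (p + 1) := by
      rw [← sol_V x N m T (p + 1)]
      simp [decV]
    have e9 : sol x N m T (decV N m T p 9) = V x T m (c2 T m p) := by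
      rw [← sol_V x N m T (c2 T m p)]
      simp [decV]
    have ev : sol x N m T (decV N m T p v) = B x T m p v := by
      rw [← sol_B x N m T p v hv]
      simp [decV, hv]
    change sol x N m T (decV N m T p v) = nodeAux (min (T p) 12) (sol x N m T (decV N m T p 8))
      (sol x N m T (decV N m T p 9)) (sol x N m T (decV N m T p 12)) v
    rw [e8, e9, ev, B, if_pos hp]
    by_cases h12 : 12 ≤ T p
    · have e12 : sol x N m T (decV N m T p 12) = x (T p - 12) := by
        rw [← sol_x x N m T (T p - 12) (by omega)]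
        simp [decV]
      rw [e12]
    · have : min (T p) 12 < 12 := by omega
      generalize min (T p) 12 = cl at this
      interval_cases cl <;> simp [nodeAux]

/-! ### Ranges -/

private theorem toks_pos (f : Fm) : 0 < f.toks.length := by
  cases f <;> simp [Fm.toks]

private theorem toks_pos' (t : Tm) : 0 < t.toks.length := by
  cases t <;> simp [Tm.toks]

/-- The children of the nodes at the positions `l, …, l + n - 1` are in range. -/
private def Rng (L : List ℕ) (l n : ℕ) : Prop :=
  ∀ p, l ≤ p → p < l + n → (1 ≤ ar (L.getD p 0) → p + 1 < L.length) ∧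
    (ar (L.getD p 0) = 2 → c2 (fun p => L.getD p 0) L.length p < L.length)

private theorem rng_leaf {L : List ℕ} (pre : List ℕ) (t : ℕ) (post : List ℕ) (ht : ar t = 0)
    (hL : L = pre ++ t :: post) : Rng L pre.length 1 := by
  intro p h1 h2
  have : p = pre.length := by omega
  subst this
  have h3 : L.getD pre.length 0 = t := by rw [hL]; exact getD_pre _ _ _
  rw [h3, ht]
  simp

private theorem rng_un {L : List ℕ} (pre : List ℕ) (t : ℕ) (w post : List ℕ) (ht : ar t = 1)
    (hw : 0 < w.length) (hL : L = pre ++ (t :: w) ++ post)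
    (h8 : ∀ pre' post', L = pre' ++ (w ++ post') → Rng L pre'.length w.length) :
    Rng L pre.length (w.length + 1) := by
  intro p h1 h2
  rcases Nat.eq_or_lt_of_le h1 with h3 | h3
  · subst h3
    have h3 : L.getD pre.length 0 = t := by rw [hL]; simp [List.getD]
    rw [h3, ht]
    refine ⟨fun _ => ?_, fun h => by omega⟩
    rw [hL]
    simp
    omega
  · have := h8 (pre ++ [t]) post (by rw [hL]; simp)
    apply this
    · simp; omega
    · simp; omega

private theorem rng_bin {L : List ℕ} (pre : List ℕ) (t : ℕ) (w w' post : List ℕ) (ht : ar t = 2)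
    (hc : Complete w)
    (hw : 0 < w.length) (hw' : 0 < w'.length) (hL : L = pre ++ (t :: (w ++ w')) ++ post)
    (h8 : ∀ pre' post', L = pre' ++ (w ++ post') → Rng L pre'.length w.length)
    (h9 : ∀ pre' post', L = pre' ++ (w' ++ post') → Rng L pre'.length w'.length) :
    Rng L pre.length ((w ++ w').length + 1) := by
  intro p h1 h2
  rcases Nat.eq_or_lt_of_le h1 with h3 | h3
  · subst h3
    have h3 : L.getD pre.length 0 = t := by rw [hL]; simp [List.getD]
    rw [h3, ht]
    refine ⟨fun _ => ?_, fun _ => ?_⟩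
    · rw [hL]
      simp
      omega
    · rw [c2_eq (L := L) pre t w (w' ++ post) hc (by rw [hL]; simp)]
      rw [hL]
      simp
      omega
  · rw [List.length_append] at h2
    rcases Nat.lt_or_ge p (pre.length + 1 + w.length) with h4 | h4
    · have := h8 (pre ++ [t]) (w' ++ post) (by rw [hL]; simp)
      apply this
      · simp; omega
      · simp; omega
    · have := h9 (pre ++ t :: w) post (by rw [hL]; simp)
      apply this
      · simp; omega
      · simp; omega

private theorem rng_num {L : List ℕ} (bs : List Bool) : ∀ (pre post : List ℕ),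
    L = pre ++ ((bs.map (fun b : Bool => if b then 2 else 1) ++ [0]) ++ post) →
      Rng L pre.length (bs.map (fun b : Bool => if b then 2 else 1) ++ [0]).length := by
  induction bs with
  | nil =>
    intro pre post hL
    exact rng_leaf pre 0 post (by simp [ar]) (by rw [hL]; simp)
  | cons b bs ih =>
    intro pre post hL
    have h := rng_un (L := L) pre (if b then 2 else 1) (bs.map (fun b => if b then 2 else 1) ++ [0]) post
      (by cases b <;> simp [ar]) (by simp) (by rw [hL]; simp) ih
    simpa using h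

private theorem rng_tm {L : List ℕ} (t : Tm) : ∀ (pre post : List ℕ),
    L = pre ++ (t.toks ++ post) → Rng L pre.length t.toks.length := by
  induction t with
  | num bs => exact rng_num bs
  | var i =>
    intro pre post hL
    exact rng_leaf pre (12 + i) post (by simp [ar]) (by rw [hL]; simp [Tm.toks])
  | neg t ih =>
    intro pre post hL
    have h := rng_un (L := L) pre 3 t.toks post (by simp [ar]) (toks_pos' t) (by rw [hL]; simp [Tm.toks]) ih
    simpa [Tm.toks] using h
  | add s t ihs iht =>
    intro pre post hL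
    have h := rng_bin (L := L) pre 4 s.toks t.toks post (by simp [ar]) (complete_tm s) (toks_pos' s)
      (toks_pos' t) (by rw [hL]; simp [Tm.toks]) ihs iht
    simpa [Tm.toks] using h
  | mul s t ihs iht =>
    intro pre post hL
    have h := rng_bin (L := L) pre 5 s.toks t.toks post (by simp [ar]) (complete_tm s) (toks_pos' s)
      (toks_pos' t) (by rw [hL]; simp [Tm.toks]) ihs iht
    simpa [Tm.toks] using h

private theorem rng_fm {L : List ℕ} (f : Fm) : ∀ (pre post : List ℕ),
    L = pre ++ (f.toks ++ post) → Rng L pre.length f.toks.length := by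
  induction f with
  | eq s t =>
    intro pre post hL
    have h := rng_bin (L := L) pre 6 s.toks t.toks post (by simp [ar]) (complete_tm s) (toks_pos' s)
      (toks_pos' t) (by rw [hL]; simp [Fm.toks]) (rng_tm s) (rng_tm t)
    simpa [Fm.toks] using h
  | lt s t =>
    intro pre post hL
    have h := rng_bin (L := L) pre 7 s.toks t.toks post (by simp [ar]) (complete_tm s) (toks_pos' s)
      (toks_pos' t) (by rw [hL]; simp [Fm.toks]) (rng_tm s) (rng_tm t)
    simpa [Fm.toks] using h
  | le s t =>
    intro pre post hL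
    have h := rng_bin (L := L) pre 8 s.toks t.toks post (by simp [ar]) (complete_tm s) (toks_pos' s)
      (toks_pos' t) (by rw [hL]; simp [Fm.toks]) (rng_tm s) (rng_tm t)
    simpa [Fm.toks] using h
  | not f ih =>
    intro pre post hL
    have h := rng_un (L := L) pre 9 f.toks post (by simp [ar]) (toks_pos f) (by rw [hL]; simp [Fm.toks]) ih
    simpa [Fm.toks] using h
  | and f g ihf ihg =>
    intro pre post hL
    have h := rng_bin (L := L) pre 10 f.toks g.toks post (by simp [ar]) (complete_fm f) (toks_pos f)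
      (toks_pos g) (by rw [hL]; simp [Fm.toks]) ihf ihg
    simpa [Fm.toks] using h
  | or f g ihf ihg =>
    intro pre post hL
    have h := rng_bin (L := L) pre 11 f.toks g.toks post (by simp [ar]) (complete_fm f) (toks_pos f)
      (toks_pos g) (by rw [hL]; simp [Fm.toks]) ihf ihg
    simpa [Fm.toks] using h

private theorem tab_ent' : ∀ cl : Fin 13, ∀ n : Fin 9, ∀ s : Fin 5, 1 ≤ s.val →
    (eqEnt cl n s = 8 → 1 ≤ ar cl) ∧ (eqEnt cl n s = 9 → ar cl = 2) ∧
      (eqEnt cl n s = 12 → cl.val = 12) ∧ eqEnt cl n s ≤ 12 := by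
  unfold ar
  decide

private theorem tab_ent (cl : ℕ) (hcl : cl < 13) (n : ℕ) (hn : n < 9) (s : ℕ) (hs : s < 5)
    (hs1 : 1 ≤ s) :
    (eqEnt cl n s = 8 → 1 ≤ ar cl) ∧ (eqEnt cl n s = 9 → ar cl = 2) ∧
      (eqEnt cl n s = 12 → cl = 12) ∧ eqEnt cl n s ≤ 12 :=
  tab_ent' ⟨cl, hcl⟩ ⟨n, hn⟩ ⟨s, hs⟩ hs1

private theorem ar_min (t : ℕ) : ar (min t 12) = ar t := by
  rcases Nat.lt_or_ge t 12 with h | h
  · rw [min_eq_left h.le]
  · rw [min_eq_right h]
    simp [ar, h]

/-- All variables of the equations are in range. -/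
theorem qF_lt (φ : Fm) (N : ℕ) (hN : ∀ t ∈ φ.toks, t < 12 + N) :
    ∀ e < eF φ.toks.length, ∀ s, 1 ≤ s → s ≤ 4 →
      qF N φ.toks.length (fun p => φ.toks.getD p 0) e s < kF N φ.toks.length := by
  intro e he s hs1 hs4
  have hpos := toks_pos φ
  have hR := rng_fm (L := φ.toks) φ [] [] (by simp)
  generalize φ.toks = L at *
  unfold kF
  unfold eF at he
  rcases Nat.eq_zero_or_pos e with rfl | he0
  · have e0 : ¬ (s = 0) := by omega
    simp only [qF, if_true, if_neg e0]
    omega
  rcases Nat.lt_or_ge 1 e with he1 | he1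
  · have e0 : ¬ (e = 0) := by omega
    have e1 : ¬ (e = 1) := by omega
    have e2 : ¬ (s = 0) := by omega
    have hp : (e - 2) / 9 < L.length := by omega
    have hn : (e - 2) % 9 < 9 := Nat.mod_lt _ (by norm_num)
    simp only [qF, if_neg e0, if_neg e1, if_neg e2]
    generalize (e - 2) / 9 = p at *
    generalize (e - 2) % 9 = n at *
    obtain ⟨r1, r2⟩ := hR p (by simp) (by simpa using hp)
    obtain ⟨t1, t2, t3, t4⟩ := tab_ent (min (L.getD p 0) 12) (by omega) n hn s (by omega) hs1
    rw [ar_min] at t1 t2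
    generalize eqEnt (min (L.getD p 0) 12) n s = v at *
    unfold decV
    by_cases h8 : v < 8
    · rw [if_pos h8]; omega
    rw [if_neg h8]
    by_cases h8 : v = 8
    · rw [if_pos h8]
      have := r1 (t1 h8)
      omega
    rw [if_neg h8]
    by_cases h9 : v = 9
    · rw [if_pos h9]
      have := r2 (t2 h9)
      omega
    rw [if_neg h9]
    by_cases h10 : v = 10
    · rw [if_pos h10]; omega
    rw [if_neg h10]
    by_cases h11 : v = 11
    · rw [if_pos h11]; omega
    rw [if_neg h11]
    have h12 := t3 (by omega)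
    have hTp : L.getD p 0 < 12 + N := by
      have : L.getD p 0 ∈ L := by
        rw [List.getD_eq_getElem _ _ hp]
        exact List.getElem_mem hp
      exact hN _ this
    change 2 + (L.getD p 0 - 12) < 2 + N + 8 * L.length
    generalize L.getD p 0 = t at *
    omega
  · have : e = 1 := by omega
    subst this
    simp only [qF]
    split_ifs <;> omega

/-- The system is solvable if and only if the formula is satisfiable. Doc proof/MP_d68d66_lc,
Section 3; the equations of a node are in `eqTab`. -/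
theorem sem_iff (φ : Fm) (N : ℕ) (hN : ∀ t ∈ φ.toks, t < 12 + N) :
    (∃ a : ℕ → ℝ, a 0 = 1 ∧
      Sys (eF φ.toks.length) (qF N φ.toks.length (fun p => φ.toks.getD p 0)) a) ↔
    ∃ x : ℕ → ℝ, φ.Holds x := by
  constructor
  · rintro ⟨a, ha0, ha⟩
    rw [sys_node] at ha
    obtain ⟨ha1, hr, hn⟩ := ha
    have h : Sol φ.toks N a (fun i => a (2 + i)) := ⟨ha0, ha1, fun _ _ => rfl, hN, hn⟩
    have h1 := fm_val h φ [] [] (by simp)
    refine ⟨fun i => a (2 + i), ?_⟩
    by_contra hc
    rw [if_neg hc] at h1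
    simp only [List.length_nil, Nat.mul_zero, Nat.add_zero] at h1
    rw [h1, ha0, ha1] at hr
    norm_num at hr
  · rintro ⟨x, hx⟩
    have h := sol_spec φ.toks N x hN
    have h1 := fm_val h φ [] [] (by simp)
    rw [if_pos hx] at h1
    simp only [List.length_nil, Nat.mul_zero, Nat.add_zero] at h1
    refine ⟨_, h.1, ?_⟩
    rw [sys_node]
    refine ⟨h.2.1, ?_, h.2.2.2.2⟩
    rw [h1, h.1]

end Pool.Agent.ERG
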