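import Mathlib
import Pool.Agent.ERG.Core

/-!
# Payoff formulas
-/

namespace Pool.Agent.ERG

open Finset

variable {I J C : Type} [Fintype I] [Fintype J] [Fintype C]

/-- mass of the normal rows / columns -/
def nrm {A B : Type} [Fintype A] (x : A ⊕ B → ℝ) : ℝ := ∑ i, x (.inl i)

/-- mass of the constraint strategies -/
def zC (z : Fin 3 ⊕ C → ℝ) : ℝ := ∑ c, z (.inr c)

open Classical in
/-- mass of the strict constraint strategies -/
noncomputable def kap (st : C → Prop) (z : Fin 3 ⊕ C → ℝ) : ℝ := ∑ c, if st c then z (.inr c) else 0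

/-- block masses of the columns -/
noncomputable def yb (blk : J → Fin 3) (y : J ⊕ Fin 1 → ℝ) (b : Fin 3) : ℝ :=
  bmass blk (fun j => y (.inl j)) b

/-- probability of hitting the block, shifted by `d` -/
noncomputable def hit (blk : J → Fin 3) (y : J ⊕ Fin 1 → ℝ) (z : Fin 3 ⊕ C → ℝ) (d : Fin 3) : ℝ :=
  ∑ b, z (.inl b) * yb blk y (b + d)

/-- mass of the normal cells in the matrices of the constraints -/
noncomputable def pC (P : C → I → J → Prop) (x : I ⊕ Fin 4 → ℝ) (y : J ⊕ Fin 1 → ℝ)
    (z : Fin 3 ⊕ C → ℝ) : ℝ :=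
  ∑ c, z (.inr c) * mass (P c) (fun i => x (.inl i)) (fun j => y (.inl j))

section Sums

open Classical in
omit [Fintype C] in
theorem gf_hit (blk : J → Fin 3) (y : J ⊕ Fin 1 → ℝ) (z : Fin 3 ⊕ C → ℝ) (d : Fin 3) (w : ℝ) :
    ∑ j, ∑ b, w * y (.inl j) * z (.inl b) * (if blk j = b + d then (1 : ℝ) else 0) =
      w * hit blk y z d := by
  unfold hit yb bmass
  simp only [Finset.mul_sum]
  rw [Finset.sum_comm]
  refine Finset.sum_congr rfl fun b _ => Finset.sum_congr rfl fun j _ => ?_
  split_ifs <;> ring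

open Classical in
theorem gf_P (P : C → I → J → Prop) (x : I ⊕ Fin 4 → ℝ) (y : J ⊕ Fin 1 → ℝ)
    (z : Fin 3 ⊕ C → ℝ) : ∑ i, ∑ j, ∑ c, x (.inl i) * y (.inl j) * z (.inr c) *
    (if P c i j then (1 : ℝ) else 0) = pC P x y z := by
  unfold pC mass
  simp only [Finset.mul_sum]
  have h : ∀ i, ∑ j, ∑ c, x (.inl i) * y (.inl j) * z (.inr c) * (if P c i j then (1 : ℝ) else 0) =
      ∑ c, ∑ j, z (.inr c) * (x (.inl i) * y (.inl j) * (if P c i j then (1 : ℝ) else 0)) := by
    intro i
    rw [Finset.sum_comm]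
    exact Finset.sum_congr rfl fun c _ => Finset.sum_congr rfl fun j _ => by ring
  rw [Finset.sum_congr rfl fun i _ => h i, Finset.sum_comm]

theorem gf_three {A B D : Type} [Fintype A] [Fintype B] [Fintype D] (f : A → ℝ) (g : B → ℝ)
    (h : D → ℝ) : ∑ i, ∑ j, ∑ k, f i * g j * h k = (∑ i, f i) * (∑ j, g j) * (∑ k, h k) := by
  simp only [← Finset.mul_sum, ← Finset.sum_mul]

theorem gf_two {B D : Type} [Fintype B] [Fintype D] (w : ℝ) (g : B → ℝ)
    (h : D → ℝ) : ∑ j, ∑ k, w * g j * h k = w * (∑ j, g j) * (∑ k, h k) := by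
  simp only [← Finset.mul_sum, ← Finset.sum_mul]

end Sums

variable (blk : J → Fin 3) (P : C → I → J → Prop) (st : C → Prop)
  (x : I ⊕ Fin 4 → ℝ) (y : J ⊕ Fin 1 → ℝ) (z : Fin 3 ⊕ C → ℝ)

/-- indicator of a winning pure profile -/
def iv (b : Bool) : ℝ := if b = true then 1 else 0

/-- expected payoffs, by parts -/
theorem gf_split (u : I ⊕ Fin 4 → J ⊕ Fin 1 → Fin 3 ⊕ C → Bool) : EU u x y z =
    ((∑ i, ∑ j, ∑ b, x (.inl i) * y (.inl j) * z (.inl b) * iv (u (.inl i) (.inl j) (.inl b))) +
      (∑ i, ∑ j, ∑ c, x (.inl i) * y (.inl j) * z (.inr c) * iv (u (.inl i) (.inl j) (.inr c)))) +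
    ((∑ i, ∑ b, x (.inl i) * y (.inr 0) * z (.inl b) * iv (u (.inl i) (.inr 0) (.inl b))) +
      (∑ i, ∑ c, x (.inl i) * y (.inr 0) * z (.inr c) * iv (u (.inl i) (.inr 0) (.inr c)))) +
    ∑ k : Fin 4, (((∑ j, ∑ b, x (.inr k) * y (.inl j) * z (.inl b) *
        iv (u (.inr k) (.inl j) (.inl b))) +
      (∑ j, ∑ c, x (.inr k) * y (.inl j) * z (.inr c) * iv (u (.inr k) (.inl j) (.inr c)))) +
      ((∑ b, x (.inr k) * y (.inr 0) * z (.inl b) * iv (u (.inr k) (.inr 0) (.inl b))) +
      (∑ c, x (.inr k) * y (.inr 0) * z (.inr c) * iv (u (.inr k) (.inr 0) (.inr c))))) := by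
  unfold EU iv
  simp only [Fintype.sum_sum_type, Finset.sum_add_distrib, Fin.sum_univ_one]
  ring

theorem gf_zero3 {A B D : Type} [Fintype A] [Fintype B] [Fintype D] (f : A → B → D → ℝ)
    (h : ∀ i j k, f i j k = 0) : ∑ i, ∑ j, ∑ k, f i j k = 0 := by simp [h]

theorem gf_zero2 {A B : Type} [Fintype A] [Fintype B] (f : A → B → ℝ)
    (h : ∀ i j, f i j = 0) : ∑ i, ∑ j, f i j = 0 := by simp [h]

open Classical in
/-- the sum over the normal cells with the base strategies -/
theorem gf_nb {a b : ℝ} (v : I → J → Fin 3 → ℝ)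
    (h : ∀ i j c, v i j c = a + b * (if blk j = c + 0 then 1 else 0)) :
    ∑ i, ∑ j, ∑ c, x (.inl i) * y (.inl j) * z (.inl c) * v i j c =
      nrm x * (a * nrm y * nrm z + b * hit blk y z 0) := by
  have e : ∀ i, ∑ j, ∑ c, x (.inl i) * y (.inl j) * z (.inl c) * v i j c =
      x (.inl i) * (a * nrm y * nrm z + b * hit blk y z 0) := by
    intro i
    have := gf_hit blk y z 0 (x (.inl i) * b)
    have h2 := gf_two (x (.inl i) * a) (fun j => y (.inl j)) (fun c => z (.inl c))
    calc _ = ∑ j, ∑ c, (x (.inl i) * a * y (.inl j) * z (.inl c) +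
          x (.inl i) * b * y (.inl j) * z (.inl c) * (if blk j = c + 0 then 1 else 0)) := by
          refine Finset.sum_congr rfl fun j _ => Finset.sum_congr rfl fun c _ => ?_
          rw [h]; ring
      _ = _ := by
          simp only [Finset.sum_add_distrib]
          rw [this, h2]
          unfold nrm
          ring
  rw [Finset.sum_congr rfl fun i _ => e i, ← Finset.sum_mul]
  rfl

open Classical in
/-- the sum over a special row with the base strategies -/
theorem gf_sb {a b w : ℝ} (d : Fin 3) (v : J → Fin 3 → ℝ)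
    (h : ∀ j c, v j c = a + b * (if blk j = c + d then 1 else 0)) :
    ∑ j, ∑ c, w * y (.inl j) * z (.inl c) * v j c =
      w * (a * nrm y * nrm z + b * hit blk y z d) := by
  have := gf_hit blk y z d (w * b)
  have h2 := gf_two (w * a) (fun j => y (.inl j)) (fun c => z (.inl c))
  calc _ = ∑ j, ∑ c, (w * a * y (.inl j) * z (.inl c) +
        w * b * y (.inl j) * z (.inl c) * (if blk j = c + d then 1 else 0)) := by
        refine Finset.sum_congr rfl fun j _ => Finset.sum_congr rfl fun c _ => ?_
        rw [h]; ring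
    _ = _ := by
        simp only [Finset.sum_add_distrib]
        rw [this, h2]
        unfold nrm
        ring

open Classical in
/-- the sum over the normal cells with the constraints -/
theorem gf_nc {a b : ℝ} (v : I → J → C → ℝ)
    (h : ∀ i j c, v i j c = a + b * (if P c i j then 1 else 0)) :
    ∑ i, ∑ j, ∑ c, x (.inl i) * y (.inl j) * z (.inr c) * v i j c =
      a * nrm x * nrm y * zC z + b * pC P x y z := by
  have h1 := gf_P P x y z
  have h2 := gf_three (fun i => x (.inl i)) (fun j => y (.inl j)) (fun c => z (.inr c))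
  calc _ = ∑ i, ∑ j, ∑ c, (a * (x (.inl i) * y (.inl j) * z (.inr c)) +
        b * (x (.inl i) * y (.inl j) * z (.inr c) * (if P c i j then 1 else 0))) := by
        refine Finset.sum_congr rfl fun i _ => Finset.sum_congr rfl fun j _ =>
          Finset.sum_congr rfl fun c _ => ?_
        rw [h]; ring
    _ = a * ∑ i, ∑ j, ∑ c, x (.inl i) * y (.inl j) * z (.inr c) +
        b * ∑ i, ∑ j, ∑ c, x (.inl i) * y (.inl j) * z (.inr c) * (if P c i j then 1 else 0) := by
        simp only [Finset.sum_add_distrib, Finset.mul_sum]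
    _ = _ := by
        rw [h1, h2]
        unfold nrm zC
        ring

open Classical in
/-- the sum over a special row with the constraints -/
theorem gf_sc {a b w : ℝ} (v : J → C → ℝ) (h : ∀ j c, v j c = a + b * (if st c then 1 else 0)) :
    ∑ j, ∑ c, w * y (.inl j) * z (.inr c) * v j c =
      w * nrm y * (a * zC z + b * kap st z) := by
  have h2 := gf_two (w * a) (fun j => y (.inl j)) (fun c => z (.inr c))
  have h3 := gf_two (w * b) (fun j => y (.inl j)) (fun c => if st c then z (.inr c) else 0)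
  calc _ = ∑ j, ∑ c, (w * a * y (.inl j) * z (.inr c) +
        w * b * y (.inl j) * (if st c then z (.inr c) else 0)) := by
        refine Finset.sum_congr rfl fun j _ => Finset.sum_congr rfl fun c _ => ?_
        rw [h]; split_ifs <;> ring
    _ = _ := by
        simp only [Finset.sum_add_distrib]
        rw [h2, h3]
        unfold nrm zC kap
        ring

/-- the sum over the column `α`, base strategies -/
theorem gf_ab {a b w : ℝ} (v : Fin 3 → ℝ) (h : ∀ c, v c = a + b * (if c = 0 then 1 else 0)) :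
    ∑ c, w * y (.inr 0) * z (.inl c) * v c = w * y (.inr 0) * (a * nrm z + b * z (.inl 0)) := by
  unfold nrm
  simp only [Fin.sum_univ_three, h]
  simp
  ring

/-- the sum over the column `α`, constraints -/
theorem gf_ac {a w : ℝ} (v : C → ℝ) (h : ∀ c, v c = a) :
    ∑ c, w * y (.inr 0) * z (.inr c) * v c = w * y (.inr 0) * (a * zC z) := by
  unfold zC
  rw [Finset.mul_sum, Finset.mul_sum]
  exact Finset.sum_congr rfl fun c _ => by rw [h]; ring

open Classical in
theorem EU0_eq : EU (gpay blk P st 0) x y z =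
    nrm x * hit blk y z 0 + (nrm x * nrm y * zC z - pC P x y z) + x (.inr 0) * hit blk y z 0 +
    x (.inr 2) * (hit blk y z 1 + zC z * nrm y) + x (.inr 3) * (hit blk y z 2 + zC z * nrm y) +
    x (.inr 1) * y (.inr 0) * z (.inl 0) + x (.inr 2) * y (.inr 0) * (nrm z + zC z) := by
  rw [gf_split, Fin.sum_univ_four]
  rw [gf_nb blk x y z (a := 0) (b := 1) _ (fun i j c => by
      simp only [gpay, out, add_zero, iv]; split_ifs <;> simp_all),
    gf_nc P x y z (a := 1) (b := -1) _ (fun i j c => by
      simp only [gpay, out, iv]; split_ifs <;> simp_all),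
    gf_zero2 _ (fun i b => by simp [gpay, out, iv]), gf_zero2 _ (fun i b => by simp [gpay, out, iv])]
  rw [gf_sb blk y z (a := 0) (b := 1) 0 _ (fun j c => by
      simp only [gpay, out, add_zero, iv]; split_ifs <;> simp_all),
    gf_sc st y z (a := 0) (b := 0) _ (fun j c => by
      simp only [gpay, out, iv]; split_ifs <;> simp_all),
    gf_ab y z (a := 0) (b := 0) _ (fun c => by simp [gpay, out, iv]),
    gf_ac y z (a := 0) _ (fun c => by simp [gpay, out, iv])]
  rw [gf_sb blk y z (a := 0) (b := 0) 0 _ (fun j c => by simp [gpay, out, iv]),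
    gf_sc st y z (a := 0) (b := 0) _ (fun j c => by simp [gpay, out, iv]),
    gf_ab y z (a := 0) (b := 1) _ (fun c => by
      simp only [gpay, out, iv]; split_ifs <;> simp_all),
    gf_ac y z (a := 0) _ (fun c => by simp [gpay, out, iv])]
  rw [gf_sb blk y z (a := 0) (b := 1) 1 _ (fun j c => by
      simp only [gpay, out, iv]; split_ifs <;> simp_all),
    gf_sc st y z (a := 1) (b := 0) _ (fun j c => by simp [gpay, out, iv]),
    gf_ab y z (a := 1) (b := 0) _ (fun c => by simp [gpay, out, iv]),
    gf_ac y z (a := 1) _ (fun c => by simp [gpay, out, iv])]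
  rw [gf_sb blk y z (a := 0) (b := 1) 2 _ (fun j c => by
      simp only [gpay, out, iv]; split_ifs <;> simp_all),
    gf_sc st y z (a := 1) (b := 0) _ (fun j c => by simp [gpay, out, iv]),
    gf_ab y z (a := 0) (b := 0) _ (fun c => by simp [gpay, out, iv]),
    gf_ac y z (a := 0) _ (fun c => by simp [gpay, out, iv])]
  ring

open Classical in
theorem EU1_eq : EU (gpay blk P st 1) x y z =
    nrm x * (nrm y * nrm z - hit blk y z 0) + pC P x y z +
    x (.inr 0) * (nrm y * (nrm z + zC z - kap st z)) + x (.inr 1) * nrm y * (nrm z + zC z) +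
    x (.inr 1) * y (.inr 0) * (nrm z + zC z - z (.inl 0)) := by
  rw [gf_split, Fin.sum_univ_four]
  rw [gf_nb blk x y z (a := 1) (b := -1) _ (fun i j c => by
      simp only [gpay, out, add_zero, iv]; split_ifs <;> simp_all),
    gf_nc P x y z (a := 0) (b := 1) _ (fun i j c => by
      simp only [gpay, out, iv]; split_ifs <;> simp_all),
    gf_zero2 _ (fun i b => by simp [gpay, out, iv]), gf_zero2 _ (fun i b => by simp [gpay, out, iv])]
  rw [gf_sb blk y z (a := 1) (b := 0) 0 _ (fun j c => by
      simp only [gpay, out, add_zero, iv]; split_ifs <;> simp_all),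
    gf_sc st y z (a := 1) (b := -1) _ (fun j c => by
      simp only [gpay, out, iv]; split_ifs <;> simp_all),
    gf_ab y z (a := 0) (b := 0) _ (fun c => by simp [gpay, out, iv]),
    gf_ac y z (a := 0) _ (fun c => by simp [gpay, out, iv])]
  rw [gf_sb blk y z (a := 1) (b := 0) 0 _ (fun j c => by simp [gpay, out, iv]),
    gf_sc st y z (a := 1) (b := 0) _ (fun j c => by simp [gpay, out, iv]),
    gf_ab y z (a := 1) (b := -1) _ (fun c => by
      simp only [gpay, out, iv]; split_ifs <;> simp_all),
    gf_ac y z (a := 1) _ (fun c => by simp [gpay, out, iv])]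
  rw [gf_sb blk y z (a := 0) (b := 0) 1 _ (fun j c => by
      simp only [gpay, out, iv]; split_ifs <;> simp_all),
    gf_sc st y z (a := 0) (b := 0) _ (fun j c => by simp [gpay, out, iv]),
    gf_ab y z (a := 0) (b := 0) _ (fun c => by simp [gpay, out, iv]),
    gf_ac y z (a := 0) _ (fun c => by simp [gpay, out, iv])]
  rw [gf_sb blk y z (a := 0) (b := 0) 2 _ (fun j c => by
      simp only [gpay, out, iv]; split_ifs <;> simp_all),
    gf_sc st y z (a := 0) (b := 0) _ (fun j c => by simp [gpay, out, iv]),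
    gf_ab y z (a := 0) (b := 0) _ (fun c => by simp [gpay, out, iv]),
    gf_ac y z (a := 0) _ (fun c => by simp [gpay, out, iv])]
  ring

open Classical in
theorem EU2_eq : EU (gpay blk P st 2) x y z =
    nrm x * (nrm y * nrm z - hit blk y z 0) + pC P x y z + x (.inr 0) * kap st z * nrm y +
    x (.inr 1) * y (.inr 0) * (nrm z + zC z) := by
  rw [gf_split, Fin.sum_univ_four]
  rw [gf_nb blk x y z (a := 1) (b := -1) _ (fun i j c => by
      simp only [gpay, out, add_zero, iv]; split_ifs <;> simp_all),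
    gf_nc P x y z (a := 0) (b := 1) _ (fun i j c => by
      simp only [gpay, out, iv]; split_ifs <;> simp_all),
    gf_zero2 _ (fun i b => by simp [gpay, out, iv]), gf_zero2 _ (fun i b => by simp [gpay, out, iv])]
  rw [gf_sb blk y z (a := 0) (b := 0) 0 _ (fun j c => by
      simp only [gpay, out, add_zero, iv]; split_ifs <;> simp_all),
    gf_sc st y z (a := 0) (b := 1) _ (fun j c => by
      simp only [gpay, out, iv]; split_ifs <;> simp_all),
    gf_ab y z (a := 0) (b := 0) _ (fun c => by simp [gpay, out, iv]),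
    gf_ac y z (a := 0) _ (fun c => by simp [gpay, out, iv])]
  rw [gf_sb blk y z (a := 0) (b := 0) 0 _ (fun j c => by simp [gpay, out, iv]),
    gf_sc st y z (a := 0) (b := 0) _ (fun j c => by simp [gpay, out, iv]),
    gf_ab y z (a := 1) (b := 0) _ (fun c => by
      simp only [gpay, out, iv]; split_ifs <;> simp_all),
    gf_ac y z (a := 1) _ (fun c => by simp [gpay, out, iv])]
  rw [gf_sb blk y z (a := 0) (b := 0) 1 _ (fun j c => by
      simp only [gpay, out, iv]; split_ifs <;> simp_all),
    gf_sc st y z (a := 0) (b := 0) _ (fun j c => by simp [gpay, out, iv]),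
    gf_ab y z (a := 0) (b := 0) _ (fun c => by simp [gpay, out, iv]),
    gf_ac y z (a := 0) _ (fun c => by simp [gpay, out, iv])]
  rw [gf_sb blk y z (a := 0) (b := 0) 2 _ (fun j c => by
      simp only [gpay, out, iv]; split_ifs <;> simp_all),
    gf_sc st y z (a := 0) (b := 0) _ (fun j c => by simp [gpay, out, iv]),
    gf_ab y z (a := 0) (b := 0) _ (fun c => by simp [gpay, out, iv]),
    gf_ac y z (a := 0) _ (fun c => by simp [gpay, out, iv])]
  ring

end Pool.Agent.ERG
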