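import Mathlib

/-! # Real inequalities for the win-lose game (helper44) -/

namespace Pool.Agent.PW44

/-- The estimate behind Pareto optimality. `n, ρ, s, e1, e2` are the weights of the rows,
`w` the weight of the column `al`, `ζ` the weight of the constraints, `κ` of the strict ones,
`N, M` the masses of the two kinds of normal cells, `f = ∑ z_b y_b`, `G1 = ∑ z_b y_{b+1}`,
`G2 = ∑ z_b y_{b+2}`. -/
theorem po_core {n ρ s e1 e2 w ζ κ N M t f G1 G2 z0 : ℝ}
    (hn : 0 ≤ n) (hρ : 0 ≤ ρ) (hs : 0 ≤ s) (he1 : 0 ≤ e1) (he2 : 0 ≤ e2)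
    (h1 : n + ρ + s + e1 + e2 = 1) (hw : 0 ≤ w) (hw1 : w ≤ 1)
    (hζ : 0 ≤ ζ) (hκ : 0 ≤ κ) (hN : 0 ≤ N) (hM : 0 ≤ M) (hf : 0 ≤ f) (hG1 : 0 ≤ G1)
    (hG2 : 0 ≤ G2) (hz0 : 0 ≤ z0) (hz01 : z0 ≤ 1)
    (hfG : f + G1 + G2 = (1 - ζ) * (1 - w)) (hNM : N + M + n * f = n * (1 - w))
    (ht : 0 < t) (ht1 : t < 1)
    (U1 : 1 / 3 ≤ n * f + M + ρ * f + e1 * (G1 + ζ * (1 - w) + w) + e2 * (G2 + ζ * (1 - w))
      + s * (w * z0))
    (U2 : 2 / 3 + t / 3 ≤ N + ρ * ((1 - w) * (1 - κ)) + s * ((1 - w) + w * (1 - z0)))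
    (U3 : 2 / 3 - 2 * t / 3 ≤ N + ρ * (κ * (1 - w)) + s * w) :
    n * f + M + ρ * f + e1 * (G1 + ζ * (1 - w) + w) + e2 * (G2 + ζ * (1 - w))
      + s * (w * z0) = 1 / 3 ∧
    N + ρ * ((1 - w) * (1 - κ)) + s * ((1 - w) + w * (1 - z0)) = 2 / 3 + t / 3 ∧
    N + ρ * (κ * (1 - w)) + s * w = 2 / 3 - 2 * t / 3 := by
  obtain ⟨c1, hc1⟩ : ∃ c1, c1 = G1 + ζ * (1 - w) := ⟨_, rfl⟩
  obtain ⟨c2, hc2⟩ : ∃ c2, c2 = G2 + ζ * (1 - w) := ⟨_, rfl⟩
  rw [← hc1, ← hc2] at U1 ⊢
  have b1 : c1 + w ≤ 1 - f := by linarith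
  have b2 : c2 ≤ 1 - w - f := by linarith
  have p1 : e1 * (c1 + w) ≤ e1 * (1 - f) := mul_le_mul_of_nonneg_left b1 he1
  have p2 : e2 * c2 ≤ e2 * (1 - w - f) := mul_le_mul_of_nonneg_left b2 he2
  have he1f : 0 ≤ e1 * f := mul_nonneg he1 hf
  have he2f : 0 ≤ e2 * f := mul_nonneg he2 hf
  have he2w : 0 ≤ e2 * w := mul_nonneg he2 hw
  have hρκ : 0 ≤ ρ * (κ * (1 - w)) := mul_nonneg hρ (mul_nonneg hκ (by linarith))
  have hnw : 0 ≤ n * w := mul_nonneg hn hw
  have hρw : 0 ≤ ρ * w := mul_nonneg hρ hw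
  -- step (i)
  have i1 : t / 3 + w * (n + ρ) ≤ ρ * f := by linarith
  have hρf : 0 < ρ * f := by linarith
  have hρ0 : 0 < ρ := lt_of_le_of_ne hρ (fun h => by rw [← h, zero_mul] at hρf; exact lt_irrefl _ hρf)
  have hfw : w < f := by
    by_contra hcon
    push Not at hcon
    have : ρ * f ≤ ρ * w := mul_le_mul_of_nonneg_left hcon hρ
    linarith
  have hf0 : 0 < f := lt_of_le_of_lt hw hfw
  have hfle : f ≤ 1 - w := by
    have : 0 ≤ ζ * (1 - w) := mul_nonneg hζ (by linarith)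
    linarith
  have hw2 : w < 1 / 2 := by linarith
  by_cases hcase : 3 * f ≤ 1 + 2 * w
  · -- case (ii)
    have hwz : w * z0 ≤ w := mul_le_of_le_one_right hw hz01
    have hs1 : 0 ≤ s * (1 - w - w * z0) := mul_nonneg hs (by linarith)
    have hρ1 : 0 ≤ ρ * (1 + 2 * w - 3 * f) := mul_nonneg hρ (by linarith)
    have key : 3 * (n * w) + ρ * (1 + 2 * w - 3 * f) + ρ * (κ * (1 - w)) + s * (1 - w - w * z0)
        + 3 * (e1 * f) + 3 * (e2 * (w + f)) ≤ 0 := by linarith
    have he2wf : 0 ≤ e2 * (w + f) := mul_nonneg he2 (by linarith)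
    have k1 : n * w = 0 := by linarith
    have k2 : ρ * (1 + 2 * w - 3 * f) = 0 := by linarith
    have k3 : ρ * (κ * (1 - w)) = 0 := by linarith
    have k4 : s * (1 - w - w * z0) = 0 := by linarith
    have k5 : e1 * f = 0 := by linarith
    have k6 : e2 * (w + f) = 0 := by linarith
    have s0 : s = 0 := by
      rcases mul_eq_zero.1 k4 with h | h
      · exact h
      · linarith
    have e10 : e1 = 0 := by
      rcases mul_eq_zero.1 k5 with h | h
      · exact h
      · linarith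
    have e20 : e2 = 0 := by
      rcases mul_eq_zero.1 k6 with h | h
      · exact h
      · linarith
    have f0 : 1 + 2 * w - 3 * f = 0 := by
      rcases mul_eq_zero.1 k2 with h | h
      · linarith
      · exact h
    have κ0 : κ = 0 := by
      rcases mul_eq_zero.1 k3 with h | h
      · linarith
      · rcases mul_eq_zero.1 h with h | h
        · exact h
        · linarith
    subst s0 e10 e20 κ0
    have w0 : w = 0 := by
      rcases mul_eq_zero.1 k1 with h | h
      · exfalso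
        subst h
        have hN0 : N = 0 := by linarith
        subst hN0
        have hρ1' : ρ = 1 := by linarith
        subst hρ1'
        linarith
      · exact h
    subst w0
    have hf3 : f = 1 / 3 := by linarith
    subst hf3
    have hM0 : M = 0 := by linarith
    subst hM0
    have hρt : ρ = t := by linarith
    subst hρt
    refine ⟨?_, ?_, ?_⟩ <;> linarith
  · -- case (iii)
    push Not at hcase
    exfalso
    have hD : 2 * w < 3 * f - 1 := by linarith
    obtain ⟨D, hDd⟩ : ∃ D, D = 3 * f - 1 := ⟨_, rfl⟩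
    rw [← hDd] at hD
    have hD0 : 0 < D := by linarith
    have hDle : D ≤ 2 - 3 * w := by linarith
    have tot : 0 ≤ D * (3 * N + ρ * ((1 - w) * (2 - κ)) + s * (2 + w - 2 * (w * z0)) - 2)
        + 6 * w * (n * f + M + ρ * f + e1 * (c1 + w) + e2 * c2 + s * (w * z0) - 1 / 3) := by
      apply add_nonneg
      · apply mul_nonneg hD0.le
        linarith
      · apply mul_nonneg (by linarith)
        linarith
    have rn : D * (3 * N) + 6 * w * (n * f + M) - n * (2 * D + 2 * w) ≤ n * (D * (1 - w - 3 * f)) := by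
      have hNle : N ≤ n * (1 - w - f) := by linarith
      have : N * (D - 2 * w) ≤ n * (1 - w - f) * (D - 2 * w) :=
        mul_le_mul_of_nonneg_right hNle (by linarith)
      have hM' : M = n * (1 - w) - N - n * f := by linarith
      rw [hM']
      subst hDd
      linarith
    have rρ : D * (ρ * ((1 - w) * (2 - κ))) + 6 * w * (ρ * f) - ρ * (2 * D + 2 * w)
        = - D * (ρ * (κ * (1 - w))) := by
      subst hDd; ring
    have rs : D * (s * (2 + w - 2 * (w * z0))) + 6 * w * (s * (w * z0)) - s * (2 * D + 2 * w)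
        = s * w * (D * (1 - 2 * z0) + 6 * w * z0 - 2) := by ring
    have rs' : D * (1 - 2 * z0) + 6 * w * z0 - 2 ≤ -(3 * w) * (1 - z0) - (2 - 4 * w) * z0 := by
      have g1 : 0 ≤ (2 - 3 * w - D) * (1 - z0) := mul_nonneg (by linarith) (by linarith)
      have g2 : 0 ≤ (D - 2 * w) * z0 := mul_nonneg (by linarith) hz0
      linarith
    have re1 : 6 * w * (e1 * (c1 + w)) - e1 * (2 * D + 2 * w) ≤ e1 * (2 * w - 2 * D - 2 * (w * D)) := by
      have : w * (e1 * (c1 + w)) ≤ w * (e1 * (1 - f)) := mul_le_mul_of_nonneg_left p1 hw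
      subst hDd
      linarith
    have re2 : 6 * w * (e2 * c2) - e2 * (2 * D + 2 * w) ≤ e2 * (2 * w - 2 * D - 2 * (w * D)) := by
      have : w * (e2 * c2) ≤ w * (e2 * (1 - w - f)) := mul_le_mul_of_nonneg_left p2 hw
      have h2 : 0 ≤ w * (e2 * w) := mul_nonneg hw he2w
      subst hDd
      linarith
    have hwD : 0 ≤ w * D := mul_nonneg hw hD0.le
    have tot2 : 0 ≤ n * (D * (1 - w - 3 * f)) - D * (ρ * (κ * (1 - w)))
        + s * w * (-(3 * w) * (1 - z0) - (2 - 4 * w) * z0)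
        + e1 * (2 * w - 2 * D - 2 * (w * D)) + e2 * (2 * w - 2 * D - 2 * (w * D)) := by
      have h5 : s * w * (D * (1 - 2 * z0) + 6 * w * z0 - 2) ≤
          s * w * (-(3 * w) * (1 - z0) - (2 - 4 * w) * z0) :=
        mul_le_mul_of_nonneg_left rs' (mul_nonneg hs hw)
      have h6 : (2 * D + 2 * w) * (n + ρ + s + e1 + e2) = 2 * D + 2 * w := by rw [h1, mul_one]
      linarith
    have q1 : n * (D * (1 - w - 3 * f)) ≤ 0 := by
      apply mul_nonpos_of_nonneg_of_nonpos hn
      apply mul_nonpos_of_nonneg_of_nonpos hD0.le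
      linarith
    have q2 : 0 ≤ D * (ρ * (κ * (1 - w))) := mul_nonneg hD0.le hρκ
    have q3 : s * w * (-(3 * w) * (1 - z0) - (2 - 4 * w) * z0) ≤ 0 := by
      apply mul_nonpos_of_nonneg_of_nonpos (mul_nonneg hs hw)
      have : 0 ≤ w * (1 - z0) := mul_nonneg hw (by linarith)
      have : 0 ≤ (2 - 4 * w) * z0 := mul_nonneg (by linarith) hz0
      linarith
    have q4 : e1 * (2 * w - 2 * D - 2 * (w * D)) ≤ 0 :=
      mul_nonpos_of_nonneg_of_nonpos he1 (by linarith)
    have q5 : e2 * (2 * w - 2 * D - 2 * (w * D)) ≤ 0 :=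
      mul_nonpos_of_nonneg_of_nonpos he2 (by linarith)
    have z1 : n * (D * (1 - w - 3 * f)) = 0 := by linarith
    have z2 : D * (ρ * (κ * (1 - w))) = 0 := by linarith
    have z3 : s * w * (-(3 * w) * (1 - z0) - (2 - 4 * w) * z0) = 0 := by linarith
    have hn0 : n = 0 := by
      rcases mul_eq_zero.1 z1 with h | h
      · exact h
      · rcases mul_eq_zero.1 h with h | h
        · linarith
        · linarith
    have hN0 : N = 0 := by
      subst hn0
      linarith
    have hκ0 : ρ * (κ * (1 - w)) = 0 := (mul_eq_zero.1 z2).resolve_left hD0.ne'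
    have hsw : s * w = 0 := by
      rcases mul_eq_zero.1 z3 with h | h
      · exact h
      · have : 0 ≤ w * (1 - z0) := mul_nonneg hw (by linarith)
        have : 0 ≤ (2 - 4 * w) * z0 := mul_nonneg (by linarith) hz0
        have h7 : (2 - 4 * w) * z0 = 0 := by linarith
        have h8 : z0 = 0 := (mul_eq_zero.1 h7).resolve_left (by linarith)
        rw [h8] at h
        have : w = 0 := by linarith
        rw [this, mul_zero]
    rw [hN0, hκ0, hsw] at U3
    linarith

end Pool.Agent.PW44
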