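import Mathlib
import Pool.Agent.ERG.GForm
import Pool.Agent.ERG.PoCore

/-!
# The target payoffs are Pareto optimal
-/

namespace Pool.Agent.ERG

open Finset

variable {I J C : Type} [Fintype I] [Fintype J] [Fintype C]

theorem gp_sum_yb (blk : J → Fin 3) (y : J ⊕ Fin 1 → ℝ) : ∑ b, yb blk y b = nrm y := by
  classical
  unfold yb bmass nrm
  rw [Finset.sum_comm]
  refine Finset.sum_congr rfl fun j _ => ?_
  rw [Finset.sum_ite_eq]
  simp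

theorem gp_yb_nonneg (blk : J → Fin 3) {y : J ⊕ Fin 1 → ℝ} (hy : ∀ j, 0 ≤ y j) (b : Fin 3) :
    0 ≤ yb blk y b := by
  unfold yb bmass
  exact Finset.sum_nonneg fun j _ => by split_ifs; exacts [hy _, le_rfl]

theorem gp_hit_nonneg (blk : J → Fin 3) {y : J ⊕ Fin 1 → ℝ} {z : Fin 3 ⊕ C → ℝ}
    (hy : ∀ j, 0 ≤ y j) (hz : ∀ j, 0 ≤ z j) (d : Fin 3) : 0 ≤ hit blk y z d := by
  unfold hit
  exact Finset.sum_nonneg fun b _ => mul_nonneg (hz _) (gp_yb_nonneg blk hy _)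

theorem gp_hits (blk : J → Fin 3) (y : J ⊕ Fin 1 → ℝ) (z : Fin 3 ⊕ C → ℝ) :
    hit blk y z 0 + hit blk y z 1 + hit blk y z 2 = nrm z * nrm y := by
  rw [← gp_sum_yb blk y]
  unfold hit nrm
  simp only [Fin.sum_univ_three]
  have e1 : (0 : Fin 3) + 0 = 0 := rfl
  have e2 : (1 : Fin 3) + 0 = 1 := rfl
  have e3 : (2 : Fin 3) + 0 = 2 := rfl
  have e4 : (0 : Fin 3) + 1 = 1 := rfl
  have e5 : (1 : Fin 3) + 1 = 2 := rfl
  have e6 : (2 : Fin 3) + 1 = 0 := rfl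
  have e7 : (0 : Fin 3) + 2 = 2 := rfl
  have e8 : (1 : Fin 3) + 2 = 0 := rfl
  have e9 : (2 : Fin 3) + 2 = 1 := rfl
  rw [e1, e2, e3, e4, e5, e6, e7, e8, e9]
  ring

theorem gp_mass_nonneg (P : I → J → Prop) {x : I → ℝ} {y : J → ℝ} (hx : ∀ i, 0 ≤ x i)
    (hy : ∀ j, 0 ≤ y j) : 0 ≤ mass P x y := by
  unfold mass
  exact Finset.sum_nonneg fun i _ => Finset.sum_nonneg fun j _ =>
    mul_nonneg (mul_nonneg (hx i) (hy j)) (by split_ifs <;> norm_num)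

theorem gp_mass_le (P : I → J → Prop) {x : I → ℝ} {y : J → ℝ} (hx : ∀ i, 0 ≤ x i)
    (hy : ∀ j, 0 ≤ y j) : mass P x y ≤ (∑ i, x i) * ∑ j, y j := by
  unfold mass
  rw [Finset.sum_mul_sum]
  refine Finset.sum_le_sum fun i _ => Finset.sum_le_sum fun j _ => ?_
  have := mul_nonneg (hx i) (hy j)
  split_ifs
  · rw [mul_one]
  · rw [mul_zero]; exact this

theorem gp_pC_nonneg (P : C → I → J → Prop) {x : I ⊕ Fin 4 → ℝ} {y : J ⊕ Fin 1 → ℝ}
    {z : Fin 3 ⊕ C → ℝ} (hx : ∀ i, 0 ≤ x i) (hy : ∀ j, 0 ≤ y j) (hz : ∀ j, 0 ≤ z j) :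
    0 ≤ pC P x y z := by
  unfold pC
  exact Finset.sum_nonneg fun c _ => mul_nonneg (hz _)
    (gp_mass_nonneg _ (fun i => hx _) (fun j => hy _))

theorem gp_pC_le (P : C → I → J → Prop) {x : I ⊕ Fin 4 → ℝ} {y : J ⊕ Fin 1 → ℝ}
    {z : Fin 3 ⊕ C → ℝ} (hx : ∀ i, 0 ≤ x i) (hy : ∀ j, 0 ≤ y j) (hz : ∀ j, 0 ≤ z j) :
    pC P x y z ≤ nrm x * nrm y * zC z := by
  unfold pC zC
  rw [mul_comm, Finset.sum_mul]
  refine Finset.sum_le_sum fun c _ => mul_le_mul_of_nonneg_left ?_ (hz _)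
  exact gp_mass_le _ (fun i => hx _) (fun j => hy _)

/-- No profile is better than the target payoffs `(1/3, 2/3 + t/3, 2/3 - 2t/3)`. -/
theorem no_better (blk : J → Fin 3) (P : C → I → J → Prop) (st : C → Prop) {t : ℝ} (h0 : 0 < t)
    (h1 : t < 1) {x : I ⊕ Fin 4 → ℝ} {y : J ⊕ Fin 1 → ℝ} {z : Fin 3 ⊕ C → ℝ}
    (hx : x ∈ stdSimplex ℝ (I ⊕ Fin 4)) (hy : y ∈ stdSimplex ℝ (J ⊕ Fin 1))
    (hz : z ∈ stdSimplex ℝ (Fin 3 ⊕ C)) (hU0 : 1 / 3 ≤ EU (gpay blk P st 0) x y z)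
    (hU1 : 2 / 3 + t / 3 ≤ EU (gpay blk P st 1) x y z)
    (hU2 : 2 / 3 - 2 * t / 3 ≤ EU (gpay blk P st 2) x y z) :
    EU (gpay blk P st 0) x y z = 1 / 3 ∧ EU (gpay blk P st 1) x y z = 2 / 3 + t / 3 ∧
      EU (gpay blk P st 2) x y z = 2 / 3 - 2 * t / 3 := by
  classical
  obtain ⟨hx0, hx1⟩ := hx
  obtain ⟨hy0, hy1⟩ := hy
  obtain ⟨hz0, hz1⟩ := hz
  have sx : nrm x + x (.inr 0) + x (.inr 1) + x (.inr 2) + x (.inr 3) = 1 := by
    rw [Fintype.sum_sum_type, Fin.sum_univ_four] at hx1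
    unfold nrm; linarith
  have sy : nrm y + y (.inr 0) = 1 := by
    rw [Fintype.sum_sum_type, Fin.sum_univ_one] at hy1
    unfold nrm; linarith
  have sz : nrm z + zC z = 1 := by
    rw [Fintype.sum_sum_type] at hz1
    unfold nrm zC; linarith
  have nx : 0 ≤ nrm x := Finset.sum_nonneg fun i _ => hx0 _
  have ny : 0 ≤ nrm y := Finset.sum_nonneg fun i _ => hy0 _
  have nz : 0 ≤ nrm z := Finset.sum_nonneg fun i _ => hz0 _
  have nc : 0 ≤ zC z := Finset.sum_nonneg fun i _ => hz0 _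
  have nk : 0 ≤ kap st z := Finset.sum_nonneg fun i _ => by split_ifs; exacts [hz0 _, le_rfl]
  have g0 := gp_hit_nonneg blk hy0 hz0 0
  have g1 := gp_hit_nonneg blk hy0 hz0 1
  have g2 := gp_hit_nonneg blk hy0 hz0 2
  have gs := gp_hits blk y z
  have p0 := gp_pC_nonneg P hx0 hy0 hz0
  have p1 := gp_pC_le P hx0 hy0 hz0
  have z01 : z (.inl 0) ≤ 1 := by
    have : z (.inl 0) ≤ ∑ k, z k := Finset.single_le_sum (fun k _ => hz0 k) (Finset.mem_univ _)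
    linarith
  rw [EU0_eq, EU1_eq, EU2_eq] at *
  have ey : nrm y = 1 - y (.inr 0) := by linarith
  have ez : nrm z = 1 - zC z := by linarith
  have key := PW44.po_core (n := nrm x) (ρ := x (.inr 0)) (s := x (.inr 1)) (e1 := x (.inr 2))
    (e2 := x (.inr 3)) (w := y (.inr 0)) (ζ := zC z) (κ := kap st z)
    (N := nrm x * (nrm y * nrm z - hit blk y z 0) + pC P x y z)
    (M := nrm x * nrm y * zC z - pC P x y z) (t := t) (f := hit blk y z 0) (G1 := hit blk y z 1)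
    (G2 := hit blk y z 2) (z0 := z (.inl 0)) nx (hx0 _) (hx0 _) (hx0 _) (hx0 _) sx (hy0 _)
    (by linarith) nc nk ?_ (by linarith) g0 g1 g2 (hz0 _) z01 ?_ ?_ h0 h1 ?_ ?_ ?_
  · obtain ⟨k1, k2, k3⟩ := key
    rw [ez, ey] at *
    refine ⟨?_, ?_, ?_⟩
    · rw [← k1]; ring
    · rw [← k2]; ring
    · rw [← k3]; ring
  · have : hit blk y z 0 ≤ nrm y * nrm z := by nlinarith
    have := mul_nonneg nx (sub_nonneg.mpr this)
    linarith
  · rw [← ey, ← ez]; linarith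
  · rw [ez, ey]; ring
  · refine hU0.trans (le_of_eq ?_)
    rw [ez, ey]; ring
  · refine hU1.trans (le_of_eq ?_)
    rw [ez, ey]; ring
  · refine hU2.trans (le_of_eq ?_)
    rw [ez, ey]; ring

end Pool.Agent.ERG
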