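import Mathlib
import Pool.Agent.ERG.GPO

/-!
# Feasible points give Pareto optimal Nash equilibria
-/

namespace Pool.Agent.ERG

set_option linter.unusedSectionVars false

open Finset

variable {I J C : Type} [Fintype I] [Fintype J] [Fintype C]

/-- A common positive gap. -/
private theorem gex_gap (st : C → Prop) (m : C → ℝ) (h : ∀ c, st c → m c < 2 / 3) :
    ∃ g : ℝ, 0 < g ∧ ∀ c, st c → g ≤ 2 / 3 - m c := by
  classical
  by_cases hne : (univ.filter st).Nonempty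
  · obtain ⟨c0, hc0, hmin⟩ := Finset.exists_min_image (univ.filter st) (fun c => 2 / 3 - m c) hne
    refine ⟨2 / 3 - m c0, ?_, fun c hc => hmin c (by simp [hc])⟩
    have := h c0 (by simpa using hc0)
    linarith
  · refine ⟨1, one_pos, fun c hc => ?_⟩
    exact absurd ⟨c, by simp [hc]⟩ hne

/-- The sum of the block masses is the total mass. -/
private theorem gex_bmass (blk : J → Fin 3) (y : J → ℝ) :
    bmass blk y 0 + bmass blk y 1 + bmass blk y 2 = ∑ j, y j := by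
  classical
  unfold bmass
  rw [← Finset.sum_add_distrib, ← Finset.sum_add_distrib]
  refine Finset.sum_congr rfl fun j _ => ?_
  have h3 : blk j = 0 ∨ blk j = 1 ∨ blk j = 2 := by
    generalize blk j = b
    fin_cases b <;> simp
  rcases h3 with h | h | h <;> simp [h]

private theorem gex_mass_smul (P : I → J → Prop) (s : ℝ) (x : I → ℝ) (y : J → ℝ) :
    mass P (fun i => s * x i) y = s * mass P x y := by
  classical
  unfold mass
  rw [Finset.mul_sum]
  refine Finset.sum_congr rfl fun i _ => ?_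
  rw [Finset.mul_sum]
  refine Finset.sum_congr rfl fun j _ => ?_
  ring

/-- Row mixture. -/
private def gX (t : ℝ) (x : I → ℝ) : I ⊕ Fin 4 → ℝ :=
  Sum.elim (fun i => (1 - t) * x i) (fun k => if k = 0 then t else 0)

/-- Column mixture. -/
private def gY (y : J → ℝ) : J ⊕ Fin 1 → ℝ := Sum.elim y (fun _ => 0)

/-- Uniform on the base strategies. -/
private noncomputable def gZ : Fin 3 ⊕ C → ℝ := Sum.elim (fun _ => 1 / 3) (fun _ => 0)

private theorem gX_mem {t : ℝ} (h0 : 0 < t) (h1 : t < 1) {x : I → ℝ} (hx : x ∈ stdSimplex ℝ I) :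
    gX t x ∈ stdSimplex ℝ (I ⊕ Fin 4) := by
  refine ⟨?_, ?_⟩
  · rintro (i | k)
    · exact mul_nonneg (by linarith) (hx.1 i)
    · show 0 ≤ (if k = 0 then t else 0)
      split_ifs
      · exact h0.le
      · exact le_rfl
  · rw [Fintype.sum_sum_type]
    show ∑ i, (1 - t) * x i + ∑ k : Fin 4, (if k = 0 then t else 0) = 1
    rw [← Finset.mul_sum, hx.2]
    simp

private theorem gY_mem {y : J → ℝ} (hy : y ∈ stdSimplex ℝ J) :
    gY y ∈ stdSimplex ℝ (J ⊕ Fin 1) := by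
  refine ⟨?_, ?_⟩
  · rintro (i | k)
    · exact hy.1 i
    · exact le_rfl
  · rw [Fintype.sum_sum_type]
    show ∑ i, y i + ∑ k : Fin 1, (0 : ℝ) = 1
    rw [hy.2]
    simp

private theorem gZ_mem : (gZ : Fin 3 ⊕ C → ℝ) ∈ stdSimplex ℝ (Fin 3 ⊕ C) := by
  refine ⟨?_, ?_⟩
  · rintro (i | k)
    · show (0 : ℝ) ≤ 1 / 3
      norm_num
    · exact le_rfl
  · rw [Fintype.sum_sum_type]
    show ∑ i : Fin 3, (1 / 3 : ℝ) + ∑ k : C, (0 : ℝ) = 1
    simp

section values

variable (blk : J → Fin 3) (P : C → I → J → Prop) (st : C → Prop)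

private theorem nrm_gX (t : ℝ) {x : I → ℝ} (hx : x ∈ stdSimplex ℝ I) : nrm (gX t x) = 1 - t := by
  show ∑ i, (1 - t) * x i = 1 - t
  rw [← Finset.mul_sum, hx.2, mul_one]

private theorem nrm_gY {y : J → ℝ} (hy : y ∈ stdSimplex ℝ J) : nrm (gY y) = 1 := hy.2

private theorem nrm_gZ : nrm (gZ : Fin 3 ⊕ C → ℝ) = 1 := by
  show ∑ i : Fin 3, (1 / 3 : ℝ) = 1
  simp

private theorem zC_gZ : zC (gZ : Fin 3 ⊕ C → ℝ) = 0 := by
  show ∑ c : C, (0 : ℝ) = 0
  simp

private theorem kap_gZ : kap st (gZ : Fin 3 ⊕ C → ℝ) = 0 := by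
  classical
  unfold kap
  refine Finset.sum_eq_zero fun c _ => ?_
  show (if st c then (0 : ℝ) else 0) = 0
  simp

private theorem pC_gZ (x : I ⊕ Fin 4 → ℝ) (y : J ⊕ Fin 1 → ℝ) :
    pC P x y (gZ : Fin 3 ⊕ C → ℝ) = 0 := by
  unfold pC
  refine Finset.sum_eq_zero fun c _ => ?_
  show (0 : ℝ) * _ = 0
  rw [zero_mul]

private theorem hit_gYZ {y : J → ℝ} (hb : ∀ b, bmass blk y b = 1 / 3) (d : Fin 3) :
    hit blk (gY y) (gZ : Fin 3 ⊕ C → ℝ) d = 1 / 3 := by
  unfold hit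
  have : ∀ b : Fin 3, (gZ : Fin 3 ⊕ C → ℝ) (.inl b) * yb blk (gY y) (b + d) = 1 / 9 := by
    intro b
    show (1 / 3 : ℝ) * bmass blk y (b + d) = 1 / 9
    rw [hb]
    norm_num
  rw [Finset.sum_congr rfl fun b _ => this b]
  simp
  norm_num

private theorem hit_gZ (y : J ⊕ Fin 1 → ℝ) :
    hit blk y (gZ : Fin 3 ⊕ C → ℝ) 0 = 1 / 3 * nrm y := by
  unfold hit
  rw [Fin.sum_univ_three]
  simp only [add_zero]
  show (1 / 3 : ℝ) * bmass blk (fun j => y (.inl j)) 0 + (1 / 3 : ℝ) * bmass blk (fun j => y (.inl j)) 1 +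
    (1 / 3 : ℝ) * bmass blk (fun j => y (.inl j)) 2 = 1 / 3 * nrm y
  have h := gex_bmass blk (fun j => y (.inl j))
  have h' : nrm y = ∑ j, y (.inl j) := rfl
  rw [h', ← h]
  ring

private theorem hit_gY {y : J → ℝ} (hb : ∀ b, bmass blk y b = 1 / 3) (z : Fin 3 ⊕ C → ℝ) :
    hit blk (gY y) z 0 = 1 / 3 * nrm z := by
  unfold hit
  have : ∀ b : Fin 3, z (.inl b) * yb blk (gY y) (b + 0) = 1 / 3 * z (.inl b) := by
    intro b
    show z (.inl b) * bmass blk y (b + 0) = 1 / 3 * z (.inl b)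
    rw [hb]
    ring
  rw [Finset.sum_congr rfl fun b _ => this b, ← Finset.mul_sum]
  rfl

private theorem gU0 {y : J → ℝ} (hy : y ∈ stdSimplex ℝ J) (hb : ∀ b, bmass blk y b = 1 / 3)
    (x : I ⊕ Fin 4 → ℝ) : EU (gpay blk P st 0) x (gY y) gZ =
      1 / 3 * (nrm x + x (.inr 0) + x (.inr 2) + x (.inr 3)) := by
  rw [EU0_eq, hit_gYZ blk hb, hit_gYZ blk hb, hit_gYZ blk hb, nrm_gY hy, zC_gZ, pC_gZ]
  have : (gY y) (.inr 0) = (0 : ℝ) := rfl
  rw [this]
  ring

private theorem gU1 {t : ℝ} {x : I → ℝ} (hx : x ∈ stdSimplex ℝ I) (y : J ⊕ Fin 1 → ℝ) :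
    EU (gpay blk P st 1) (gX t x) y gZ = (2 / 3 + t / 3) * nrm y := by
  rw [EU1_eq, hit_gZ, nrm_gX t hx, nrm_gZ, zC_gZ, pC_gZ, kap_gZ]
  have h0 : (gX t x) (.inr 0) = t := rfl
  have h1 : (gX t x) (.inr 1) = 0 := rfl
  rw [h0, h1]
  ring

private theorem gU2 {t : ℝ} {x : I → ℝ} (hx : x ∈ stdSimplex ℝ I) {y : J → ℝ}
    (hy : y ∈ stdSimplex ℝ J) (hb : ∀ b, bmass blk y b = 1 / 3) (z : Fin 3 ⊕ C → ℝ) :
    EU (gpay blk P st 2) (gX t x) (gY y) z =
      (1 - t) * (2 / 3) * nrm z + ((1 - t) * ∑ c, z (.inr c) * mass (P c) x y + t * kap st z) := by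
  rw [EU2_eq, hit_gY blk hb, nrm_gX t hx, nrm_gY hy]
  have h0 : (gX t x) (.inr 0) = t := rfl
  have h1 : (gX t x) (.inr 1) = 0 := rfl
  rw [h0, h1]
  have hp : pC P (gX t x) (gY y) z = (1 - t) * ∑ c, z (.inr c) * mass (P c) x y := by
    unfold pC
    rw [Finset.mul_sum]
    refine Finset.sum_congr rfl fun c _ => ?_
    have : mass (P c) (fun i => gX t x (.inl i)) (fun j => gY y (.inl j)) =
        (1 - t) * mass (P c) x y := gex_mass_smul (P c) (1 - t) x y
    rw [this]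
    ring
  rw [hp]
  ring

end values

private theorem gsum4 {x : I ⊕ Fin 4 → ℝ} (hx : x ∈ stdSimplex ℝ (I ⊕ Fin 4)) :
    nrm x + x (.inr 0) + x (.inr 2) + x (.inr 3) ≤ 1 := by
  have h := hx.2
  rw [Fintype.sum_sum_type, Fin.sum_univ_four] at h
  have h1 := hx.1 (.inr 1)
  have : nrm x = ∑ i, x (.inl i) := rfl
  linarith

private theorem gnrm_le {A B : Type} [Fintype A] [Fintype B] {y : A ⊕ B → ℝ}
    (hy : y ∈ stdSimplex ℝ (A ⊕ B)) : nrm y + ∑ b, y (.inr b) = 1 := by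
  have h := hy.2
  rw [Fintype.sum_sum_type] at h
  exact h

/-- Doc proof/MP_d68d66_lc, Section 1, (<=): `X = (1 - t) x + t r`, `Y = y`, `Z` uniform on the base
strategies; Pareto optimality is `no_better`. -/
theorem pone_of_feas (blk : J → Fin 3) (P : C → I → J → Prop) (st : C → Prop)
    (h : Feas blk P st) : HasPONE (gpay blk P st) := by
  classical
  obtain ⟨x, hx, y, hy, hb, hle, hlt⟩ := h
  obtain ⟨g, hg, hgap⟩ := gex_gap st (fun c => mass (P c) x y) hlt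
  -- `t / (1 - t) = g`
  obtain ⟨t, ht⟩ : ∃ t, t = g / (1 + g) := ⟨_, rfl⟩
  have hg1 : 0 < 1 + g := by linarith
  have h0 : 0 < t := by rw [ht]; positivity
  have h1 : t < 1 := by rw [ht, div_lt_one hg1]; linarith
  have htg : t = (1 - t) * g := by rw [ht]; field_simp; ring
  have hX := gX_mem h0 h1 hx
  have hY := gY_mem hy
  have hZ : (gZ : Fin 3 ⊕ C → ℝ) ∈ stdSimplex ℝ (Fin 3 ⊕ C) := gZ_mem
  have e0 : EU (gpay blk P st 0) (gX t x) (gY y) gZ = 1 / 3 := by
    rw [gU0 blk P st hy hb, nrm_gX t hx]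
    have h0 : (gX t x) (.inr 0) = t := rfl
    have h2 : (gX t x) (.inr 2) = 0 := rfl
    have h3 : (gX t x) (.inr 3) = 0 := rfl
    rw [h0, h2, h3]
    ring
  have e1 : EU (gpay blk P st 1) (gX t x) (gY y) gZ = 2 / 3 + t / 3 := by
    rw [gU1 blk P st hx, nrm_gY hy, mul_one]
  have e2 : EU (gpay blk P st 2) (gX t x) (gY y) gZ = 2 / 3 - 2 * t / 3 := by
    rw [EU2_eq, hit_gY blk hb, nrm_gX t hx, nrm_gY hy, pC_gZ, kap_gZ, nrm_gZ]
    have h1 : (gX t x) (.inr 1) = 0 := rfl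
    rw [h1]
    ring
  refine ⟨gX t x, gY y, gZ, ⟨⟨hX, hY, hZ⟩, ?_, ?_, ?_⟩, ?_⟩
  · intro x' hx'
    rw [e0, gU0 blk P st hy hb]
    have := gsum4 hx'
    linarith
  · intro y' hy'
    rw [e1, gU1 blk P st hx]
    have h2 := gnrm_le hy'
    have h3 : 0 ≤ ∑ b, y' (.inr b) := Finset.sum_nonneg fun b _ => hy'.1 _
    nlinarith
  · intro z' hz'
    rw [e2, gU2 blk P st hx hy hb]
    have h2 := gnrm_le hz'
    have h4 : (1 - t) * ∑ c, z' (.inr c) * mass (P c) x y + t * kap st z' ≤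
        (1 - t) * (2 / 3) * ∑ c, z' (.inr c) := by
      unfold kap
      rw [Finset.mul_sum, Finset.mul_sum, Finset.mul_sum, ← Finset.sum_add_distrib]
      refine Finset.sum_le_sum fun c _ => ?_
      have hz0 : 0 ≤ z' (.inr c) := hz'.1 _
      by_cases hc : st c
      · rw [if_pos hc]
        have h5 := hgap c hc
        have h6 : (1 - t) * g ≤ (1 - t) * (2 / 3 - mass (P c) x y) :=
          mul_le_mul_of_nonneg_left h5 (by linarith)
        have h7 : z' (.inr c) * ((1 - t) * mass (P c) x y + t) ≤ z' (.inr c) * ((1 - t) * (2 / 3)) :=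
          mul_le_mul_of_nonneg_left (by nlinarith) hz0
        nlinarith
      · rw [if_neg hc]
        have h5 := hle c
        have h7 : z' (.inr c) * ((1 - t) * mass (P c) x y) ≤ z' (.inr c) * ((1 - t) * (2 / 3)) :=
          mul_le_mul_of_nonneg_left (mul_le_mul_of_nonneg_left h5 (by linarith)) hz0
        nlinarith
    have h5 : nrm z' = 1 - ∑ c, z' (.inr c) := by linarith
    rw [h5]
    nlinarith
  · rintro ⟨x', hx', y', hy', z', hz', hge, p, hp⟩
    have g0 := hge 0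
    have g1 := hge 1
    have g2 := hge 2
    rw [e0] at g0
    rw [e1] at g1
    rw [e2] at g2
    obtain ⟨q0, q1, q2⟩ := no_better blk P st h0 h1 hx' hy' hz' g0 g1 g2
    have h3 : p = 0 ∨ p = 1 ∨ p = 2 := by
      fin_cases p <;> simp
    rcases h3 with rfl | rfl | rfl
    · rw [e0, q0] at hp
      exact lt_irrefl _ hp
    · rw [e1, q1] at hp
      exact lt_irrefl _ hp
    · rw [e2, q2] at hp
      exact lt_irrefl _ hp

end Pool.Agent.ERG
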