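import Mathlib
import Pool.Agent.ERG.GForm

/-!
# Pareto optimal Nash equilibria give feasible points
-/

set_option linter.unusedSectionVars false

namespace Pool.Agent.ERG

open Finset

section general

variable {A B C : Type} [Fintype A] [Fintype B] [Fintype C] [DecidableEq A] [DecidableEq B]
  [DecidableEq C]

private theorem gn_EU_x (u : A → B → C → Bool) (x : A → ℝ) (y : B → ℝ) (z : C → ℝ) :
    EU u x y z = ∑ i, x i * EU u (Pi.single i 1) y z := by
  have h : ∀ i, EU u (Pi.single i 1) y z =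
      ∑ j, ∑ k, y j * z k * (if u i j k = true then 1 else 0) := by
    intro i
    unfold EU
    rw [Finset.sum_eq_single i]
    · simp
    · intro i' _ hi'
      simp [Pi.single_eq_of_ne hi']
    · simp
  simp only [h]
  unfold EU
  simp only [Finset.mul_sum]
  refine Finset.sum_congr rfl fun i _ => Finset.sum_congr rfl fun j _ =>
    Finset.sum_congr rfl fun k _ => ?_
  ring

private theorem gn_EU_y (u : A → B → C → Bool) (x : A → ℝ) (y : B → ℝ) (z : C → ℝ) :
    EU u x y z = ∑ j, y j * EU u x (Pi.single j 1) z := by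
  have h : ∀ j, EU u x (Pi.single j 1) z =
      ∑ i, ∑ k, x i * z k * (if u i j k = true then 1 else 0) := by
    intro j
    unfold EU
    refine Finset.sum_congr rfl fun i _ => ?_
    rw [Finset.sum_eq_single j]
    · simp
    · intro j' _ hj'
      simp [Pi.single_eq_of_ne hj']
    · simp
  simp only [h]
  unfold EU
  simp only [Finset.mul_sum]
  rw [Finset.sum_comm]
  refine Finset.sum_congr rfl fun i _ => Finset.sum_congr rfl fun j _ =>
    Finset.sum_congr rfl fun k _ => ?_
  ring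

private theorem gn_EU_z (u : A → B → C → Bool) (x : A → ℝ) (y : B → ℝ) (z : C → ℝ) :
    EU u x y z = ∑ k, z k * EU u x y (Pi.single k 1) := by
  have h : ∀ k, EU u x y (Pi.single k 1) =
      ∑ i, ∑ j, x i * y j * (if u i j k = true then 1 else 0) := by
    intro k
    unfold EU
    refine Finset.sum_congr rfl fun i _ => Finset.sum_congr rfl fun j _ => ?_
    rw [Finset.sum_eq_single k]
    · simp
    · intro k' _ hk'
      simp [Pi.single_eq_of_ne hk']
    · simp
  simp only [h]
  unfold EU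
  simp only [Finset.mul_sum]
  have e1 : ∀ i : A, ∑ j : B, ∑ k : C, x i * y j * z k * (if u i j k = true then (1 : ℝ) else 0) =
      ∑ k : C, ∑ j : B, x i * y j * z k * (if u i j k = true then (1 : ℝ) else 0) :=
    fun i => Finset.sum_comm
  simp only [e1]
  rw [Finset.sum_comm]
  refine Finset.sum_congr rfl fun i _ => Finset.sum_congr rfl fun j _ =>
    Finset.sum_congr rfl fun k _ => ?_
  ring

/-- A weighted mean `U` of numbers `≤ U`: equality on the support. -/
private theorem gn_supp {A : Type} [Fintype A] (x V : A → ℝ) (U : ℝ) (hx : x ∈ stdSimplex ℝ A)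
    (hU : U = ∑ i, x i * V i) (hV : ∀ i, V i ≤ U) (i : A) (hi : 0 < x i) : V i = U := by
  have h0 : ∑ i, x i * (U - V i) = 0 := by
    simp only [mul_sub, Finset.sum_sub_distrib, ← Finset.sum_mul]
    rw [hx.2, one_mul, ← hU, sub_self]
  have h1 : ∀ i ∈ (Finset.univ : Finset A), 0 ≤ x i * (U - V i) := fun i _ =>
    mul_nonneg (hx.1 i) (sub_nonneg.2 (hV i))
  have h2 := (Finset.sum_eq_zero_iff_of_nonneg h1).1 h0 i (Finset.mem_univ i)
  rcases mul_eq_zero.1 h2 with h | h
  · exact absurd h hi.ne'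
  · linarith

end general

variable {I J C : Type} [Fintype I] [Fintype J] [Fintype C]

/-- the numbers of a profile -/
private theorem gn_sum_x {A : Type} [Fintype A] (x : A ⊕ Fin 4 → ℝ) (hx : x ∈ stdSimplex ℝ (A ⊕ Fin 4)) :
    nrm x + x (.inr 0) + x (.inr 1) + x (.inr 2) + x (.inr 3) = 1 := by
  have := hx.2
  rw [Fintype.sum_sum_type, Fin.sum_univ_four] at this
  unfold nrm
  linarith

private theorem gn_sum_y {B : Type} [Fintype B] (y : B ⊕ Fin 1 → ℝ) (hy : y ∈ stdSimplex ℝ (B ⊕ Fin 1)) :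
    nrm y + y (.inr 0) = 1 := by
  have := hy.2
  rw [Fintype.sum_sum_type, Fin.sum_univ_one] at this
  unfold nrm
  linarith

private theorem gn_sum_z {C : Type} [Fintype C] (z : Fin 3 ⊕ C → ℝ) (hz : z ∈ stdSimplex ℝ (Fin 3 ⊕ C)) :
    nrm z + zC z = 1 := by
  have := hz.2
  rw [Fintype.sum_sum_type] at this
  unfold nrm zC
  linarith

private theorem gn_nrm_nonneg {A B : Type} [Fintype A] {x : A ⊕ B → ℝ} (hx : ∀ i, 0 ≤ x i) :
    0 ≤ nrm x := Finset.sum_nonneg fun i _ => hx _

private theorem gn_yb_nonneg (blk : J → Fin 3) {y : J ⊕ Fin 1 → ℝ} (hy : ∀ j, 0 ≤ y j) (b : Fin 3) :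
    0 ≤ yb blk y b := by
  unfold yb bmass
  refine Finset.sum_nonneg fun j _ => ?_
  split_ifs
  · exact hy _
  · exact le_rfl

private theorem gn_yb_sum (blk : J → Fin 3) (y : J ⊕ Fin 1 → ℝ) :
    yb blk y 0 + yb blk y 1 + yb blk y 2 = nrm y := by
  have : yb blk y 0 + yb blk y 1 + yb blk y 2 = ∑ b : Fin 3, yb blk y b := by
    rw [Fin.sum_univ_three]
  rw [this]
  unfold yb bmass nrm
  rw [Finset.sum_comm]
  refine Finset.sum_congr rfl fun j _ => ?_
  simp

private theorem gn_hit_nonneg (blk : J → Fin 3) {y : J ⊕ Fin 1 → ℝ} {z : Fin 3 ⊕ C → ℝ}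
    (hy : ∀ j, 0 ≤ y j) (hz : ∀ k, 0 ≤ z k) (d : Fin 3) : 0 ≤ hit blk y z d :=
  Finset.sum_nonneg fun _ _ => mul_nonneg (hz _) (gn_yb_nonneg blk hy _)

private theorem gn_hit_sum (blk : J → Fin 3) (y : J ⊕ Fin 1 → ℝ) (z : Fin 3 ⊕ C → ℝ) :
    hit blk y z 0 + hit blk y z 1 + hit blk y z 2 = nrm z * nrm y := by
  have h := gn_yb_sum blk y
  unfold hit
  rw [← h]
  unfold nrm
  simp only [Fin.sum_univ_three]
  have a1 : (0 : Fin 3) + 0 = 0 := rfl
  have a2 : (1 : Fin 3) + 0 = 1 := rfl
  have a3 : (2 : Fin 3) + 0 = 2 := rfl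
  have a4 : (0 : Fin 3) + 1 = 1 := rfl
  have a5 : (1 : Fin 3) + 1 = 2 := rfl
  have a6 : (2 : Fin 3) + 1 = 0 := rfl
  have a7 : (0 : Fin 3) + 2 = 2 := rfl
  have a8 : (1 : Fin 3) + 2 = 0 := rfl
  have a9 : (2 : Fin 3) + 2 = 1 := rfl
  rw [a1, a2, a3, a4, a5, a6, a7, a8, a9]
  ring

private theorem gn_zC_nonneg {z : Fin 3 ⊕ C → ℝ} (hz : ∀ k, 0 ≤ z k) : 0 ≤ zC z :=
  Finset.sum_nonneg fun _ _ => hz _

private theorem gn_kap_nonneg (st : C → Prop) {z : Fin 3 ⊕ C → ℝ} (hz : ∀ k, 0 ≤ z k) :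
    0 ≤ kap st z := by
  unfold kap
  refine Finset.sum_nonneg fun c _ => ?_
  split_ifs
  · exact hz _
  · exact le_rfl

private theorem gn_kap_le (st : C → Prop) {z : Fin 3 ⊕ C → ℝ} (hz : ∀ k, 0 ≤ z k) :
    kap st z ≤ zC z := by
  unfold kap zC
  refine Finset.sum_le_sum fun c _ => ?_
  split_ifs
  · exact le_rfl
  · exact hz _

private theorem gn_mass_nonneg (P : I → J → Prop) {x : I → ℝ} {y : J → ℝ} (hx : ∀ i, 0 ≤ x i)
    (hy : ∀ j, 0 ≤ y j) : 0 ≤ mass P x y := by
  unfold mass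
  refine Finset.sum_nonneg fun i _ => Finset.sum_nonneg fun j _ => ?_
  split_ifs
  · simpa using mul_nonneg (hx i) (hy j)
  · simp

private theorem gn_mass_le (P : I → J → Prop) {x : I → ℝ} {y : J → ℝ} (hx : ∀ i, 0 ≤ x i)
    (hy : ∀ j, 0 ≤ y j) : mass P x y ≤ (∑ i, x i) * ∑ j, y j := by
  unfold mass
  rw [Finset.sum_mul_sum]
  refine Finset.sum_le_sum fun i _ => Finset.sum_le_sum fun j _ => ?_
  split_ifs
  · simp
  · simpa using mul_nonneg (hx i) (hy j)

private theorem gn_mass_eq_sum [DecidableEq I] (P : I → J → Prop) (x : I → ℝ) (y : J → ℝ) :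
    mass P x y = ∑ i, x i * mass P (Pi.single i 1) y := by
  have h : ∀ i, mass P (Pi.single i 1) y = ∑ j, y j * (by classical exact if P i j then 1 else 0) := by
    classical
    intro i
    unfold mass
    rw [Finset.sum_eq_single i]
    · refine Finset.sum_congr rfl fun j _ => ?_
      simp
    · intro i' _ hi'
      simp [Pi.single_eq_of_ne hi']
    · simp
  simp only [h]
  unfold mass
  simp only [Finset.mul_sum]
  refine Finset.sum_congr rfl fun i _ => Finset.sum_congr rfl fun j _ => ?_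
  ring

private theorem gn_mass_smul (P : I → J → Prop) (r : ℝ) (x : I → ℝ) (y : J → ℝ) :
    mass P (fun i => r * x i) y = r * mass P x y := by
  unfold mass
  simp only [Finset.mul_sum]
  refine Finset.sum_congr rfl fun i _ => Finset.sum_congr rfl fun j _ => ?_
  ring

private theorem gn_mass_zero (P : I → J → Prop) (y : J → ℝ) : mass P (fun _ => 0) y = 0 := by
  unfold mass; simp

private theorem gn_pC_nonneg (P : C → I → J → Prop) {x : I ⊕ Fin 4 → ℝ} {y : J ⊕ Fin 1 → ℝ}
    {z : Fin 3 ⊕ C → ℝ} (hx : ∀ i, 0 ≤ x i) (hy : ∀ j, 0 ≤ y j) (hz : ∀ k, 0 ≤ z k) :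
    0 ≤ pC P x y z :=
  Finset.sum_nonneg fun _ _ => mul_nonneg (hz _)
    (gn_mass_nonneg _ (fun _ => hx _) (fun _ => hy _))

private theorem gn_pC_le (P : C → I → J → Prop) {x : I ⊕ Fin 4 → ℝ} {y : J ⊕ Fin 1 → ℝ}
    {z : Fin 3 ⊕ C → ℝ} (hx : ∀ i, 0 ≤ x i) (hy : ∀ j, 0 ≤ y j) (hz : ∀ k, 0 ≤ z k) :
    pC P x y z ≤ zC z * (nrm x * nrm y) := by
  unfold pC zC
  rw [Finset.sum_mul]
  exact Finset.sum_le_sum fun c _ => mul_le_mul_of_nonneg_left
    (gn_mass_le _ (fun _ => hx _) (fun _ => hy _)) (hz _)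

/-! ### Pure strategies -/

section pure

variable [DecidableEq I] [DecidableEq J] [DecidableEq C]
variable (blk : J → Fin 3) (P : C → I → J → Prop) (st : C → Prop)
  (x : I ⊕ Fin 4 → ℝ) (y : J ⊕ Fin 1 → ℝ) (z : Fin 3 ⊕ C → ℝ)

private theorem gn_nrm_single_inl {A B : Type} [Fintype A] [DecidableEq A] [DecidableEq B] (i : A) :
    nrm (Pi.single (Sum.inl i : A ⊕ B) (1 : ℝ)) = 1 := by
  unfold nrm
  simp [Pi.single_apply]

private theorem gn_nrm_single_inr {A B : Type} [Fintype A] [DecidableEq A] [DecidableEq B] (k : B) :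
    nrm (Pi.single (Sum.inr k : A ⊕ B) (1 : ℝ)) = 0 := by
  unfold nrm
  simp [Pi.single_apply]

private theorem gn_V1_i (i : I) : EU (gpay blk P st 0) (Pi.single (.inl i) 1) y z =
    hit blk y z 0 + (nrm y * zC z - pC P (Pi.single (.inl i) 1) y z) := by
  rw [EU0_eq, gn_nrm_single_inl]
  simp [Pi.single_apply]

private theorem gn_V1_r : EU (gpay blk P st 0) (Pi.single (.inr 0) 1) y z = hit blk y z 0 := by
  have hp : pC P (Pi.single (Sum.inr 0 : I ⊕ Fin 4) (1 : ℝ)) y z = 0 := by
    unfold pC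
    refine Finset.sum_eq_zero fun c _ => ?_
    have : (fun i : I => (Pi.single (Sum.inr 0 : I ⊕ Fin 4) (1 : ℝ) : I ⊕ Fin 4 → ℝ) (Sum.inl i)) =
        fun _ => 0 := by funext i; simp [Pi.single_apply]
    rw [this, gn_mass_zero, mul_zero]
  rw [EU0_eq, gn_nrm_single_inr, hp]
  simp [Pi.single_apply]

private theorem gn_V1_a : EU (gpay blk P st 0) (Pi.single (.inr 1) 1) y z =
    y (.inr 0) * z (.inl 0) := by
  have hp : pC P (Pi.single (Sum.inr 1 : I ⊕ Fin 4) (1 : ℝ)) y z = 0 := by
    unfold pC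
    refine Finset.sum_eq_zero fun c _ => ?_
    have : (fun i : I => (Pi.single (Sum.inr 1 : I ⊕ Fin 4) (1 : ℝ) : I ⊕ Fin 4 → ℝ) (Sum.inl i)) =
        fun _ => 0 := by funext i; simp [Pi.single_apply]
    rw [this, gn_mass_zero, mul_zero]
  rw [EU0_eq, gn_nrm_single_inr, hp]
  simp [Pi.single_apply]

private theorem gn_V1_e1 : EU (gpay blk P st 0) (Pi.single (.inr 2) 1) y z =
    hit blk y z 1 + zC z * nrm y + y (.inr 0) * (nrm z + zC z) := by
  have hp : pC P (Pi.single (Sum.inr 2 : I ⊕ Fin 4) (1 : ℝ)) y z = 0 := by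
    unfold pC
    refine Finset.sum_eq_zero fun c _ => ?_
    have : (fun i : I => (Pi.single (Sum.inr 2 : I ⊕ Fin 4) (1 : ℝ) : I ⊕ Fin 4 → ℝ) (Sum.inl i)) =
        fun _ => 0 := by funext i; simp [Pi.single_apply]
    rw [this, gn_mass_zero, mul_zero]
  rw [EU0_eq, gn_nrm_single_inr, hp]
  simp [Pi.single_apply]

private theorem gn_V1_e2 : EU (gpay blk P st 0) (Pi.single (.inr 3) 1) y z =
    hit blk y z 2 + zC z * nrm y := by
  have hp : pC P (Pi.single (Sum.inr 3 : I ⊕ Fin 4) (1 : ℝ)) y z = 0 := by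
    unfold pC
    refine Finset.sum_eq_zero fun c _ => ?_
    have : (fun i : I => (Pi.single (Sum.inr 3 : I ⊕ Fin 4) (1 : ℝ) : I ⊕ Fin 4 → ℝ) (Sum.inl i)) =
        fun _ => 0 := by funext i; simp [Pi.single_apply]
    rw [this, gn_mass_zero, mul_zero]
  rw [EU0_eq, gn_nrm_single_inr, hp]
  simp [Pi.single_apply]

private theorem gn_hit_single (j : J) : hit blk (Pi.single (.inl j) 1) z 0 = z (.inl (blk j)) := by
  have h : ∀ b, yb blk (Pi.single (Sum.inl j : J ⊕ Fin 1) (1 : ℝ)) b = if blk j = b then 1 else 0 := by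
    intro b
    unfold yb bmass
    rw [Finset.sum_eq_single j]
    · simp
    · intro j' _ hj'
      simp [Pi.single_apply, hj']
    · simp
  unfold hit
  simp only [h, add_zero]
  simp

private theorem gn_V2_j (j : J) : EU (gpay blk P st 1) x (Pi.single (.inl j) 1) z =
    nrm x * (nrm z - z (.inl (blk j))) + pC P x (Pi.single (.inl j) 1) z +
    x (.inr 0) * (nrm z + zC z - kap st z) + x (.inr 1) * (nrm z + zC z) := by
  rw [EU1_eq, gn_nrm_single_inl, gn_hit_single]
  simp [Pi.single_apply]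

private theorem gn_V2_al : EU (gpay blk P st 1) x (Pi.single (.inr 0) 1) z =
    x (.inr 1) * (nrm z + zC z - z (.inl 0)) := by
  have hy0 : (fun j : J => (Pi.single (Sum.inr 0 : J ⊕ Fin 1) (1 : ℝ) : J ⊕ Fin 1 → ℝ) (Sum.inl j)) =
      fun _ => 0 := by funext j; simp [Pi.single_apply]
  have hp : pC P x (Pi.single (Sum.inr 0 : J ⊕ Fin 1) (1 : ℝ)) z = 0 := by
    unfold pC
    refine Finset.sum_eq_zero fun c _ => ?_
    rw [hy0]
    unfold mass
    simp
  have hh : hit blk (Pi.single (Sum.inr 0 : J ⊕ Fin 1) (1 : ℝ)) z 0 = 0 := by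
    unfold hit yb
    rw [hy0]
    unfold bmass
    simp
  rw [EU1_eq, gn_nrm_single_inr, hp, hh]
  simp [Pi.single_apply]

private theorem gn_V3_b (b : Fin 3) : EU (gpay blk P st 2) x y (Pi.single (.inl b) 1) =
    nrm x * (nrm y - yb blk y b) + x (.inr 1) * y (.inr 0) := by
  have hz0 : ∀ c : C, (Pi.single (Sum.inl b : Fin 3 ⊕ C) (1 : ℝ) : Fin 3 ⊕ C → ℝ) (Sum.inr c) = 0 := by
    intro c; simp [Pi.single_apply]
  have hp : pC P x y (Pi.single (Sum.inl b : Fin 3 ⊕ C) (1 : ℝ)) = 0 := by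
    unfold pC
    simp only [hz0, zero_mul, Finset.sum_const_zero]
  have hk : kap st (Pi.single (Sum.inl b : Fin 3 ⊕ C) (1 : ℝ)) = 0 := by
    unfold kap
    simp only [hz0]
    simp
  have hzc : zC (Pi.single (Sum.inl b : Fin 3 ⊕ C) (1 : ℝ)) = 0 := by
    unfold zC
    simp only [hz0, Finset.sum_const_zero]
  have hh : hit blk y (Pi.single (Sum.inl b : Fin 3 ⊕ C) (1 : ℝ)) 0 = yb blk y b := by
    unfold hit
    rw [Finset.sum_eq_single b]
    · simp
    · intro b' _ hb'
      simp [Pi.single_apply, hb']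
    · simp
  rw [EU2_eq, gn_nrm_single_inl, hp, hk, hzc, hh]
  ring

private theorem gn_V3_c (c : C) : EU (gpay blk P st 2) x y (Pi.single (.inr c) 1) =
    mass (P c) (fun i => x (.inl i)) (fun j => y (.inl j)) +
      x (.inr 0) * (by classical exact if st c then 1 else 0) * nrm y + x (.inr 1) * y (.inr 0) := by
  classical
  have hz0 : ∀ b : Fin 3, (Pi.single (Sum.inr c : Fin 3 ⊕ C) (1 : ℝ) : Fin 3 ⊕ C → ℝ) (Sum.inl b) =
      0 := by
    intro b; simp [Pi.single_apply]
  have hp : pC P x y (Pi.single (Sum.inr c : Fin 3 ⊕ C) (1 : ℝ)) =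
      mass (P c) (fun i => x (.inl i)) (fun j => y (.inl j)) := by
    unfold pC
    rw [Finset.sum_eq_single c]
    · simp
    · intro c' _ hc'
      simp [Pi.single_apply, hc']
    · simp
  have hk : kap st (Pi.single (Sum.inr c : Fin 3 ⊕ C) (1 : ℝ)) = if st c then 1 else 0 := by
    unfold kap
    rw [Finset.sum_eq_single c]
    · simp
    · intro c' _ hc'
      simp [Pi.single_apply, hc']
    · simp
  have hzc : zC (Pi.single (Sum.inr c : Fin 3 ⊕ C) (1 : ℝ)) = 1 := by
    unfold zC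
    simp [Pi.single_apply]
  have hh : hit blk y (Pi.single (Sum.inr c : Fin 3 ⊕ C) (1 : ℝ)) 0 = 0 := by
    unfold hit
    simp only [hz0, zero_mul, Finset.sum_const_zero]
  rw [EU2_eq, gn_nrm_single_inr, hp, hk, hzc, hh]
  ring

end pure

/-- The payoff vectors `(q, 1 - q, 1)` are possible. -/
private theorem gn_dom [DecidableEq I] [DecidableEq J] [DecidableEq C] (blk : J → Fin 3)
    (P : C → I → J → Prop) (st : C → Prop) (x : I ⊕ Fin 4 → ℝ) (y : J ⊕ Fin 1 → ℝ)
    (z : Fin 3 ⊕ C → ℝ) (hPO : IsParetoOpt (gpay blk P st) x y z)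
    (h0 : 0 ≤ EU (gpay blk P st 0) x y z) (h1 : EU (gpay blk P st 0) x y z ≤ 1)
    (h12 : EU (gpay blk P st 0) x y z + EU (gpay blk P st 1) x y z ≤ 1)
    (h3 : EU (gpay blk P st 2) x y z < 1) : False := by
  set q := EU (gpay blk P st 0) x y z with hq
  set z' : Fin 3 ⊕ C → ℝ := fun k =>
    q * (Pi.single (Sum.inl 0 : Fin 3 ⊕ C) (1 : ℝ) : Fin 3 ⊕ C → ℝ) k +
        (1 - q) * (Pi.single (Sum.inl 1 : Fin 3 ⊕ C) (1 : ℝ) : Fin 3 ⊕ C → ℝ) k with hz'
  have ez0 : z' (.inl 0) = q := by simp [hz', Pi.single_apply]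
  have enz : nrm z' = 1 := by
    unfold nrm
    rw [Fin.sum_univ_three]
    simp [hz', Pi.single_apply]
  have ezC : zC z' = 0 := by
    unfold zC
    refine Finset.sum_eq_zero fun c _ => ?_
    simp [hz', Pi.single_apply]
  have ekap : kap st z' = 0 := by
    unfold kap
    refine Finset.sum_eq_zero fun c _ => ?_
    simp [hz', Pi.single_apply]
  set x' : I ⊕ Fin 4 → ℝ := Pi.single (.inr 1) 1 with hx'
  set y' : J ⊕ Fin 1 → ℝ := Pi.single (.inr 0) 1 with hy'
  have hz'mem : z' ∈ stdSimplex ℝ (Fin 3 ⊕ C) := by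
    constructor
    · intro k
      have a1 : 0 ≤ (Pi.single (Sum.inl 0 : Fin 3 ⊕ C) (1 : ℝ) : Fin 3 ⊕ C → ℝ) k := by
        by_cases h : k = Sum.inl 0
        · subst h; simp
        · simp [Pi.single_apply, h]
      have a2 : 0 ≤ (Pi.single (Sum.inl 1 : Fin 3 ⊕ C) (1 : ℝ) : Fin 3 ⊕ C → ℝ) k := by
        by_cases h : k = Sum.inl 1
        · subst h; simp
        · simp [Pi.single_apply, h]
      exact add_nonneg (mul_nonneg h0 a1) (mul_nonneg (by linarith) a2)
    · rw [Fintype.sum_sum_type]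
      have e1 := enz
      have e2 := ezC
      unfold nrm at e1
      unfold zC at e2
      rw [e1, e2]; norm_num
  have ex1 : x' (.inr 1) = 1 := by simp [hx']
  have ex0 : x' (.inr 0) = 0 := by simp [hx', Pi.single_apply]
  have ex2 : x' (.inr 2) = 0 := by simp [hx', Pi.single_apply]
  have ex3 : x' (.inr 3) = 0 := by simp [hx', Pi.single_apply]
  have enx : nrm x' = 0 := gn_nrm_single_inr 1
  have ey0 : y' (.inr 0) = 1 := by simp [hy']
  have eny : nrm y' = 0 := gn_nrm_single_inr 0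
  have epC : pC P x' y' z' = 0 := by
    unfold pC
    refine Finset.sum_eq_zero fun c _ => ?_
    have : (fun i : I => x' (Sum.inl i)) = fun _ => 0 := by
      funext i; simp [hx', Pi.single_apply]
    rw [this, gn_mass_zero, mul_zero]
  have E0 : EU (gpay blk P st 0) x' y' z' = q := by
    rw [EU0_eq, enx, ex0, ex1, ex2, ex3, epC, eny, ey0, ez0]; ring
  have E1 : EU (gpay blk P st 1) x' y' z' = 1 - q := by
    rw [EU1_eq, enx, ex0, ex1, epC, eny, ey0, ez0, enz, ezC]; ring
  have E2 : EU (gpay blk P st 2) x' y' z' = 1 := by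
    rw [EU2_eq, enx, ex0, ex1, epC, ey0, enz, ezC]; ring
  refine hPO ⟨x', single_mem_stdSimplex ℝ _, y', single_mem_stdSimplex ℝ _, z', hz'mem, ?_, 2, ?_⟩
  · intro p
    fin_cases p
    · change EU (gpay blk P st 0) x y z ≤ EU (gpay blk P st 0) x' y' z'
      rw [E0]
    · change EU (gpay blk P st 1) x y z ≤ EU (gpay blk P st 1) x' y' z'
      rw [E1]; linarith
    · change EU (gpay blk P st 2) x y z ≤ EU (gpay blk P st 2) x' y' z'
      rw [E2]; linarith
  · rw [E2]; exact h3

/-- Doc proof/MP_d68d66_lc, Section 1, (=>) (1)-(4). -/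
theorem feas_of_pone (blk : J → Fin 3) (P : C → I → J → Prop) (st : C → Prop) [Nonempty I]
    (hblk : ∀ b, ∃ j, blk j = b) (hst : ∃ c, st c) (h : HasPONE (gpay blk P st)) :
    Feas blk P st := by
  classical
  obtain ⟨x, y, z, ⟨⟨hx, hy, hz⟩, hN1, hN2, hN3⟩, hPO⟩ := h
  have hx0 := hx.1
  have hy0 := hy.1
  have hz0 := hz.1
  set U1 := EU (gpay blk P st 0) x y z with hU1
  set U2 := EU (gpay blk P st 1) x y z with hU2
  set U3 := EU (gpay blk P st 2) x y z with hU3
  -- pure strategies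
  have p1 : ∀ i, EU (gpay blk P st 0) (Pi.single i 1) y z ≤ U1 := fun i =>
    hN1 _ (single_mem_stdSimplex ℝ i)
  have p2 : ∀ j, EU (gpay blk P st 1) x (Pi.single j 1) z ≤ U2 := fun j =>
    hN2 _ (single_mem_stdSimplex ℝ j)
  have p3 : ∀ k, EU (gpay blk P st 2) x y (Pi.single k 1) ≤ U3 := fun k =>
    hN3 _ (single_mem_stdSimplex ℝ k)
  have s1 : ∀ i, 0 < x i → EU (gpay blk P st 0) (Pi.single i 1) y z = U1 :=
    gn_supp x _ U1 hx (gn_EU_x _ x y z) p1
  have s2 : ∀ j, 0 < y j → EU (gpay blk P st 1) x (Pi.single j 1) z = U2 :=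
    gn_supp y _ U2 hy (gn_EU_y _ x y z) p2
  have s3 : ∀ k, 0 < z k → EU (gpay blk P st 2) x y (Pi.single k 1) = U3 :=
    gn_supp z _ U3 hz (gn_EU_z _ x y z) p3
  -- names
  have hsx := gn_sum_x x hx
  have hsy := gn_sum_y y hy
  have hsz := gn_sum_z z hz
  have hn := gn_nrm_nonneg (A := I) (B := Fin 4) hx0
  have hny := gn_nrm_nonneg (A := J) (B := Fin 1) hy0
  have hnz := gn_nrm_nonneg (A := Fin 3) (B := C) hz0
  have hzC := gn_zC_nonneg hz0
  have hkap := gn_kap_nonneg st hz0
  have hkapz := gn_kap_le st hz0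
  have hf0 := gn_hit_nonneg blk hy0 hz0 0
  have hf1 := gn_hit_nonneg blk hy0 hz0 1
  have hf2 := gn_hit_nonneg blk hy0 hz0 2
  have hfs := gn_hit_sum blk y z
  have hpC := gn_pC_nonneg P hx0 hy0 hz0
  have hpCle := gn_pC_le P hx0 hy0 hz0
  have hr := hx0 (.inr 0)
  have hs := hx0 (.inr 1)
  have he1 := hx0 (.inr 2)
  have he2 := hx0 (.inr 3)
  have hw := hy0 (.inr 0)
  have f1 := EU0_eq blk P st x y z
  have f2 := EU1_eq blk P st x y z
  have f3 := EU2_eq blk P st x y z
  rw [← hU1] at f1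
  rw [← hU2] at f2
  rw [← hU3] at f3
  have v1r := gn_V1_r blk P st y z
  have v1a := gn_V1_a blk P st y z
  have v1e1 := gn_V1_e1 blk P st y z
  have v1e2 := gn_V1_e2 blk P st y z
  have v2al := gn_V2_al blk P st x z
  set n := nrm x with hn_def
  set ny := nrm y with hny_def
  set nz := nrm z with hnz_def
  set ζ := zC z with hζ_def
  set κ := kap st z with hκ_def
  set g0 := hit blk y z 0 with hg0
  set g1 := hit blk y z 1 with hg1
  set g2 := hit blk y z 2 with hg2
  set M := pC P x y z with hM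
  set ρ := x (.inr 0) with hρ
  set s := x (.inr 1) with hs_def
  set ε1 := x (.inr 2) with hε1
  set ε2 := x (.inr 3) with hε2
  set w := y (.inr 0) with hw_def
  set z0 := z (.inl 0) with hz0_def
  have q1r : g0 ≤ U1 := v1r ▸ p1 (.inr 0)
  have q1a : w * z0 ≤ U1 := v1a ▸ p1 (.inr 1)
  have q1e1 : g1 + ζ * ny + w * (nz + ζ) ≤ U1 := v1e1 ▸ p1 (.inr 2)
  have q1e2 : g2 + ζ * ny ≤ U1 := v1e2 ▸ p1 (.inr 3)
  have hz0le : z0 ≤ 1 := by
    have : z0 ≤ nz := by
      rw [hnz_def]; unfold nrm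
      exact Finset.single_le_sum (f := fun i => z (Sum.inl i)) (fun i _ => hz0 _) (Finset.mem_univ 0)
    linarith
  have hz0nn : 0 ≤ z0 := hz0 _
  -- U1 ≥ 1/3
  have hU1third : 1 ≤ 3 * U1 := by
    have e : ny = 1 - w := by linarith
    have e' : nz = 1 - ζ := by linarith
    rw [e] at q1e1 q1e2 hfs
    rw [e'] at q1e1 hfs
    have hw1 : w ≤ 1 := by linarith
    linarith [mul_nonneg hzC (by linarith : 0 ≤ 1 - w)]
  -- (1) s = 0
  have hs0 : s = 0 := by
    by_contra hne
    have hspos : 0 < s := lt_of_le_of_ne hs (Ne.symm hne)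
    have hU : w * z0 = U1 := by rw [← v1a]; exact s1 _ hspos
    have hwpos : 0 < w := by
      rcases hw.lt_or_eq with h | h
      · exact h
      · rw [← h, zero_mul] at hU; linarith
    have h1 : w ≤ w * z0 := by
      rw [hU]
      have : w * (nz + ζ) = w := by rw [hsz]; ring
      linarith [mul_nonneg hzC hny]
    have hz01 : z0 = 1 := by
      have : 1 ≤ z0 := by
        by_contra hcon
        push Not at hcon
        have := mul_lt_mul_of_pos_left hcon hwpos
        linarith
      linarith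
    have hV2al : EU (gpay blk P st 1) x (Pi.single (.inr 0) 1) z = 0 := by
      rw [v2al, hsz, hz01]; ring
    have hU20 : U2 = 0 := by rw [← s2 (.inr 0) hwpos]; exact hV2al
    obtain ⟨j, _⟩ := hblk 0
    have h2 := p2 (.inl j)
    rw [gn_V2_j] at h2
    have h3 : 0 ≤ n * (nz - z (.inl (blk j))) := by
      refine mul_nonneg hn (sub_nonneg.2 ?_)
      rw [hnz_def]; unfold nrm
      exact Finset.single_le_sum (f := fun i => z (Sum.inl i)) (fun i _ => hz0 _) (Finset.mem_univ _)
    have h4 : 0 ≤ pC P x (Pi.single (.inl j) 1) z :=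
      gn_pC_nonneg P hx0 (single_mem_stdSimplex ℝ (Sum.inl j : J ⊕ Fin 1)).1 hz0
    have h5 : 0 ≤ ρ * (nz + ζ - κ) := mul_nonneg hr (by linarith)
    have h6 : s * (nz + ζ) = s := by rw [hsz]; ring
    have h7 : n * (nz - z (.inl (blk j))) + pC P x (Pi.single (.inl j) 1) z +
      ρ * (nz + ζ - κ) + s * (nz + ζ) ≤ U2 := h2
    linarith
  have hV2al0 : EU (gpay blk P st 1) x (Pi.single (.inr 0) 1) z = 0 := by
    rw [v2al, hs0]; ring
  -- bounds
  have hg0le : g0 ≤ nz * ny := by linarith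
  have hU1le : U1 ≤ 1 := by
    rw [f1, hs0]
    have a1 : n * g0 ≤ n * (nz * ny) := mul_le_mul_of_nonneg_left hg0le hn
    have a2 : ρ * g0 ≤ ρ * (nz * ny) := mul_le_mul_of_nonneg_left hg0le hr
    have a3 : ε1 * (g1 + ζ * ny) ≤ ε1 * (nz * ny + ζ * ny) :=
      mul_le_mul_of_nonneg_left (by linarith) he1
    have a4 : ε2 * (g2 + ζ * ny) ≤ ε2 * (nz * ny + ζ * ny) :=
      mul_le_mul_of_nonneg_left (by linarith) he2
    have e : nz = 1 - ζ := by linarith
    have e' : w = 1 - ny := by linarith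
    have e4 : n + ρ + ε1 + ε2 = 1 := by rw [hs0] at hsx; linarith
    have hny1 : ny ≤ 1 := by linarith
    have a5 : n * (nz * ny) + (n * ny * ζ - M) + ρ * (nz * ny) + ε1 * (nz * ny + ζ * ny) +
        ε2 * (nz * ny + ζ * ny) + 0 * w * z0 + ε1 * w * (nz + ζ) ≤ 1 := by
      rw [e, e']
      have b1 : n * ((1 - ζ) * ny) + (n * ny * ζ - M) + ρ * ((1 - ζ) * ny) +
          ε1 * ((1 - ζ) * ny + ζ * ny) + ε2 * ((1 - ζ) * ny + ζ * ny) + 0 * (1 - ny) * z0 +
          ε1 * (1 - ny) * (1 - ζ + ζ) = (n + ρ + ε1 + ε2) * ny - M - ρ * ζ * ny + ε1 * (1 - ny) := by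
        ring
      rw [b1, e4]
      have b2 : 0 ≤ ρ * ζ * ny := by positivity
      have b3 : ε1 * (1 - ny) ≤ 1 * (1 - ny) :=
        mul_le_mul_of_nonneg_right (by linarith) (by linarith)
      linarith
    linarith
  have hU1nn : 0 ≤ U1 := by linarith
  -- (2) w = 0
  have hw0 : w = 0 := by
    by_contra hne
    have hwpos : 0 < w := lt_of_le_of_ne hw (Ne.symm hne)
    have hU20 : U2 = 0 := by rw [← s2 (.inr 0) hwpos]; exact hV2al0
    have hU3lt : U3 < 1 := by
      rw [f3, hs0]
      have e' : ny = 1 - w := by linarith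
      have a1 : n * (ny * nz - g0) ≤ n * (ny * nz) := mul_le_mul_of_nonneg_left (by linarith) hn
      have a2 : M ≤ ζ * (n * ny) := hpCle
      have a3 : ρ * κ * ny ≤ ρ * 1 * ny := by
        refine mul_le_mul_of_nonneg_right (mul_le_mul_of_nonneg_left ?_ hr) hny
        linarith
      have e4 : n + ρ ≤ 1 := by linarith
      have e : nz = 1 - ζ := by linarith
      have b1 : n * (ny * nz) + ζ * (n * ny) + ρ * 1 * ny = (n + ρ) * ny := by rw [e]; ring
      have b2 : (n + ρ) * ny ≤ 1 * ny := mul_le_mul_of_nonneg_right e4 hny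
      linarith
    exact gn_dom blk P st x y z hPO hU1nn hU1le (by rw [← hU1, ← hU2, hU20]; linarith)
      (by rw [← hU3]; exact hU3lt)
  have hny1 : ny = 1 := by linarith
  have e4 : n + ρ + ε1 + ε2 = 1 := by rw [hs0] at hsx; linarith
  rw [hs0, hw0, hny1] at f1 f2 f3
  rw [hny1] at hfs hpCle hg0le q1e1 q1e2
  -- (3)
  have hU3lt : U3 < 1 := by
    have a1 : U1 + U3 ≤ 1 := by
      rw [f1, f3]
      have b1 : ρ * (g0 + κ) ≤ ρ * 1 := mul_le_mul_of_nonneg_left (by linarith) hr
      have b2 : ε1 * (g1 + ζ) ≤ ε1 * 1 := mul_le_mul_of_nonneg_left (by linarith) he1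
      have b3 : ε2 * (g2 + ζ) ≤ ε2 * 1 := mul_le_mul_of_nonneg_left (by linarith) he2
      have b4 : n * (nz + ζ) = n := by rw [hsz]; ring
      linarith
    linarith
  have hU12 : 1 < U1 + U2 := by
    by_contra hcon
    push Not at hcon
    exact gn_dom blk P st x y z hPO hU1nn hU1le hcon hU3lt
  -- (4)
  have hρf : 0 < ρ * (g0 - κ) := by
    have a1 : U1 + U2 - 1 ≤ ρ * (g0 - κ) := by
      rw [f1, f2]
      have b2 : ε1 * (g1 + ζ) ≤ ε1 * 1 := mul_le_mul_of_nonneg_left (by linarith) he1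
      have b3 : ε2 * (g2 + ζ) ≤ ε2 * 1 := mul_le_mul_of_nonneg_left (by linarith) he2
      have b4 : n * (nz + ζ) = n := by rw [hsz]; ring
      have b5 : ρ * (nz + ζ) = ρ := by rw [hsz]; ring
      linarith
    linarith
  have hρpos : 0 < ρ := by
    rcases hr.lt_or_eq with h | h
    · exact h
    · rw [← h, zero_mul] at hρf; exact absurd hρf (lt_irrefl _)
  have hg0pos : 0 < g0 := by
    have : 0 < g0 - κ := (mul_pos_iff_of_pos_left hρpos).1 hρf
    linarith
  have hU1g : U1 = g0 := by rw [← v1r]; exact (s1 _ hρpos).symm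
  -- base strategies of player 3
  have v3b : ∀ b, n * (1 - yb blk y b) ≤ U3 := by
    intro b
    have h1 := p3 (.inl b)
    rw [gn_V3_b] at h1
    have h2 : n * (ny - yb blk y b) + s * w ≤ U3 := h1
    rw [hny1, hs0] at h2
    linarith
  have v3b' : ∀ b, 0 < z (.inl b) → n * (1 - yb blk y b) = U3 := by
    intro b hb
    have h1 := s3 (.inl b) hb
    rw [gn_V3_b] at h1
    have h2 : n * (ny - yb blk y b) + s * w = U3 := h1
    rw [hny1, hs0] at h2
    linarith
  have v3c : ∀ c, mass (P c) (fun i => x (.inl i)) (fun j => y (.inl j)) +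
      ρ * (if st c then 1 else 0) ≤ U3 := by
    intro c
    have h1 := p3 (.inr c)
    rw [gn_V3_c] at h1
    have h2 : mass (P c) (fun i => x (.inl i)) (fun j => y (.inl j)) +
      ρ * (if st c then 1 else 0) * ny + s * w ≤ U3 := h1
    rw [hny1, hs0] at h2
    linarith
  have hmass0 : ∀ c, 0 ≤ mass (P c) (fun i => x (.inl i)) (fun j => y (.inl j)) := fun c =>
    gn_mass_nonneg _ (fun _ => hx0 _) (fun _ => hy0 _)
  obtain ⟨cs, hcs⟩ := hst
  have hU3pos : 0 < U3 := by
    have h1 := v3c cs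
    rw [if_pos hcs] at h1
    have := hmass0 cs
    linarith
  -- the hit block
  obtain ⟨b0, hb0z, hb0y⟩ : ∃ b, 0 < z (.inl b) ∧ 0 < yb blk y b := by
    by_contra hcon
    push Not at hcon
    have : g0 ≤ 0 := by
      rw [hg0]; unfold hit
      refine Finset.sum_nonpos fun b _ => ?_
      rw [add_zero]
      rcases (hz0 (.inl b)).lt_or_eq with h | h
      · have h1 := mul_nonneg h.le (neg_nonneg.2 (hcon b h))
        linarith
      · rw [← h, zero_mul]
    linarith
  have hyb1 : ∀ b, yb blk y b ≤ 1 := by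
    intro b
    have h1 := gn_yb_sum blk y
    rw [← hny_def, hny1] at h1
    have h2 := gn_yb_nonneg blk hy0
    fin_cases b
    · have := h2 1; have := h2 2; change yb blk y 0 ≤ 1; linarith
    · have := h2 0; have := h2 2; change yb blk y 1 ≤ 1; linarith
    · have := h2 0; have := h2 1; change yb blk y 2 ≤ 1; linarith
  have hnpos : 0 < n := by
    rcases hn.lt_or_eq with h | h
    · exact h
    · have h1 := v3b' b0 hb0z
      rw [← h, zero_mul] at h1
      linarith
  have hζ0 : ζ = 0 := by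
    by_contra hne
    obtain ⟨c, hc⟩ : ∃ c, 0 < z (.inr c) := by
      by_contra hcon
      push Not at hcon
      apply hne
      rw [hζ_def]; unfold zC
      exact Finset.sum_eq_zero fun c _ => le_antisymm (hcon c) (hz0 _)
    -- every row has full mass in `P c`
    have hrow : ∀ i, mass (P c) (Pi.single i 1) (fun j => y (.inl j)) = 1 := by
      intro i
      have h1 := p1 (.inl i)
      rw [gn_V1_i] at h1
      have h2 : g0 + (ny * ζ - pC P (Pi.single (.inl i) 1) y z) ≤ U1 := h1
      rw [hny1, hU1g] at h2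
      have h3 : ∀ c', mass (P c') (fun i' => (Pi.single (Sum.inl i : I ⊕ Fin 4) (1 : ℝ) :
          I ⊕ Fin 4 → ℝ) (.inl i')) (fun j => y (.inl j)) =
          mass (P c') (Pi.single i 1) (fun j => y (.inl j)) := by
        intro c'
        congr 1
        funext i'
        simp [Pi.single_apply]
      have h4 : ∀ c', mass (P c') (Pi.single i 1) (fun j => y (.inl j)) ≤ 1 := by
        intro c'
        have h5 := gn_mass_le (P c') (x := Pi.single i (1 : ℝ)) (y := fun j => y (.inl j))
          (single_mem_stdSimplex ℝ i).1 (fun _ => hy0 _)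
        rw [(single_mem_stdSimplex ℝ i).2] at h5
        have h6 : ∑ j, y (.inl j) = 1 := by
          have := hny1
          rw [hny_def] at this
          unfold nrm at this
          exact this
        rw [h6] at h5
        linarith
      have h5 : ζ - pC P (Pi.single (.inl i) 1) y z =
          ∑ c', z (.inr c') * (1 - mass (P c') (Pi.single i 1) (fun j => y (.inl j))) := by
        rw [hζ_def]
        unfold zC pC
        rw [← Finset.sum_sub_distrib]
        refine Finset.sum_congr rfl fun c' _ => ?_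
        rw [h3]; ring
      have h6 : ∑ c', z (.inr c') * (1 - mass (P c') (Pi.single i 1) (fun j => y (.inl j))) ≤ 0 := by
        rw [← h5]; linarith
      have h7 : ∀ c' ∈ (Finset.univ : Finset C),
          0 ≤ z (.inr c') * (1 - mass (P c') (Pi.single i 1) (fun j => y (.inl j))) :=
        fun c' _ => mul_nonneg (hz0 _) (sub_nonneg.2 (h4 c'))
      have h8 := (Finset.sum_eq_zero_iff_of_nonneg h7).1
        (le_antisymm h6 (Finset.sum_nonneg h7)) c (Finset.mem_univ c)
      rcases mul_eq_zero.1 h8 with h9 | h9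
      · exact absurd h9 hc.ne'
      · linarith
    have hm : mass (P c) (fun i => x (.inl i)) (fun j => y (.inl j)) = n := by
      rw [gn_mass_eq_sum]
      simp only [hrow, mul_one]
      rfl
    have h1 := v3c c
    rw [hm] at h1
    have h2 := v3b' b0 hb0z
    have h3 : 0 ≤ ρ * (if st c then (1 : ℝ) else 0) := by split_ifs <;> simp [hρpos.le]
    have h4 : 0 < n * yb blk y b0 := mul_pos hnpos hb0y
    linarith
  have hnz1 : nz = 1 := by linarith
  have hκ0 : κ = 0 := by linarith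
  -- all blocks of player 2 are used
  have hybpos : ∀ b, 0 < yb blk y b := by
    intro b
    have h1 := v3b b
    have h2 := v3b' b0 hb0z
    have h3 : yb blk y b0 ≤ yb blk y b := by
      by_contra hcon
      push Not at hcon
      have := mul_lt_mul_of_pos_left hcon hnpos
      linarith
    linarith
  have hzr : ∀ c, z (.inr c) = 0 := by
    intro c
    have : (∑ c, z (.inr c)) = 0 := by
      have := hζ0
      rw [hζ_def] at this
      unfold zC at this
      exact this
    exact (Finset.sum_eq_zero_iff_of_nonneg (fun c _ => hz0 _)).1 this c (Finset.mem_univ c)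
  have hzb : ∀ b, n * (1 - z (.inl b)) + ρ = U2 := by
    intro b
    -- a column of the block in the support
    obtain ⟨j, hj, hyj⟩ : ∃ j, blk j = b ∧ 0 < y (.inl j) := by
      by_contra hcon
      push Not at hcon
      have : yb blk y b ≤ 0 := by
        unfold yb bmass
        refine Finset.sum_nonpos fun j _ => ?_
        split_ifs with h
        · exact hcon j h
        · exact le_rfl
      have := hybpos b
      linarith
    have h1 := s2 (.inl j) hyj
    rw [gn_V2_j] at h1
    have h2 : n * (nz - z (.inl (blk j))) + pC P x (Pi.single (.inl j) 1) z +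
      ρ * (nz + ζ - κ) + s * (nz + ζ) = U2 := h1
    have h3 : pC P x (Pi.single (.inl j) 1) z = 0 := by
      unfold pC
      simp [hzr]
    rw [h3, hnz1, hζ0, hκ0, hs0, hj] at h2
    linarith
  have hz3 : ∀ b, z (.inl b) = 1 / 3 := by
    have e1 : z (.inl 0) = z (.inl 1) := by
      have h1 := hzb 0; have h2 := hzb 1
      have : n * (z (.inl 0) - z (.inl 1)) = 0 := by linarith
      rcases mul_eq_zero.1 this with h | h
      · exact absurd h hnpos.ne'
      · linarith
    have e2 : z (.inl 1) = z (.inl 2) := by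
      have h1 := hzb 1; have h2 := hzb 2
      have : n * (z (.inl 1) - z (.inl 2)) = 0 := by linarith
      rcases mul_eq_zero.1 this with h | h
      · exact absurd h hnpos.ne'
      · linarith
    have e3 : z (.inl 0) + z (.inl 1) + z (.inl 2) = 1 := by
      have := hnz1
      rw [hnz_def] at this
      unfold nrm at this
      rw [Fin.sum_univ_three] at this
      exact this
    intro b
    fin_cases b
    · change z (.inl 0) = 1 / 3; linarith
    · change z (.inl 1) = 1 / 3; linarith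
    · change z (.inl 2) = 1 / 3; linarith
  have hyb3 : ∀ b, yb blk y b = 1 / 3 := by
    have hb : ∀ b, n * (1 - yb blk y b) = U3 := fun b => v3b' b (by rw [hz3 b]; norm_num)
    have e1 : yb blk y 0 = yb blk y 1 := by
      have h1 := hb 0; have h2 := hb 1
      have : n * (yb blk y 0 - yb blk y 1) = 0 := by linarith
      rcases mul_eq_zero.1 this with h | h
      · exact absurd h hnpos.ne'
      · linarith
    have e2 : yb blk y 1 = yb blk y 2 := by
      have h1 := hb 1; have h2 := hb 2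
      have : n * (yb blk y 1 - yb blk y 2) = 0 := by linarith
      rcases mul_eq_zero.1 this with h | h
      · exact absurd h hnpos.ne'
      · linarith
    have e3 := gn_yb_sum blk y
    rw [← hny_def, hny1] at e3
    intro b
    fin_cases b
    · change yb blk y 0 = 1 / 3; linarith
    · change yb blk y 1 = 1 / 3; linarith
    · change yb blk y 2 = 1 / 3; linarith
  have hU3n : U3 = n * (2 / 3) := by
    rw [← v3b' b0 hb0z, hyb3]; ring
  refine ⟨fun i => n⁻¹ * x (.inl i), ⟨fun i => mul_nonneg (inv_nonneg.2 hn) (hx0 _), ?_⟩,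
    fun j => y (.inl j), ⟨fun j => hy0 _, ?_⟩, fun b => hyb3 b, ?_, ?_⟩
  · rw [← Finset.mul_sum]
    have : ∑ i, x (.inl i) = n := rfl
    rw [this, inv_mul_cancel₀ hnpos.ne']
  · have := hny1
    rw [hny_def] at this
    unfold nrm at this
    exact this
  · intro c
    rw [gn_mass_smul]
    have h1 := v3c c
    have h3 : 0 ≤ ρ * (if st c then (1 : ℝ) else 0) := by split_ifs <;> simp [hρpos.le]
    rw [hU3n] at h1
    rw [inv_mul_le_iff₀ hnpos]
    linarith
  · intro c hc
    rw [gn_mass_smul]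
    have h1 := v3c c
    rw [if_pos hc, hU3n] at h1
    rw [inv_mul_lt_iff₀ hnpos]
    linarith

end Pool.Agent.ERG
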