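import Mathlib
import Pool.Agent.ERG.GEx
import Pool.Agent.ERG.GNash

/-!
# The coded game
-/

namespace Pool.Agent.ERG

open Finset

section
variable {A B C A' B' C' : Type} [Fintype A] [Fintype B] [Fintype C] [Fintype A'] [Fintype B']
  [Fintype C']

private theorem EU_comp (e : A' ≃ A) (f : B' ≃ B) (g : C' ≃ C) (u : A → B → C → Bool)
    (x : A → ℝ) (y : B → ℝ) (z : C → ℝ) :
    EU (fun i j k => u (e i) (f j) (g k)) (fun i => x (e i)) (fun j => y (f j)) (fun k => z (g k)) =
      EU u x y z := by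
  unfold EU
  rw [← Equiv.sum_comp e]
  refine Finset.sum_congr rfl fun i _ => ?_
  rw [← Equiv.sum_comp f]
  refine Finset.sum_congr rfl fun j _ => ?_
  rw [← Equiv.sum_comp g]

private theorem simplex_comp (e : A' ≃ A) {x : A → ℝ} (hx : x ∈ stdSimplex ℝ A) :
    (fun i => x (e i)) ∈ stdSimplex ℝ A' := by
  refine ⟨fun i => hx.1 (e i), ?_⟩
  rw [Equiv.sum_comp e x]
  exact hx.2

private theorem simplex_symm (e : A' ≃ A) {x : A' → ℝ} (hx : x ∈ stdSimplex ℝ A') :
    ∃ x' ∈ stdSimplex ℝ A, x = fun i => x' (e i) :=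
  ⟨fun a => x (e.symm a), simplex_comp e.symm hx, by ext i; simp⟩

private theorem hasPONE_comp (e : A' ≃ A) (f : B' ≃ B) (g : C' ≃ C) (u : Fin 3 → A → B → C → Bool)
    (h : HasPONE u) : HasPONE (fun p i j k => u p (e i) (f j) (g k)) := by
  obtain ⟨x, y, z, ⟨⟨hx, hy, hz⟩, h0, h1, h2⟩, hpo⟩ := h
  refine ⟨fun i => x (e i), fun j => y (f j), fun k => z (g k),
    ⟨⟨simplex_comp e hx, simplex_comp f hy, simplex_comp g hz⟩, ?_, ?_, ?_⟩, ?_⟩
  · intro x' hx'
    obtain ⟨x'', hx'', rfl⟩ := simplex_symm e hx'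
    rw [EU_comp e f g (u 0), EU_comp e f g (u 0)]
    exact h0 x'' hx''
  · intro y' hy'
    obtain ⟨y'', hy'', rfl⟩ := simplex_symm f hy'
    rw [EU_comp e f g (u 1), EU_comp e f g (u 1)]
    exact h1 y'' hy''
  · intro z' hz'
    obtain ⟨z'', hz'', rfl⟩ := simplex_symm g hz'
    rw [EU_comp e f g (u 2), EU_comp e f g (u 2)]
    exact h2 z'' hz''
  · rintro ⟨x', hx', y', hy', z', hz', h3, p, h4⟩
    obtain ⟨x'', hx'', rfl⟩ := simplex_symm e hx'
    obtain ⟨y'', hy'', rfl⟩ := simplex_symm f hy'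
    obtain ⟨z'', hz'', rfl⟩ := simplex_symm g hz'
    refine hpo ⟨x'', hx'', y'', hy'', z'', hz'', fun p => ?_, p, ?_⟩
    · have := h3 p
      rwa [EU_comp e f g (u p), EU_comp e f g (u p)] at this
    · rwa [EU_comp e f g (u p), EU_comp e f g (u p)] at h4

/-- Renaming of strategies. -/
theorem hasPONE_equiv (e : A' ≃ A) (f : B' ≃ B) (g : C' ≃ C) (u : Fin 3 → A → B → C → Bool) :
    HasPONE (fun p i j k => u p (e i) (f j) (g k)) ↔ HasPONE u := by
  constructor
  · intro h
    have h1 := hasPONE_comp e.symm f.symm g.symm _ h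
    simpa using h1
  · exact hasPONE_comp e f g u

end

private theorem cblk_val (k j : ℕ) : ((cblk k j : Fin 3) : ℕ) = blkN k j := by
  unfold cblk blkN
  split_ifs <;> rfl

private theorem cblk_eq_iff (k j : ℕ) (b : Fin 3) : cblk k j = b ↔ blkN k j = (b : ℕ) := by
  rw [← cblk_val]
  exact Fin.ext_iff

private theorem cblk_eq_iff1 (k j : ℕ) (b : Fin 3) : cblk k j = b + 1 ↔ blkN k j = ((b : ℕ) + 1) % 3 := by
  rw [cblk_eq_iff, Fin.val_add]
  rfl

private theorem cblk_eq_iff2 (k j : ℕ) (b : Fin 3) : cblk k j = b + 2 ↔ blkN k j = ((b : ℕ) + 2) % 3 := by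
  rw [cblk_eq_iff, Fin.val_add]
  rfl

private theorem cell_eq (k E : ℕ) (q : ℕ → ℕ → ℕ) (p : Fin 3) (i : Fin (2 * k + 3) ⊕ Fin 4)
    (j : Fin (2 * k + 4) ⊕ Fin 1) (l : Fin 3 ⊕ Fin (nC k E)) :
    (cgame k E q).u p (finSumFinEquiv i) (finSumFinEquiv j) (finSumFinEquiv l) =
      gpay (fun j : Fin (2 * k + 4) => cblk k j) (fun (c : Fin (nC k E)) (i : Fin (2 * k + 3)) j =>
        cP k q c i j) (fun c => (c : ℕ) = 0) p i j l := by
  classical
  show decide (cpay k q p (finSumFinEquiv i) (finSumFinEquiv j) (finSumFinEquiv l)) = _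
  rcases i with i | i
  · have hi : ((finSumFinEquiv (Sum.inl i : Fin (2 * k + 3) ⊕ Fin 4) : Fin (2 * k + 3 + 4)) : ℕ) = i := by
      rw [finSumFinEquiv_apply_left]; rfl
    rcases j with j | j
    · have hj : ((finSumFinEquiv (Sum.inl j : Fin (2 * k + 4) ⊕ Fin 1) : Fin (2 * k + 4 + 1)) : ℕ) = j := by
        rw [finSumFinEquiv_apply_left]; rfl
      rcases l with l | l
      · have hl : ((finSumFinEquiv (Sum.inl l : Fin 3 ⊕ Fin (nC k E)) : Fin (3 + nC k E)) : ℕ) = l := by
          rw [finSumFinEquiv_apply_left]; rfl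
        unfold cpay gpay out
        rw [hi, hj, hl, if_pos i.2, if_pos j.2, if_pos l.2]
        simp only [cblk_eq_iff]
        split_ifs <;> fin_cases p <;> simp
      · have hl : ((finSumFinEquiv (Sum.inr l : Fin 3 ⊕ Fin (nC k E)) : Fin (3 + nC k E)) : ℕ) = 3 + l := by
          rw [finSumFinEquiv_apply_right]; rfl
        unfold cpay gpay out
        rw [hi, hj, hl, if_pos i.2, if_pos j.2, if_neg (by omega)]
        have h3 : 3 + (l : ℕ) - 3 = l := by omega
        rw [h3]
        dsimp only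
        by_cases h : cP k q l i j
        · fin_cases p <;> simp [h]
        · fin_cases p <;> simp [h]
    · have hj : ((finSumFinEquiv (Sum.inr j : Fin (2 * k + 4) ⊕ Fin 1) : Fin (2 * k + 4 + 1)) : ℕ) = 2 * k + 4 := by
        rw [finSumFinEquiv_apply_right, Fin.natAdd]
        simp
      unfold cpay gpay out
      rw [hi, hj, if_pos i.2, if_neg (by omega)]
      rcases l with l | l <;> fin_cases p <;> simp
  · have hi : ((finSumFinEquiv (Sum.inr i : Fin (2 * k + 3) ⊕ Fin 4) : Fin (2 * k + 3 + 4)) : ℕ) = 2 * k + 3 + i := by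
      rw [finSumFinEquiv_apply_right]; rfl
    rcases j with j | j
    · have hj : ((finSumFinEquiv (Sum.inl j : Fin (2 * k + 4) ⊕ Fin 1) : Fin (2 * k + 4 + 1)) : ℕ) = j := by
        rw [finSumFinEquiv_apply_left]; rfl
      have hj2 : (j : ℕ) < 2 * k + 4 := j.2
      rcases l with l | l
      · have hl : ((finSumFinEquiv (Sum.inl l : Fin 3 ⊕ Fin (nC k E)) : Fin (3 + nC k E)) : ℕ) = l := by
          rw [finSumFinEquiv_apply_left]; rfl
        unfold cpay gpay out
        rw [hi, hj, hl]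
        have hl2 : (l : ℕ) < 3 := l.2
        simp only [hj2, hl2, if_true]
        fin_cases i
        · simp only [cblk_eq_iff]
          by_cases h : blkN k j = l <;> fin_cases p <;> simp [h]
        · fin_cases p <;> simp
        · simp only [cblk_eq_iff1]
          by_cases h : blkN k j = ((l : ℕ) + 1) % 3 <;> fin_cases p <;> simp [h]
        · simp only [cblk_eq_iff2]
          by_cases h : blkN k j = ((l : ℕ) + 2) % 3 <;> fin_cases p <;> simp [h]
      · have hl : ((finSumFinEquiv (Sum.inr l : Fin 3 ⊕ Fin (nC k E)) : Fin (3 + nC k E)) : ℕ) = 3 + l := by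
          rw [finSumFinEquiv_apply_right]; rfl
        unfold cpay gpay out
        rw [hi, hj, hl]
        have hl2 : ¬ (3 + (l : ℕ) < 3) := by omega
        have hl3 : (3 + (l : ℕ) = 3) ↔ (l : ℕ) = 0 := by omega
        simp only [hj2, hl2, hl3, if_true, if_false]
        fin_cases i
        · by_cases h : (l : ℕ) = 0 <;> fin_cases p <;> simp [h]
        · fin_cases p <;> simp
        · fin_cases p <;> simp
        · fin_cases p <;> simp
    · have hj : ((finSumFinEquiv (Sum.inr j : Fin (2 * k + 4) ⊕ Fin 1) : Fin (2 * k + 4 + 1)) : ℕ) = 2 * k + 4 := by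
        rw [finSumFinEquiv_apply_right, Fin.natAdd]
        simp
      have hj2 : ¬ (2 * k + 4 < 2 * k + 4) := by omega
      rcases l with l | l
      · have hl : ((finSumFinEquiv (Sum.inl l : Fin 3 ⊕ Fin (nC k E)) : Fin (3 + nC k E)) : ℕ) = l := by
          rw [finSumFinEquiv_apply_left]; rfl
        unfold cpay gpay out
        rw [hi, hj, hl]
        have hl2 : (l : ℕ) = 0 ↔ l = 0 := by
          rw [Fin.ext_iff]; rfl
        simp only [hj2, hl2, if_false]
        fin_cases i
        · fin_cases p <;> simp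
        · by_cases h : l = 0 <;> fin_cases p <;> simp [h]
        · fin_cases p <;> simp
        · fin_cases p <;> simp
      · have hl : ((finSumFinEquiv (Sum.inr l : Fin 3 ⊕ Fin (nC k E)) : Fin (3 + nC k E)) : ℕ) = 3 + l := by
          rw [finSumFinEquiv_apply_right]; rfl
        unfold cpay gpay out
        rw [hi, hj, hl]
        have hl2 : ¬ (3 + (l : ℕ) = 0) := by omega
        simp only [hj2, hl2, if_false]
        fin_cases i
        · fin_cases p <;> simp
        · fin_cases p <;> simp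
        · fin_cases p <;> simp
        · fin_cases p <;> simp

/-- The coded game has a Pareto optimal Nash equilibrium if and only if the coded matrices are
feasible. -/
theorem cgame_iff (k E : ℕ) (q : ℕ → ℕ → ℕ) (hk : 0 < k) :
    HasPONE (cgame k E q).u ↔ CFeas k E q := by
  have h1 := hasPONE_equiv (finSumFinEquiv : Fin (2 * k + 3) ⊕ Fin 4 ≃ Fin (2 * k + 3 + 4))
    (finSumFinEquiv : Fin (2 * k + 4) ⊕ Fin 1 ≃ Fin (2 * k + 4 + 1))
    (finSumFinEquiv : Fin 3 ⊕ Fin (nC k E) ≃ Fin (3 + nC k E)) (cgame k E q).u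
  refine Iff.trans h1.symm ?_
  have h2 : (fun p i j l => (cgame k E q).u p (finSumFinEquiv i) (finSumFinEquiv j) (finSumFinEquiv l)) =
      gpay (fun j : Fin (2 * k + 4) => cblk k j) (fun (c : Fin (nC k E)) (i : Fin (2 * k + 3)) j =>
        cP k q c i j) (fun c => (c : ℕ) = 0) := by
    funext p i j l
    exact cell_eq k E q p i j l
  rw [h2]
  constructor
  · intro h
    haveI : Nonempty (Fin (2 * k + 3)) := ⟨⟨0, by omega⟩⟩
    refine feas_of_pone _ _ _ ?_ ?_ h
    · intro b
      fin_cases b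
      · refine ⟨⟨2 * k + 3, by omega⟩, ?_⟩
        simp [cblk]
      · refine ⟨⟨0, by omega⟩, ?_⟩
        simp [cblk]
      · refine ⟨⟨3, by omega⟩, ?_⟩
        have : ¬ (3 = 2 * k + 3) := by omega
        simp [cblk, this]
        omega
    · exact ⟨⟨0, by unfold nC; omega⟩, rfl⟩
  · intro h
    exact pone_of_feas _ _ _ h

end Pool.Agent.ERG
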