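import Mathlib
import Pool.Agent.ERG.Trans
import Pool.Agent.ERG.Gadget
import Pool.Agent.ERG.Sem
import Pool.Agent.ERG.Parse
import Pool.Agent.ERG.PTok
import Pool.Agent.ERG.PTab
import Pool.Agent.Lib.PolyTime.TMComp

/-!
# PONE-WL is `∃ℝ`-hard
-/

namespace Pool.Agent.ERG

open Finset Pool.Agent.PolyTime Pool.Agent.BCP

/-! ### Injectivity of the encoding -/

theorem fi_unary_cons (k : ℕ) (l : List ℕ) :
    unary (k :: l) = List.replicate k true ++ false :: unary l := by
  simp [unary]

theorem fi_cancel : ∀ {k k' : ℕ} {l l' : List Bool},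
    List.replicate k true ++ false :: l = List.replicate k' true ++ false :: l' →
      k = k' ∧ l = l'
  | 0, 0, l, l', h => by simpa using h
  | 0, k' + 1, l, l', h => by simp [List.replicate_succ] at h
  | k + 1, 0, l, l', h => by simp [List.replicate_succ] at h
  | k + 1, k' + 1, l, l', h => by
      simp only [List.replicate_succ, List.cons_append, List.cons.injEq, true_and] at h
      have := fi_cancel h
      exact ⟨by rw [this.1], this.2⟩

theorem fi_flatMap_inj {α β : Type} {f g : α → List β} : ∀ {l : List α},
    (∀ a ∈ l, (f a).length = (g a).length) → l.flatMap f = l.flatMap g → ∀ a ∈ l, f a = g a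
  | [], _, _ => by simp
  | a :: l, hl, h => by
      rw [List.flatMap_cons, List.flatMap_cons] at h
      obtain ⟨h1, h2⟩ := List.append_inj h (hl a (by simp))
      intro b hb
      rcases List.mem_cons.mp hb with rfl | hb
      · exact h1
      · exact fi_flatMap_inj (fun c hc => hl c (by simp [hc])) h2 b hb

theorem fi_len {n1 n2 n3 : ℕ} (u : Fin n1 → Fin n2 → Fin n3 → Bool) :
    (table u).length = n1 * (n2 * n3) := by
  unfold table
  simp [List.length_flatMap]

theorem fi_table_inj {n1 n2 n3 : ℕ} {u v : Fin n1 → Fin n2 → Fin n3 → Bool}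
    (h : table u = table v) : u = v := by
  funext i j k
  unfold table at h
  have h1 := fi_flatMap_inj (by intro a _; simp [List.length_flatMap]) h i (List.mem_finRange i)
  have h2 := fi_flatMap_inj (by intro a _; simp) h1 j (List.mem_finRange j)
  have h3 := List.map_inj_left.mp h2 k (List.mem_finRange k)
  exact h3

/-- Equal codes, equivalent games. -/
theorem enc_inj (G H : WLGame) (h : G.enc = H.enc) : HasPONE G.u ↔ HasPONE H.u := by
  obtain ⟨a1, a2, a3, p1, p2, p3, u⟩ := G
  obtain ⟨b1, b2, b3, q1, q2, q3, v⟩ := H
  unfold WLGame.enc at h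
  simp only [fi_unary_cons, List.append_assoc, List.cons_append] at h
  obtain ⟨rfl, h⟩ := fi_cancel h
  obtain ⟨rfl, h⟩ := fi_cancel h
  obtain ⟨rfl, h⟩ := fi_cancel h
  simp only [List.append_cancel_left_eq] at h
  obtain ⟨h0, h⟩ := List.append_inj h (by rw [fi_len, fi_len])
  obtain ⟨h1, h2⟩ := List.append_inj h (by rw [fi_len, fi_len])
  have : u = v := by
    funext p
    fin_cases p
    · exact fi_table_inj h0
    · exact fi_table_inj h1
    · exact fi_table_inj h2
  rw [this]

theorem fi_enc_ne (G : WLGame) : G.enc ≠ [] := by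
  unfold WLGame.enc
  simp [fi_unary_cons]

/-! ### The reduction -/

open Classical in
/-- The reduction. -/
noncomputable def red (x : List Bool) : List Bool :=
  if IsUn x ∧ WF (num x) (zeros x x.length) then
    (cgame (kF x.length (zeros x x.length)) (eF (zeros x x.length))
      (qF x.length (zeros x x.length) (num x))).enc
  else []

theorem fi_pfBits_of_PL {f : List Bool → List Bool} (h : PL (fun x (_ : Unit) => f x)) :
    PFBits f := by
  obtain ⟨L, P, hL, ⟨B, hB, hPB⟩, hf⟩ := h
  refine ⟨fun x => L x (), fun x i => B x ((), i), hL, hB, fun x => ?_⟩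
  refine (hf x ()).trans ?_
  apply List.map_congr_left
  intro i _
  have := hPB x ((), i)
  by_cases h : P x ((), i)
  · have h' := this.mp h
    simp [h, h']
  · have h' : B x ((), i) = 0 := by
      by_contra h0
      exact h (this.mpr h0)
    simp [h, h']

theorem red_poly : Nonempty (Turing.TM2ComputableInPolyTime (id : List Bool → List Bool)
      (id : List Bool → List Bool) red) := by
  classical
  apply PFBits.polyTime
  apply fi_pfBits_of_PL
  have hz : PF (fun x (_ : Unit) => zeros x x.length) := PA_pf_zeros PF.len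
  refine PL.congr (PL.ite (P := fun x (_ : Unit) => IsUn x ∧ WF (num x) (zeros x x.length))
    (PA_pd_isUn.and pd_WF) (pl_cgame (k := fun x => kF x.length (zeros x x.length))
      (E := fun x => eF (zeros x x.length))
      (q := fun x => qF x.length (zeros x x.length) (num x)) ?_ ?_ ?_) PL.nil) ?_
  · unfold kF
    exact (((PF.const 2).add PF.len).add ((PF.const 8).mul hz))
  · unfold eF
    exact (PF.const 2).add ((PF.const 9).mul hz)
  · exact pf_qF (F := fun x (p : (Unit × ℕ) × ℕ) => p.1.2) (G := fun x p => p.2) PF.snd.fst PF.snd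
  · intro x _
    unfold red
    split_ifs <;> rfl

theorem fi_num (l : List ℕ) : num (unary l) = fun p => l.getD p 0 := funext (num_unary l)

theorem fi_mem_lt {l : List ℕ} {t : ℕ} (h : t ∈ l) : t < 12 + (unary l).length := by
  have : t < (unary l).length := by
    induction l with
    | nil => simp at h
    | cons a l ih =>
      rw [fi_unary_cons, List.length_append, List.length_replicate, List.length_cons]
      rcases List.mem_cons.mp h with rfl | h
      · omega
      · have := ih h; omega
  omega

/-- The reduction on the code of a formula. -/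
theorem fi_red (φ : Fm) : HasPONE (cgame (kF (unary φ.toks).length φ.toks.length)
    (eF φ.toks.length) (qF (unary φ.toks).length φ.toks.length (fun p => φ.toks.getD p 0))).u ↔
      ∃ x : ℕ → ℝ, φ.Holds x := by
  have hN : ∀ t ∈ φ.toks, t < 12 + (unary φ.toks).length := fun t ht => fi_mem_lt ht
  rw [cgame_iff _ _ _ (by unfold kF; omega), cfeas_iff _ _ _ (by unfold kF; omega)
    (qF_lt φ _ hN), sem_iff φ _ hN]

theorem red_iff (w : List Bool) : w ∈ ETR ↔ red w ∈ PONEWL := by
  classical
  constructor
  · rintro ⟨φ, rfl, h⟩
    have h1 : IsUn (unary φ.toks) := PA_isUn_unary _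
    have h2 := (wf_iff φ.toks).mpr ⟨φ, rfl⟩
    have h3 : red (unary φ.toks) = (cgame (kF (unary φ.toks).length φ.toks.length)
        (eF φ.toks.length) (qF (unary φ.toks).length φ.toks.length
          (fun p => φ.toks.getD p 0))).enc := by
      unfold red
      rw [zeros_unary, fi_num, if_pos ⟨h1, h2⟩]
    rw [h3]
    exact ⟨_, rfl, (fi_red φ).mpr h⟩
  · rintro ⟨G, hG, h⟩
    unfold red at hG
    split_ifs at hG with hc
    · obtain ⟨h1, h2⟩ := hc
      have h3 := unary_of_isUn h1
      set l := (List.range (zeros w w.length)).map (num w) with hl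
      have h4 : zeros w w.length = l.length := by rw [hl]; simp
      have h5 : num w = fun p => l.getD p 0 := by
        rw [h3]; exact fi_num l
      rw [h4, h5] at h2
      obtain ⟨φ, hφ⟩ := (wf_iff l).mp h2
      refine ⟨φ, by rw [hφ]; exact h3, (fi_red φ).mp ?_⟩
      rw [← enc_inj _ _ hG] at h
      rw [h4, h5] at h
      rw [hφ, ← h3]
      exact h
    · exact absurd hG.symm (fi_enc_ne G)

theorem ponewl_hard : ExistsRealHard PONEWL := by
  rintro A ⟨f, hf, hA⟩
  exact ⟨fun x => red (f x), polyTime_comp hf red_poly, fun w => (hA w).trans (red_iff (f w))⟩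

end Pool.Agent.ERG
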