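import Pool.Agent.ERG.KapR

/-!
# ERG (no drift): the clock constants of the rescaled walks, all scales at once (helper10)

* `ExC` : deterministic constants `h n ρ ≍ ρ ^ (4 / 3)`, equicontinuous; with high probability `h n ρ * vb ρ γ u / ρ` is near `u`
  for all `u` and for all the small `ρ` at once; **`exC : ExC`**.
-/

set_option autoImplicit false

open Set Filter Topology MeasureTheory
open scoped ENNReal

namespace Pool.Agent.NPR

open HexObs hiding pos curve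
open HexObs.TIW HexObs.TS HexObs.SDN HexObs.NPR
open NTF (JJ JJ_norm JJ_sub JJ_neg JJ_add Hd Hd_iff sw)
open Pool.Agent.NTS.Res
open NTSF (rot om om_norm pos_rot rot_mem curve_eq)

/-- the curves with a bad clock at some scale between `ρ1` and `ρ0` -/
def Bk (h : ℝ → ℝ) (ρ1 ρ0 ε : ℝ) : Set C(unitInterval, ℂ) :=
  {γ | ∃ ρ, ρ1 < ρ ∧ ρ < ρ0 ∧ ∃ u : unitInterval, ε < |h ρ * vb ρ γ u / ρ - u|}

/-- **the clocks of the rescaled walks, all scales at once** -/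
def ExC : Prop := ∃ (c C : ℝ) (h : ℕ → ℝ → ℝ), 0 < c ∧ 0 < C ∧
  (∀ ρ1 : ℝ, 0 < ρ1 → ∃ n0 : ℕ, ∀ n : ℕ, n0 ≤ n → ∀ ρ : ℝ, ρ1 ≤ ρ →
    c * ρ ^ (4 / 3 : ℝ) ≤ h n ρ ∧ h n ρ ≤ C * ρ ^ (4 / 3 : ℝ)) ∧
  (∀ ρ1 : ℝ, 0 < ρ1 → ∃ n0 : ℕ, ∀ n : ℕ, n0 ≤ n → ∀ ρ ρ' : ℝ, ρ1 ≤ ρ → ρ ≤ ρ' → ρ' ≤ 2 * ρ →
    |h n ρ * ρ' - h n ρ' * ρ| ≤ C * (ρ' - ρ) * ρ ^ (4 / 3 : ℝ)) ∧
  ∀ ε : ℝ, 0 < ε → ∃ ρ0 : ℝ, 0 < ρ0 ∧ ∀ ρ1 : ℝ, 0 < ρ1 → ∃ n0 : ℕ, ∀ n : ℕ, n0 ≤ n →
    law n (Bk (h n) ρ1 ρ0 ε) ≤ ENNReal.ofReal ε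

namespace KapCx

lemma bk_rot {n : ℕ} (s : Fin n → Fin 3) (h : ℝ → ℝ) (ρ1 ρ0 ε : ℝ) :
    curve (rot s) ∈ Bk h ρ1 ρ0 ε ↔ curve s ∈ Bk h ρ1 ρ0 ε := by
  have e := fun ρ => vb_iso (γ := curve (rot s)) (γ' := curve s) (dist_rot s) ρ
  show (∃ ρ, _ ∧ _ ∧ ∃ u : unitInterval, _) ↔ ∃ ρ, _ ∧ _ ∧ ∃ u : unitInterval, _
  simp only [e]

/-- **one walk, one scale** -/
lemma one {n : ℕ} {t : List Bool} (hn : 1 ≤ n) (ht : t.length = n) {κ : ℝ → ℝ} {b ρ e : ℝ} (hρ : 0 < ρ)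
    (hR : 8 ≤ ρ * size n) (he : 0 < e) (he1 : e ≤ 1) (hen : 1 ≤ e * n) (hb : 1 ≤ b)
    (hκ0 : 0 < κ (ρ * size n)) (hκh0 : 0 < κ (ρ * size n / 2))
    (hκ : κ (ρ * size n) ≤ 4 * b ^ 2 * κ (ρ * size n / 2)) (hRe : 16 * b ^ 2 ≤ e * (ρ * size n))
    (h1 : ∀ k, k ≤ n → |κ (ρ * size n) * Vm (ρ * size n) (t.take k) - k| ≤ e * n)
    (h2 : |κ (ρ * size n / 2) * Vm (ρ * size n / 2) t - n| ≤ e * n) (v : unitInterval) :
    |κ (ρ * size n) / n * vb ρ (curve (sw n t)) v / ρ - v| ≤ 3 * e := by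
  have hn0 : (0 : ℝ) < n := by exact_mod_cast hn
  have hs := NTSF.size_pos hn
  obtain ⟨R, hRd⟩ : ∃ R, R = ρ * size n := ⟨_, rfl⟩
  rw [← hRd] at hR hκ0 hκh0 hκ hRe h1 h2 ⊢
  have hv0 : (0 : ℝ) ≤ v := v.2.1
  have hv1 : (v : ℝ) ≤ 1 := v.2.2
  have hR0 : 0 < R := by linarith
  -- the boundary term
  have hN : κ R * (Vz R (fun j => pos (sw n t) j) 0 n : ℝ) ≤ 8 * b ^ 2 * n := by
    have e1 := vz_take (n := n) (t := t) ht (k := n) le_rfl R
    have e2 : t.take n = t := List.take_of_length_le (by rw [ht])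
    rw [e2] at e1
    rw [e1]
    have h3 := KapV.Vz_le_Vm (R := R) (by linarith) t
    have h4 : κ (R / 2) * Vm (R / 2) t ≤ 2 * n := by
      have := (abs_le.1 h2).2
      have := mul_le_mul_of_nonneg_right he1 hn0.le
      linarith
    have h5 : 0 ≤ Vm (R / 2) t := (Vm_one (R := R / 2) (by linarith) t).trans' zero_le_one
    calc κ R * (Vz R (zw t) 0 t.length : ℝ) ≤ κ R * Vm (R / 2) t := mul_le_mul_of_nonneg_left h3 hκ0.le
      _ ≤ 4 * b ^ 2 * κ (R / 2) * Vm (R / 2) t := mul_le_mul_of_nonneg_right hκ h5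
      _ = 4 * b ^ 2 * (κ (R / 2) * Vm (R / 2) t) := by ring
      _ ≤ 4 * b ^ 2 * (2 * n) := mul_le_mul_of_nonneg_left h4 (by positivity)
      _ = _ := by ring
  have hkn : 0 < κ R / n := by positivity
  have eV : κ R / n * vb ρ (curve (sw n t)) v / ρ = κ R / n * (vb ρ (curve (sw n t)) v / ρ) := by ring
  rw [abs_le]
  constructor
  · -- lower bound
    obtain ⟨k, hk⟩ : ∃ k, k = ⌊(v : ℝ) * n⌋₊ := ⟨_, rfl⟩
    have k1 : (k : ℝ) ≤ v * n := by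
      rw [hk]
      exact Nat.floor_le (by positivity)
    have k2 : (v : ℝ) * n < k + 1 := by
      rw [hk]
      exact Nat.lt_floor_add_one _
    have k3 : k ≤ n := by
      have : (k : ℝ) ≤ n := k1.trans (by nlinarith)
      exact_mod_cast this
    have k4 : (k : ℝ) / n ≤ v := by
      rw [div_le_iff₀ hn0]
      exact k1
    have h3 := vb_dn (t := t) hn ht hρ (by rw [← hRd]; linarith) k3 k4
    rw [← hRd] at h3
    have h4 : Vm R (t.take k) - 2 / R * (Vz R (fun j => pos (sw n t) j) 0 n : ℝ) ≤ vb ρ (curve (sw n t)) v / ρ := by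
      rw [le_div_iff₀ hρ, sub_mul]
      have e3 : 2 / R * (Vz R (fun j => pos (sw n t) j) 0 n : ℝ) * ρ = 2 / size n * (Vz R (fun j => pos (sw n t) j) 0 n : ℝ) := by
        rw [hRd]
        field_simp
      rw [e3]
      linarith
    have h5 := mul_le_mul_of_nonneg_left h4 hkn.le
    have h6 := (abs_le.1 (h1 k k3)).1
    have e4 : κ R / n * (Vm R (t.take k) - 2 / R * (Vz R (fun j => pos (sw n t) j) 0 n : ℝ)) =
        (κ R * Vm R (t.take k)) / n - 2 / R * (κ R * (Vz R (fun j => pos (sw n t) j) 0 n : ℝ)) / n := by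
      ring
    rw [e4] at h5
    have h7 : ((k : ℝ) - e * n) / n ≤ (κ R * Vm R (t.take k)) / n := div_le_div_of_nonneg_right (by linarith) hn0.le
    have h8 : 2 / R * (κ R * (Vz R (fun j => pos (sw n t) j) 0 n : ℝ)) / n ≤ e := by
      rw [div_le_iff₀ hn0]
      have h9 : 2 / R * (κ R * (Vz R (fun j => pos (sw n t) j) 0 n : ℝ)) ≤ 2 / R * (8 * b ^ 2 * n) :=
        mul_le_mul_of_nonneg_left hN (by positivity)
      refine h9.trans ?_
      rw [div_mul_eq_mul_div, div_le_iff₀ hR0]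
      have := mul_le_mul_of_nonneg_right hRe hn0.le
      linarith
    have h10 : (v : ℝ) - 2 * e ≤ ((k : ℝ) - e * n) / n := by
      rw [le_div_iff₀ hn0]
      nlinarith
    rw [eV]
    linarith
  · -- upper bound
    obtain ⟨k, hk⟩ : ∃ k, k = ⌈(v : ℝ) * n⌉₊ := ⟨_, rfl⟩
    have k1 : (v : ℝ) * n ≤ k := by
      rw [hk]
      exact Nat.le_ceil _
    have k2 : (k : ℝ) < v * n + 1 := by
      rw [hk]
      exact Nat.ceil_lt_add_one (by positivity)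
    have k3 : k ≤ n := by
      rw [hk]
      refine Nat.ceil_le.2 ?_
      nlinarith
    have k4 : (v : ℝ) ≤ (k : ℝ) / n := by
      rw [le_div_iff₀ hn0]
      exact k1
    have h3 := vb_up (t := t) hn ht hρ (by rw [← hRd]; linarith) k3 k4
    rw [← hRd] at h3
    have h4 : vb ρ (curve (sw n t)) v / ρ ≤ Vm R (t.take k) := by
      rw [div_le_iff₀ hρ]
      linarith
    have h5 := mul_le_mul_of_nonneg_left h4 hkn.le
    have e4 : κ R / n * Vm R (t.take k) = (κ R * Vm R (t.take k)) / n := by ring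
    rw [e4] at h5
    have h6 := (abs_le.1 (h1 k k3)).2
    have h7 : (κ R * Vm R (t.take k)) / n ≤ ((k : ℝ) + e * n) / n := div_le_div_of_nonneg_right (by linarith) hn0.le
    have h10 : ((k : ℝ) + e * n) / n ≤ v + 2 * e := by
      rw [div_le_iff₀ hn0]
      nlinarith
    rw [eV]
    linarith

end KapCx

open KapCx KapV in
/-- **the clocks of the rescaled walks, all scales at once** -/
theorem exC_of (hE : NTSF.ConclE False) (hup : ∃ C : ℝ, ∀ k : ℕ, PW.mZ (2 ^ k) ≤ C * (2 : ℝ) ^ (4 / 3 * (k : ℝ)))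
    (hX : ExK) : ExC := by
  classical
  obtain ⟨c1, C1, hc1, hsz, -, -, -⟩ := hE
  obtain ⟨C', hup⟩ := hup
  obtain ⟨b, κ, hb, hκ, hnear, hX⟩ := hX
  have hC1 : 0 < C1 := by
    have h1 := (hsz 1 le_rfl).2
    have h2 := NTSF.size_pos (n := 1) le_rfl
    rw [Nat.cast_one, Real.one_rpow, mul_one] at h1
    linarith
  have hC' : 0 < C' := by
    have h1 := hup 0
    rw [Nat.cast_zero, mul_zero, Real.rpow_zero, mul_one] at h1
    exact (PW.mZ_pos (by norm_num)).trans_le h1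
  have hb0 : 0 < b := by linarith
  have ht : Tendsto (fun n : ℕ => (n : ℝ) ^ (3 / 4 : ℝ)) atTop atTop :=
    (tendsto_rpow_atTop (by norm_num)).comp tendsto_natCast_atTop_atTop
  -- the sizes are large
  have hbig : ∀ ρ1 S : ℝ, 0 < ρ1 → ∃ n0 : ℕ, ∀ n : ℕ, n0 ≤ n → 1 ≤ n ∧ ∀ ρ : ℝ, ρ1 ≤ ρ → S ≤ ρ * size n := by
    intro ρ1 S hρ1
    obtain ⟨n0, hn0⟩ := Filter.eventually_atTop.1 ((ht.eventually_ge_atTop (|S| / (ρ1 * c1))).and (eventually_ge_atTop 1))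
    refine ⟨n0, fun n hn => ?_⟩
    obtain ⟨h1, h2⟩ := hn0 n hn
    refine ⟨h2, fun ρ hρ => ?_⟩
    rw [div_le_iff₀ (by positivity)] at h1
    have h3 := (hsz n h2).1
    have h4 := mul_le_mul hρ h3 (by positivity) (by linarith)
    have h5 := le_abs_self S
    linarith
  -- the powers
  have hp43 : ∀ n : ℕ, 1 ≤ n → c1 ^ (4 / 3 : ℝ) * n ≤ size n ^ (4 / 3 : ℝ) ∧ size n ^ (4 / 3 : ℝ) ≤ C1 ^ (4 / 3 : ℝ) * n := by
    intro n hn
    obtain ⟨h1, h2⟩ := hsz n hn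
    have hn0 : (0 : ℝ) < n := by exact_mod_cast hn
    have e : ((n : ℝ) ^ (3 / 4 : ℝ)) ^ (4 / 3 : ℝ) = n := by
      rw [← Real.rpow_mul hn0.le]
      norm_num
    have h3 := Real.rpow_le_rpow (by positivity) h1 (show (0 : ℝ) ≤ 4 / 3 by norm_num)
    have h4 := Real.rpow_le_rpow (NTSF.size_pos hn).le h2 (show (0 : ℝ) ≤ 4 / 3 by norm_num)
    rw [Real.mul_rpow hc1.le (by positivity), e] at h3
    rw [Real.mul_rpow hC1.le (by positivity), e] at h4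
    exact ⟨h3, h4⟩
  obtain ⟨cc, hcc⟩ : ∃ cc : ℝ, cc = c1 ^ (4 / 3 : ℝ) / b := ⟨_, rfl⟩
  obtain ⟨CC, hCC⟩ : ∃ CC : ℝ, CC = b * C1 ^ (4 / 3 : ℝ) := ⟨_, rfl⟩
  have hcc0 : 0 < cc := by
    rw [hcc]
    positivity
  have hCC0 : 0 < CC := by
    rw [hCC]
    positivity
  refine ⟨cc, CC, fun n ρ => κ (ρ * size n) / n, hcc0, hCC0, fun ρ1 hρ1 => ?_, fun ρ1 hρ1 => ?_, fun ε hε => ?_⟩
  · obtain ⟨n0, hn0⟩ := hbig ρ1 2 hρ1
    refine ⟨n0, fun n hn ρ hρ => ?_⟩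
    obtain ⟨hn1, h1⟩ := hn0 n hn
    have hnn : (0 : ℝ) < n := by exact_mod_cast hn1
    have hs := NTSF.size_pos hn1
    have hρ0 : 0 < ρ := by linarith
    obtain ⟨-, k2, k3⟩ := hκ _ (h1 ρ hρ)
    obtain ⟨p1, p2⟩ := hp43 n hn1
    rw [Real.mul_rpow hρ0.le hs.le] at k2 k3
    have hp : 0 < ρ ^ (4 / 3 : ℝ) := by positivity
    constructor
    · rw [le_div_iff₀ hnn, hcc]
      have h2 : ρ ^ (4 / 3 : ℝ) * (c1 ^ (4 / 3 : ℝ) * n) ≤ b * κ (ρ * size n) :=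
        (mul_le_mul_of_nonneg_left p1 hp.le).trans k2
      calc c1 ^ (4 / 3 : ℝ) / b * ρ ^ (4 / 3 : ℝ) * n = ρ ^ (4 / 3 : ℝ) * (c1 ^ (4 / 3 : ℝ) * n) / b := by ring
        _ ≤ κ (ρ * size n) := by
            rw [div_le_iff₀ hb0]
            linarith
    · rw [div_le_iff₀ hnn, hCC]
      calc κ (ρ * size n) ≤ b * (ρ ^ (4 / 3 : ℝ) * size n ^ (4 / 3 : ℝ)) := k3
        _ ≤ b * (ρ ^ (4 / 3 : ℝ) * (C1 ^ (4 / 3 : ℝ) * n)) :=
            mul_le_mul_of_nonneg_left (mul_le_mul_of_nonneg_left p2 hp.le) hb0.le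
        _ = _ := by ring
  · obtain ⟨n0, hn0⟩ := hbig ρ1 4 hρ1
    refine ⟨n0, fun n hn ρ ρ' hρ h2 h3 => ?_⟩
    obtain ⟨hn1, h1⟩ := hn0 n hn
    have hnn : (0 : ℝ) < n := by exact_mod_cast hn1
    have hs := NTSF.size_pos hn1
    have hρ0 : 0 < ρ := by linarith
    obtain ⟨p1, p2⟩ := hp43 n hn1
    have k1 := hnear (ρ * size n) (ρ' * size n) (h1 ρ hρ) (mul_le_mul_of_nonneg_right h2 hs.le)
      (by rw [← mul_assoc]; exact mul_le_mul_of_nonneg_right h3 hs.le)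
    rw [Real.mul_rpow hρ0.le hs.le] at k1
    have hp : 0 < ρ ^ (4 / 3 : ℝ) := by positivity
    have e1 : κ (ρ * size n) * (ρ' * size n) - κ (ρ' * size n) * (ρ * size n) =
        (κ (ρ * size n) / n * ρ' - κ (ρ' * size n) / n * ρ) * (n * size n) := by
      field_simp
    rw [e1, abs_mul, abs_of_pos (show 0 < (n : ℝ) * size n by positivity)] at k1
    have k2 : b * (ρ' * size n - ρ * size n) * (ρ ^ (4 / 3 : ℝ) * size n ^ (4 / 3 : ℝ)) ≤
        (CC * (ρ' - ρ) * ρ ^ (4 / 3 : ℝ)) * (n * size n) := by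
      rw [hCC]
      have h4 : 0 ≤ ρ' * size n - ρ * size n := by
        rw [← sub_mul]
        exact mul_nonneg (by linarith) hs.le
      calc b * (ρ' * size n - ρ * size n) * (ρ ^ (4 / 3 : ℝ) * size n ^ (4 / 3 : ℝ)) ≤
            b * (ρ' * size n - ρ * size n) * (ρ ^ (4 / 3 : ℝ) * (C1 ^ (4 / 3 : ℝ) * n)) :=
            mul_le_mul_of_nonneg_left (mul_le_mul_of_nonneg_left p2 hp.le) (mul_nonneg hb0.le h4)
        _ = _ := by ring
    exact le_of_mul_le_mul_right (k1.trans k2) (by positivity)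
  -- the law of large numbers
  obtain ⟨e, he⟩ : ∃ e, e = min ε 1 / 6 := ⟨_, rfl⟩
  have hmin : 0 < min ε 1 := lt_min hε one_pos
  have he0 : 0 < e := by
    rw [he]
    positivity
  have he1 : e ≤ 1 := by
    have := min_le_right ε 1
    linarith
  have he2 : 6 * e ≤ ε := by
    have := min_le_left ε 1
    linarith
  obtain ⟨d, hN⟩ := hX e he0
  obtain ⟨bb, hbb⟩ : ∃ bb : ℝ, bb = (1 / C') ^ (3 / 4 : ℝ) / 2 := ⟨_, rfl⟩
  have hbb0 : 0 < bb := by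
    rw [hbb]
    positivity
  refine ⟨bb / (C1 * 2 ^ d), by positivity, fun ρ1 hρ1 => ?_⟩
  obtain ⟨n2, hn2⟩ := hbig ρ1 (max 8 (16 * b ^ 2 / e)) hρ1
  obtain ⟨n3, hn3⟩ := Filter.eventually_atTop.1 ((tendsto_natCast_atTop_atTop (R := ℝ)).eventually_ge_atTop
      (max (1 / e) (PW.mZ (2 ^ 0))))
  refine ⟨max n2 n3, fun n hn => ?_⟩
  obtain ⟨hn1, hbg⟩ := hn2 n (le_of_max_le_left hn)
  have h3 := hn3 n (le_of_max_le_right hn)
  have hn0' : (0 : ℝ) < n := by exact_mod_cast hn1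
  have hs := NTSF.size_pos hn1
  have hen : 1 ≤ e * n := by
    have := le_of_max_le_left h3
    rw [div_le_iff₀ he0] at this
    linarith
  obtain ⟨k, hk⟩ := sc_ex0 (le_of_max_le_right h3)
  have hP := hN k n hk
  obtain ⟨X, hX'⟩ : ∃ X : Set (List Bool), X = {t | ¬ ∀ R : ℝ, 4 ≤ R → R * 2 ^ d ≤ 2 ^ k → ∀ x y : ℕ, x ≤ y →
    y ≤ t.length → |κ R * Vm R (wd t x y) - ((y : ℝ) - x)| ≤ e * n} := ⟨_, rfl⟩
  rw [← hX'] at hP
  have hrd : ∀ ρ : ℝ, 0 < ρ → ρ < bb / (C1 * 2 ^ d) → ρ * size n * 2 ^ d ≤ 2 ^ k := by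
    intro ρ hρ hρ0
    have h4 : (n : ℝ) ≤ C' * (2 : ℝ) ^ (4 / 3 * ((k + 1 : ℕ) : ℝ)) := hk.2.le.trans (hup (k + 1))
    have h5 : (1 / C') * (n : ℝ) ≤ (2 : ℝ) ^ (4 / 3 * ((k + 1 : ℕ) : ℝ)) := by
      rw [one_div_mul_eq_div, div_le_iff₀ hC']
      linarith
    have h6 := Real.rpow_le_rpow (by positivity) h5 (show (0 : ℝ) ≤ 3 / 4 by norm_num)
    have h43 : ((2 : ℝ) ^ (4 / 3 * ((k + 1 : ℕ) : ℝ))) ^ (3 / 4 : ℝ) = 2 ^ (k + 1) := by
      rw [← Real.rpow_mul (by norm_num), ← Real.rpow_natCast]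
      congr 1
      ring
    rw [h43, Real.mul_rpow (by positivity) hn0'.le, pow_succ] at h6
    have h7 : bb * (n : ℝ) ^ (3 / 4 : ℝ) ≤ 2 ^ k := by
      rw [hbb]
      linarith
    refine le_trans ?_ h7
    have hp : 0 ≤ (n : ℝ) ^ (3 / 4 : ℝ) := by positivity
    rw [lt_div_iff₀ (by positivity)] at hρ0
    calc ρ * size n * 2 ^ d ≤ (ρ * (C1 * (n : ℝ) ^ (3 / 4 : ℝ))) * 2 ^ d :=
          mul_le_mul_of_nonneg_right (mul_le_mul_of_nonneg_left (hsz n hn1).2 hρ.le) (by positivity)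
      _ = (ρ * (C1 * 2 ^ d)) * (n : ℝ) ^ (3 / 4 : ℝ) := by ring
      _ ≤ _ := mul_le_mul_of_nonneg_right hρ0.le hp
  show law n (Bk (fun ρ => κ (ρ * size n) / n) ρ1 (bb / (C1 * 2 ^ d)) ε) ≤ ENNReal.ofReal ε
  refine NTSF.law_le hε.le ?_
  obtain ⟨P, hPd⟩ : ∃ P : (Fin n → Fin 3) → Prop, P = fun s => curve s ∈ Bk (fun ρ => κ (ρ * size n) / n) ρ1
    (bb / (C1 * 2 ^ d)) ε := ⟨_, rfl⟩
  have hPr : ∀ s, P (rot s) ↔ P s := by
    intro s
    rw [hPd]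
    exact bk_rot s _ _ _ _
  have c1 := NTSF.card_saw (n := n) hn1 P hPr
  have c2 : 2 * (saw n).card = 3 * cS n := by
    have := NTSF.card_saw (n := n) hn1 (fun _ => True) (fun _ => Iff.rfl)
    rw [Finset.filter_true_of_mem (fun _ _ => trivial)] at this
    rw [this]
    congr 2
    ext t
    exact ⟨fun h => h.1, fun h => ⟨h, trivial⟩⟩
  have c3 : {t | t ∈ SawN n ∧ P (sw n t)}.ncard ≤ {t | t ∈ SawN n ∧ t ∈ X}.ncard := by
    refine Set.ncard_le_ncard ?_ ((List.finite_length_eq Bool n).subset fun t h => h.1.1)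
    rintro t ⟨h4, h5⟩
    refine ⟨h4, ?_⟩
    rw [hX']
    intro h6
    rw [hPd] at h5
    obtain ⟨ρ, r1, r2, v, hv⟩ := h5
    have htl : t.length = n := h4.1
    have hρ : 0 < ρ := by linarith
    refine absurd ?_ (not_le.2 hv)
    have hbR := hbg ρ r1.le
    have hR8 : 8 ≤ ρ * size n := (le_max_left _ _).trans hbR
    have hRe : 16 * b ^ 2 ≤ e * (ρ * size n) := by
      have := (le_max_right _ _).trans hbR
      rw [div_le_iff₀ he0] at this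
      linarith
    have hrk := hrd ρ hρ r2
    obtain ⟨q1, q2, q3⟩ := hκ (ρ * size n) (by linarith)
    obtain ⟨q4, q5, q6⟩ := hκ (ρ * size n / 2) (by linarith)
    have d2 := dbl (R := ρ * size n / 2) (R' := ρ * size n) (by linarith) (by linarith) (by linarith)
    have hκκ : κ (ρ * size n) ≤ 4 * b ^ 2 * κ (ρ * size n / 2) := by
      calc κ (ρ * size n) ≤ b * (ρ * size n) ^ (4 / 3 : ℝ) := q3
        _ ≤ b * (4 * (ρ * size n / 2) ^ (4 / 3 : ℝ)) := mul_le_mul_of_nonneg_left d2 hb0.le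
        _ ≤ b * (4 * (b * κ (ρ * size n / 2))) :=
            mul_le_mul_of_nonneg_left (mul_le_mul_of_nonneg_left q5 (by norm_num)) hb0.le
        _ = _ := by ring
    refine (one hn1 htl hρ hR8 he0 he1 hen hb q1 q4 hκκ hRe (fun j hj => ?_) ?_ v).trans (by linarith)
    · have := h6 (ρ * size n) (by linarith) hrk 0 j (Nat.zero_le _) (by omega)
      rwa [Nat.cast_zero, sub_zero, show wd t 0 j = t.take j from rfl] at this
    · have h7 : ρ * size n / 2 * 2 ^ d ≤ 2 ^ k := by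
        have : 0 < ρ * size n * 2 ^ d := by positivity
        linarith
      have := h6 (ρ * size n / 2) (by linarith) h7 0 n (Nat.zero_le _) (by omega)
      have h8 : wd t 0 n = t := by
        unfold wd
        rw [List.drop_zero, List.take_of_length_le (by rw [htl])]
      rwa [Nat.cast_zero, sub_zero, h8] at this
  have c4 : ({t | t ∈ SawN n ∧ t ∈ X}.ncard : ℝ) ≤ e * cS n := by
    have h4 : (0 : ℝ) < cS n := by
      have h5 : 0 < (saw n).card := (NTSF.saw_nonempty n).card_pos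
      have h6 : 0 < cS n := by omega
      exact_mod_cast h6
    have h5 : ({t | t ∈ SawN n ∧ t ∈ X}.ncard : ℝ) / cS n ≤ e := hP
    rwa [div_le_iff₀ h4] at h5
  have c5 : (((saw n).filter P).card : ℝ) ≤ ε * ((saw n).card : ℝ) := by
    have d1 : (2 : ℝ) * (((saw n).filter P).card : ℝ) = 3 * ({t | t ∈ SawN n ∧ P (sw n t)}.ncard : ℝ) := by
      exact_mod_cast c1
    have d2 : (2 : ℝ) * ((saw n).card : ℝ) = 3 * (cS n : ℝ) := by exact_mod_cast c2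
    have d3 : ({t | t ∈ SawN n ∧ P (sw n t)}.ncard : ℝ) ≤ ({t | t ∈ SawN n ∧ t ∈ X}.ncard : ℝ) := by exact_mod_cast c3
    have d4 : (0 : ℝ) ≤ cS n := Nat.cast_nonneg _
    have d5 : e * (cS n : ℝ) ≤ ε * cS n := mul_le_mul_of_nonneg_right (by linarith) d4
    have d6 : ε * (2 * ((saw n).card : ℝ)) = ε * (3 * (cS n : ℝ)) := by rw [d2]
    linarith
  refine le_trans (le_of_eq ?_) c5
  rw [hPd]

/-- **the clocks of the rescaled walks, all scales at once** -/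
theorem exC : ExC := exC_of NTSF.finE (let ⟨C, _, h⟩ := VF.mUp VF.sharpZ; ⟨C, h⟩) exK

end Pool.Agent.NPR
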