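import Pool.Agent.ERG.KapC
import Pool.Agent.NPR.FinPub

/-!
# ERG (no drift): the natural time of the weak limits (helper10)

* **`nat_time`** : for every weak limit there is a deterministic continuous function `h` with `h r ≍ r ^ (4 / 3)` such that almost
  surely `h r * vb r γ u / r → u` as `r → 0`, for all `u`;
* `NatT h γ` : simple, from the origin, and the time is the number of pieces times `h`; `nat_eq` : the trace determines the curve.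
-/

set_option autoImplicit false

open Set Filter Topology MeasureTheory
open scoped ENNReal

namespace Pool.Agent.NPR

open Pool.Agent.NTS.Res
open NTF (cont_eval)

namespace KapLx

lemma bk_open {h : ℝ → ℝ} {ρ1 ρ0 ε : ℝ} (hρ1 : 0 < ρ1) : IsOpen (Bk h ρ1 ρ0 ε) := by
  have e : Bk h ρ1 ρ0 ε = ⋃ ρ ∈ Ioo ρ1 ρ0, ⋃ u : unitInterval, {γ | ε < |h ρ * vb ρ γ u / ρ - u|} := by
    ext γ
    simp only [mem_iUnion, mem_Ioo, exists_prop]
    constructor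
    · rintro ⟨ρ, h1, h2, u, h3⟩
      exact ⟨ρ, ⟨h1, h2⟩, u, h3⟩
    · rintro ⟨ρ, ⟨h1, h2⟩, u, h3⟩
      exact ⟨ρ, h1, h2, u, h3⟩
  rw [e]
  refine isOpen_biUnion fun ρ hρ => isOpen_iUnion fun u => ?_
  have h1 := vb_cont (ρ := ρ) (by have := hρ.1; linarith) u
  exact isOpen_lt continuous_const (((continuous_const.mul h1).div_const ρ).sub continuous_const).abs

lemma open_le' {μ : ℕ → ProbabilityMeasure C(unitInterval, ℂ)} {ν : ProbabilityMeasure C(unitInterval, ℂ)}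
    (h : Tendsto μ atTop (𝓝 ν)) {U : Set C(unitInterval, ℂ)} (hU : IsOpen U) {ε : ℝ≥0∞}
    (hμ : ∃ᶠ k in atTop, (μ k : Measure C(unitInterval, ℂ)) U ≤ ε) : (ν : Measure C(unitInterval, ℂ)) U ≤ ε := by
  refine (ProbabilityMeasure.le_liminf_measure_open_of_tendsto h hU).trans ?_
  exact liminf_le_of_frequently_le' hμ

section

variable {c C : ℝ} {hn : ℕ → ℝ → ℝ} (hc : 0 < c) (hC : 0 < C)
  (hsz : ∀ ρ1 : ℝ, 0 < ρ1 → ∃ n0 : ℕ, ∀ n : ℕ, n0 ≤ n → ∀ ρ : ℝ, ρ1 ≤ ρ →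
    c * ρ ^ (4 / 3 : ℝ) ≤ hn n ρ ∧ hn n ρ ≤ C * ρ ^ (4 / 3 : ℝ))
  (heq : ∀ ρ1 : ℝ, 0 < ρ1 → ∃ n0 : ℕ, ∀ n : ℕ, n0 ≤ n → ∀ ρ ρ' : ℝ, ρ1 ≤ ρ → ρ ≤ ρ' → ρ' ≤ 2 * ρ →
    |hn n ρ * ρ' - hn n ρ' * ρ| ≤ C * (ρ' - ρ) * ρ ^ (4 / 3 : ℝ))
  {U : Ultrafilter ℕ} {φ : ℕ → ℕ} (hφ : Tendsto φ U atTop)

include hsz hφ in
/-- the limit of the constants -/
lemma lim_ex : ∃ h : ℝ → ℝ, ∀ ρ : ℝ, 0 < ρ → c * ρ ^ (4 / 3 : ℝ) ≤ h ρ ∧ h ρ ≤ C * ρ ^ (4 / 3 : ℝ) ∧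
    Tendsto (fun i => hn (φ i) ρ) U (𝓝 (h ρ)) := by
  have h1 : ∀ ρ : ℝ, 0 < ρ → ∃ a : ℝ, c * ρ ^ (4 / 3 : ℝ) ≤ a ∧ a ≤ C * ρ ^ (4 / 3 : ℝ) ∧
      Tendsto (fun i => hn (φ i) ρ) U (𝓝 a) := by
    intro ρ hρ
    obtain ⟨n0, hn0⟩ := hsz ρ hρ
    have h2 : Icc (c * ρ ^ (4 / 3 : ℝ)) (C * ρ ^ (4 / 3 : ℝ)) ∈ U.map (fun i => hn (φ i) ρ) := by
      have h3 : ∀ᶠ i in (U : Filter ℕ), hn (φ i) ρ ∈ Icc (c * ρ ^ (4 / 3 : ℝ)) (C * ρ ^ (4 / 3 : ℝ)) := by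
        filter_upwards [hφ.eventually_ge_atTop n0] with i hi
        exact hn0 _ hi ρ le_rfl
      exact h3
    obtain ⟨a, ha, ha2⟩ := isCompact_Icc.ultrafilter_le_nhds' _ h2
    exact ⟨a, ha.1, ha.2, ha2⟩
  choose! h hh using h1
  exact ⟨h, hh⟩

include heq hφ in
/-- equicontinuity of the limit -/
lemma lim_eq {h : ℝ → ℝ} (hh : ∀ ρ : ℝ, 0 < ρ → Tendsto (fun i => hn (φ i) ρ) U (𝓝 (h ρ))) {ρ ρ' : ℝ} (hρ : 0 < ρ)
    (h1 : ρ ≤ ρ') (h2 : ρ' ≤ 2 * ρ) : |h ρ * ρ' - h ρ' * ρ| ≤ C * (ρ' - ρ) * ρ ^ (4 / 3 : ℝ) := by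
  obtain ⟨n0, hn0⟩ := heq ρ hρ
  refine le_of_tendsto ((((hh ρ hρ).mul_const ρ').sub ((hh ρ' (by linarith)).mul_const ρ)).abs) ?_
  filter_upwards [hφ.eventually_ge_atTop n0] with i hi
  exact hn0 _ hi ρ ρ' le_rfl h1 h2

include hC in
/-- two near scales, in both orders -/
lemma two_sc {f : ℝ → ℝ} {x ρ : ℝ} (hx : 0 < x) (h1 : |ρ - x| ≤ x / 2)
    (hf : ∀ ρ ρ' : ℝ, x / 2 ≤ ρ → ρ ≤ ρ' → ρ' ≤ 2 * ρ → |f ρ * ρ' - f ρ' * ρ| ≤ C * (ρ' - ρ) * ρ ^ (4 / 3 : ℝ)) :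
    |f ρ - f x * (ρ / x)| ≤ C * |ρ - x| * x ^ (4 / 3 : ℝ) / x := by
  have h2 := abs_le.1 h1
  have e : f ρ - f x * (ρ / x) = -((f x * ρ - f ρ * x) / x) := by
    field_simp
    ring
  rw [e, abs_neg, abs_div, abs_of_pos hx]
  refine div_le_div_of_nonneg_right ?_ hx.le
  rcases le_total x ρ with h3 | h3
  · have h4 := hf x ρ (by linarith) h3 (by linarith)
    rwa [abs_of_nonneg (by linarith : 0 ≤ ρ - x)]
  · have h4 := hf ρ x (by linarith) h3 (by linarith)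
    rw [abs_sub_comm] at h4
    rw [abs_of_nonpos (by linarith : ρ - x ≤ 0)]
    refine h4.trans ?_
    have h5 : ρ ^ (4 / 3 : ℝ) ≤ x ^ (4 / 3 : ℝ) := Real.rpow_le_rpow (by linarith) h3 (by norm_num)
    have h6 := mul_le_mul_of_nonneg_left h5 (show 0 ≤ C * (x - ρ) from mul_nonneg hC.le (by linarith))
    linarith

include hC heq hφ in
/-- uniform convergence of the constants -/
lemma lim_unif {h : ℝ → ℝ} (hh : ∀ ρ : ℝ, 0 < ρ → Tendsto (fun i => hn (φ i) ρ) U (𝓝 (h ρ))) {ρ1 ρ0 δ : ℝ}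
    (hρ1 : 0 < ρ1) (hδ : 0 < δ) : ∀ᶠ i in (U : Filter ℕ), ∀ ρ ∈ Icc ρ1 ρ0, |hn (φ i) ρ - h ρ| ≤ δ := by
  have hK : IsCompact (Icc ρ1 ρ0) := isCompact_Icc
  have key : ∀ x ∈ Icc ρ1 ρ0, {z : ℕ × ℝ | |hn (φ z.1) z.2 - h z.2| ≤ δ} ∈ (U : Filter ℕ) ×ˢ 𝓝 x := by
    intro x hx
    have hx0 : 0 < x := by have := hx.1; linarith
    obtain ⟨n0, hn0⟩ := heq (x / 2) (by linarith)
    have a1 : ∀ᶠ i in (U : Filter ℕ), n0 ≤ φ i ∧ |hn (φ i) x - h x| ≤ δ / 4 := by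
      refine (hφ.eventually_ge_atTop n0).and ?_
      have h1 := (hh x hx0)
      rw [Metric.tendsto_nhds] at h1
      filter_upwards [h1 (δ / 4) (by linarith)] with i hi
      rw [Real.dist_eq] at hi
      exact hi.le
    obtain ⟨η, hη⟩ : ∃ η, η = min (x / 2) (δ / 4 * x / (C * x ^ (4 / 3 : ℝ))) := ⟨_, rfl⟩
    have hη0 : 0 < η := by
      rw [hη]
      exact lt_min (by linarith) (by positivity)
    have a2 : ∀ᶠ ρ in 𝓝 x, |ρ - x| ≤ η := by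
      filter_upwards [Metric.ball_mem_nhds x hη0] with ρ hρ
      rw [Metric.mem_ball, Real.dist_eq] at hρ
      exact hρ.le
    filter_upwards [a1.prod_mk a2] with z hz
    obtain ⟨⟨z1, z2⟩, z3⟩ := hz
    obtain ⟨i, ρ⟩ := z
    simp only at z1 z2 z3
    show |hn (φ i) ρ - h ρ| ≤ δ
    have b1 : |ρ - x| ≤ x / 2 := z3.trans (by rw [hη]; exact min_le_left _ _)
    have b2 : C * |ρ - x| * x ^ (4 / 3 : ℝ) / x ≤ δ / 4 := by
      have h1 : |ρ - x| ≤ δ / 4 * x / (C * x ^ (4 / 3 : ℝ)) := z3.trans (by rw [hη]; exact min_le_right _ _)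
      rw [le_div_iff₀ (by positivity)] at h1
      rw [div_le_iff₀ hx0]
      linarith
    have b3 := two_sc hC hx0 b1 (hn0 _ z1)
    have b4 := two_sc hC (f := h) hx0 b1 fun ρ ρ' g1 g2 g3 => lim_eq heq hφ hh (by linarith) g2 g3
    have b5 : |hn (φ i) x * (ρ / x) - h x * (ρ / x)| ≤ δ / 4 * (3 / 2) := by
      rw [← sub_mul, abs_mul]
      have h2 := abs_le.1 b1
      have h3 : |ρ / x| ≤ 3 / 2 := by
        rw [abs_of_nonneg (by refine div_nonneg ?_ hx0.le; linarith), div_le_iff₀ hx0]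
        linarith
      exact mul_le_mul z2 h3 (abs_nonneg _) (by linarith)
    have e : hn (φ i) ρ - h ρ = (hn (φ i) ρ - hn (φ i) x * (ρ / x)) + (hn (φ i) x * (ρ / x) - h x * (ρ / x)) -
        (h ρ - h x * (ρ / x)) := by ring
    rw [e]
    have c1 := abs_sub ((hn (φ i) ρ - hn (φ i) x * (ρ / x)) + (hn (φ i) x * (ρ / x) - h x * (ρ / x))) (h ρ - h x * (ρ / x))
    have c2 := abs_add_le (hn (φ i) ρ - hn (φ i) x * (ρ / x)) (hn (φ i) x * (ρ / x) - h x * (ρ / x))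
    linarith
  have h2 : ∀ᶠ z : ℕ × ℝ in (U : Filter ℕ) ×ˢ 𝓝ˢ (Icc ρ1 ρ0), |hn (φ z.1) z.2 - h z.2| ≤ δ :=
    hK.mem_prod_nhdsSet_of_forall key
  exact h2.curry.mono fun _ h ↦ h.self_of_nhdsSet

end

/-- the bad curves -/
def Bz (h : ℝ → ℝ) (ε : ℝ) : Set C(unitInterval, ℂ) :=
  {γ | ∀ ρ' : ℝ, 0 < ρ' → ∃ ρ, 0 < ρ ∧ ρ < ρ' ∧ ∃ u : unitInterval, ε < |h ρ * vb ρ γ u / ρ - u|}

end KapLx

open KapLx in
/-- **the natural time of the weak limits** -/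
theorem nat_time (hX : ExC) : ∃ c C : ℝ, 0 < c ∧ 0 < C ∧ ∀ (φ : ℕ → ℕ) (ν : Measure C(unitInterval, ℂ)),
    Tendsto φ atTop atTop → IsProbabilityMeasure ν → LawTo φ ν → ∃ h : ℝ → ℝ,
      (∀ r : ℝ, 0 < r → c * r ^ (4 / 3 : ℝ) ≤ h r ∧ h r ≤ C * r ^ (4 / 3 : ℝ)) ∧
      (∀ r r' : ℝ, 0 < r → r ≤ r' → r' ≤ 2 * r → |h r * r' - h r' * r| ≤ C * (r' - r) * r ^ (4 / 3 : ℝ)) ∧
      ∀ᵐ γ : C(unitInterval, ℂ) ∂ν, ∀ u : unitInterval, Tendsto (fun r => h r * vb r γ u / r) (𝓝[>] 0) (𝓝 (u : ℝ)) := by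
  obtain ⟨c, C, hn, hc, hC, hsz, heq, hX⟩ := hX
  refine ⟨c, C, hc, hC, fun φ ν hφ hν hlim => ?_⟩
  obtain ⟨U, hU⟩ : ∃ U : Ultrafilter ℕ, U = Ultrafilter.of atTop := ⟨_, rfl⟩
  have hUle : (U : Filter ℕ) ≤ atTop := by
    rw [hU]
    exact Ultrafilter.of_le _
  have hφU : Tendsto φ U atTop := hφ.mono_left hUle
  obtain ⟨h, hh⟩ := lim_ex hsz hφU
  have hlimh : ∀ ρ : ℝ, 0 < ρ → Tendsto (fun i => hn (φ i) ρ) U (𝓝 (h ρ)) := fun ρ hρ => (hh ρ hρ).2.2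
  refine ⟨h, fun r hr => ⟨(hh r hr).1, (hh r hr).2.1⟩, fun r r' hr h1 h2 => lim_eq heq hφU hlimh hr h1 h2, ?_⟩
  have hlim2 := (NTSF.lawTo_iff ⟨ν, hν⟩).1 hlim
  -- one range of scales
  have step : ∀ ε : ℝ, 0 < ε → ∃ ρ0 : ℝ, 0 < ρ0 ∧ ∀ ρ1 : ℝ, 0 < ρ1 → ν (Bk h ρ1 ρ0 ε) ≤ ENNReal.ofReal ε := by
    intro ε hε
    obtain ⟨e, he⟩ : ∃ e, e = min ε 1 / 2 := ⟨_, rfl⟩
    have hmin : 0 < min ε 1 := lt_min hε one_pos
    have he0 : 0 < e := by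
      rw [he]
      positivity
    have he1 : e ≤ 1 := by
      have := min_le_right ε 1
      linarith
    have he2 : 2 * e ≤ ε := by
      have := min_le_left ε 1
      linarith
    obtain ⟨ρ0, hρ0, hXe⟩ := hX e he0
    refine ⟨ρ0, hρ0, fun ρ1 hρ1 => ?_⟩
    obtain ⟨n0, hn0⟩ := hXe ρ1 hρ1
    obtain ⟨n1, hn1⟩ := hsz ρ1 hρ1
    have hu := lim_unif hC heq hφU hlimh (ρ0 := ρ0) (δ := e / 2 * (c * ρ1 ^ (4 / 3 : ℝ))) hρ1 (by positivity)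
    refine open_le' hlim2 (bk_open hρ1) ?_
    have h1 : ∀ᶠ i in (U : Filter ℕ), (law (φ i)) (Bk h ρ1 ρ0 ε) ≤ ENNReal.ofReal ε := by
      filter_upwards [hu, hφU.eventually_ge_atTop n0, hφU.eventually_ge_atTop n1] with i hi h2 h3
      refine (measure_mono ?_).trans ((hn0 _ h2).trans (ENNReal.ofReal_le_ofReal (by linarith)))
      rintro γ ⟨ρ, r1, r2, u, hu'⟩
      refine ⟨ρ, r1, r2, u, ?_⟩
      by_contra hcon
      rw [not_lt] at hcon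
      refine absurd ?_ (not_le.2 hu')
      have hρ : 0 < ρ := by linarith
      have g1 := hi ρ ⟨r1.le, r2.le⟩
      have g2 := (hn1 _ h3 ρ r1.le).1
      have hp : ρ1 ^ (4 / 3 : ℝ) ≤ ρ ^ (4 / 3 : ℝ) := Real.rpow_le_rpow hρ1.le r1.le (by norm_num)
      have hcp : c * ρ1 ^ (4 / 3 : ℝ) ≤ hn (φ i) ρ := (mul_le_mul_of_nonneg_left hp hc.le).trans g2
      have hcp0 : 0 < c * ρ1 ^ (4 / 3 : ℝ) := by positivity
      obtain ⟨X, hX'⟩ : ∃ X, X = vb ρ γ u / ρ := ⟨_, rfl⟩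
      have hX0 : 0 < X := by
        rw [hX']
        exact div_pos (vb_pos hρ γ u) hρ
      have e1 : hn (φ i) ρ * vb ρ γ u / ρ = hn (φ i) ρ * X := by
        rw [hX']
        ring
      have e2 : h ρ * vb ρ γ u / ρ = h ρ * X := by
        rw [hX']
        ring
      rw [e1] at hcon
      rw [e2]
      have hu1 : (u : ℝ) ≤ 1 := u.2.2
      have g3 : hn (φ i) ρ * X ≤ 2 := by
        have := (abs_le.1 hcon).2
        linarith
      have g4 : c * ρ1 ^ (4 / 3 : ℝ) * X ≤ 2 := (mul_le_mul_of_nonneg_right hcp hX0.le).trans g3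
      have g5 : |h ρ * X - hn (φ i) ρ * X| ≤ e := by
        rw [← sub_mul, abs_mul, abs_of_pos hX0, abs_sub_comm]
        refine (mul_le_mul_of_nonneg_right g1 hX0.le).trans ?_
        have := mul_le_mul_of_nonneg_left g4 (show 0 ≤ e / 2 by linarith)
        linarith
      have e3 : h ρ * X - u = (h ρ * X - hn (φ i) ρ * X) + (hn (φ i) ρ * X - u) := by ring
      rw [e3]
      refine (abs_add_le _ _).trans ?_
      linarith
    exact h1.frequently.filter_mono hUle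
  -- the bad curves
  have bad : ∀ ε : ℝ, 0 < ε → ν (Bz h ε) = 0 := by
    intro ε hε
    refine le_antisymm (ENNReal.le_of_forall_pos_le_add fun δ hδ _ => ?_) zero_le
    rw [zero_add]
    obtain ⟨e, he⟩ : ∃ e : ℝ, e = min ε δ := ⟨_, rfl⟩
    have he0 : 0 < e := by
      rw [he]
      exact lt_min hε (by exact_mod_cast hδ)
    have he1 : e ≤ ε := by
      rw [he]
      exact min_le_left _ _
    have he2 : e ≤ δ := by
      rw [he]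
      exact min_le_right _ _
    obtain ⟨ρ0, hρ0, hst⟩ := step e he0
    have hsub : Bz h ε ⊆ ⋃ m : ℕ, Bk h (1 / ((m : ℝ) + 1)) ρ0 e := by
      intro γ hγ
      obtain ⟨ρ, h1, h2, u, h3⟩ := hγ ρ0 hρ0
      obtain ⟨m, hm⟩ := exists_nat_one_div_lt h1
      exact mem_iUnion.2 ⟨m, ρ, hm, h2, u, lt_of_le_of_lt he1 h3⟩
    have hdir : Monotone fun m : ℕ => Bk h (1 / ((m : ℝ) + 1)) ρ0 e := by
      intro m m' hmm γ hγ
      obtain ⟨ρ, h1, h2, u, h3⟩ := hγ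
      refine ⟨ρ, lt_of_le_of_lt ?_ h1, h2, u, h3⟩
      have h4 : (m : ℝ) ≤ m' := by exact_mod_cast hmm
      exact one_div_le_one_div_of_le (by positivity) (by linarith)
    refine (measure_mono hsub).trans ?_
    rw [hdir.measure_iUnion]
    refine iSup_le fun m => (hst _ (by positivity)).trans ?_
    rw [← ENNReal.ofReal_coe_nnreal]
    exact ENNReal.ofReal_le_ofReal he2
  have hae : ∀ᵐ γ : C(unitInterval, ℂ) ∂ν, ∀ m : ℕ, γ ∉ Bz h (1 / ((m : ℝ) + 1)) := by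
    rw [ae_all_iff]
    intro m
    rw [ae_iff]
    have e : {γ : C(unitInterval, ℂ) | ¬ γ ∉ Bz h (1 / ((m : ℝ) + 1))} = Bz h (1 / ((m : ℝ) + 1)) := by
      ext γ
      exact not_not
    rw [e]
    exact bad _ (by positivity)
  filter_upwards [hae] with γ hγ u
  rw [Metric.tendsto_nhds]
  intro ε hε
  obtain ⟨m, hm⟩ := exists_nat_one_div_lt hε
  have h1 := hγ m
  unfold Bz at h1
  rw [mem_ofPred_eq] at h1
  push Not at h1
  obtain ⟨ρ', hρ', h2⟩ := h1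
  filter_upwards [Ioo_mem_nhdsGT hρ'] with ρ hρ
  rw [Real.dist_eq]
  exact lt_of_le_of_lt (h2 ρ hρ.1 hρ.2 u) hm

/-- The curve `γ` is simple, starts at the origin, and its time is its number of small pieces, times `h`. -/
def NatT (h : ℝ → ℝ) (γ : C(unitInterval, ℂ)) : Prop :=
  Function.Injective γ ∧ γ 0 = 0 ∧ ∀ u : unitInterval, Tendsto (fun r => h r * vb r γ u / r) (𝓝[>] 0) (𝓝 (u : ℝ))

/-- the ratio of the numbers of pieces -/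
lemma nat_ratio {h : ℝ → ℝ} {γ : C(unitInterval, ℂ)} (g : NatT h γ) (u : unitInterval) :
    Tendsto (fun r => vb r γ u / vb r γ 1) (𝓝[>] 0) (𝓝 (u : ℝ)) := by
  have h1 := g.2.2 u
  have h2 := g.2.2 1
  rw [Icc.coe_one] at h2
  have h3 := h1.div h2 one_ne_zero
  rw [div_one] at h3
  refine h3.congr' ?_
  have h4 : ∀ᶠ r in 𝓝[>] (0 : ℝ), h r * vb r γ 1 / r ≠ 0 := h2.eventually_ne one_ne_zero
  filter_upwards [h4, self_mem_nhdsWithin] with r hr hr0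
  have hr0 : 0 < r := hr0
  have h5 : h r ≠ 0 := by
    intro hc
    apply hr
    rw [hc, zero_mul, zero_div]
  have h6 := (vb_pos hr0 γ 1).ne'
  show h r * vb r γ u / r / (h r * vb r γ 1 / r) = _
  field_simp

/-- **the trace determines the curve, also for two different functions** -/
theorem nat_eq {h h' : ℝ → ℝ} {γ γ' : C(unitInterval, ℂ)} (g : NatT h γ) (g' : NatT h' γ') (ht : range γ = range γ') :
    γ = γ' := by
  have ht0 : Tendsto (fun j : ℕ => 1 / ((j : ℝ) + 1)) atTop (𝓝[>] 0) :=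
    tendsto_nhdsWithin_iff.2 ⟨tendsto_one_div_add_atTop_nhds_zero_nat, Eventually.of_forall fun j => by
      show (0 : ℝ) < 1 / ((j : ℝ) + 1)
      positivity⟩
  refine good_eq (r := fun j => 1 / ((j : ℝ) + 1)) ⟨g.1, g.2.1, fun u => ?_⟩ ⟨g'.1, g'.2.1, fun u => ?_⟩ ht
  · exact (nat_ratio g u).comp ht0
  · exact (nat_ratio g' u).comp ht0

end Pool.Agent.NPR
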