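import Pool.Agent.ERG.KapW

/-!
# ERG (no drift): the clock constant of a scale, exactly n letters, all scales at once (helper10)

* `Tab G R V` : a table of functionals, `G` of every scale `l ≥ 2`, each equal to its reversal up to 1;
* `ExJ` : one constant `ka r l V` for every functional of a scale; for all `n` and for all the scales below the scale of `n`
  at once, all the windows of the uniform walk with `n` letters;
* **`exJ : ExJ`**.
-/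

set_option autoImplicit false

namespace HexObs

namespace NPR

open Finset TS SDN TIW NTA TIP

open scoped ENNReal

/-- a table of functionals, `G` of every scale `l ≥ 2`, each equal to its reversal up to 1 -/
structure Tab (G : ℕ) (R : ℕ → ℕ → ℕ) (V : ℕ → ℕ → List Bool → ℝ) : Prop where
  two : ∀ l i : ℕ, 2 ≤ l → i < G → 2 ≤ R l i
  af : ∀ l i : ℕ, 2 ≤ l → i < G → AF (R l i) (V l i)
  le : ∀ l i : ℕ, 2 ≤ l → i < G → R l i ≤ 2 ^ l
  ge : ∀ l i : ℕ, 2 ≤ l → i < G → 2 ^ l ≤ 2 * R l i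
  rv : ∀ l i : ℕ, 2 ≤ l → i < G → ∀ u, |V l i u - V l i (rev u)| ≤ 1

/-- **all scales at once, exactly n letters** -/
def ExJ : Prop := ∃ (B : ℝ) (ka : ℕ → ℕ → (List Bool → ℝ) → ℝ), 1 ≤ B ∧
  (∀ (r l : ℕ) (V : List Bool → ℝ), 2 ≤ r → AF r V → r ≤ 2 ^ l → 2 ^ l ≤ 2 * r →
    0 < ka r l V ∧ PW.mZ (2 ^ l) ≤ B * ka r l V ∧ ka r l V ≤ B * PW.mZ (2 ^ l)) ∧
  ∀ (G : ℕ) (ε : ℝ), 0 < ε → ∃ d : ℕ, ∀ (R : ℕ → ℕ → ℕ) (V : ℕ → ℕ → List Bool → ℝ), Tab G R V →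
    ∀ k n : ℕ, TIP.Sc k n → d ≤ k →
      TOG.Pn n {t | ¬ ∀ l i : ℕ, 2 ≤ l → i < G → l + d ≤ k → ∀ x y : ℕ, x ≤ y → y ≤ t.length →
        |ka (R l i) l (V l i) * V l i (wd t x y) - ((y : ℝ) - x)| ≤ ε * n} ≤ ε

namespace KapX

/-- a geometric sum -/
lemma geo (K d : ℕ) : ∑ l ∈ Ico 2 (K + 1 - d), (3 / 4 : ℝ) ^ (K - l) ≤ 4 * (3 / 4) ^ d := by
  rcases Nat.lt_or_ge K d with h | h
  · rw [Ico_eq_empty (by omega), sum_empty]
    positivity
  obtain ⟨m, hm⟩ : ∃ m, m = K + 1 - d := ⟨_, rfl⟩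
  rw [← hm]
  have h1 : ∑ l ∈ Ico 2 m, (3 / 4 : ℝ) ^ (K - l) ≤ ∑ l ∈ range m, (3 / 4 : ℝ) ^ (K - l) := by
    refine sum_le_sum_of_subset_of_nonneg ?_ fun _ _ _ => by positivity
    intro l hl
    rw [mem_Ico] at hl
    exact mem_range.2 hl.2
  have h2 : ∑ l ∈ range m, (3 / 4 : ℝ) ^ (K - l) = (3 / 4) ^ d * ∑ l ∈ range m, (3 / 4 : ℝ) ^ (m - 1 - l) := by
    rw [mul_sum]
    refine sum_congr rfl fun l hl => ?_
    rw [mem_range] at hl
    rw [← pow_add]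
    congr 1
    omega
  rw [sum_range_reflect (fun l => (3 / 4 : ℝ) ^ l) m] at h2
  have h3 : ∑ l ∈ range m, (3 / 4 : ℝ) ^ l ≤ 4 := by
    have h4 : (∑ l ∈ range m, (3 / 4 : ℝ) ^ l) * (3 / 4 - 1) = (3 / 4) ^ m - 1 := geom_sum_mul _ _
    have h5 : (0 : ℝ) < (3 / 4) ^ m := by positivity
    linarith
  have h4 := mul_le_mul_of_nonneg_left h3 (show (0 : ℝ) ≤ (3 / 4) ^ d by positivity)
  linarith

lemma gf_bU {ι : Type*} [DecidableEq ι] (I : Finset ι) (Q : ι → Set (List Bool)) :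
    gf (⋃ i ∈ I, Q i) ≤ ∑ i ∈ I, gf (Q i) := by
  induction I using Finset.induction_on with
  | empty =>
    have h : gf (∅ : Set (List Bool)) = 0 := by
      unfold gf
      rw [_root_.tsum_subtype]
      simp
    simp [h]
  | insert a s ha ih =>
    rw [Finset.set_biUnion_insert, Finset.sum_insert ha]
    exact (gf_union_le _ _).trans (add_le_add le_rfl ih)

/-- all scales at once, words of a box -/
theorem unW {c C : ℝ} {j0 : ℕ} (hc : 0 < c) (hC : 0 < C) {ka : ℕ → ℕ → (List Bool → ℝ) → ℝ}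
    (h : ∀ (r l : ℕ) (V : List Bool → ℝ), 2 ≤ r → AF r V → r ≤ 2 ^ l → 2 ^ l ≤ 2 * r → ∀ K, l + j0 ≤ K →
      gf {t | t ∈ WL K ∧ t.length ≤ ML (K + 2) ∧ ¬ ∀ x y : ℕ, x ≤ y → y ≤ t.length →
        |ka r l V * V (wd t x y) - ((y : ℝ) - x)| ≤ C * ((K : ℝ) - l + 1) ^ (-c) * PW.mZ (2 ^ K)} ≤
        ENNReal.ofReal (C * (3 / 4) ^ (K - l)) * FK K) (G : ℕ) {ε : ℝ} (hε : 0 < ε) :
    ∃ d : ℕ, ∀ (R : ℕ → ℕ → ℕ) (V : ℕ → ℕ → List Bool → ℝ), Tab G R V → ∀ K : ℕ,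
      gf {t | t ∈ WL K ∧ t.length ≤ ML (K + 2) ∧ ¬ ∀ l i : ℕ, 2 ≤ l → i < G → l + d ≤ K → ∀ x y : ℕ, x ≤ y →
        y ≤ t.length → |ka (R l i) l (V l i) * V l i (wd t x y) - ((y : ℝ) - x)| ≤ ε * PW.mZ (2 ^ K)} ≤
        ENNReal.ofReal ε * FK K := by
  classical
  have hlim : Filter.Tendsto (fun j : ℕ => C * ((j : ℝ) + 1) ^ (-c)) Filter.atTop (nhds 0) := by
    have h1 : Filter.Tendsto (fun j : ℕ => ((j : ℝ) + 1)) Filter.atTop Filter.atTop :=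
      Filter.tendsto_atTop_add_const_right _ _ tendsto_natCast_atTop_atTop
    have h2 := (tendsto_rpow_neg_atTop hc).comp h1
    have h3 := h2.const_mul C
    rw [mul_zero] at h3
    exact h3
  obtain ⟨d1, hd1⟩ := Filter.eventually_atTop.1 (hlim.eventually (gt_mem_nhds hε))
  obtain ⟨d2, hd2⟩ := exists_pow_lt_of_lt_one (show 0 < ε / (4 * C * (G + 1)) by positivity)
    (show (3 / 4 : ℝ) < 1 by norm_num)
  refine ⟨j0 + d1 + d2, fun R V hT K => ?_⟩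
  obtain ⟨d, hd⟩ : ∃ d, d = j0 + d1 + d2 := ⟨_, rfl⟩
  rw [← hd]
  obtain ⟨E, hE⟩ : ∃ E : ℕ → ℕ → Set (List Bool), E = fun l i => {t | t ∈ WL K ∧ t.length ≤ ML (K + 2) ∧
    ¬ ∀ x y : ℕ, x ≤ y → y ≤ t.length → |ka (R l i) l (V l i) * V l i (wd t x y) - ((y : ℝ) - x)| ≤
      C * ((K : ℝ) - l + 1) ^ (-c) * PW.mZ (2 ^ K)} := ⟨_, rfl⟩
  have hsub : {t | t ∈ WL K ∧ t.length ≤ ML (K + 2) ∧ ¬ ∀ l i : ℕ, 2 ≤ l → i < G → l + d ≤ K → ∀ x y : ℕ, x ≤ y →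
      y ≤ t.length → |ka (R l i) l (V l i) * V l i (wd t x y) - ((y : ℝ) - x)| ≤ ε * PW.mZ (2 ^ K)} ⊆
      ⋃ l ∈ Ico 2 (K + 1 - d), ⋃ i ∈ range G, E l i := by
    rintro t ⟨t1, t2, t3⟩
    push Not at t3
    obtain ⟨l, i, hl, hi, hlK, x, y, hx, hy, hgt⟩ := t3
    rw [Set.mem_iUnion₂]
    refine ⟨l, mem_Ico.2 ⟨hl, by omega⟩, ?_⟩
    rw [Set.mem_iUnion₂]
    refine ⟨i, mem_range.2 hi, ?_⟩
    rw [hE]
    refine ⟨t1, t2, fun t4 => ?_⟩
    have h1 := t4 x y hx hy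
    have h2 := hd1 (K - l) (by omega)
    rw [Nat.cast_sub (show l ≤ K by omega)] at h2
    have h3 := mul_le_mul_of_nonneg_right h2.le (mz_pos K).le
    linarith
  have hEb : ∀ l ∈ Ico 2 (K + 1 - d), ∀ i ∈ range G, gf (E l i) ≤ ENNReal.ofReal (C * (3 / 4) ^ (K - l)) * FK K := by
    intro l hl i hi
    rw [mem_Ico] at hl
    rw [mem_range] at hi
    rw [hE]
    exact h (R l i) l (V l i) (hT.two l i hl.1 hi) (hT.af l i hl.1 hi) (hT.le l i hl.1 hi) (hT.ge l i hl.1 hi) K (by omega)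
  refine (gf_mono hsub).trans ((gf_bU _ _).trans ?_)
  have h1 : ∑ l ∈ Ico 2 (K + 1 - d), gf (⋃ i ∈ range G, E l i) ≤
      ∑ l ∈ Ico 2 (K + 1 - d), ENNReal.ofReal (G * (C * (3 / 4) ^ (K - l))) * FK K := by
    refine sum_le_sum fun l hl => (gf_bU _ _).trans ((sum_le_sum (hEb l hl)).trans (le_of_eq ?_))
    rw [sum_const, card_range, nsmul_eq_mul, ENNReal.ofReal_mul (Nat.cast_nonneg _), ENNReal.ofReal_natCast, mul_assoc]
  refine h1.trans ?_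
  rw [← sum_mul, ← ENNReal.ofReal_sum_of_nonneg fun _ _ => by positivity]
  refine mul_le_mul' (ENNReal.ofReal_le_ofReal ?_) le_rfl
  rw [← mul_sum, ← mul_sum]
  have h2 := geo K d
  have h3 : (3 / 4 : ℝ) ^ d ≤ (3 / 4) ^ d2 := pow_le_pow_of_le_one (by norm_num) (by norm_num) (by omega)
  have h4 : (3 / 4 : ℝ) ^ d ≤ ε / (4 * C * (G + 1)) := h3.trans hd2.le
  rw [le_div_iff₀ (by positivity)] at h4
  have h5 : (G : ℝ) * (C * ∑ l ∈ Ico 2 (K + 1 - d), (3 / 4 : ℝ) ^ (K - l)) ≤ G * (C * (4 * (3 / 4) ^ d)) := by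
    refine mul_le_mul_of_nonneg_left ?_ (Nat.cast_nonneg _)
    exact mul_le_mul_of_nonneg_left h2 hC.le
  have h6 : (0 : ℝ) ≤ 4 * C * (3 / 4) ^ d := by positivity
  linarith

end KapX

open KapX RevX in
/-- **all scales at once, exactly n letters** -/
theorem exJ_of (hJ : DenJ) : ExJ := by
  classical
  obtain ⟨c, C, B, j0, hc, hC, hB, h⟩ := hJ
  choose! ka hka using h
  refine ⟨B + 1, ka, by linarith, fun r l V hr hV h1 h2 => ?_, fun G ε hε => ?_⟩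
  · obtain ⟨k1, k2, k3, -⟩ := hka r l V hr hV h1 h2
    have k4 := mz_pos l
    exact ⟨k1, by linarith, by linarith⟩
  obtain ⟨e, he⟩ : ∃ e : ℝ, e = min ε 1 / 500 := ⟨_, rfl⟩
  have hmin : 0 < min ε 1 := lt_min hε one_pos
  have he0 : 0 < e := by
    rw [he]
    positivity
  have he1 : 300 * e ≤ 1 := by
    have := min_le_right ε 1
    linarith
  have he2 : 500 * e ≤ ε := by
    have := min_le_left ε 1
    linarith
  obtain ⟨q, k0, e0, he00, htr⟩ := pre_of he0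
  obtain ⟨C4, hC4, hup⟩ := exists_mz_up
  have hC40 : 0 < C4 := by linarith
  obtain ⟨εW, hεW⟩ : ∃ εW : ℝ, εW = min e0 (e / (C4 * 4 ^ q)) := ⟨_, rfl⟩
  have hεW0 : 0 < εW := by rw [hεW]; exact lt_min he00 (by positivity)
  have hεW1 : εW ≤ e0 := by rw [hεW]; exact min_le_left _ _
  have hεW2 : εW ≤ e / (C4 * 4 ^ q) := by rw [hεW]; exact min_le_right _ _
  obtain ⟨d, hd⟩ := unW hc hC (ka := ka) (fun r l V hr hV h1 h2 => (hka r l V hr hV h1 h2).2.2.2) G hεW0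
  refine ⟨k0 + d + 8 + ⌈1 / e⌉₊, fun R V hT k n hsc hk => ?_⟩
  have hn8 : 8 ≤ n := (show 8 ≤ k by omega).trans (le_Sc hsc)
  have hen : 1 ≤ e * n := by
    have h1 : 1 / e ≤ (⌈1 / e⌉₊ : ℝ) := Nat.le_ceil _
    have h2 : (⌈1 / e⌉₊ : ℝ) ≤ n := by exact_mod_cast (show ⌈1 / e⌉₊ ≤ k by omega).trans (le_Sc hsc)
    have h3 := h1.trans h2
    rw [div_le_iff₀ he0] at h3
    linarith
  obtain ⟨P, hP⟩ : ∃ P : Set (List Bool), P = {t | ¬ ∀ l i : ℕ, 2 ≤ l → i < G → l + d ≤ k + q → ∀ x y : ℕ, x ≤ y →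
    y ≤ t.length → |ka (R l i) l (V l i) * V l i (wd t x y) - ((y : ℝ) - x)| ≤ εW * PW.mZ (2 ^ (k + q))} := ⟨_, rfl⟩
  have hpre : ∀ A E : List Bool, A ∈ P → A ++ E ∈ P := by
    intro A E hA
    rw [hP] at hA ⊢
    intro hcon
    refine hA fun l i hl hi hlk x y hxy hy => ?_
    have h1 := hcon l i hl hi hlk x y hxy (by rw [List.length_append]; omega)
    have h2 : wd (A ++ E) x y = wd A x y := by
      unfold wd
      rw [List.take_append_of_le_length hy]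
    rwa [h2] at h1
  have h1 : gf {t | t ∈ WL (k + q) ∧ t.length ≤ ML (k + q + 2) ∧ t ∈ P} ≤ ENNReal.ofReal e0 * FK (k + q) := by
    rw [hP]
    exact (hd R V hT (k + q)).trans (mul_le_mul' (ENNReal.ofReal_le_ofReal hεW1) le_rfl)
  have hnum : εW * PW.mZ (2 ^ (k + q)) ≤ e * n := by
    have h2 := hup k q
    have h3 := hsc.1
    calc εW * PW.mZ (2 ^ (k + q)) ≤ e / (C4 * 4 ^ q) * (C4 * 4 ^ q * PW.mZ (2 ^ k)) := by
          have := mz_pos (k + q)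
          gcongr
      _ = e * PW.mZ (2 ^ k) := by field_simp
      _ ≤ e * n := by gcongr
  obtain ⟨S, hS⟩ : ∃ S : Set (List Bool), S = {t | ¬ ∀ l i : ℕ, 2 ≤ l → i < G → l + d ≤ k → ∀ x y : ℕ, x ≤ y →
    4 * y ≤ 3 * n → |ka (R l i) l (V l i) * V l i (wd t x y) - ((y : ℝ) - x)| ≤ e * n} := ⟨_, rfl⟩
  have hSe : TOG.Pn n S ≤ e := by
    refine (pn_mono fun t ht hbad => ?_).trans (htr k n (by omega) hsc P hpre h1)
    rw [hS] at hbad
    have hbad : ¬ ∀ l i : ℕ, 2 ≤ l → i < G → l + d ≤ k → ∀ x y : ℕ, x ≤ y →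
      4 * y ≤ 3 * n → |ka (R l i) l (V l i) * V l i (wd t x y) - ((y : ℝ) - x)| ≤ e * n := hbad
    push Not at hbad
    obtain ⟨l, i, hl, hi, hlk, x, y, hxy, hy, hgt⟩ := hbad
    refine ⟨y, hy, ?_⟩
    rw [hP]
    intro hcon
    have hyl : y ≤ t.length := by rw [ht.1]; omega
    have h2 := hcon l i hl hi (by omega) x y hxy (by rw [List.length_take]; omega)
    have h3 : wd (t.take y) x y = wd t x y := by
      unfold wd
      rw [List.take_take, min_self]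
    rw [h3] at h2
    linarith
  have hS2 : TOG.Pn n {t | Pool.Agent.IW.rvw t ∈ S} ≤ e := (Pool.Agent.IW.Pn_rvw (by omega) S).trans_le hSe
  have hU : TOG.Pn n (S ∪ {t | Pool.Agent.IW.rvw t ∈ S}) ≤ 2 * e := (RevX.pn_union _ _ _).trans (by linarith)
  refine (pn_mono fun t ht htb => ?_).trans (hU.trans (by linarith))
  by_contra hcn
  have hc1 : t ∉ S := fun h => hcn (Or.inl h)
  have hc2 : Pool.Agent.IW.rvw t ∉ S := fun h => hcn (Or.inr h)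
  rw [hS] at hc1 hc2
  have g1 := not_not.1 hc1
  have g2 := not_not.1 hc2
  refine htb fun l i hl hi hlk x y hxy hy => ?_
  have hVA := hT.af l i hl hi
  obtain ⟨hka0, -, -, -⟩ := hka (R l i) l (V l i) (hT.two l i hl hi) hVA (hT.le l i hl hi) (hT.ge l i hl hi)
  have f1 := g1 l i hl hi (by omega)
  have f2 := late hVA hVA (hT.rv l i hl hi) hka0 hn8 hen ht (g2 l i hl hi (by omega))
  have h3 := allw hVA hka0 hka0 hn8 hen he1 (ka_le hVA hka0 hn8 hen ht f1 true).1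
    (by rw [sub_self, abs_zero]; positivity) f1 f2 x y hxy (ht.1 ▸ hy)
  refine h3.trans ?_
  have h4 := mul_le_mul_of_nonneg_right he2 (Nat.cast_nonneg (α := ℝ) n)
  linarith

/-- **all scales at once, exactly n letters** -/
theorem exJ : ExJ := exJ_of denJ

end NPR

end HexObs
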