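import Pool.Agent.ERG.DenJ
import Pool.Agent.NPR.KapD
import Pool.Agent.NPR.ExN
import Pool.Agent.NPR.RevN
import Pool.Agent.NPR.ClkOf

/-!
# The clock, all the scales at once, exactly n letters (helper29): `DenJ → KapN`

* `gau` : the gauge at one radius, from `DenJ`;
* `size_gau` : it is of the order `R ^ (4 / 3)`;
* `mass_u` : the words that are bad for one of the radii have little mass;
* **`kapN_of`** : `DenJ → KapN`.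
-/

set_option autoImplicit false

namespace HexObs

namespace NPR

open Finset TS SDN TIW NTA TIP

open Pool.Agent.NPR (Vm af_Vm Vm_rev)

open scoped ENNReal

namespace KN

/-- the scale of a radius -/
noncomputable def Lr (R : ℝ) : ℕ := Nat.clog 2 ⌊R⌋₊

lemma Lr_spec {R : ℝ} (hR : 2 ≤ R) : 2 ≤ ⌊R⌋₊ ∧ ⌊R⌋₊ ≤ 2 ^ Lr R ∧ 2 ^ Lr R ≤ 2 * ⌊R⌋₊ := by
  have h1 : 2 ≤ ⌊R⌋₊ := Nat.le_floor (by exact_mod_cast hR)
  refine ⟨h1, Nat.le_pow_clog (by norm_num) _, ?_⟩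
  have h2 := (Nat.pow_pred_clog_lt_self (b := 2) (by norm_num) (show 1 < ⌊R⌋₊ by omega)).le
  have h3 : 0 < Nat.clog 2 ⌊R⌋₊ := Nat.clog_pos (by norm_num) (by omega)
  have e : 2 ^ Lr R = 2 ^ (Nat.clog 2 ⌊R⌋₊).pred * 2 := by
    rw [← pow_succ]
    congr 1
    show Nat.clog 2 ⌊R⌋₊ = Nat.clog 2 ⌊R⌋₊ - 1 + 1
    omega
  omega

lemma Lr_size {R : ℝ} (hR : 2 ≤ R) : R ≤ 2 * 2 ^ Lr R ∧ (2 : ℝ) ^ Lr R ≤ 2 * R := by
  obtain ⟨h1, h2, h3⟩ := Lr_spec hR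
  have h4 : ((⌊R⌋₊ : ℕ) : ℝ) ≤ R := Nat.floor_le (by linarith)
  have h5 : R < ⌊R⌋₊ + 1 := Nat.lt_floor_add_one R
  have h6 : ((⌊R⌋₊ : ℕ) : ℝ) ≤ 2 ^ Lr R := by exact_mod_cast h2
  have h7 : (2 : ℝ) ^ Lr R ≤ 2 * ⌊R⌋₊ := by exact_mod_cast h3
  have h8 : (2 : ℝ) ≤ ⌊R⌋₊ := by exact_mod_cast h1
  constructor <;> linarith

lemma Lr_oct {R : ℝ} {l : ℕ} (hl : 1 ≤ l) (h1 : 2 ^ l ≤ R) (h2 : R ≤ 2 ^ (l + 1)) : 2 ≤ R ∧ l ≤ Lr R ∧ Lr R ≤ l + 1 := by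
  have h3 : (2 : ℝ) ≤ 2 ^ l := by
    calc (2 : ℝ) = 2 ^ 1 := by norm_num
      _ ≤ 2 ^ l := pow_le_pow_right₀ (by norm_num) hl
  refine ⟨h3.trans h1, ?_, ?_⟩
  · have h4 : 2 ^ l ≤ ⌊R⌋₊ := Nat.le_floor (by exact_mod_cast h1)
    have h5 := Nat.clog_mono_right 2 h4
    rwa [Nat.clog_pow 2 l (by norm_num)] at h5
  · have h4 : ⌊R⌋₊ ≤ 2 ^ (l + 1) := by
      have : (⌊R⌋₊ : ℝ) ≤ 2 ^ (l + 1) := (Nat.floor_le (by linarith)).trans h2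
      exact_mod_cast this
    have h5 := Nat.clog_mono_right 2 h4
    rwa [Nat.clog_pow 2 (l + 1) (by norm_num)] at h5

lemma af_R {R : ℝ} (hR : 2 ≤ R) : AF ⌊R⌋₊ (Vm R) :=
  af_Vm (by linarith) (Nat.floor_le (by linarith)) (Nat.lt_floor_add_one R) (by
    have := (Lr_spec hR).1
    omega)

/-- the gauges -/
lemma gau {C c B : ℝ} {j0 : ℕ} (hD : ∀ (r l : ℕ) (V : List Bool → ℝ), 2 ≤ r → AF r V → r ≤ 2 ^ l → 2 ^ l ≤ 2 * r →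
      ∃ ka : ℝ, 0 < ka ∧ PW.mZ (2 ^ l) ≤ B * ka ∧ ka ≤ B * PW.mZ (2 ^ l) ∧ ∀ K, l + j0 ≤ K →
        gf {t | t ∈ WL K ∧ t.length ≤ ML (K + 2) ∧ ¬ ∀ x y : ℕ, x ≤ y → y ≤ t.length →
          |ka * V (wd t x y) - ((y : ℝ) - x)| ≤ C * ((K : ℝ) - l + 1) ^ (-c) * PW.mZ (2 ^ K)} ≤
          ENNReal.ofReal (C * (3 / 4) ^ (K - l)) * FK K) :
    ∃ ka : ℝ → ℝ, ∀ R : ℝ, 2 ≤ R → 0 < ka R ∧ PW.mZ (2 ^ Lr R) ≤ B * ka R ∧ ka R ≤ B * PW.mZ (2 ^ Lr R) ∧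
      ∀ K, Lr R + j0 ≤ K → gf {t | t ∈ WL K ∧ t.length ≤ ML (K + 2) ∧ ¬ ∀ x y : ℕ, x ≤ y → y ≤ t.length →
          |ka R * Vm R (wd t x y) - ((y : ℝ) - x)| ≤ C * ((K : ℝ) - Lr R + 1) ^ (-c) * PW.mZ (2 ^ K)} ≤
          ENNReal.ofReal (C * (3 / 4) ^ (K - Lr R)) * FK K := by
  have h : ∀ R : ℝ, 2 ≤ R → ∃ k : ℝ, 0 < k ∧ PW.mZ (2 ^ Lr R) ≤ B * k ∧ k ≤ B * PW.mZ (2 ^ Lr R) ∧
      ∀ K, Lr R + j0 ≤ K → gf {t | t ∈ WL K ∧ t.length ≤ ML (K + 2) ∧ ¬ ∀ x y : ℕ, x ≤ y → y ≤ t.length →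
          |k * Vm R (wd t x y) - ((y : ℝ) - x)| ≤ C * ((K : ℝ) - Lr R + 1) ^ (-c) * PW.mZ (2 ^ K)} ≤
          ENNReal.ofReal (C * (3 / 4) ^ (K - Lr R)) * FK K := by
    intro R hR
    obtain ⟨h1, h2, h3⟩ := Lr_spec hR
    exact hD ⌊R⌋₊ (Lr R) (Vm R) h1 (af_R hR) h2 h3
  choose! ka hka using h
  exact ⟨ka, hka⟩

/-- the size of the gauges -/
lemma size_gau {B : ℝ} (hB : 0 < B) {ka : ℝ → ℝ} (h : ∀ R : ℝ, 2 ≤ R → 0 < ka R ∧ PW.mZ (2 ^ Lr R) ≤ B * ka R ∧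
    ka R ≤ B * PW.mZ (2 ^ Lr R)) : ∃ B' : ℝ, 0 < B' ∧
      ∀ R : ℝ, 2 ≤ R → R ^ (4 / 3 : ℝ) ≤ B' * ka R ∧ ka R ≤ B' * R ^ (4 / 3 : ℝ) := by
  obtain ⟨C, hC⟩ := SIM.mupZ
  obtain ⟨m, hm, hm'⟩ := SIM.mlowZ
  have hC0 : 0 < C := by
    have h1 := hC 0
    have h2 : (0 : ℝ) < NTSF.MZ 0 := PW.mZ_pos Nat.one_le_two_pow
    rw [Nat.cast_zero, mul_zero, Real.rpow_zero, mul_one] at h1
    linarith
  obtain ⟨w, hw⟩ : ∃ w : ℝ, w = (2 : ℝ) ^ (4 / 3 : ℝ) := ⟨_, rfl⟩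
  have hw0 : 0 < w := by rw [hw]; positivity
  refine ⟨w * B / m + w * B * C, by positivity, fun R hR => ?_⟩
  obtain ⟨h1, h2, h3⟩ := h R hR
  obtain ⟨s1, s2⟩ := Lr_size hR
  have hR0 : (0 : ℝ) ≤ R := by linarith
  have hp : (2 : ℝ) ^ (4 / 3 * ((Lr R : ℕ) : ℝ)) = ((2 : ℝ) ^ Lr R) ^ (4 / 3 : ℝ) := by
    rw [← Real.rpow_natCast, ← Real.rpow_mul (by norm_num)]
    congr 1
    ring
  have hRp : (0 : ℝ) ≤ R ^ (4 / 3 : ℝ) := by positivity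
  have hlo : R ^ (4 / 3 : ℝ) ≤ w * (2 : ℝ) ^ (4 / 3 * ((Lr R : ℕ) : ℝ)) := by
    rw [hp, hw, ← Real.mul_rpow (by norm_num) (by positivity)]
    exact Real.rpow_le_rpow hR0 s1 (by norm_num)
  have hhi : (2 : ℝ) ^ (4 / 3 * ((Lr R : ℕ) : ℝ)) ≤ w * R ^ (4 / 3 : ℝ) := by
    rw [hp, hw, ← Real.mul_rpow (by norm_num) hR0]
    exact Real.rpow_le_rpow (by positivity) s2 (by norm_num)
  have e1 : PW.mZ (2 ^ Lr R) ≤ C * (2 : ℝ) ^ (4 / 3 * ((Lr R : ℕ) : ℝ)) := hC (Lr R)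
  have e2 : m * (2 : ℝ) ^ (4 / 3 * ((Lr R : ℕ) : ℝ)) ≤ PW.mZ (2 ^ Lr R) := hm' (Lr R)
  constructor
  · have k1 : m * R ^ (4 / 3 : ℝ) ≤ w * (B * ka R) := by
      calc m * R ^ (4 / 3 : ℝ) ≤ m * (w * (2 : ℝ) ^ (4 / 3 * ((Lr R : ℕ) : ℝ))) := mul_le_mul_of_nonneg_left hlo hm.le
        _ = w * (m * (2 : ℝ) ^ (4 / 3 * ((Lr R : ℕ) : ℝ))) := by ring
        _ ≤ w * (B * ka R) := mul_le_mul_of_nonneg_left (e2.trans h2) hw0.le
    have k2 : R ^ (4 / 3 : ℝ) ≤ w * B / m * ka R := by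
      rw [div_mul_eq_mul_div, le_div_iff₀ hm]
      linarith
    have k3 : 0 ≤ w * B * C * ka R := by positivity
    linarith
  · have k1 : ka R ≤ w * B * C * R ^ (4 / 3 : ℝ) := by
      calc ka R ≤ B * PW.mZ (2 ^ Lr R) := h3
        _ ≤ B * (C * (w * R ^ (4 / 3 : ℝ))) := mul_le_mul_of_nonneg_left (e1.trans (mul_le_mul_of_nonneg_left hhi hC0.le)) hB.le
        _ = _ := by ring
    have k3 : 0 ≤ w * B / m * R ^ (4 / 3 : ℝ) := by positivity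
    linarith

lemma geo {d : ℕ} (hd : 1 ≤ d) (m : ℕ) : ∑ l ∈ range (m + 1), (3 / 4 : ℝ) ^ (m + d - l - 1) ≤ 6 * (3 / 4) ^ d := by
  have hb : (3 / 4 : ℝ) ^ (d - 1) = 4 / 3 * (3 / 4) ^ d := by
    obtain ⟨i, rfl⟩ : ∃ i, d = i + 1 := ⟨d - 1, by omega⟩
    rw [Nat.add_sub_cancel, pow_succ]
    ring
  have hp : (0 : ℝ) < (3 / 4) ^ d := by positivity
  induction m with
  | zero =>
    rw [zero_add, sum_range_one, show 0 + d - 0 - 1 = d - 1 by omega, hb]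
    linarith
  | succ m ih =>
    rw [sum_range_succ, show m + 1 + d - (m + 1) - 1 = d - 1 by omega, hb]
    have h1 : ∑ l ∈ range (m + 1), (3 / 4 : ℝ) ^ (m + 1 + d - l - 1) =
        (3 / 4) * ∑ l ∈ range (m + 1), (3 / 4 : ℝ) ^ (m + d - l - 1) := by
      rw [mul_sum]
      refine sum_congr rfl fun l hl => ?_
      have := mem_range.1 hl
      rw [show m + 1 + d - l - 1 = (m + d - l - 1) + 1 by omega, pow_succ]
      ring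
    rw [h1]
    linarith

/-- the bad words for one of the radii -/
def PB (ka : ℝ → ℝ) (Rs : ℕ → ℕ → ℝ) (J d K : ℕ) (e : ℝ) : Set (List Bool) :=
  {t | ∃ l j : ℕ, 1 ≤ l ∧ j < J ∧ Lr (Rs l j) + d ≤ K ∧ ¬ ∀ x y : ℕ, x ≤ y → y ≤ t.length →
    |ka (Rs l j) * Vm (Rs l j) (wd t x y) - ((y : ℝ) - x)| ≤ e}

lemma PB_ext {ka : ℝ → ℝ} {Rs : ℕ → ℕ → ℝ} {J d K : ℕ} {e : ℝ} (A E : List Bool) (hA : A ∈ PB ka Rs J d K e) :
    A ++ E ∈ PB ka Rs J d K e := by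
  obtain ⟨l, j, h1, h2, h3, h4⟩ := hA
  refine ⟨l, j, h1, h2, h3, fun hcon => h4 fun x y hxy hy => ?_⟩
  have h5 := hcon x y hxy (by rw [List.length_append]; omega)
  have h6 : wd (A ++ E) x y = wd A x y := by
    unfold wd
    rw [List.take_append_of_le_length hy]
  rwa [h6] at h5

/-- **the mass of the bad words** -/
lemma mass_u {C c : ℝ} {j0 : ℕ} (hc : 0 < c) (hC : 0 < C) {ka : ℝ → ℝ} (h : ∀ R : ℝ, 2 ≤ R → ∀ K, Lr R + j0 ≤ K →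
      gf {t | t ∈ WL K ∧ t.length ≤ ML (K + 2) ∧ ¬ ∀ x y : ℕ, x ≤ y → y ≤ t.length →
          |ka R * Vm R (wd t x y) - ((y : ℝ) - x)| ≤ C * ((K : ℝ) - Lr R + 1) ^ (-c) * PW.mZ (2 ^ K)} ≤
          ENNReal.ofReal (C * (3 / 4) ^ (K - Lr R)) * FK K) (J : ℕ) {ε e0 : ℝ} (hε : 0 < ε) (he0 : 0 < e0) :
    ∃ d : ℕ, ∀ (K : ℕ) (Rs : ℕ → ℕ → ℝ), d ≤ K → (∀ l j, j < J → 2 ^ l ≤ Rs l j ∧ Rs l j ≤ 2 ^ (l + 1)) →
      gf {t | t ∈ WL K ∧ t.length ≤ ML (K + 2) ∧ t ∈ PB ka Rs J d K (ε * PW.mZ (2 ^ K))} ≤ ENNReal.ofReal e0 * FK K := by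
  classical
  obtain ⟨d1, hd1⟩ : ∃ d1 : ℕ, ∀ j : ℕ, d1 ≤ j → C * ((j : ℝ) + 1) ^ (-c) ≤ ε := by
    have h1 : Filter.Tendsto (fun j : ℕ => C * ((j : ℝ) + 1) ^ (-c)) Filter.atTop (nhds (C * 0)) := by
      refine Filter.Tendsto.const_mul _ ((tendsto_rpow_neg_atTop hc).comp ?_)
      exact Filter.tendsto_atTop_add_const_right _ _ tendsto_natCast_atTop_atTop
    rw [mul_zero] at h1
    obtain ⟨d1, hd1⟩ := (h1.eventually (ge_mem_nhds hε)).exists_forall_of_atTop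
    exact ⟨d1, hd1⟩
  obtain ⟨d2, hd2⟩ : ∃ d2 : ℕ, ∀ d, d2 ≤ d → J * C * (6 * (3 / 4 : ℝ) ^ d) ≤ e0 := by
    have h1 : Filter.Tendsto (fun d : ℕ => (J * C * 6) * (3 / 4 : ℝ) ^ d) Filter.atTop (nhds ((J * C * 6) * 0)) :=
      (tendsto_pow_atTop_nhds_zero_of_lt_one (by norm_num) (by norm_num)).const_mul _
    rw [mul_zero] at h1
    obtain ⟨d2, hd2⟩ := (h1.eventually (ge_mem_nhds he0)).exists_forall_of_atTop
    exact ⟨d2, fun d hd => by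
      have := hd2 d hd
      linarith⟩
  obtain ⟨d, hd⟩ : ∃ d : ℕ, d = d1 + d2 + j0 + 1 := ⟨_, rfl⟩
  refine ⟨d, fun K Rs hdK hRs => ?_⟩
  have hmz := mz_pos K
  -- one radius
  obtain ⟨S, hS⟩ : ∃ S : ℕ → ℕ → Set (List Bool), S = fun l j => if 1 ≤ l ∧ Lr (Rs l j) + d ≤ K then
      {t | t ∈ WL K ∧ t.length ≤ ML (K + 2) ∧ ¬ ∀ x y : ℕ, x ≤ y → y ≤ t.length →
        |ka (Rs l j) * Vm (Rs l j) (wd t x y) - ((y : ℝ) - x)| ≤ ε * PW.mZ (2 ^ K)} else ∅ := ⟨_, rfl⟩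
  have hone : ∀ l j, j < J → l ≤ K - d → gf (S l j) ≤ ENNReal.ofReal (C * (3 / 4) ^ (K - l - 1)) * FK K := by
    intro l j hj hl
    rw [hS]
    simp only
    by_cases hcond : 1 ≤ l ∧ Lr (Rs l j) + d ≤ K
    · rw [if_pos hcond]
      obtain ⟨g1, g2⟩ := hRs l j hj
      obtain ⟨f1, f2, f3⟩ := Lr_oct hcond.1 g1 g2
      have hle : ((Lr (Rs l j) : ℕ) : ℝ) ≤ K := by
        have : Lr (Rs l j) ≤ K := by omega
        exact_mod_cast this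
      refine (gf_mono ?_).trans ((h (Rs l j) f1 K (by omega)).trans (mul_le_mul' (ENNReal.ofReal_le_ofReal ?_) le_rfl))
      · rintro t ⟨t1, t2, t3⟩
        refine ⟨t1, t2, fun t4 => t3 fun x y hxy hy => (t4 x y hxy hy).trans ?_⟩
        refine mul_le_mul_of_nonneg_right ?_ hmz.le
        have k1 := hd1 (K - Lr (Rs l j)) (by omega)
        rwa [Nat.cast_sub (by omega)] at k1
      · exact mul_le_mul_of_nonneg_left (pow_le_pow_of_le_one (by norm_num) (by norm_num) (by omega)) hC.le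
    · rw [if_neg hcond]
      have : gf (∅ : Set (List Bool)) = 0 := by
        unfold gf
        simp
      rw [this]
      exact zero_le
  have hcov : {t | t ∈ WL K ∧ t.length ≤ ML (K + 2) ∧ t ∈ PB ka Rs J d K (ε * PW.mZ (2 ^ K))} ⊆
      ⋃ l ∈ range (K - d + 1), ⋃ j ∈ range J, S l j := by
    rintro t ⟨t1, t2, l, j, h1, h2, h3, h4⟩
    obtain ⟨g1, g2⟩ := hRs l j h2
    obtain ⟨f1, f2, f3⟩ := Lr_oct h1 g1 g2
    rw [Set.mem_iUnion₂]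
    refine ⟨l, mem_range.2 (by omega), ?_⟩
    rw [Set.mem_iUnion₂]
    refine ⟨j, mem_range.2 h2, ?_⟩
    rw [hS]
    simp only
    rw [if_pos ⟨h1, h3⟩]
    exact ⟨t1, t2, h4⟩
  refine (gf_mono hcov).trans ((BAR.gf_bi_le _ _).trans ?_)
  have hin : ∀ l ∈ range (K - d + 1), gf (⋃ j ∈ range J, S l j) ≤ ENNReal.ofReal (J * (C * (3 / 4) ^ (K - l - 1))) * FK K := by
    intro l hl
    have hl' := mem_range.1 hl
    refine (BAR.gf_bi_le _ _).trans ((sum_le_sum fun j hj => hone l j (mem_range.1 hj) (by omega)).trans ?_)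
    rw [sum_const, card_range, nsmul_eq_mul, ← mul_assoc]
    refine mul_le_mul' (le_of_eq ?_) le_rfl
    rw [ENNReal.ofReal_mul (Nat.cast_nonneg _), ENNReal.ofReal_natCast]
  refine (sum_le_sum hin).trans ?_
  rw [← sum_mul, ← ENNReal.ofReal_sum_of_nonneg (fun l _ => by positivity)]
  refine mul_le_mul' (ENNReal.ofReal_le_ofReal ?_) le_rfl
  rw [← mul_sum, ← mul_sum]
  have h5 := geo (d := d) (by omega) (K - d)
  rw [show K - d + d = K by omega] at h5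
  have h6 := hd2 d (by omega)
  calc (J : ℝ) * (C * ∑ l ∈ range (K - d + 1), (3 / 4 : ℝ) ^ (K - l - 1)) ≤ J * (C * (6 * (3 / 4) ^ d)) := by gcongr
    _ = J * C * (6 * (3 / 4 : ℝ) ^ d) := by ring
    _ ≤ e0 := h6

end KN

open KN RevX in
/-- **N** -/
theorem kapN_of (hD : DenJ) : Pool.Agent.NPR.KapN := by
  classical
  obtain ⟨c, C, B, j0, hc, hC, hB, hD⟩ := hD
  obtain ⟨ka, hka⟩ := gau hD
  obtain ⟨B', hB', hsize⟩ := size_gau hB fun R hR => ⟨(hka R hR).1, (hka R hR).2.1, (hka R hR).2.2.1⟩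
  refine ⟨ka, B', hB', hsize, fun J ε hε => ?_⟩
  obtain ⟨e, he⟩ : ∃ e : ℝ, e = min ε 1 / 500 := ⟨_, rfl⟩
  have hmin : 0 < min ε 1 := lt_min hε one_pos
  have he0 : 0 < e := by rw [he]; positivity
  have he1 : 300 * e ≤ 1 := by
    have := min_le_right ε 1
    rw [he]
    linarith
  have he2 : 500 * e ≤ ε := by
    have := min_le_left ε 1
    rw [he]
    linarith
  obtain ⟨q, k0, e1, he10, htr⟩ := pre_of he0
  obtain ⟨C4, hC4, hup⟩ := exists_mz_up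
  have hC40 : 0 < C4 := by linarith
  obtain ⟨ε', hε'⟩ : ∃ ε' : ℝ, ε' = e / (C4 * 4 ^ q) := ⟨_, rfl⟩
  have hε'0 : 0 < ε' := by rw [hε']; positivity
  obtain ⟨d, hmass⟩ := mass_u hc hC (fun R hR => (hka R hR).2.2.2) J hε'0 he10
  obtain ⟨a, A, ha, hA, hpow⟩ := TIP.NQ.scale_pow
  obtain ⟨n1, hn1⟩ := exists_nat_ge (1 / e)
  refine ⟨2 * A * 2 ^ d, max ⌈PW.mZ (2 ^ (k0 + d))⌉₊ (max n1 8), by positivity, fun n Rs hn hRs => ?_⟩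
  have hn0 : ⌈PW.mZ (2 ^ (k0 + d))⌉₊ ≤ n := le_trans (le_max_left _ _) hn
  have hn8 : 8 ≤ n := le_trans ((le_max_right _ _).trans (le_max_right _ _)) hn
  have hnz : PW.mZ (2 ^ (k0 + d)) ≤ n := (Nat.le_ceil _).trans (by exact_mod_cast hn0)
  have hen : 1 ≤ e * n := by
    have h1 : (n1 : ℝ) ≤ n := by exact_mod_cast le_trans ((le_max_left _ _).trans (le_max_right _ _)) hn
    have h2 : 1 / e ≤ n := hn1.trans h1
    rw [div_le_iff₀ he0] at h2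
    linarith
  obtain ⟨k, hsc⟩ := Pool.Agent.NPR.sc_ex0 (n := n) ((mz_mono (Nat.zero_le _)).trans hnz)
  have hk : k0 + d ≤ k := by
    by_contra hcon
    have h1 : PW.mZ (2 ^ (k + 1)) ≤ PW.mZ (2 ^ (k0 + d)) := mz_mono (by omega)
    have h2 := hsc.2
    linarith
  obtain ⟨K, hK⟩ : ∃ K, K = k + q := ⟨_, rfl⟩
  obtain ⟨P, hP⟩ : ∃ P, P = PB ka Rs J d K (ε' * PW.mZ (2 ^ K)) := ⟨_, rfl⟩
  have hM := htr k n (by omega) hsc P (fun A E hA => by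
    rw [hP] at hA ⊢
    exact PB_ext A E hA) (by
    rw [← hK, hP]
    exact hmass K Rs (by omega) hRs)
  have hnum : ε' * PW.mZ (2 ^ K) ≤ e * n := by
    rw [hK, hε']
    have h1 := hup k q
    have h2 := hsc.1
    have h3 : (0 : ℝ) < C4 * 4 ^ q := by positivity
    calc e / (C4 * 4 ^ q) * PW.mZ (2 ^ (k + q)) ≤ e / (C4 * 4 ^ q) * (C4 * 4 ^ q * PW.mZ (2 ^ k)) := by gcongr
      _ = e * PW.mZ (2 ^ k) := by field_simp
      _ ≤ e * n := by gcongr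
  -- the two bad sets
  obtain ⟨Q, hQ⟩ : ∃ Q : Set (List Bool), Q = {t | ∃ j, 4 * j ≤ 3 * n ∧ t.take j ∈ P} := ⟨_, rfl⟩
  rw [← hQ] at hM
  have hM2 : TOG.Pn n {t | Pool.Agent.IW.rvw t ∈ Q} ≤ e := (Pool.Agent.IW.Pn_rvw (by omega) Q).trans_le hM
  have hgood : ∀ t ∈ SawN n, t ∉ Q → ∀ l j : ℕ, 1 ≤ l → j < J → Lr (Rs l j) + d ≤ K → ∀ x y : ℕ, x ≤ y → 4 * y ≤ 3 * n →
      |ka (Rs l j) * Vm (Rs l j) (wd t x y) - ((y : ℝ) - x)| ≤ e * n := by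
    intro t ht htQ l j hl hj hL x y hxy hy
    by_contra hcon
    apply htQ
    rw [hQ]
    refine ⟨y, hy, ?_⟩
    rw [hP]
    refine ⟨l, j, hl, hj, hL, fun h => hcon ?_⟩
    have hyl : (t.take y).length = y := by
      rw [List.length_take, ht.1]
      omega
    have h1 := h x y hxy hyl.ge
    have h2 : wd (t.take y) x y = wd t x y := by
      unfold wd
      rw [List.take_take, min_self]
    rw [h2] at h1
    exact h1.trans hnum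
  refine (pn_mono (B := Q ∪ {t | Pool.Agent.IW.rvw t ∈ Q}) fun t ht htb => ?_).trans ((RevX.pn_union _ _ _).trans ?_)
  · by_contra hc'
    have hc1 : t ∉ Q := fun h => hc' (Or.inl h)
    have hc2 : Pool.Agent.IW.rvw t ∉ Q := fun h => hc' (Or.inr h)
    obtain ⟨l, j, h1, h2, h3, h4⟩ := htb
    obtain ⟨g1, g2⟩ := hRs l j h2
    obtain ⟨f1, f2, f3⟩ := Lr_oct h1 g1 g2
    have hV := af_R f1
    have hka0 := (hka _ f1).1
    have hL : Lr (Rs l j) + d ≤ K := by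
      have k1 := (Lr_size f1).2
      have k2 := (hpow k n hsc.1 hsc.2).2
      have k3 : 2 * A * 2 ^ d * Rs l j ≤ A * 2 ^ k := h3.trans k2
      have k4 : A * ((2 : ℝ) ^ (Lr (Rs l j) + d)) ≤ A * 2 ^ k := by
        rw [pow_add]
        have k5 := mul_le_mul_of_nonneg_left k1 (show 0 ≤ A * 2 ^ d by positivity)
        calc A * ((2 : ℝ) ^ Lr (Rs l j) * 2 ^ d) = A * 2 ^ d * 2 ^ Lr (Rs l j) := by ring
          _ ≤ A * 2 ^ d * (2 * Rs l j) := k5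
          _ = 2 * A * 2 ^ d * Rs l j := by ring
          _ ≤ _ := k3
      have k5 : (2 : ℝ) ^ (Lr (Rs l j) + d) ≤ 2 ^ k := le_of_mul_le_mul_left k4 hA
      have k6 : 2 ^ (Lr (Rs l j) + d) ≤ 2 ^ k := by exact_mod_cast k5
      have k7 := (Nat.pow_le_pow_iff_right (by norm_num)).1 k6
      omega
    have w1 := hgood t ht hc1 l j h1 h2 hL
    have w2 := hgood _ (Pool.Agent.IW.rvw_mem (by omega) ht) hc2 l j h1 h2 hL
    have w3 := late hV hV (fun u => Vm_rev (by linarith) u) hka0 hn8 hen ht w2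
    have w4 := allw hV hka0 hka0 hn8 hen he1 (ka_le hV hka0 hn8 hen ht w1 true).1
      (by rw [sub_self, abs_zero]; positivity) w1 w3
    refine h4 fun x y hxy hy => (w4 x y hxy (ht.1 ▸ hy)).trans ?_
    have k1 := mul_le_mul_of_nonneg_right he2 (Nat.cast_nonneg (α := ℝ) n)
    linarith
  · linarith

end NPR

end HexObs
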