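import Pool.Agent.ERG.KapL
import Pool.Agent.NPR.All

/-!
# ERG (no drift): the reduction theorem with the natural time along all scales (helper10, frame of helper34)
-/

set_option autoImplicit false

open Set Filter Topology MeasureTheory
open scoped ENNReal

namespace Pool.Agent.NPR

open Pool.Agent.NTS.Res

/-- **the reduction theorem; the time of every weak limit is the number of small pieces of its image, times a deterministic
function** -/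
theorem fin_nat :
    (∀ φ : ℕ → ℕ, StrictMono φ → ∃ ψ : ℕ → ℕ, StrictMono ψ ∧ ∃ ν : Measure C(unitInterval, ℂ),
      IsProbabilityMeasure ν ∧ LawTo (fun k => φ (ψ k)) ν) ∧
    (∃ c C : ℝ, 0 < c ∧ ∀ (φ : ℕ → ℕ) (ν : Measure C(unitInterval, ℂ)), Tendsto φ atTop atTop → IsProbabilityMeasure ν →
      LawTo φ ν → ∃ h : ℝ → ℝ, (∀ r : ℝ, 0 < r → c * r ^ (4 / 3 : ℝ) ≤ h r ∧ h r ≤ C * r ^ (4 / 3 : ℝ)) ∧
        ∀ᵐ γ : C(unitInterval, ℂ) ∂ν, NatT h γ) ∧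
    (∀ (h h' : ℝ → ℝ) (γ γ' : C(unitInterval, ℂ)), NatT h γ → NatT h' γ' → range γ = range γ' → γ = γ') ∧
    ((∃ ν : Measure C(unitInterval, ℂ), IsProbabilityMeasure ν ∧ LawTo (fun n => n) ν) ↔
      ∃ μ : Measure (TopologicalSpace.NonemptyCompacts ℂ), IsProbabilityMeasure μ ∧
        ∀ f : BoundedContinuousFunction (TopologicalSpace.NonemptyCompacts ℂ) ℝ,
          Tendsto (fun n => ∫ γ, f (tr γ) ∂(law n)) atTop (𝓝 (∫ K, f K ∂μ))) ∧
    ((∃ ν : Measure C(unitInterval, ℂ), IsProbabilityMeasure ν ∧ LawTo (fun n => n) ν) ↔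
      ∀ F : Finset ℂ, F.Nonempty → ∃ S : Set ℝ, S.Countable ∧ ∀ t : ℝ, 0 < t → t ∉ S →
        ∃ l : ℝ, Tendsto (fun n => frac n F t) atTop (𝓝 l)) := by
  obtain ⟨h1, -, h3, h4⟩ := fin_pub HexObs.NPR.mainN
  obtain ⟨c, C, hc, -, hN⟩ := nat_time exC
  obtain ⟨-, -, hinj⟩ := HexObs.SIM.simple_final
  refine ⟨h1, ⟨c, C, hc, fun φ ν hφ hν hlim => ?_⟩, fun h h' γ γ' g g' ht => nat_eq g g' ht, h3, h4⟩
  obtain ⟨h, k1, -, k3⟩ := hN φ ν hφ hν hlim
  refine ⟨h, k1, ?_⟩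
  filter_upwards [hinj φ ν hφ hν hlim, NTSF.limit_zeroQ hν hlim, k3] with γ g1 g2 g3
  exact ⟨g1, g2, g3⟩

end Pool.Agent.NPR
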