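import Pool.Agent.ERG.KapV

/-!
# ERG (no drift): the clock constant, all real scales at once, exactly n letters (helper10)

* `ExK` : one function `κ` with `κ R ≍ R ^ (4 / 3)`; for all `n` and for all the scales `4 ≤ R ≤ 2 ^ (k - d)` at once, all the
  windows of the uniform walk with `n` letters; **`exK : ExK`**.
-/

set_option autoImplicit false

open Set Filter Topology MeasureTheory

namespace Pool.Agent.NPR

open HexObs hiding pos curve
open HexObs.TIW HexObs.TS HexObs.SDN HexObs.NPR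

/-- **all real scales at once, exactly n letters** -/
def ExK : Prop := ∃ (b : ℝ) (κ : ℝ → ℝ), 1 ≤ b ∧
  (∀ R : ℝ, 2 ≤ R → 0 < κ R ∧ R ^ (4 / 3 : ℝ) ≤ b * κ R ∧ κ R ≤ b * R ^ (4 / 3 : ℝ)) ∧
  (∀ R R' : ℝ, 4 ≤ R → R ≤ R' → R' ≤ 2 * R → |κ R * R' - κ R' * R| ≤ b * (R' - R) * R ^ (4 / 3 : ℝ)) ∧
  ∀ ε : ℝ, 0 < ε → ∃ d : ℕ, ∀ k n : ℕ, TIP.Sc k n →
    TOG.Pn n {t | ¬ ∀ R : ℝ, 4 ≤ R → R * 2 ^ d ≤ 2 ^ k → ∀ x y : ℕ, x ≤ y → y ≤ t.length →
      |κ R * Vm R (wd t x y) - ((y : ℝ) - x)| ≤ ε * n} ≤ ε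

namespace KapV

lemma two43 : (2 : ℝ) ^ (4 / 3 : ℝ) ≤ 4 := by
  calc (2 : ℝ) ^ (4 / 3 : ℝ) ≤ (2 : ℝ) ^ (2 : ℝ) := Real.rpow_le_rpow_of_exponent_le (by norm_num) (by norm_num)
    _ = 4 := by norm_num

/-- doubling -/
lemma dbl {R R' : ℝ} (hR : 0 < R) (h1 : 0 ≤ R') (h : R' ≤ 2 * R) : R' ^ (4 / 3 : ℝ) ≤ 4 * R ^ (4 / 3 : ℝ) := by
  have h2 := Real.rpow_le_rpow h1 h (show (0 : ℝ) ≤ 4 / 3 by norm_num)
  rw [Real.mul_rpow (by norm_num) hR.le] at h2
  exact h2.trans (mul_le_mul_of_nonneg_right two43 (by positivity))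

/-- numbers: one window -/
lemma win_num {κ κi κh R Ri v vi vh len n e D G : ℝ} (hκi : 0 < κi) (hκh : 0 < κh) (hRi : 0 < Ri) (hG : 0 < G)
    (hD : 0 ≤ D) (hn : 0 ≤ n) (he : e ≤ 1) (hlen : len ≤ n) (hv : 0 ≤ v) (h1 : |κi * vi - len| ≤ e * n)
    (h2 : |κh * vh - len| ≤ e * n) (h3 : v ≤ vh) (h4 : |R * v - Ri * vi| ≤ 2 * (R - Ri) * vh)
    (h5 : |κi * R - κ * Ri| ≤ D * (R - Ri) * κi) (h6 : κi ≤ D * κh) (h7 : R - Ri ≤ Ri / G) (h8 : Ri ≤ R) :
    |κ * v - len| ≤ e * n + (D + 2) * (2 * D) * n / G := by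
  have hvh : 0 ≤ vh := hv.trans h3
  have hvv : κi * vh ≤ 2 * D * n := by
    have k1 : κi * vh ≤ D * κh * vh := mul_le_mul_of_nonneg_right h6 hvh
    have k2 : κh * vh ≤ 2 * n := by
      have := (abs_le.1 h2).2
      have := mul_le_mul_of_nonneg_right he hn
      linarith
    have k3 := mul_le_mul_of_nonneg_left k2 hD
    linarith
  have e1 : (κ * v - len) * Ri = -((κi * R - κ * Ri) * v) + κi * (R * v - Ri * vi) + (κi * vi - len) * Ri := by ring
  have k4 : |(κi * R - κ * Ri) * v| ≤ D * (R - Ri) * (κi * vh) := by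
    rw [abs_mul, abs_of_nonneg hv]
    refine (mul_le_mul h5 h3 hv ?_).trans (le_of_eq (by ring))
    exact (abs_nonneg _).trans h5
  have k5 : |κi * (R * v - Ri * vi)| ≤ 2 * (R - Ri) * (κi * vh) := by
    rw [abs_mul, abs_of_pos hκi]
    refine (mul_le_mul_of_nonneg_left h4 hκi.le).trans (le_of_eq (by ring))
  have k6 : |(κi * vi - len) * Ri| ≤ e * n * Ri := by
    rw [abs_mul, abs_of_pos hRi]
    exact mul_le_mul_of_nonneg_right h1 hRi.le
  have k7 : |(κ * v - len) * Ri| ≤ (D + 2) * (R - Ri) * (κi * vh) + e * n * Ri := by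
    rw [e1]
    refine (abs_add_le _ _).trans ?_
    have := abs_add_le (-((κi * R - κ * Ri) * v)) (κi * (R * v - Ri * vi))
    rw [abs_neg] at this
    linarith
  have k8 : (D + 2) * (R - Ri) * (κi * vh) ≤ (D + 2) * (Ri / G) * (2 * D * n) := by
    refine mul_le_mul (mul_le_mul_of_nonneg_left h7 (by linarith)) hvv (by positivity) (by positivity)
  have e2 : (D + 2) * (Ri / G) * (2 * D * n) + e * n * Ri = (e * n + (D + 2) * (2 * D) * n / G) * Ri := by
    field_simp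
    ring
  rw [abs_mul, abs_of_pos hRi] at k7
  have k9 : |κ * v - len| * Ri ≤ (e * n + (D + 2) * (2 * D) * n / G) * Ri := by
    rw [← e2]
    linarith
  exact le_of_mul_le_mul_right k9 hRi

/-- the grid -/
noncomputable def gr (G : ℕ) (l i : ℕ) : ℝ := 2 ^ (l - 1) * (1 + (i : ℝ) / G)

lemma gr_Gr {G : ℕ} : Gr G (gr G) := by
  intro l i hl hi
  have hG : (0 : ℝ) < G := by exact_mod_cast (show 0 < G by omega)
  have hp : (0 : ℝ) < 2 ^ (l - 1) := by positivity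
  have h1 : (i : ℝ) / G < 1 := by
    rw [div_lt_one hG]
    exact_mod_cast hi
  have h2 : (0 : ℝ) ≤ (i : ℝ) / G := by positivity
  have e : (2 : ℝ) ^ l = 2 ^ (l - 1) * 2 := by
    rw [← pow_succ, Nat.sub_add_cancel (by omega)]
  unfold gr
  rw [e]
  exact ⟨le_mul_of_one_le_right hp.le (by linarith), mul_lt_mul_of_pos_left (by linarith) hp⟩

lemma gr_half {G l i : ℕ} (hl : 2 ≤ l) : gr G (l - 1) i = gr G l i / 2 := by
  unfold gr
  have e : (2 : ℝ) ^ (l - 1) = 2 ^ (l - 1 - 1) * 2 := by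
    rw [← pow_succ, Nat.sub_add_cancel (by omega)]
  rw [e]
  ring

lemma gr_ex {G : ℕ} (hG : 1 ≤ G) {R : ℝ} (hR : 2 ≤ R) : ∃ i : ℕ, i < G ∧ gr G (lv R) i ≤ R ∧
    R - gr G (lv R) i ≤ gr G (lv R) i / G := by
  obtain ⟨h1, h2, h3⟩ := lv_spec hR
  obtain ⟨l, hl⟩ : ∃ l, l = lv R := ⟨_, rfl⟩
  rw [← hl] at h1 h2 h3 ⊢
  have hG0 : (0 : ℝ) < G := by exact_mod_cast hG
  obtain ⟨p, hp⟩ : ∃ p : ℝ, p = 2 ^ (l - 1) := ⟨_, rfl⟩
  have hp0 : 0 < p := by
    rw [hp]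
    positivity
  have e : (2 : ℝ) ^ l = p * 2 := by
    rw [hp, ← pow_succ, Nat.sub_add_cancel (by omega)]
  rw [← hp] at h2
  rw [e] at h3
  obtain ⟨x, hx⟩ : ∃ x : ℝ, x = (R / p - 1) * G := ⟨_, rfl⟩
  have hx0 : 0 ≤ x := by
    rw [hx]
    refine mul_nonneg ?_ hG0.le
    have : 1 ≤ R / p := by rwa [le_div_iff₀ hp0, one_mul]
    linarith
  have hx1 : x < G := by
    rw [hx]
    have : R / p < 2 := by
      rw [div_lt_iff₀ hp0]
      linarith
    nlinarith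
  have i1 : (⌊x⌋₊ : ℝ) ≤ x := Nat.floor_le hx0
  have i2 : x < ⌊x⌋₊ + 1 := Nat.lt_floor_add_one x
  have eR : R = p * (1 + x / G) := by
    rw [hx]
    field_simp
    ring
  refine ⟨⌊x⌋₊, (Nat.floor_lt hx0).2 hx1, ?_, ?_⟩
  · unfold gr
    rw [← hp]
    rw [eR]
    refine mul_le_mul_of_nonneg_left ?_ hp0.le
    have := div_le_div_of_nonneg_right i1 hG0.le
    linarith
  · have h4 : gr G l ⌊x⌋₊ = p * (1 + (⌊x⌋₊ : ℝ) / G) := by
      unfold gr
      rw [hp]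
    have h5 : p ≤ gr G l ⌊x⌋₊ := by
      rw [h4]
      refine le_mul_of_one_le_right hp0.le ?_
      have : (0 : ℝ) ≤ (⌊x⌋₊ : ℝ) / G := by positivity
      linarith
    have h6 : R - gr G l ⌊x⌋₊ ≤ p / G := by
      rw [h4]
      nth_rewrite 1 [eR]
      have h7 : p * (1 + x / G) - p * (1 + (⌊x⌋₊ : ℝ) / G) = p * (x - ⌊x⌋₊) / G := by
        field_simp
        ring
      rw [h7]
      refine div_le_div_of_nonneg_right ?_ hG0.le
      nlinarith
    exact h6.trans (div_le_div_of_nonneg_right h5 hG0.le)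

end KapV

open KapV in
/-- **all real scales at once, exactly n letters** -/
theorem exK_of (h : ExJ) : ExK := by
  classical
  obtain ⟨B, ka, hB, hk, hJ⟩ := h
  obtain ⟨b0, hb0, hsz⟩ := kp_size hB hk
  have hb00 : 0 < b0 := by linarith
  obtain ⟨D, hD⟩ : ∃ D : ℝ, D = 32 * b0 ^ 4 := ⟨_, rfl⟩
  have hb1 : 1 ≤ b0 ^ 2 := one_le_pow₀ hb0
  have hbb : b0 ≤ b0 ^ 2 := by nlinarith
  have hb3 : b0 ^ 2 ≤ b0 ^ 4 := pow_le_pow_right₀ hb0 (by norm_num)
  have hb4 : b0 ^ 3 ≤ b0 ^ 4 := pow_le_pow_right₀ hb0 (by norm_num)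
  have hD1 : 1 ≤ D := by
    rw [hD]
    linarith
  have hnear : ∀ R R' : ℝ, 4 ≤ R → R ≤ R' → R' ≤ 2 * R →
      |kp ka R * R' - kp ka R' * R| ≤ 32 * b0 ^ 3 * (R' - R) * R ^ (4 / 3 : ℝ) := by
    intro R R' hR h1 h2
    refine (kap_near hk hJ hR h1 h2).trans ?_
    obtain ⟨a1, a2⟩ := hsz R (by linarith)
    obtain ⟨a3, a4⟩ := hsz R' (by linarith)
    obtain ⟨a5, a6⟩ := hsz (R / 2) (by linarith)
    have hκ := kp_pos hk (R := R) (by linarith)
    have hκ' := kp_pos hk (R := R') (by linarith)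
    have hκh := kp_pos hk (R := R / 2) (by linarith)
    have d1 := dbl (R := R) (R' := R') (by linarith) (by linarith) h2
    have d2 := dbl (R := R / 2) (R' := R) (by linarith) (by linarith) (by linarith)
    have hp : 0 < R ^ (4 / 3 : ℝ) := Real.rpow_pos_of_pos (by linarith) _
    have k1 : kp ka R' ≤ 4 * b0 * R ^ (4 / 3 : ℝ) := by
      have := mul_le_mul_of_nonneg_left d1 hb00.le
      linarith
    have k2 : R ^ (4 / 3 : ℝ) ≤ 4 * b0 * kp ka (R / 2) := by linarith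
    have k3 : kp ka R * kp ka R' / kp ka (R / 2) ≤ 16 * b0 ^ 3 * R ^ (4 / 3 : ℝ) := by
      rw [div_le_iff₀ hκh]
      calc kp ka R * kp ka R' ≤ (b0 * R ^ (4 / 3 : ℝ)) * (4 * b0 * R ^ (4 / 3 : ℝ)) :=
            mul_le_mul a2 k1 hκ'.le (by positivity)
        _ = 4 * b0 ^ 2 * R ^ (4 / 3 : ℝ) * R ^ (4 / 3 : ℝ) := by ring
        _ ≤ 4 * b0 ^ 2 * R ^ (4 / 3 : ℝ) * (4 * b0 * kp ka (R / 2)) := mul_le_mul_of_nonneg_left k2 (by positivity)
        _ = 16 * b0 ^ 3 * R ^ (4 / 3 : ℝ) * kp ka (R / 2) := by ring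
    have k4 := mul_le_mul_of_nonneg_left k3 (show 0 ≤ 2 * (R' - R) by linarith)
    linarith
  refine ⟨D, kp ka, hD1, fun R hR => ?_, fun R R' hR h1 h2 => ?_, fun ε hε => ?_⟩
  · obtain ⟨a1, a2⟩ := hsz R hR
    have hκ := kp_pos hk (R := R) hR
    have hp : 0 < R ^ (4 / 3 : ℝ) := Real.rpow_pos_of_pos (by linarith) _
    have hbD : b0 ≤ D := by
      rw [hD]
      linarith
    exact ⟨hκ, a1.trans (mul_le_mul_of_nonneg_right hbD hκ.le), a2.trans (mul_le_mul_of_nonneg_right hbD hp.le)⟩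
  · refine (hnear R R' hR h1 h2).trans ?_
    have hp : 0 < R ^ (4 / 3 : ℝ) := Real.rpow_pos_of_pos (by linarith) _
    refine mul_le_mul_of_nonneg_right (mul_le_mul_of_nonneg_right ?_ (by linarith)) hp.le
    rw [hD]
    linarith
  -- the statement
  obtain ⟨e, he⟩ : ∃ e : ℝ, e = min ε 1 / 2 := ⟨_, rfl⟩
  have hmin : 0 < min ε 1 := lt_min hε one_pos
  have he0 : 0 < e := by
    rw [he]
    positivity
  have he1 : e ≤ 1 := by
    have := min_le_right ε 1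
    linarith
  have he2 : 2 * e ≤ ε := by
    have := min_le_left ε 1
    linarith
  obtain ⟨G, hG⟩ := exists_nat_gt ((D + 2) * (2 * D) / e)
  have hG0 : (0 : ℝ) < G := lt_trans (by positivity) hG
  have hG1 : 1 ≤ G := by
    have : 0 < G := by exact_mod_cast hG0
    exact this
  rw [div_lt_iff₀ he0] at hG
  obtain ⟨d, hd⟩ := ex_gr hJ G he0
  refine ⟨d + 1, fun k n hsc => ?_⟩
  rcases Nat.lt_or_ge k d with hkd | hkd
  · have h0 : {t : List Bool | t ∈ SawN n ∧ t ∈ {t : List Bool | ¬ ∀ R : ℝ, 4 ≤ R → R * 2 ^ (d + 1) ≤ 2 ^ k →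
        ∀ x y : ℕ, x ≤ y → y ≤ t.length → |kp ka R * Vm R (wd t x y) - ((y : ℝ) - x)| ≤ ε * n}} = ∅ := by
      ext t
      simp only [Set.mem_ofPred_eq, Set.mem_empty_iff_false, iff_false, not_and, not_not]
      intro _ R hR hRk
      exfalso
      have h1 : (2 : ℝ) ^ k ≤ 2 ^ (d + 1) := pow_le_pow_right₀ (by norm_num) (by omega)
      have h2 : (0 : ℝ) < 2 ^ (d + 1) := by positivity
      nlinarith
    unfold TOG.Pn
    rw [h0, Set.ncard_empty, Nat.cast_zero, zero_div]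
    exact hε.le
  · refine (HexObs.NPR.RevX.pn_mono fun t ht htb => ?_).trans ((hd (gr G) gr_Gr k n hsc hkd).trans (by linarith))
    intro hcon
    refine htb fun R hR hRk x y hx hy => ?_
    obtain ⟨l1, l2, l3⟩ := lv_spec (R := R) (by linarith)
    obtain ⟨i, hi, hi1, hi2⟩ := gr_ex hG1 (R := R) (by linarith)
    obtain ⟨l, hl⟩ : ∃ l, l = lv R := ⟨_, rfl⟩
    rw [← hl] at l1 l2 l3 hi1 hi2
    have hlk : l + d ≤ k := by
      have h1 : (2 : ℝ) ^ (l - 1) * 2 ^ (d + 1) ≤ 2 ^ k := (mul_le_mul_of_nonneg_right l2 (by positivity)).trans hRk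
      rw [← pow_add] at h1
      have h2 := (pow_le_pow_iff_right₀ (show (1 : ℝ) < 2 by norm_num)).1 h1
      omega
    have l4 : 3 ≤ l := by
      by_contra hc
      have h1 : (2 : ℝ) ^ l ≤ 2 ^ 2 := pow_le_pow_right₀ (by norm_num) (by omega)
      linarith
    obtain ⟨Ri, hRi⟩ : ∃ Ri, Ri = gr G l i := ⟨_, rfl⟩
    have hRi4 : 4 ≤ Ri := by
      have h1 := (gr_Gr (G := G) l i (by omega) hi).1
      have h2 : (2 : ℝ) ^ 2 ≤ 2 ^ (l - 1) := pow_le_pow_right₀ (by norm_num) (by omega)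
      rw [hRi]
      linarith
    have a1 := hcon l i (by omega) hi hlk x y hx hy
    have a2 := hcon (l - 1) i (by omega) hi (by omega) x y hx hy
    rw [gr_half (by omega)] at a2
    rw [← hRi] at a1 a2 hi1 hi2
    have hRR : R ≤ 2 * Ri := by
      have : Ri / G ≤ Ri := div_le_self (by linarith) (by exact_mod_cast hG1)
      linarith
    have hlen : (y : ℝ) - x ≤ n := by
      have h1 : (y : ℝ) ≤ n := by
        rw [← ht.1]
        exact_mod_cast hy
      have h2 : (0 : ℝ) ≤ x := Nat.cast_nonneg x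
      linarith
    have hκi := kp_pos hk (R := Ri) (by linarith)
    have hκh := kp_pos hk (R := Ri / 2) (by linarith)
    have hw := Vm_one (R := R) (by linarith) (wd t x y)
    have hva : Vm R (wd t x y) ≤ Vm (Ri / 2) (wd t x y) := by
      refine (Vm_le_Vz (by linarith) _).trans (le_trans ?_ (Vz_le_Vm (by linarith) _))
      exact_mod_cast Vz_anti (x := Ri) (x' := R) (by linarith) hi1 (Nat.zero_le _) fun i _ _ => zw_step _ i
    have hnr := hnear Ri R (by linarith) hi1 hRR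
    obtain ⟨s1, s2⟩ := hsz Ri (by linarith)
    obtain ⟨s3, s4⟩ := hsz (Ri / 2) (by linarith)
    have d2 := dbl (R := Ri / 2) (R' := Ri) (by linarith) (by linarith) (by linarith)
    have h5 : |kp ka Ri * R - kp ka R * Ri| ≤ D * (R - Ri) * kp ka Ri := by
      refine hnr.trans ?_
      have k1 : 32 * b0 ^ 3 * (R - Ri) * Ri ^ (4 / 3 : ℝ) ≤ 32 * b0 ^ 3 * (R - Ri) * (b0 * kp ka Ri) :=
        mul_le_mul_of_nonneg_left s1 (mul_nonneg (by positivity) (by linarith))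
      refine k1.trans (le_of_eq ?_)
      rw [hD]
      ring
    have h6 : kp ka Ri ≤ D * kp ka (Ri / 2) := by
      have k1 : kp ka Ri ≤ 4 * b0 ^ 2 * kp ka (Ri / 2) := by
        calc kp ka Ri ≤ b0 * Ri ^ (4 / 3 : ℝ) := s2
          _ ≤ b0 * (4 * (Ri / 2) ^ (4 / 3 : ℝ)) := mul_le_mul_of_nonneg_left d2 hb00.le
          _ ≤ b0 * (4 * (b0 * kp ka (Ri / 2))) := by
              refine mul_le_mul_of_nonneg_left (mul_le_mul_of_nonneg_left s3 (by norm_num)) hb00.le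
          _ = _ := by ring
      refine k1.trans (mul_le_mul_of_nonneg_right ?_ hκh.le)
      rw [hD]
      linarith
    have hfin := win_num (κ := kp ka R) (n := (n : ℝ)) hκi hκh (by linarith) hG0 (by linarith) (Nat.cast_nonneg n) he1 hlen
      (by linarith) a1 a2 hva (Vm_near (by linarith) hi1 hRR _) h5 h6 hi2 hi1
    refine hfin.trans ?_
    have k1 : (D + 2) * (2 * D) * n / G ≤ e * n := by
      rw [div_le_iff₀ hG0]
      have := mul_le_mul_of_nonneg_right hG.le (Nat.cast_nonneg (α := ℝ) n)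
      linarith
    have k2 := mul_le_mul_of_nonneg_right he2 (Nat.cast_nonneg (α := ℝ) n)
    linarith

/-- **all real scales at once, exactly n letters** -/
theorem exK : ExK := exK_of exJ

end Pool.Agent.NPR
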