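import Pool.Agent.ERG.KapM
import Pool.Agent.NPR.ClkOfZ

/-!
# ERG (no drift): the clock constant of a scale, the mean number of pieces, all real scales at once (helper10)

* `lv R` : the level of the scale `R`; `kp ka R` : the constant of the scale `R`;
* `Vm_near` : the mean number of pieces at two scales; `kap_near` : the constants at two scales;
* **`exK`** : one function `κ` with `κ R ≍ R ^ (4 / 3)`; for all `n` and for all the scales `4 ≤ R ≤ 2 ^ (k - d)` at once, all the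
  windows of the uniform walk with `n` letters.
-/

set_option autoImplicit false

open Set Filter Topology MeasureTheory

namespace Pool.Agent.NPR

open HexObs hiding pos curve
open HexObs.TIW HexObs.TS HexObs.SDN HexObs.NPR

namespace KapV

/-- the level of a scale -/
noncomputable def lv (R : ℝ) : ℕ := Nat.log 2 ⌊R⌋₊ + 1

lemma lv_eq {R : ℝ} {l : ℕ} (hl : 2 ≤ l) (h1 : (2 : ℝ) ^ (l - 1) ≤ R) (h2 : R < 2 ^ l) : lv R = l := by
  have h3 : 2 ^ (l - 1) ≤ ⌊R⌋₊ := Nat.le_floor (by push_cast; exact h1)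
  have h4 : ⌊R⌋₊ < 2 ^ l := by
    have h5 : (0 : ℝ) ≤ R := le_trans (by positivity) h1
    rw [Nat.floor_lt h5]
    push_cast
    exact h2
  have h5 : Nat.log 2 ⌊R⌋₊ = l - 1 := by
    have h6 : l - 1 + 1 = l := by omega
    exact Nat.log_eq_of_pow_le_of_lt_pow h3 (by rwa [h6])
  unfold lv
  omega

lemma lv_spec {R : ℝ} (h : 2 ≤ R) : 2 ≤ lv R ∧ (2 : ℝ) ^ (lv R - 1) ≤ R ∧ R < 2 ^ lv R := by
  have h1 : 2 ≤ ⌊R⌋₊ := Nat.le_floor (by exact_mod_cast h)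
  have h2 : 1 ≤ Nat.log 2 ⌊R⌋₊ := by
    have : Nat.log 2 2 ≤ Nat.log 2 ⌊R⌋₊ := Nat.log_mono_right h1
    rwa [show Nat.log 2 2 = 1 by decide] at this
  have h3 : 2 ^ Nat.log 2 ⌊R⌋₊ ≤ ⌊R⌋₊ := Nat.pow_log_le_self 2 (by omega)
  have h4 : ⌊R⌋₊ < 2 ^ (Nat.log 2 ⌊R⌋₊ + 1) := Nat.lt_pow_succ_log_self (by norm_num) _
  have h5 : (⌊R⌋₊ : ℝ) ≤ R := Nat.floor_le (by linarith)
  have h6 : R < ⌊R⌋₊ + 1 := Nat.lt_floor_add_one R
  refine ⟨by unfold lv; omega, ?_, ?_⟩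
  · have h7 : ((2 ^ Nat.log 2 ⌊R⌋₊ : ℕ) : ℝ) ≤ ⌊R⌋₊ := by exact_mod_cast h3
    push_cast at h7
    unfold lv
    rw [Nat.add_sub_cancel]
    exact h7.trans h5
  · have h7 : ((⌊R⌋₊ + 1 : ℕ) : ℝ) ≤ ((2 ^ (Nat.log 2 ⌊R⌋₊ + 1) : ℕ) : ℝ) := by exact_mod_cast h4
    push_cast at h7
    unfold lv
    linarith

/-! ### two scales, one word -/

/-- the number of pieces is below the mean at the half scale -/
lemma Vz_le_Vm {R : ℝ} (hR : 2 ≤ R) (u : List Bool) : (Vz R (zw u) 0 u.length : ℝ) ≤ Vm (R / 2) u := by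
  have h1 : ∫ _x in (R / 2)..R, (Vz R (zw u) 0 u.length : ℝ) ≤ ∫ x in (R / 2)..R, (Vz x (zw u) 0 u.length : ℝ) := by
    refine intervalIntegral.integral_mono_on (by linarith) intervalIntegrable_const
      (vz_int (zw_step u) (by linarith) (by linarith) 0 (Nat.zero_le _)) fun x hx => ?_
    exact_mod_cast Vz_anti (x := x) (x' := R) (by have := hx.1; linarith) hx.2 (Nat.zero_le _) fun i _ _ => zw_step u i
  rw [intervalIntegral.integral_const, smul_eq_mul] at h1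
  unfold Vm
  rw [show 2 * (R / 2) = R by ring, le_div_iff₀ (by linarith)]
  linarith

/-- the mean is below the number of pieces -/
lemma Vm_le_Vz {R : ℝ} (hR : 1 ≤ R) (u : List Bool) : Vm R u ≤ (Vz R (zw u) 0 u.length : ℝ) := by
  have h := mean_le hR (vm_int hR u) (g := fun _ => (Vz R (zw u) 0 u.length : ℝ)) intervalIntegrable_const fun x hx => by
    show (Vz x (zw u) 0 u.length : ℝ) ≤ (Vz R (zw u) 0 u.length : ℝ)
    exact_mod_cast Vz_anti hR hx.1 (Nat.zero_le _) fun i _ _ => zw_step u i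
  rwa [vm_const hR] at h

/-- **the means at two scales** -/
lemma Vm_near {R R' : ℝ} (hR : 2 ≤ R) (h1 : R ≤ R') (h2 : R' ≤ 2 * R) (u : List Bool) :
    |R' * Vm R' u - R * Vm R u| ≤ 2 * (R' - R) * Vm (R / 2) u := by
  obtain ⟨f, hf⟩ : ∃ f : ℝ → ℝ, f = fun x => (Vz x (zw u) 0 u.length : ℝ) := ⟨_, rfl⟩
  have hint : ∀ {a b : ℝ}, 1 ≤ a → a ≤ b → IntervalIntegrable f volume a b := fun {a b} h3 h4 => by
    rw [hf]
    exact vz_int (zw_step u) h3 h4 0 (Nat.zero_le _)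
  have e1 : R' * Vm R' u = ∫ x in R'..2 * R', f x := by
    unfold Vm
    rw [hf]
    have : R' ≠ 0 := by linarith
    field_simp
  have e2 : R * Vm R u = ∫ x in R..2 * R, f x := by
    unfold Vm
    rw [hf]
    have : R ≠ 0 := by linarith
    field_simp
  have i1 : (∫ x in R..R', f x) + ∫ x in R'..2 * R, f x = ∫ x in R..2 * R, f x :=
    intervalIntegral.integral_add_adjacent_intervals (hint (by linarith) h1) (hint (by linarith) h2)
  have i2 : (∫ x in R'..2 * R, f x) + ∫ x in (2 * R)..2 * R', f x = ∫ x in R'..2 * R', f x :=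
    intervalIntegral.integral_add_adjacent_intervals (hint (by linarith) h2) (hint (by linarith) (by linarith))
  have hf0 : ∀ x, 0 ≤ f x := fun x => by
    rw [hf]
    exact Nat.cast_nonneg _
  have i3 : 0 ≤ ∫ x in R..R', f x := intervalIntegral.integral_nonneg h1 fun x _ => hf0 x
  have i4 : 0 ≤ ∫ x in (2 * R)..2 * R', f x := intervalIntegral.integral_nonneg (by linarith) fun x _ => hf0 x
  obtain ⟨N, hN⟩ : ∃ N : ℝ, N = (Vz R (zw u) 0 u.length : ℝ) := ⟨_, rfl⟩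
  have hfN : ∀ x, R ≤ x → f x ≤ N := fun x hx => by
    rw [hf, hN]
    show (Vz x (zw u) 0 u.length : ℝ) ≤ _
    exact_mod_cast Vz_anti (x := R) (x' := x) (by linarith) hx (Nat.zero_le _) fun i _ _ => zw_step u i
  have i5 : ∫ x in R..R', f x ≤ (R' - R) * N := by
    have h3 : ∫ x in R..R', f x ≤ ∫ _x in R..R', N :=
      intervalIntegral.integral_mono_on h1 (hint (by linarith) h1) intervalIntegrable_const fun x hx => hfN x hx.1
    rwa [intervalIntegral.integral_const, smul_eq_mul] at h3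
  have i6 : ∫ x in (2 * R)..2 * R', f x ≤ 2 * (R' - R) * N := by
    have h3 : ∫ x in (2 * R)..2 * R', f x ≤ ∫ _x in (2 * R)..2 * R', N :=
      intervalIntegral.integral_mono_on (by linarith) (hint (by linarith) (by linarith)) intervalIntegrable_const
        fun x hx => hfN x (by have := hx.1; linarith)
    rw [intervalIntegral.integral_const, smul_eq_mul] at h3
    linarith
  have i7 : N ≤ Vm (R / 2) u := by
    rw [hN]
    exact Vz_le_Vm hR u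
  have i8 : (R' - R) * N ≤ (R' - R) * Vm (R / 2) u := mul_le_mul_of_nonneg_left i7 (by linarith)
  have i9 : 0 ≤ (R' - R) * Vm (R / 2) u := by
    have hN0 : 0 ≤ N := by
      rw [hN]
      exact Nat.cast_nonneg _
    exact mul_nonneg (by linarith) (hN0.trans i7)
  rw [e1, e2, abs_le]
  constructor <;> linarith

/-! ### the constants -/

/-- the constant of the scale `R` -/
noncomputable def kp (ka : ℕ → ℕ → (List Bool → ℝ) → ℝ) (R : ℝ) : ℝ := ka ⌊R⌋₊ (lv R) (Vm R)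

/-- the scales of a table -/
def Gr (G : ℕ) (g : ℕ → ℕ → ℝ) : Prop := ∀ l i : ℕ, 2 ≤ l → i < G → (2 : ℝ) ^ (l - 1) ≤ g l i ∧ g l i < 2 ^ l

lemma fl {R : ℝ} {l : ℕ} (hl : 2 ≤ l) (h1 : (2 : ℝ) ^ (l - 1) ≤ R) (h2 : R < 2 ^ l) :
    2 ≤ R ∧ 2 ≤ ⌊R⌋₊ ∧ ⌊R⌋₊ ≤ 2 ^ l ∧ 2 ^ l ≤ 2 * ⌊R⌋₊ := by
  have h3 : 2 ^ (l - 1) ≤ ⌊R⌋₊ := Nat.le_floor (by push_cast; exact h1)
  have h0 : (0 : ℝ) ≤ R := le_trans (by positivity) h1
  have h4 : ⌊R⌋₊ < 2 ^ l := by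
    rw [Nat.floor_lt h0]
    push_cast
    exact h2
  have h5 : 2 ^ l = 2 * 2 ^ (l - 1) := by
    rw [← pow_succ']
    congr 1
    omega
  have h6 : 2 ≤ 2 ^ (l - 1) := by
    calc 2 = 2 ^ 1 := rfl
      _ ≤ 2 ^ (l - 1) := Nat.pow_le_pow_right (by norm_num) (by omega)
  refine ⟨?_, h6.trans h3, h4.le, by omega⟩
  have h7 : ((2 : ℕ) : ℝ) ≤ ((2 ^ (l - 1) : ℕ) : ℝ) := by exact_mod_cast h6
  push_cast at h7
  linarith

lemma tab_of {G : ℕ} {g : ℕ → ℕ → ℝ} (hg : Gr G g) : Tab G (fun l i => ⌊g l i⌋₊) (fun l i => Vm (g l i)) := by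
  refine ⟨fun l i hl hi => ?_, fun l i hl hi => ?_, fun l i hl hi => ?_, fun l i hl hi => ?_, fun l i hl hi => ?_⟩
  all_goals
    obtain ⟨h1, h2⟩ := hg l i hl hi
    obtain ⟨f1, f2, f3, f4⟩ := fl hl h1 h2
  · exact f2
  · exact af_Vm (by linarith) (Nat.floor_le (by linarith)) (Nat.lt_floor_add_one _) (by omega)
  · exact f3
  · exact f4
  · exact Vm_rev (by linarith)

section

variable {B : ℝ} {ka : ℕ → ℕ → (List Bool → ℝ) → ℝ} (hB : 1 ≤ B)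
  (hk : ∀ (r l : ℕ) (V : List Bool → ℝ), 2 ≤ r → AF r V → r ≤ 2 ^ l → 2 ^ l ≤ 2 * r →
    0 < ka r l V ∧ PW.mZ (2 ^ l) ≤ B * ka r l V ∧ ka r l V ≤ B * PW.mZ (2 ^ l))
  (hJ : ∀ (G : ℕ) (ε : ℝ), 0 < ε → ∃ d : ℕ, ∀ (R : ℕ → ℕ → ℕ) (V : ℕ → ℕ → List Bool → ℝ), Tab G R V →
    ∀ k n : ℕ, TIP.Sc k n → d ≤ k →
      TOG.Pn n {t | ¬ ∀ l i : ℕ, 2 ≤ l → i < G → l + d ≤ k → ∀ x y : ℕ, x ≤ y → y ≤ t.length →
        |ka (R l i) l (V l i) * V l i (wd t x y) - ((y : ℝ) - x)| ≤ ε * n} ≤ ε)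

include hk

lemma kp_pos {R : ℝ} (hR : 2 ≤ R) : 0 < kp ka R := by
  obtain ⟨h1, h2, h3⟩ := lv_spec hR
  obtain ⟨f1, f2, f3, f4⟩ := fl h1 h2 h3
  exact (hk _ _ _ f2 (af_Vm (by linarith) (Nat.floor_le (by linarith)) (Nat.lt_floor_add_one _) (by omega)) f3 f4).1

include hB in
/-- the size of the constants -/
lemma kp_size : ∃ b : ℝ, 1 ≤ b ∧ ∀ R : ℝ, 2 ≤ R → R ^ (4 / 3 : ℝ) ≤ b * kp ka R ∧ kp ka R ≤ b * R ^ (4 / 3 : ℝ) := by
  obtain ⟨c1, h1c, hlow⟩ := VF.mLow VF.sharpZ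
  obtain ⟨C1, h1C, hup⟩ := VF.mUp VF.sharpZ
  refine ⟨B * (1 / c1 + 4 * C1) + 1, ?_, fun R hR => ?_⟩
  · have : 0 < B * (1 / c1 + 4 * C1) := by positivity
    linarith
  obtain ⟨h1, h2, h3⟩ := lv_spec hR
  obtain ⟨f1, f2, f3, f4⟩ := fl h1 h2 h3
  obtain ⟨k1, k2, k3⟩ := hk _ _ _ f2 (af_Vm (by linarith) (Nat.floor_le (by linarith)) (Nat.lt_floor_add_one _) (by omega)) f3 f4
  have k1 : 0 < kp ka R := k1
  have k2 : PW.mZ (2 ^ lv R) ≤ B * kp ka R := k2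
  have k3 : kp ka R ≤ B * PW.mZ (2 ^ lv R) := k3
  have hR0 : 0 < R := by linarith
  have e43 : (2 : ℝ) ^ (4 / 3 * (lv R : ℝ)) = ((2 : ℝ) ^ lv R) ^ (4 / 3 : ℝ) := by
    rw [← Real.rpow_natCast, ← Real.rpow_mul (by norm_num)]
    congr 1
    ring
  have u1 : R ^ (4 / 3 : ℝ) ≤ (2 : ℝ) ^ (4 / 3 * (lv R : ℝ)) := by
    rw [e43]
    exact Real.rpow_le_rpow hR0.le h3.le (by norm_num)
  have u2 : (2 : ℝ) ^ (4 / 3 * (lv R : ℝ)) ≤ 4 * R ^ (4 / 3 : ℝ) := by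
    rw [e43]
    have e5 : (2 : ℝ) ^ lv R = 2 * 2 ^ (lv R - 1) := by
      rw [← pow_succ', Nat.sub_add_cancel (by omega)]
    have h4 : (2 : ℝ) ^ lv R ≤ 2 * R := by
      rw [e5]
      linarith
    have h5 := Real.rpow_le_rpow (by positivity) h4 (show (0 : ℝ) ≤ 4 / 3 by norm_num)
    rw [Real.mul_rpow (by norm_num) hR0.le] at h5
    have h6 : (2 : ℝ) ^ (4 / 3 : ℝ) ≤ 4 := by
      calc (2 : ℝ) ^ (4 / 3 : ℝ) ≤ (2 : ℝ) ^ (2 : ℝ) := Real.rpow_le_rpow_of_exponent_le (by norm_num) (by norm_num)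
        _ = 4 := by norm_num
    have h7 : 0 ≤ R ^ (4 / 3 : ℝ) := by positivity
    have h8 := mul_le_mul_of_nonneg_right h6 h7
    linarith
  have hB0 : 0 < B := by linarith
  constructor
  · have h4 := hlow (lv R)
    have h5 : R ^ (4 / 3 : ℝ) ≤ 1 / c1 * (B * kp ka R) := by
      rw [one_div, inv_mul_eq_div, le_div_iff₀ h1c]
      have := mul_le_mul_of_nonneg_left u1 h1c.le
      linarith
    have h6 : 0 ≤ B * (4 * C1) * kp ka R := by positivity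
    linarith
  · have h4 := hup (lv R)
    have h5 : kp ka R ≤ B * (C1 * (4 * R ^ (4 / 3 : ℝ))) := by
      refine k3.trans (mul_le_mul_of_nonneg_left (h4.trans ?_) hB0.le)
      exact mul_le_mul_of_nonneg_left u2 h1C.le
    have h6 : 0 ≤ B * (1 / c1) * R ^ (4 / 3 : ℝ) := by positivity
    have h7 : 0 ≤ R ^ (4 / 3 : ℝ) := by positivity
    linarith

omit hk in
include hJ in
/-- the statement for a table of scales -/
lemma ex_gr (G : ℕ) {ε : ℝ} (hε : 0 < ε) : ∃ d : ℕ, ∀ g : ℕ → ℕ → ℝ, Gr G g → ∀ k n : ℕ, TIP.Sc k n → d ≤ k →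
    TOG.Pn n {t | ¬ ∀ l i : ℕ, 2 ≤ l → i < G → l + d ≤ k → ∀ x y : ℕ, x ≤ y → y ≤ t.length →
      |kp ka (g l i) * Vm (g l i) (wd t x y) - ((y : ℝ) - x)| ≤ ε * n} ≤ ε := by
  obtain ⟨d, hd⟩ := hJ G ε hε
  refine ⟨d, fun g hg k n hsc hk => ?_⟩
  refine (HexObs.NPR.RevX.pn_mono fun t _ ht => ?_).trans (hd _ _ (tab_of hg) k n hsc hk)
  intro hcon
  refine ht fun l i hl hi hlk x y hx hy => ?_
  have h1 := hcon l i hl hi hlk x y hx hy
  obtain ⟨h2, h3⟩ := hg l i hl hi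
  have h4 : lv (g l i) = l := lv_eq hl h2 h3
  unfold kp
  rw [h4]
  exact h1

omit hk in
/-- a length of the scale k -/
lemma sc_ex1 (k : ℕ) : ∃ n : ℕ, TIP.Sc k n := by
  refine ⟨⌈PW.mZ (2 ^ k)⌉₊, Nat.le_ceil _, ?_⟩
  have h1 := mz_one k
  have h2 : (⌈PW.mZ (2 ^ k)⌉₊ : ℝ) < PW.mZ (2 ^ k) + 1 := Nat.ceil_lt_add_one (by linarith)
  have h3 := mz_low k 1
  rw [pow_one] at h3
  linarith

omit hk in
include hJ in
/-- a good word for a table -/
lemma good_gr (G : ℕ) {ε : ℝ} (hε : 0 < ε) (hε1 : ε < 1) (g : ℕ → ℕ → ℝ) (hg : Gr G g) (l0 : ℕ) :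
    ∃ (n : ℕ) (t : List Bool), 1 ≤ n ∧ t.length = n ∧ ∀ l i : ℕ, 2 ≤ l → i < G → l ≤ l0 →
      |kp ka (g l i) * Vm (g l i) t - n| ≤ ε * n := by
  obtain ⟨d, hd⟩ := ex_gr hJ G hε
  obtain ⟨n, hn⟩ := sc_ex1 (l0 + d + 1)
  have hn1 : 1 ≤ n := (show 1 ≤ l0 + d + 1 by omega).trans (le_Sc hn)
  have h1 := hd g hg (l0 + d + 1) n hn (by omega)
  obtain ⟨S, hS⟩ : ∃ S : Set (List Bool), S = {t | ¬ ∀ l i : ℕ, 2 ≤ l → i < G → l + d ≤ l0 + d + 1 → ∀ x y : ℕ, x ≤ y →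
      y ≤ t.length → |kp ka (g l i) * Vm (g l i) (wd t x y) - ((y : ℝ) - x)| ≤ ε * n} := ⟨_, rfl⟩
  rw [← hS] at h1
  obtain ⟨t, ht, htb⟩ : ∃ t ∈ SawN n, t ∉ S := by
    by_contra hc
    push Not at hc
    have h2 : TOG.Pn n Set.univ ≤ ε := (HexObs.NPR.RevX.pn_mono fun t ht _ => hc t ht).trans h1
    have h3 : TOG.Pn n Set.univ = 1 := by
      unfold TOG.Pn
      have h5 : {t | t ∈ SawN n ∧ t ∈ (Set.univ : Set (List Bool))} = SawN n := by
        ext t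
        simp
      have h6 : (0 : ℝ) < cS n := Pool.Agent.IW.cS_pos hn1
      have h7 : (SawN n).ncard = cS n := rfl
      rw [h5, h7, div_self h6.ne']
    linarith
  rw [hS] at htb
  refine ⟨n, t, hn1, ht.1, fun l i hl hi hll => ?_⟩
  have h2 := not_not.1 htb l i hl hi (by omega) 0 n (Nat.zero_le _) (by rw [ht.1])
  have h3 : wd t 0 n = t := by
    unfold wd
    rw [List.drop_zero, List.take_of_length_le (by rw [ht.1])]
  rwa [h3, Nat.cast_zero, sub_zero] at h2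

omit hk in
/-- numbers -/
lemma near_num {κ κ' κh n X X' Z R R' ε : ℝ} (hκ : 0 < κ) (hκ' : 0 < κ') (hκh : 0 < κh) (hn : 0 < n) (hR : 0 < R)
    (hR' : R ≤ R') (h1 : |κ * X - n| ≤ ε * n) (h2 : |κ' * X' - n| ≤ ε * n) (h3 : κh * Z ≤ (1 + ε) * n)
    (h4 : |R' * X' - R * X| ≤ 2 * (R' - R) * Z) :
    |κ * R' - κ' * R| ≤ 2 * (R' - R) * (κ * κ' / κh) * (1 + ε) + ε * (κ * R' + κ' * R) := by
  have h5 : Z ≤ (1 + ε) * n / κh := by
    rw [le_div_iff₀ hκh]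
    linarith
  have e1 : (κ * R' - κ' * R) * n = κ * κ' * (R' * X' - R * X) - κ * R' * (κ' * X' - n) + κ' * R * (κ * X - n) := by ring
  have h6 : |(κ * R' - κ' * R) * n| ≤ κ * κ' * (2 * (R' - R) * ((1 + ε) * n / κh)) + κ * R' * (ε * n) + κ' * R * (ε * n) := by
    rw [e1]
    refine (abs_add_le _ _).trans (add_le_add ((abs_sub _ _).trans (add_le_add ?_ ?_)) ?_)
    · rw [abs_mul, abs_of_pos (by positivity)]
      refine mul_le_mul_of_nonneg_left (h4.trans ?_) (by positivity)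
      exact mul_le_mul_of_nonneg_left h5 (by linarith)
    · rw [abs_mul, abs_of_pos (mul_pos hκ (by linarith))]
      exact mul_le_mul_of_nonneg_left h2 (mul_nonneg hκ.le (by linarith))
    · rw [abs_mul, abs_of_pos (by positivity)]
      exact mul_le_mul_of_nonneg_left h1 (by positivity)
  rw [abs_mul, abs_of_pos hn] at h6
  have e2 : κ * κ' * (2 * (R' - R) * ((1 + ε) * n / κh)) + κ * R' * (ε * n) + κ' * R * (ε * n) =
      (2 * (R' - R) * (κ * κ' / κh) * (1 + ε) + ε * (κ * R' + κ' * R)) * n := by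
    field_simp
    ring
  rw [e2] at h6
  exact le_of_mul_le_mul_right h6 hn

include hJ in
/-- **the constants at two scales** -/
theorem kap_near {R R' : ℝ} (hR : 4 ≤ R) (h1 : R ≤ R') (h2 : R' ≤ 2 * R) :
    |kp ka R * R' - kp ka R' * R| ≤ 2 * (R' - R) * (kp ka R * kp ka R' / kp ka (R / 2)) := by
  have hκ := kp_pos hk (R := R) (by linarith)
  have hκ' := kp_pos hk (R := R') (by linarith)
  have hκh := kp_pos hk (R := R / 2) (by linarith)
  obtain ⟨κ, eκ⟩ : ∃ κ, κ = kp ka R := ⟨_, rfl⟩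
  obtain ⟨κ', eκ'⟩ : ∃ κ', κ' = kp ka R' := ⟨_, rfl⟩
  obtain ⟨κh, eκh⟩ : ∃ κh, κh = kp ka (R / 2) := ⟨_, rfl⟩
  rw [← eκ] at hκ ⊢
  rw [← eκ'] at hκ' ⊢
  rw [← eκh] at hκh ⊢
  refine le_of_forall_pos_le_add fun δ hδ => ?_
  obtain ⟨A, hA⟩ : ∃ A, A = 2 * (R' - R) * (κ * κ' / κh) := ⟨_, rfl⟩
  have hA0 : 0 ≤ A := by
    rw [hA]
    exact mul_nonneg (by linarith) (by positivity)
  obtain ⟨Q, hQ⟩ : ∃ Q, Q = A + (κ * R' + κ' * R) + 1 := ⟨_, rfl⟩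
  have hQ0 : 0 < Q := by
    have : 0 < κ * R' := mul_pos hκ (by linarith)
    have : 0 < κ' * R := mul_pos hκ' (by linarith)
    rw [hQ]
    linarith
  obtain ⟨ε, hε⟩ : ∃ ε, ε = min (1 / 2) (δ / Q) := ⟨_, rfl⟩
  have hε0 : 0 < ε := by
    rw [hε]
    exact lt_min (by norm_num) (by positivity)
  have hε1 : ε < 1 := by
    have := min_le_left (1 / 2 : ℝ) (δ / Q)
    rw [hε]
    linarith
  have hεQ : ε * Q ≤ δ := by
    have := min_le_right (1 / 2 : ℝ) (δ / Q)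
    rw [← hε, le_div_iff₀ hQ0] at this
    exact this
  -- the table
  obtain ⟨g, hg⟩ : ∃ g : ℕ → ℕ → ℝ, g = fun l i => if l = lv (if i = 0 then R else if i = 1 then R' else R / 2) then
    (if i = 0 then R else if i = 1 then R' else R / 2) else 2 ^ (l - 1) := ⟨_, rfl⟩
  have hgr : Gr 3 g := by
    intro l i hl hi
    rw [hg]
    simp only
    have h3 : ∀ S : ℝ, 2 ≤ S → (2 : ℝ) ^ (l - 1) ≤ (if l = lv S then S else 2 ^ (l - 1)) ∧
        (if l = lv S then S else 2 ^ (l - 1)) < (2 : ℝ) ^ l := by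
      intro S hS
      obtain ⟨s1, s2, s3⟩ := lv_spec hS
      split_ifs with hl'
      · rw [hl']
        exact ⟨s2, s3⟩
      · exact ⟨le_rfl, pow_lt_pow_right₀ (by norm_num) (by omega)⟩
    refine h3 _ ?_
    split_ifs <;> linarith
  obtain ⟨n, t, hn, ht, hgd⟩ := good_gr hJ 3 hε0 hε1 g hgr (lv R + lv R' + lv (R / 2))
  have hn0 : (0 : ℝ) < n := by exact_mod_cast hn
  have a1 := hgd (lv R) 0 (lv_spec (by linarith)).1 (by norm_num) (by omega)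
  have a2 := hgd (lv R') 1 (lv_spec (by linarith)).1 (by norm_num) (by omega)
  have a3 := hgd (lv (R / 2)) 2 (lv_spec (by linarith)).1 (by norm_num) (by omega)
  rw [hg] at a1 a2 a3
  simp only [if_true, one_ne_zero, if_false, OfNat.ofNat_ne_zero, OfNat.ofNat_ne_one] at a1 a2 a3
  rw [← eκ] at a1
  rw [← eκ'] at a2
  rw [← eκh] at a3
  have h5 := near_num hκ hκ' hκh hn0 (by linarith) h1 a1 a2 (by have := (abs_le.1 a3).2; linarith)
    (Vm_near (by linarith) h1 h2 t)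
  rw [← hA] at h5 ⊢
  have h6 : A * (1 + ε) + ε * (κ * R' + κ' * R) ≤ A + ε * Q := by
    rw [hQ]
    linarith
  linarith

end

end KapV

end Pool.Agent.NPR
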