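import Pool.Agent.ERG.DensIZ
import Pool.Agent.ERG.DenJ
import Pool.Agent.NPR.RevN
import Pool.Agent.NPR.ExN

/-!
# ERG (no drift): the clock constant of a scale, words (helper10)

* **`denJ : DenJ`** : `DenI` with the exceptional mass C (3 / 4) ^ (K - l) and with the size of the constant.
-/

set_option autoImplicit false

namespace HexObs

namespace NPR

open Finset TS SDN TIW NTA TIP

open scoped ENNReal

namespace D4

/-- **general form, exponential mass** -/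
theorem mainJ {a0 b0 : ℝ} (ha0 : 0 < a0) (hab0 : a0 ≤ b0) (d0 : ℕ) (hS : StageQ) (hL : LowM) (hF : FK4) (hSh : ShortM) :
    ∃ (c C : ℝ) (j0 : ℕ), 0 < c ∧ 0 < C ∧ ∀ (l0 : ℕ) (m : ℝ) (V : List Bool → ℝ), Add1 V → 0 < m → m ≤ PW.mZ (2 ^ l0) →
      Ini V m a0 b0 l0 d0 → ∃ ρ : ℝ, a0 ≤ ρ ∧ ρ ≤ b0 ∧ ∀ K, l0 + j0 ≤ K →
        gf {t | t ∈ WL K ∧ t.length ≤ ML (K + 2) ∧ ¬ ∀ x y : ℕ, x ≤ y → y ≤ t.length →
          |m * V (wd t x y) - ρ * ((y : ℝ) - x)| ≤ C * ((K : ℝ) - l0 + 1) ^ (-c) * PW.mZ (2 ^ K)} ≤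
          ENNReal.ofReal (C * (3 / 4) ^ (K - l0)) * FK K := by
  have hb0 : 0 < b0 := by linarith
  obtain ⟨r, c, p0, hr0, hr1, hc, hp03, hrp, hrh, hcl⟩ := classI hS ha0.le hab0 hb0 d0
  obtain ⟨p1, hp13, hcmp⟩ := compare hL hF
  obtain ⟨Cz, hCz, hup⟩ := exists_mz_up
  obtain ⟨Cs, hCs, hSh⟩ := hSh
  obtain ⟨p2, hp2⟩ : ∃ p2, p2 = p0 + p1 := ⟨_, rfl⟩
  have h1r : 0 < 1 - r := by linarith
  refine ⟨c, 32 * Cz * (2 / (1 - r) + 1) + (4 * b0 + 4) + (32 + 4 * Cs), 2 ^ p2, hc, by positivity,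
    fun l0 m V hV hm hml hI => ?_⟩
  -- the ranges
  have hex : ∀ p : ℕ, ∃ a b : ℝ, a0 ≤ a ∧ a ≤ b ∧ b ≤ b0 ∧ b - a ≤ r ^ (p + p2) ∧
      ∀ K n, K - l0 + 1 ≤ 2 ^ (p + p2) → l0 + 2 ^ (p + p2 - 3) ≤ K → n ≤ ML (K + 2) →
        HR V m a b (l0 + 2 ^ (p + p2 - 3)) (2 ^ (p + p2) * (1 / 2) ^ (K - (l0 + 2 ^ (p + p2 - 3)))) K n :=
    fun p => hcl (p + p2) (by omega) l0 m V hV hm hml hI
  choose a b ha hab hbb hba hHR using hex
  have hmeet : ∀ p, a p ≤ b (p + 1) ∧ a (p + 1) ≤ b p := by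
    intro p
    refine hcmp (p + p2) (by omega) l0 m V (a p) (b p) (a (p + 1)) (b (p + 1)) (hHR p) ?_
    have := hHR (p + 1)
    rwa [show p + 1 + p2 = p + p2 + 1 by ring] at this
  have hgeo : ∀ p, dist (a p) (a (p + 1)) ≤ (2 * r ^ p2) * r ^ p := by
    intro p
    have h1 := hba p
    have h2 := hba (p + 1)
    have h3 : r ^ (p + 1 + p2) ≤ r ^ (p + p2) := pow_le_pow_of_le_one hr0.le hr1.le (by omega)
    have h4 : (2 * r ^ p2) * r ^ p = 2 * r ^ (p + p2) := by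
      rw [pow_add]
      ring
    rw [h4, Real.dist_eq, abs_le]
    obtain ⟨h5, h6⟩ := hmeet p
    have := pow_pos hr0 (p + p2)
    constructor <;> linarith
  obtain ⟨ρ, hρ⟩ := cauchySeq_tendsto_of_complete (cauchySeq_of_le_geometric r _ hr1 hgeo)
  have hρa : ∀ p, |a p - ρ| ≤ 2 * r ^ (p + p2) / (1 - r) := by
    intro p
    have h := dist_le_of_le_geometric_of_tendsto r _ hr1 hgeo hρ p
    rw [Real.dist_eq] at h
    refine h.trans (le_of_eq ?_)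
    rw [pow_add]
    ring
  have hρ0 : a0 ≤ ρ := ge_of_tendsto' hρ ha
  have hρ1 : ρ ≤ b0 := le_of_tendsto' hρ fun p => (hab p).trans (hbb p)
  refine ⟨ρ, hρ0, hρ1, fun K hK => ?_⟩
  -- the class of K
  obtain ⟨j, hj⟩ : ∃ j, j = K - l0 := ⟨_, rfl⟩
  obtain ⟨p, hp⟩ : ∃ p, p = Nat.clog 2 (j + 1) := ⟨_, rfl⟩
  have hpl : j + 1 ≤ 2 ^ p := by
    rw [hp]
    exact Nat.le_pow_clog (by norm_num) _
  have hppos : p2 < p := by
    by_contra h
    have h1 : 2 ^ p ≤ 2 ^ p2 := Nat.pow_le_pow_right (by norm_num) (by omega)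
    omega
  have hpg : 2 ^ (p - 1) < j + 1 := by
    have h1 : 1 < j + 1 := by
      have : 1 ≤ 2 ^ p2 := Nat.one_le_two_pow
      omega
    have := Nat.pow_pred_clog_lt_self (b := 2) (by norm_num) h1
    rw [← hp] at this
    exact this
  obtain ⟨i, hi⟩ : ∃ i, i + p2 = p := ⟨p - p2, by omega⟩
  obtain ⟨q, hq⟩ : ∃ q, q = 2 ^ (p - 3) := ⟨_, rfl⟩
  have e2 : 2 ^ p = 8 * q := by
    rw [hq]
    conv_lhs => rw [show p = (p - 3) + 3 by omega, pow_add]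
    ring
  have e2' : (2 : ℝ) ^ p = 8 * q := by exact_mod_cast e2
  have e4 : 2 ^ (p - 1) = 4 * q := by
    rw [hq]
    conv_lhs => rw [show p - 1 = (p - 3) + 2 by omega, pow_add]
    ring
  have hq1 : 1 ≤ q := by
    rw [hq]
    exact Nat.one_le_two_pow
  have hH := hHR i K (ML (K + 2)) (by rw [hi, ← hj]; exact hpl) (by rw [hi, ← hq]; omega) le_rfl
  rw [hi, ← hq, e2'] at hH
  have hρi := hρa i
  have hbai := hba i
  rw [hi] at hρi hbai
  -- numbers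
  have hKz := mz_pos K
  have hη : (2 * r ^ p / (1 - r) + r ^ p) * (ML (K + 2) : ℝ) ≤
      (32 * Cz * (2 / (1 - r) + 1) * r ^ p) * PW.mZ (2 ^ K) := by
    have k1 := ML_le2 (K + 2)
    have k2 := hup K 2
    have k3 : (ML (K + 2) : ℝ) ≤ 32 * Cz * PW.mZ (2 ^ K) := by linarith
    have k4 : 0 ≤ 2 * r ^ p / (1 - r) + r ^ p := by positivity
    refine (mul_le_mul_of_nonneg_left k3 k4).trans (le_of_eq ?_)
    field_simp
  have hpq : p ≤ 3 * q := by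
    have := Q6.p_le p (by omega)
    rwa [← hq] at this
  have hpow : (1 / 2 : ℝ) ^ (K - (l0 + q)) ≤ r ^ p := by
    refine le_trans ?_ (hrh p)
    exact pow_le_pow_of_le_one (by norm_num) (by norm_num) (by omega)
  have hsm : (2 * b0 + 2) * (ML (l0 + q) : ℝ) ≤ ((4 * b0 + 4) * r ^ p) * PW.mZ (2 ^ K) := by
    have k1 := ML_le2 (l0 + q)
    have k2 := mz_low (l0 + q) (K - (l0 + q))
    rw [Nat.add_sub_cancel' (by omega)] at k2
    have k3 : PW.mZ (2 ^ (l0 + q)) ≤ (1 / 2) ^ (K - (l0 + q)) * PW.mZ (2 ^ K) := by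
      have k4 := mul_le_mul_of_nonneg_left k2 (show (0 : ℝ) ≤ (1 / 2) ^ (K - (l0 + q)) by positivity)
      rw [← mul_assoc, ← mul_pow] at k4
      norm_num at k4 ⊢
      exact k4
    have k5 := mul_le_mul_of_nonneg_right hpow hKz.le
    have k6 : (ML (l0 + q) : ℝ) ≤ 2 * (r ^ p * PW.mZ (2 ^ K)) := by linarith
    have k7 := mul_le_mul_of_nonneg_left k6 (show 0 ≤ 2 * b0 + 2 by linarith)
    linarith
  have hrpow : r ^ p ≤ ((K : ℝ) - l0 + 1) ^ (-c) := by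
    have hj1 : (K : ℝ) - l0 + 1 = ((j + 1 : ℕ) : ℝ) := by
      rw [hj]
      push_cast [Nat.cast_sub (show l0 ≤ K by omega)]
      ring
    have hj2 : ((j + 1 : ℕ) : ℝ) ≤ 2 ^ p := by exact_mod_cast hpl
    have hj3 : (0 : ℝ) < ((j + 1 : ℕ) : ℝ) := by positivity
    rw [hj1, hrp]
    calc (2 : ℝ) ^ (-(c * p)) = ((2 : ℝ) ^ p) ^ (-c) := by
          rw [← Real.rpow_natCast, ← Real.rpow_mul (by norm_num)]
          congr 1
          ring
      _ ≤ _ := Real.rpow_le_rpow_of_nonpos hj3 hj2 (by linarith)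
  obtain ⟨BB, hBB⟩ : ∃ BB, BB = (32 * Cz * (2 / (1 - r) + 1) + (4 * b0 + 4) + (32 + 4 * Cs)) *
    ((K : ℝ) - l0 + 1) ^ (-c) := ⟨_, rfl⟩
  have hB1 : (32 * Cz * (2 / (1 - r) + 1)) * r ^ p + (4 * b0 + 4) * r ^ p + (32 + 4 * Cs) * r ^ p ≤ BB := by
    rw [hBB, ← add_mul, ← add_mul]
    exact mul_le_mul_of_nonneg_left hrpow (by positivity)
  rw [← hBB]
  have hrp0 : 0 < r ^ p := by positivity
  have hA1 : 0 ≤ (32 * Cz * (2 / (1 - r) + 1)) * r ^ p := by positivity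
  have hA2 : 0 ≤ (4 * b0 + 4) * r ^ p := by positivity
  have hA3 : 0 ≤ (32 + 4 * Cs) * r ^ p := by positivity
  have key : {t | t ∈ WL K ∧ t.length ≤ ML (K + 2) ∧ ¬ ∀ x y : ℕ, x ≤ y → y ≤ t.length →
      |m * V (wd t x y) - ρ * ((y : ℝ) - x)| ≤ BB * PW.mZ (2 ^ K)} ⊆
      {t | t ∈ WL K ∧ t.length ≤ ML (K + 2) ∧ ¬ Rng V m (a i) (b i) (ML (l0 + q)) t} ∪
        {t | t ∈ SA ∧ t.length ≤ ML (l0 + q)} := by
    rintro t ⟨t1, t2, t3⟩
    by_cases t5 : ML (l0 + q) ≤ t.length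
    · left
      refine ⟨t1, t2, fun t4 => t3 fun x y hx hy => ?_⟩
      refine word (N := ML (K + 2)) (η := 2 * r ^ p / (1 - r) + r ^ p) hV hm (ha0.le.trans (ha i))
        (hml.trans ((mz_mono (by omega)).trans (ML_ge _))) t4 t5 (ha0.le.trans hρ0) hρ1 (hbb i) (add_le_add hρi hbai) (hab i)
        (by exact_mod_cast t2) ?_ ?_ hx hy
      · exact hη.trans (mul_le_mul_of_nonneg_right (by linarith) hKz.le)
      · exact hsm.trans (mul_le_mul_of_nonneg_right (by linarith) hKz.le)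
    · right
      exact ⟨t1.1, by omega⟩
  refine (gf_mono key).trans ((gf_union_le _ _).trans ?_)
  have hshort := hSh (l0 + q) (K - (l0 + q))
  rw [Nat.add_sub_cancel' (by omega)] at hshort
  refine (add_le_add hH hshort).trans ?_
  rw [← add_mul, ← ENNReal.ofReal_add (by positivity) (by positivity)]
  refine mul_le_mul' (ENNReal.ofReal_le_ofReal ?_) le_rfl
  -- the mass
  obtain ⟨s, hs⟩ : ∃ s, j = 4 * q + s := ⟨j - 4 * q, by omega⟩
  have k0 : K - (l0 + q) = 3 * q + s := by omega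
  rw [k0, ← hj, hs]
  have k1 : (q : ℝ) * (1 / 2) ^ (3 * q) ≤ (3 / 4) ^ (4 * q) := by
    have h6 : (q : ℝ) ≤ 2 ^ q := by exact_mod_cast (Nat.lt_two_pow_self (n := q)).le
    have h7 := mul_le_mul_of_nonneg_right h6 (show (0 : ℝ) ≤ (1 / 2) ^ (3 * q) by positivity)
    refine h7.trans ?_
    rw [pow_mul, pow_mul, ← mul_pow]
    exact pow_le_pow_left₀ (by norm_num) (by norm_num) q
  have k2 : (1 / 2 : ℝ) ^ (3 * q) ≤ (3 / 4) ^ (4 * q) := by
    rw [pow_mul, pow_mul]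
    exact pow_le_pow_left₀ (by norm_num) (by norm_num) q
  have k3 : (1 / 2 : ℝ) ^ s ≤ (3 / 4) ^ s := pow_le_pow_left₀ (by norm_num) (by norm_num) s
  have k4 : (q : ℝ) * (1 / 2) ^ (3 * q + s) ≤ (3 / 4) ^ (4 * q + s) := by
    rw [pow_add, pow_add, ← mul_assoc]
    exact mul_le_mul k1 k3 (by positivity) (by positivity)
  have k5 : (1 / 2 : ℝ) ^ (3 * q + s) ≤ (3 / 4) ^ (4 * q + s) := by
    rw [pow_add, pow_add]
    exact mul_le_mul k2 k3 (by positivity) (by positivity)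
  have k6 := mul_le_mul_of_nonneg_left k4 (show (0 : ℝ) ≤ 8 by norm_num)
  have k7 := mul_le_mul_of_nonneg_left k5 hCs.le
  have k8 : (8 + Cs) * (3 / 4 : ℝ) ^ (4 * q + s) ≤
      (32 * Cz * (2 / (1 - r) + 1) + (4 * b0 + 4) + (32 + 4 * Cs)) * (3 / 4) ^ (4 * q + s) := by
    refine mul_le_mul_of_nonneg_right ?_ (by positivity)
    have : 0 ≤ 32 * Cz * (2 / (1 - r) + 1) := by positivity
    linarith
  linarith

end D4

open D4 in
/-- **D4, words** -/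
theorem denJ_of (hI : InitR) (hS : StageQ) (hL : LowM) (hF : FK4) (hSh : ShortM) : DenJ := by
  obtain ⟨a0, b0, d0, ha0, hab0, hI⟩ := hI
  obtain ⟨c, C, j0, hc, hC, h⟩ := D4.mainJ ha0 hab0 d0 hS hL hF hSh
  refine ⟨c, C / a0 + C, 1 / a0 + b0 + 1, j0, hc, by positivity, ?_, fun r l V hr hV hl1 hl2 => ?_⟩
  · have : 0 < 1 / a0 := by positivity
    linarith
  have hm0 := mz_pos l
  have hIni : Ini V (PW.mZ (2 ^ l)) a0 b0 l d0 := by
    intro K n p hp hK hn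
    have hlog : Nat.log 2 (K - l + 1) ≤ p := by
      calc Nat.log 2 (K - l + 1) ≤ Nat.log 2 (2 ^ p) := Nat.log_mono_right hp
        _ = p := Nat.log_pow (by norm_num) p
    have hnl : nl d0 K l ≤ l + d0 + p := by
      unfold nl
      omega
    exact Q5.HR.mono (hI r l V hr hV hl1 hl2 K n (hnl.trans hK) hn) hnl le_rfl
  obtain ⟨ρ, hρ0, hρ1, h⟩ := h l (PW.mZ (2 ^ l)) V hV.toAdd1 hm0 le_rfl hIni
  have hρ : 0 < ρ := ha0.trans_le hρ0
  refine ⟨PW.mZ (2 ^ l) / ρ, by positivity, ?_, ?_, fun K hK => ?_⟩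
  · have h1 : PW.mZ (2 ^ l) = ρ * (PW.mZ (2 ^ l) / ρ) := by field_simp
    have h2 : 0 < 1 / a0 := by positivity
    have h3 : 0 < PW.mZ (2 ^ l) / ρ := by positivity
    calc PW.mZ (2 ^ l) = ρ * (PW.mZ (2 ^ l) / ρ) := h1
      _ ≤ (1 / a0 + b0 + 1) * (PW.mZ (2 ^ l) / ρ) := mul_le_mul_of_nonneg_right (by linarith) h3.le
  · have h2 : 1 / ρ ≤ 1 / a0 := one_div_le_one_div_of_le ha0 hρ0
    have h3 : 1 / ρ ≤ 1 / a0 + b0 + 1 := by linarith
    have h4 := mul_le_mul_of_nonneg_right h3 hm0.le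
    calc PW.mZ (2 ^ l) / ρ = 1 / ρ * PW.mZ (2 ^ l) := by ring
      _ ≤ _ := h4
  have hx : (0 : ℝ) ≤ ((K : ℝ) - l + 1) ^ (-c) := by
    refine Real.rpow_nonneg ?_ _
    have : (l : ℝ) ≤ K := by exact_mod_cast (by omega : l ≤ K)
    linarith
  have hKz := mz_pos K
  refine (gf_mono ?_).trans ((h K hK).trans (mul_le_mul' (ENNReal.ofReal_le_ofReal ?_) le_rfl))
  · rintro t ⟨t1, t2, t3⟩
    refine ⟨t1, t2, fun t4 => t3 fun x y hxy hy => ?_⟩
    have k1 := t4 x y hxy hy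
    have e : PW.mZ (2 ^ l) / ρ * V (wd t x y) - ((y : ℝ) - x) =
        (PW.mZ (2 ^ l) * V (wd t x y) - ρ * ((y : ℝ) - x)) / ρ := by
      field_simp
    rw [e, abs_div, abs_of_pos hρ, div_le_iff₀ hρ]
    refine k1.trans ?_
    have k2 : C * ((K : ℝ) - l + 1) ^ (-c) * PW.mZ (2 ^ K) =
        (C / a0 * ((K : ℝ) - l + 1) ^ (-c) * PW.mZ (2 ^ K)) * a0 := by
      field_simp
    rw [k2]
    have k3 : 0 ≤ C / a0 * ((K : ℝ) - l + 1) ^ (-c) * PW.mZ (2 ^ K) := by positivity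
    have k4 : 0 ≤ C * ((K : ℝ) - l + 1) ^ (-c) * PW.mZ (2 ^ K) := by positivity
    have k5 := mul_le_mul_of_nonneg_left hρ0 k3
    have k6 := mul_nonneg k4 hρ.le
    linarith
  · have : 0 ≤ C / a0 * (3 / 4) ^ (K - l) := by positivity
    linarith

/-- **the clock constant of a scale** -/
theorem denJ : DenJ := denJ_of initR_all stageQ low_mass fk4 shortM

end NPR

end HexObs
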